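import Mathlib

set_option autoImplicit false
set_option linter.unusedSectionVars false

namespace Pool.Agent.H89

open Polynomial NumberField

/-- a bound for the values of a monic polynomial from its values at `1, ..., d` -/
theorem lagrange_bound {P : ℂ[X]} (hP : P.Monic) {d : ℕ} (hd : P.natDegree = d) {M : ℝ}
    (hM0 : 0 ≤ M) (hM : ∀ i ∈ Finset.range d, ‖P.eval ((i : ℂ) + 1)‖ ≤ M) {n j : ℕ} (hj : j ≤ n) :
    ‖P.eval (-(j : ℂ))‖ ≤ ((n : ℝ) + d) ^ d + d * (M * ((n : ℝ) + d) ^ d) := by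
  classical
  rcases Nat.eq_zero_or_pos d with hd0 | hd0
  · subst hd0
    have h1 : P = 1 := (Polynomial.Monic.natDegree_eq_zero hP).1 hd
    rw [h1]; simp
  set v : ℕ → ℂ := fun i => (i : ℂ) + 1 with hv
  set s : Finset ℕ := Finset.range d with hs
  have hinj : Set.InjOn v s := by
    intro a _ b _ h
    have : (a : ℂ) = b := by simpa [hv] using h
    exact_mod_cast this
  set N : ℂ[X] := ∏ i ∈ s, (X - C (v i)) with hN
  have hNm : N.Monic := monic_prod_of_monic _ _ (fun i _ => monic_X_sub_C _)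
  have hNd : N.natDegree = d := by
    rw [hN, natDegree_prod_of_monic _ _ (fun i _ => monic_X_sub_C _)]
    simp [hs]
  set R := P - N with hR
  have hRd : R.degree < (s.card : WithBot ℕ) := by
    have h1 : P.degree = N.degree := by
      rw [degree_eq_natDegree hP.ne_zero, degree_eq_natDegree hNm.ne_zero, hd, hNd]
    have h2 := degree_sub_lt_left h1 hP.ne_zero (by rw [hP.leadingCoeff, hNm.leadingCoeff])
    rw [degree_eq_natDegree hP.ne_zero, hd] at h2
    rw [hs, Finset.card_range]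
    exact h2
  have hRe : ∀ i ∈ s, R.eval (v i) = P.eval (v i) := by
    intro i hi
    rw [hR, eval_sub, hN, eval_prod, Finset.prod_eq_zero hi (by simp), sub_zero]
  have h1 := Lagrange.eq_interpolate hinj hRd
  have hxk : ∀ k ∈ s, ‖-(j : ℂ) - v k‖ ≤ (n : ℝ) + d := by
    intro k hk
    have hk' : k < d := Finset.mem_range.1 hk
    have h2 : -(j : ℂ) - v k = -((j + k + 1 : ℕ) : ℂ) := by simp [hv]; ring
    rw [h2, norm_neg, Complex.norm_natCast]
    have : j + k + 1 ≤ n + d := by omega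
    exact_mod_cast this
  have hpos : (1 : ℝ) ≤ (n : ℝ) + d := by
    have : 1 ≤ n + d := by omega
    exact_mod_cast this
  have hbasis : ∀ i ∈ s, ‖(Lagrange.basis s v i).eval (-(j : ℂ))‖ ≤ ((n : ℝ) + d) ^ d := by
    intro i hi
    rw [Lagrange.basis, eval_prod, norm_prod]
    calc ∏ k ∈ s.erase i, ‖eval (-(j : ℂ)) (Lagrange.basisDivisor (v i) (v k))‖
        ≤ ∏ k ∈ s.erase i, ((n : ℝ) + d) := by
          apply Finset.prod_le_prod (fun _ _ => norm_nonneg _)
          intro k hk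
          have hk' := Finset.mem_erase.1 hk
          rw [Lagrange.basisDivisor, eval_mul, eval_C, eval_sub, eval_X, eval_C, norm_mul, norm_inv]
          have h3 : 1 ≤ ‖v i - v k‖ := by
            have h4 : v i - v k = (((i : ℤ) - (k : ℤ) : ℤ) : ℂ) := by simp [hv]
            rw [h4, Complex.norm_intCast]
            have h5 : (i : ℤ) - k ≠ 0 := by
              have := hk'.1
              omega
            exact_mod_cast Int.one_le_abs h5
          calc ‖v i - v k‖⁻¹ * ‖-(j : ℂ) - v k‖ ≤ 1 * ((n : ℝ) + d) := by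
                apply mul_le_mul (inv_le_one_of_one_le₀ h3) (hxk k hk'.2) (norm_nonneg _) zero_le_one
            _ = _ := one_mul _
      _ = ((n : ℝ) + d) ^ (s.erase i).card := by rw [Finset.prod_const]
      _ ≤ ((n : ℝ) + d) ^ d := by
          apply pow_le_pow_right₀ hpos
          rw [Finset.card_erase_of_mem hi, hs, Finset.card_range]
          omega
  have h2 : R.eval (-(j : ℂ)) = ∑ i ∈ s, P.eval (v i) * (Lagrange.basis s v i).eval (-(j : ℂ)) := by
    rw [h1, Lagrange.interpolate_apply, eval_finsetSum]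
    apply Finset.sum_congr rfl
    intro i hi
    rw [eval_mul, eval_C, hRe i hi]
  have h3 : P.eval (-(j : ℂ)) = N.eval (-(j : ℂ)) + R.eval (-(j : ℂ)) := by
    rw [hR, eval_sub]; ring
  rw [h3]
  refine (norm_add_le _ _).trans (add_le_add ?_ ?_)
  · rw [hN, eval_prod, norm_prod]
    calc ∏ k ∈ s, ‖eval (-(j : ℂ)) (X - C (v k))‖ ≤ ∏ k ∈ s, ((n : ℝ) + d) := by
          apply Finset.prod_le_prod (fun _ _ => norm_nonneg _)
          intro k hk
          rw [eval_sub, eval_X, eval_C]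
          exact hxk k hk
      _ = ((n : ℝ) + d) ^ d := by rw [Finset.prod_const, hs, Finset.card_range]
  · rw [h2]
    refine (norm_sum_le _ _).trans ?_
    calc ∑ i ∈ s, ‖P.eval (v i) * (Lagrange.basis s v i).eval (-(j : ℂ))‖
        ≤ ∑ i ∈ s, M * ((n : ℝ) + d) ^ d := by
          apply Finset.sum_le_sum
          intro i hi
          rw [norm_mul]
          exact mul_le_mul (hM i hi) (hbasis i hi) (norm_nonneg _) hM0
      _ = d * (M * ((n : ℝ) + d) ^ d) := by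
          rw [Finset.sum_const, hs, Finset.card_range, nsmul_eq_mul]

section field

variable {F : Type*} [Field F] [NumberField F]

/-- absolute value of the norm -/
noncomputable def Nm (x : 𝓞 F) : ℕ := (Algebra.norm ℤ x).natAbs

theorem Nm_mul (x y : 𝓞 F) : Nm (x * y) = Nm x * Nm y := by
  unfold Nm; rw [map_mul, Int.natAbs_mul]

theorem Nm_ne_zero {x : 𝓞 F} (hx : x ≠ 0) : Nm x ≠ 0 := by
  unfold Nm
  rw [Int.natAbs_ne_zero]
  exact Algebra.norm_ne_zero_iff.2 hx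

theorem Nm_natCast (k : ℕ) : Nm (k : 𝓞 F) = k ^ (Module.finrank ℚ F) := by
  unfold Nm
  have h1 : ((Algebra.norm ℤ ((k : ℕ) : 𝓞 F) : ℤ) : ℚ) = ((k ^ (Module.finrank ℚ F) : ℕ) : ℚ) := by
    rw [Algebra.coe_norm_int]
    have h2 : ((k : 𝓞 F) : F) = algebraMap ℚ F (k : ℚ) := by simp
    rw [h2, Algebra.norm_algebraMap]
    push_cast; rfl
  have h2 : Algebra.norm ℤ ((k : ℕ) : 𝓞 F) = ((k ^ (Module.finrank ℚ F) : ℕ) : ℤ) := by
    exact_mod_cast h1
  rw [h2, Int.natAbs_natCast]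

theorem dvd_Nm (x : 𝓞 F) : x ∣ (Nm x : 𝓞 F) := by
  have h1 := Ideal.absNorm_mem (Ideal.span {x})
  rw [Ideal.absNorm_span_singleton, Ideal.mem_span_singleton] at h1
  exact h1

theorem Nm_le_of_dvd {x y : 𝓞 F} (h : x ∣ y) (hy : y ≠ 0) : Nm x ≤ Nm y := by
  obtain ⟨z, rfl⟩ := h
  rw [Nm_mul]
  apply Nat.le_mul_of_pos_right
  exact Nat.pos_of_ne_zero (Nm_ne_zero (right_ne_zero_of_mul hy))

theorem norm_prod_embeddings (x : 𝓞 F) :
    ((Algebra.norm ℤ x : ℤ) : ℂ) = ∏ σ : F →ₐ[ℚ] ℂ, σ (x : F) := by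
  rw [← Algebra.norm_eq_prod_embeddings ℚ ℂ (x : F), ← Algebra.coe_norm_int]
  simp

theorem Nm_eq_norm (x : 𝓞 F) : (Nm x : ℝ) = ‖∏ σ : F →ₐ[ℚ] ℂ, σ (x : F)‖ := by
  rw [← norm_prod_embeddings, Complex.norm_intCast]
  unfold Nm
  rw [Nat.cast_natAbs]
  simp

theorem card_emb : Fintype.card (F →ₐ[ℚ] ℂ) = Module.finrank ℚ F := AlgHom.card ℚ F ℂ

/-- norm polynomial -/
noncomputable def nP (t : 𝓞 F) : ℂ[X] := ∏ σ : F →ₐ[ℚ] ℂ, (X + C (σ (t : F)))

theorem nP_monic (t : 𝓞 F) : (nP t).Monic := monic_prod_of_monic _ _ (fun _ _ => monic_X_add_C _)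

theorem nP_natDegree (t : 𝓞 F) : (nP t).natDegree = Module.finrank ℚ F := by
  rw [nP, natDegree_prod_of_monic _ _ (fun _ _ => monic_X_add_C _)]
  simp

theorem nP_eval (t : 𝓞 F) (k : ℤ) : ‖(nP t).eval (k : ℂ)‖ = Nm (t + (k : 𝓞 F)) := by
  rw [Nm_eq_norm, nP, eval_prod]
  congr 1
  apply Finset.prod_congr rfl
  intro σ _
  simp [add_comm]

/-- parameters of the coding -/
def cY (d n : ℕ) : ℕ := (n + d).factorial

/-- bound -/
def cB (d n : ℕ) : ℕ := (n + d) ^ d + d * ((cY d n) ^ d * (n + d) ^ d)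

/-- large factorial -/
def cF (d n : ℕ) : ℕ := (cB d n).factorial

/-- product -/
def cH (d i n : ℕ) : ℕ := ∏ j ∈ Finset.range (n + 1), (1 + j * i * cF d n)

theorem cH_pos (d i n : ℕ) : 0 < cH d i n := Finset.prod_pos (fun _ _ => by positivity)

theorem bound_Nm {t : 𝓞 F} {n : ℕ}
    (h : ∀ i : ℕ, 1 ≤ i → i ≤ Module.finrank ℚ F →
      t + (i : 𝓞 F) ∣ (cY (Module.finrank ℚ F) n : 𝓞 F)) {j : ℕ} (hj : j ≤ n) :
    Nm (t - (j : 𝓞 F)) ≤ cB (Module.finrank ℚ F) n := by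
  set d := Module.finrank ℚ F with hd
  have hY : 0 < cY d n := Nat.factorial_pos _
  have h1 : ‖(nP t).eval (-(j : ℂ))‖ ≤ ((n : ℝ) + d) ^ d + d * (((cY d n : ℝ) ^ d) *
      ((n : ℝ) + d) ^ d) := by
    apply lagrange_bound (nP_monic t) (nP_natDegree t) (by positivity) _ hj
    intro i hi
    have hi' : i < d := Finset.mem_range.1 hi
    have h2 := nP_eval t ((i : ℤ) + 1)
    have h3 : (((i : ℤ) + 1 : ℤ) : ℂ) = (i : ℂ) + 1 := by push_cast; rfl
    rw [h3] at h2
    rw [h2]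
    have h4 := Nm_le_of_dvd (h (i + 1) (by omega) (by omega)) (by exact_mod_cast hY.ne')
    rw [Nm_natCast] at h4
    push_cast at h4 ⊢
    exact_mod_cast h4
  have h2 := nP_eval t (-(j : ℤ))
  have h3 : ((-(j : ℤ) : ℤ) : ℂ) = -(j : ℂ) := by push_cast; rfl
  rw [h3] at h2
  rw [h2] at h1
  have h4 : t + ((-(j : ℤ) : ℤ) : 𝓞 F) = t - (j : 𝓞 F) := by push_cast; ring
  rw [h4] at h1
  unfold cB
  exact_mod_cast h1

/-- the coding lemma -/
theorem coding {t : 𝓞 F} {n : ℕ}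
    (h : ∀ i : ℕ, 1 ≤ i → i ≤ Module.finrank ℚ F →
      t + (i : 𝓞 F) ∣ (cY (Module.finrank ℚ F) n : 𝓞 F))
    (h' : ∀ i : ℕ, 1 ≤ i → i ≤ 2 * Module.finrank ℚ F + 1 →
      1 + t * (cF (Module.finrank ℚ F) n : 𝓞 F) * (i : 𝓞 F) ∣ (cH (Module.finrank ℚ F) i n : 𝓞 F)) :
    ∃ j ≤ n, t = (j : 𝓞 F) := by
  by_contra hcon
  push Not at hcon
  set d := Module.finrank ℚ F with hd
  set f := cF d n with hf
  have hf0 : 0 < f := Nat.factorial_pos _
  -- `t - j` divides `f`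
  have hdvd : ∀ j ≤ n, t - (j : 𝓞 F) ∣ (f : 𝓞 F) := by
    intro j hj
    have h1 := bound_Nm h hj
    have h2 : Nm (t - (j : 𝓞 F)) ≠ 0 := Nm_ne_zero (sub_ne_zero.2 (hcon j hj))
    have h3 : Nm (t - (j : 𝓞 F)) ∣ f := Nat.dvd_factorial (Nat.pos_of_ne_zero h2) h1
    exact (dvd_Nm _).trans (Nat.cast_dvd_cast h3)
  -- coprimality
  have hcop : ∀ i j : ℕ, j ≤ n → IsCoprime (1 + t * (f : 𝓞 F) * (i : 𝓞 F))
      (1 + (j : 𝓞 F) * (i : 𝓞 F) * (f : 𝓞 F)) := by
    intro i j hj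
    obtain ⟨g, hg⟩ := hdvd j hj
    refine ⟨g * (j : 𝓞 F) ^ 2 * i, 1 - (j : 𝓞 F) * g * (t - j) * i - g * (j : 𝓞 F) ^ 2 * i, ?_⟩
    rw [hg]
    ring
  have hunit : ∀ i : ℕ, 1 ≤ i → i ≤ 2 * d + 1 → IsUnit (1 + t * (f : 𝓞 F) * (i : 𝓞 F)) := by
    intro i hi1 hi2
    have h1 := h' i hi1 hi2
    have h2 : IsCoprime (1 + t * (f : 𝓞 F) * (i : 𝓞 F)) (cH d i n : 𝓞 F) := by
      have h3 : (cH d i n : 𝓞 F) = ∏ j ∈ Finset.range (n + 1),
          (1 + (j : 𝓞 F) * (i : 𝓞 F) * (f : 𝓞 F)) := by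
        unfold cH; push_cast; rfl
      rw [h3]
      apply IsCoprime.prod_right
      intro j hj
      exact hcop i j (by have := Finset.mem_range.1 hj; omega)
    exact h2.isUnit_of_dvd' dvd_rfl h1
  -- the polynomial
  let Q : ℂ[X] := ∏ σ : F →ₐ[ℚ] ℂ, (1 + C (σ (t : F) * f) * X)
  have hQdeg : Q.natDegree ≤ d := by
    refine (natDegree_prod_le _ _).trans ?_
    calc ∑ σ : F →ₐ[ℚ] ℂ, (1 + C (σ (t : F) * f) * X : ℂ[X]).natDegree
        ≤ ∑ σ : F →ₐ[ℚ] ℂ, 1 := by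
          apply Finset.sum_le_sum
          intro σ _
          refine (natDegree_add_le _ _).trans ?_
          rw [natDegree_one]
          refine max_le (by norm_num) ?_
          have h1 := natDegree_C_mul_X_pow_le (σ (t : F) * (f : ℂ)) 1
          rwa [pow_one] at h1
      _ = d := by simp [hd]
  have hQ1 : ∀ i : ℕ, 1 ≤ i → i ≤ 2 * d + 1 → (Q ^ 2 - 1).eval (i : ℂ) = 0 := by
    intro i hi1 hi2
    have h1 := hunit i hi1 hi2
    have h2 : Q.eval (i : ℂ) = ((Algebra.norm ℤ (1 + t * (f : 𝓞 F) * (i : 𝓞 F)) : ℤ) : ℂ) := by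
      rw [norm_prod_embeddings]
      simp only [Q]
      rw [eval_prod]
      apply Finset.prod_congr rfl
      intro σ _
      simp
    have h3 : IsUnit (Algebra.norm ℤ (1 + t * (f : 𝓞 F) * (i : 𝓞 F))) := h1.map _
    rw [eval_sub, eval_pow, h2, eval_one]
    rcases Int.isUnit_iff.1 h3 with h4 | h4 <;> rw [h4] <;> norm_num
  have hQ2 : Q ^ 2 - 1 = 0 := by
    by_contra hne
    have h1 : (Finset.image (fun i : ℕ => (i : ℂ)) (Finset.Icc 1 (2 * d + 1))).card ≤
        (Q ^ 2 - 1).natDegree := by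
      apply Polynomial.card_le_degree_of_subset_roots
      intro x hx
      rw [Finset.mem_val, Finset.mem_image] at hx
      obtain ⟨i, hi, rfl⟩ := hx
      rw [Finset.mem_Icc] at hi
      rw [mem_roots hne, IsRoot]
      exact hQ1 i hi.1 hi.2
    rw [Finset.card_image_of_injective _ Nat.cast_injective, Nat.card_Icc] at h1
    have h2 : (Q ^ 2 - 1).natDegree ≤ 2 * d := by
      refine (natDegree_sub_le _ _).trans ?_
      rw [natDegree_one]
      refine max_le ?_ (by omega)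
      rw [natDegree_pow]
      omega
    omega
  have hQu : IsUnit Q := by
    apply IsUnit.of_mul_eq_one Q
    have : Q * Q = Q ^ 2 - 1 + 1 := by ring
    rw [this, hQ2, zero_add]
  -- all factors are units
  obtain ⟨σ⟩ : Nonempty (F →ₐ[ℚ] ℂ) := by
    rw [← Fintype.card_pos_iff, card_emb]
    exact Module.finrank_pos
  have hfac : IsUnit (1 + C (σ (t : F) * f) * X : ℂ[X]) :=
    isUnit_of_dvd_unit (Finset.dvd_prod_of_mem
      (fun σ : F →ₐ[ℚ] ℂ => (1 + C (σ (t : F) * f) * X : ℂ[X])) (Finset.mem_univ σ)) hQu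
  have h0 : σ (t : F) * f = 0 := by
    by_contra hne
    have h1 := Polynomial.natDegree_eq_zero_of_isUnit hfac
    have h2 : (1 + C (σ (t : F) * f) * X : ℂ[X]).natDegree = 1 := by
      rw [add_comm, ← C_1]
      exact natDegree_linear hne
    omega
  have h1 : (t : F) = 0 := by
    have h2 : σ (t : F) = 0 := by
      rcases mul_eq_zero.1 h0 with h | h
      · exact h
      · exfalso
        have : f = 0 := by exact_mod_cast h
        omega
    exact (map_eq_zero σ).1 h2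
  apply hcon 0 (Nat.zero_le _)
  apply RingOfIntegers.ext
  rw [h1]; simp

/-- converse -/
theorem coding_conv {n j : ℕ} (hj : j ≤ n) :
    (∀ i : ℕ, 1 ≤ i → i ≤ Module.finrank ℚ F →
      (j : 𝓞 F) + (i : 𝓞 F) ∣ (cY (Module.finrank ℚ F) n : 𝓞 F)) ∧
    (∀ i : ℕ, 1 + (j : 𝓞 F) * (cF (Module.finrank ℚ F) n : 𝓞 F) * (i : 𝓞 F) ∣
      (cH (Module.finrank ℚ F) i n : 𝓞 F)) := by
  constructor
  · intro i hi1 hi2
    have h1 : j + i ∣ cY (Module.finrank ℚ F) n := Nat.dvd_factorial (by omega) (by omega)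
    have h2 := Nat.cast_dvd_cast (α := 𝓞 F) h1
    rw [Nat.cast_add] at h2
    exact h2
  · intro i
    have h1 := Finset.dvd_prod_of_mem (fun j => 1 + j * i * cF (Module.finrank ℚ F) n)
      (Finset.mem_range.2 (Nat.lt_succ_of_le hj))
    have h2 : (1 + j * cF (Module.finrank ℚ F) n * i) ∣ cH (Module.finrank ℚ F) i n := by
      have : 1 + j * cF (Module.finrank ℚ F) n * i = 1 + j * i * cF (Module.finrank ℚ F) n := by ring
      rw [this]; exact h1
    have h3 := Nat.cast_dvd_cast (α := 𝓞 F) h2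
    push_cast at h3
    exact h3

end field

end Pool.Agent.H89
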