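import Mathlib

set_option autoImplicit false
set_option linter.unusedSectionVars false

namespace Pool.Agent.H89

open NumberField

section den

variable {F : Type*} [Field F] [NumberField F]

/-- integrality over `ℤ` -/
def isO (x : F) : Prop := IsIntegral ℤ x

theorem isO_add {x y : F} (hx : isO x) (hy : isO y) : isO (x + y) := IsIntegral.add hx hy
theorem isO_mul {x y : F} (hx : isO x) (hy : isO y) : isO (x * y) := IsIntegral.mul hx hy
theorem isO_neg {x : F} (hx : isO x) : isO (-x) := IsIntegral.neg hx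
theorem isO_sub {x y : F} (hx : isO x) (hy : isO y) : isO (x - y) := IsIntegral.sub hx hy
theorem isO_one : isO (1 : F) := isIntegral_one
theorem isO_zero : isO (0 : F) := isIntegral_zero
theorem isO_int (k : ℤ) : isO (k : F) := by
  have h := isIntegral_algebraMap (R := ℤ) (A := F) (x := k)
  rw [algebraMap_int_eq, eq_intCast] at h
  exact h
theorem isO_nat (k : ℕ) : isO (k : F) := by
  have h := isO_int (F := F) (k : ℤ)
  rwa [Int.cast_natCast] at h
theorem isO_coe (x : 𝓞 F) : isO (x : F) := x.isIntegral_coe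

theorem isO_sum {ι : Type*} (s : Finset ι) (f : ι → F) (h : ∀ i ∈ s, isO (f i)) :
    isO (∑ i ∈ s, f i) := IsIntegral.sum f h

theorem isO_pow {x : F} (hx : isO x) (k : ℕ) : isO (x ^ k) := IsIntegral.pow hx k

/-- denominator ideal -/
def den (z : F) : Ideal (𝓞 F) where
  carrier := {s | isO ((s : F) * z)}
  add_mem' := by
    intro a b ha hb
    change isO (((a + b : 𝓞 F) : F) * z)
    have : ((a + b : 𝓞 F) : F) * z = (a : F) * z + (b : F) * z := by push_cast; ring
    rw [this]; exact isO_add ha hb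
  zero_mem' := by
    change isO (((0 : 𝓞 F) : F) * z)
    simp only [map_zero, zero_mul]; exact isO_zero
  smul_mem' := by
    intro c x hx
    change isO (((c • x : 𝓞 F) : F) * z)
    have : ((c • x : 𝓞 F) : F) * z = (c : F) * ((x : F) * z) := by
      rw [smul_eq_mul]; push_cast; ring
    rw [this]; exact isO_mul (isO_coe c) hx

theorem mem_den {z : F} {s : 𝓞 F} : s ∈ den z ↔ isO ((s : F) * z) := Iff.rfl

/-- the Pruefer property of the ring of integers -/
theorem pruefer {x : F} (hx : x ≠ 0) : ∃ s s' : F, isO s ∧ isO s' ∧ s + s' = 1 ∧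
    isO (s * x) ∧ isO (s' * x⁻¹) := by
  obtain ⟨a, b, hb, hab⟩ := IsFractionRing.div_surjective (A := 𝓞 F) x
  have hb0 : b ≠ 0 := nonZeroDivisors.ne_zero hb
  have hbF : (b : F) ≠ 0 := by simpa using hb0
  have haF : (a : F) ≠ 0 := by
    intro h
    apply hx
    rw [← hab]
    change (a : F) / (b : F) = 0
    rw [h, zero_div]
  have hxab : x = (a : F) / (b : F) := hab.symm
  have hle : Ideal.span {b} ≤ Ideal.span {a, b} := by
    rw [Ideal.span_le]
    intro y hy
    rw [Set.mem_singleton_iff] at hy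
    subst hy
    exact Ideal.subset_span (by simp)
  obtain ⟨J, hJ⟩ := Ideal.dvd_iff_le.2 hle
  have hmem : ∀ j ∈ J, ∀ c ∈ Ideal.span {a, b}, b ∣ c * j := by
    intro j hj c hc
    rw [← Ideal.mem_span_singleton, hJ]
    exact Ideal.mul_mem_mul hc hj
  have hb1 : b ∈ Ideal.span {a, b} * J := by
    rw [← hJ]; exact Ideal.mem_span_singleton_self b
  have hspan : Ideal.span {a, b} = Ideal.span {a} ⊔ Ideal.span {b} := by
    rw [← Ideal.span_union]; rfl
  rw [hspan, Ideal.sup_mul] at hb1
  obtain ⟨u, hu, w, hw, huw⟩ := Submodule.mem_sup.1 hb1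
  obtain ⟨j, hj, rfl⟩ := Ideal.mem_span_singleton_mul.1 hu
  obtain ⟨j', hj', rfl⟩ := Ideal.mem_span_singleton_mul.1 hw
  have haI : a ∈ Ideal.span {a, b} := Ideal.subset_span (by simp)
  obtain ⟨c, hc⟩ := hmem j hj a haI
  obtain ⟨c', hc'⟩ := hmem j' hj' a haI
  have e1 : (a : F) * j + b * j' = b := by exact_mod_cast congrArg (fun t : 𝓞 F => (t : F)) huw
  have e2 : (a : F) * j = b * c := by exact_mod_cast congrArg (fun t : 𝓞 F => (t : F)) hc
  have e3 : (a : F) * j' = b * c' := by exact_mod_cast congrArg (fun t : 𝓞 F => (t : F)) hc'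
  refine ⟨(j' : F), (c : F), isO_coe _, isO_coe _, ?_, ?_, ?_⟩
  · apply mul_left_cancel₀ hbF
    linear_combination e1 - e2
  · have : (j' : F) * x = c' := by
      rw [hxab]; field_simp; linear_combination e3
    rw [this]; exact isO_coe _
  · have : (c : F) * x⁻¹ = j := by
      rw [hxab]; field_simp; linear_combination -e2
    rw [this]; exact isO_coe _

/-- the local ring attached to `z` -/
def Vz (z x : F) : Prop := ∃ s : F, isO s ∧ ¬ isO (s * z) ∧ isO (s * x)

/-- certificate that the denominator ideal of `z` is maximal -/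
structure Cert {d : ℕ} (ω : Fin d → F) (z : F) (L : List F) : Prop where
  notO : ¬ isO z
  mem : ∀ r ∈ L, isO r
  zero : ∃ r ∈ L, isO (r * z)
  addw : ∀ r ∈ L, ∀ i, ∃ r' ∈ L, isO ((r + ω i - r') * z)
  subw : ∀ r ∈ L, ∀ i, ∃ r' ∈ L, isO ((r - ω i - r') * z)
  inv : ∀ r ∈ L, isO (r * z) ∨ ∃ u, isO u ∧ isO ((1 - u * r) * z)

theorem exists_den (y : F) : ∃ k : ℕ, 0 < k ∧ isO ((k : F) * y) := by
  obtain ⟨a, b, hb, hab⟩ := IsFractionRing.div_surjective (A := 𝓞 F) y
  have hb0 : b ≠ 0 := nonZeroDivisors.ne_zero hb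
  have hbF : (b : F) ≠ 0 := by simpa using hb0
  have h1 := Ideal.absNorm_mem (Ideal.span {b})
  rw [Ideal.mem_span_singleton] at h1
  obtain ⟨c, hc⟩ := h1
  refine ⟨Ideal.absNorm (Ideal.span {b}), ?_, ?_⟩
  · apply Nat.pos_of_ne_zero
    rw [Ne, Ideal.absNorm_eq_zero_iff, Ideal.span_singleton_eq_bot]
    exact hb0
  · have hc' : ((Ideal.absNorm (Ideal.span {b}) : ℕ) : F) = b * c := by
      exact_mod_cast congrArg (fun t : 𝓞 F => (t : F)) hc
    have : ((Ideal.absNorm (Ideal.span {b}) : ℕ) : F) * y = (c * a : 𝓞 F) := by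
      rw [hc', ← hab]
      change (b : F) * c * ((a : F) / (b : F)) = _
      push_cast
      field_simp
    rw [this]; exact isO_coe _

/-- maximal denominator ideals exist -/
theorem exists_max {y : F} (hy : ¬ isO y) :
    ∃ t : 𝓞 F, ¬ isO ((t : F) * y) ∧ (den ((t : F) * y)).IsMaximal := by
  let S : Set (Ideal (𝓞 F)) := {I | ∃ t : 𝓞 F, ¬ isO ((t : F) * y) ∧ I = den ((t : F) * y)}
  have hS : S.Nonempty := ⟨_, 1, by simpa using hy, rfl⟩
  obtain ⟨M, ⟨t, ht, rfl⟩, hM⟩ := set_has_maximal_iff_noetherian.2 (inferInstance : IsNoetherian (𝓞 F) (𝓞 F)) S hS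
  refine ⟨t, ht, ?_⟩
  have hprime : (den ((t : F) * y)).IsPrime := by
    refine ⟨?_, ?_⟩
    · rw [Ne, Ideal.eq_top_iff_one, mem_den]
      simpa using ht
    · intro s s' hss
      by_contra hcon
      push Not at hcon
      obtain ⟨h1, h2⟩ := hcon
      rw [mem_den] at h1
      have h3 : ¬ isO (((s * t : 𝓞 F) : F) * y) := by
        have : ((s * t : 𝓞 F) : F) * y = (s : F) * ((t : F) * y) := by push_cast; ring
        rwa [this]
      have h4 : den ((t : F) * y) ≤ den (((s * t : 𝓞 F) : F) * y) := by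
        intro r hr
        rw [mem_den] at hr ⊢
        have : (r : F) * (((s * t : 𝓞 F) : F) * y) = (s : F) * ((r : F) * ((t : F) * y)) := by
          push_cast; ring
        rw [this]; exact isO_mul (isO_coe s) hr
      have h5 : s' ∈ den (((s * t : 𝓞 F) : F) * y) := by
        rw [mem_den] at hss ⊢
        have : (s' : F) * (((s * t : 𝓞 F) : F) * y) = ((s * s' : 𝓞 F) : F) * ((t : F) * y) := by
          push_cast; ring
        rw [this]; exact hss
      apply hM _ ⟨s * t, h3, rfl⟩
      exact lt_of_le_of_ne h4 (fun h => h2 (h ▸ h5))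
  apply hprime.isMaximal
  intro hbot
  obtain ⟨k, hk, hky⟩ := exists_den ((t : F) * y)
  have h1 : (k : 𝓞 F) ∈ den ((t : F) * y) := by
    rw [mem_den]; simpa using hky
  rw [hbot, Ideal.mem_bot] at h1
  have : k = 0 := by exact_mod_cast h1
  omega

theorem exists_cert {d : ℕ} (ω : Fin d → F) (hω : ∀ i, isO (ω i)) {y : F} (hy : ¬ isO y) :
    ∃ t : F, isO t ∧ ∃ L : List F, Cert ω (t * y) L := by
  classical
  obtain ⟨t, ht, hmax⟩ := exists_max hy
  set z := (t : F) * y with hz
  have hbot : den z ≠ ⊥ := by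
    intro hbot
    obtain ⟨k, hk, hky⟩ := exists_den z
    have h1 : (k : 𝓞 F) ∈ den z := by
      rw [mem_den]; simpa using hky
    rw [hbot, Ideal.mem_bot] at h1
    have : k = 0 := by exact_mod_cast h1
    omega
  have : Finite (𝓞 F ⧸ den z) := Ideal.finiteQuotientOfFreeOfNeBot (den z) hbot
  have : Fintype (𝓞 F ⧸ den z) := Fintype.ofFinite _
  let L : List F := (Finset.univ : Finset (𝓞 F ⧸ den z)).toList.map
    (fun q => ((Quotient.out q : 𝓞 F) : F))
  have hL : ∀ s : 𝓞 F, ∃ r ∈ L, isO (((s : F) - r) * z) := by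
    intro s
    refine ⟨((Quotient.out (Ideal.Quotient.mk (den z) s) : 𝓞 F) : F), ?_, ?_⟩
    · simp only [L, List.mem_map, Finset.mem_toList, Finset.mem_univ, true_and]
      exact ⟨_, rfl⟩
    · have h1 : s - Quotient.out (Ideal.Quotient.mk (den z) s) ∈ den z := by
        rw [← Ideal.Quotient.eq]
        exact (Quotient.out_eq _).symm
      rw [mem_den] at h1
      push_cast at h1
      exact h1
  have hLmem : ∀ r ∈ L, isO r := by
    intro r hr
    simp only [L, List.mem_map, Finset.mem_toList, Finset.mem_univ, true_and] at hr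
    obtain ⟨q, rfl⟩ := hr
    exact isO_coe _
  have hLex : ∀ s : F, isO s → ∃ r ∈ L, isO ((s - r) * z) := fun s hs => hL ⟨s, hs⟩
  refine ⟨t, isO_coe t, L, ht, hLmem, ?_, ?_, ?_, ?_⟩
  · obtain ⟨r, hr, h⟩ := hLex 0 isO_zero
    refine ⟨r, hr, ?_⟩
    have : r * z = -((0 - r) * z) := by ring
    rw [this]; exact isO_neg h
  · intro r hr i
    exact hLex _ (isO_add (hLmem r hr) (hω i))
  · intro r hr i
    exact hLex _ (isO_sub (hLmem r hr) (hω i))
  · intro r hr
    by_cases h : isO (r * z)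
    · exact Or.inl h
    · right
      let r' : 𝓞 F := ⟨r, hLmem r hr⟩
      have h1 : r' ∉ den z := h
      obtain ⟨u, hu⟩ := hmax.exists_inv h1
      obtain ⟨w, hw, huw⟩ := hu
      refine ⟨(u : F), isO_coe u, ?_⟩
      have h2 : (1 : F) - u * r = (w : F) := by
        have h3 : (u : F) * (r' : F) + w = 1 := by
          exact_mod_cast congrArg (fun t : 𝓞 F => (t : F)) huw
        have h4 : (r' : F) = r := rfl
        rw [h4] at h3
        linear_combination -h3
      rw [h2]; exact hw

end den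

end Pool.Agent.H89
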