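import Mathlib
import Pool.Agent.H89.Den

set_option autoImplicit false
set_option linter.unusedSectionVars false

namespace Pool.Agent.H89

open NumberField

section den2

variable {F : Type*} [Field F] [NumberField F] {d : ℕ} {ω : Fin d → F} {z : F} {L : List F}

theorem Cert.cover (hω : ∀ x : F, isO x → ∃ a : Fin d → ℤ, x = ∑ i, (a i : F) * ω i)
    (h : Cert ω z L) {s : F} (hs : isO s) : ∃ r ∈ L, isO ((s - r) * z) := by
  let T : F → Prop := fun s => ∃ r ∈ L, isO ((s - r) * z)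
  let G : AddSubgroup F :=
    { carrier := {v | (∀ s, T s → T (s + v)) ∧ (∀ s, T s → T (s - v))}
      zero_mem' := ⟨fun s hs => by rwa [add_zero], fun s hs => by rwa [sub_zero]⟩
      add_mem' := by
        rintro a b ⟨ha, ha'⟩ ⟨hb, hb'⟩
        refine ⟨fun s hs => ?_, fun s hs => ?_⟩
        · rw [← add_assoc]; exact hb _ (ha _ hs)
        · have : s - (a + b) = s - a - b := by ring
          rw [this]; exact hb' _ (ha' _ hs)
      neg_mem' := by
        rintro a ⟨ha, ha'⟩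
        refine ⟨fun s hs => ?_, fun s hs => ?_⟩
        · rw [← sub_eq_add_neg]; exact ha' _ hs
        · rw [sub_neg_eq_add]; exact ha _ hs }
  have hG : ∀ i, ω i ∈ G := by
    intro i
    refine ⟨fun s hs => ?_, fun s hs => ?_⟩
    · obtain ⟨r, hr, h1⟩ := hs
      obtain ⟨r', hr', h2⟩ := h.addw r hr i
      refine ⟨r', hr', ?_⟩
      have : (s + ω i - r') * z = (s - r) * z + (r + ω i - r') * z := by ring
      rw [this]; exact isO_add h1 h2
    · obtain ⟨r, hr, h1⟩ := hs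
      obtain ⟨r', hr', h2⟩ := h.subw r hr i
      refine ⟨r', hr', ?_⟩
      have : (s - ω i - r') * z = (s - r) * z + (r - ω i - r') * z := by ring
      rw [this]; exact isO_add h1 h2
  obtain ⟨a, ha⟩ := hω s hs
  have hsG : s ∈ G := by
    rw [ha]
    apply sum_mem
    intro i _
    rw [← zsmul_eq_mul]
    exact zsmul_mem (hG i) _
  have h0 : T 0 := by
    obtain ⟨r, hr, h1⟩ := h.zero
    refine ⟨r, hr, ?_⟩
    have : (0 - r) * z = -(r * z) := by ring
    rw [this]; exact isO_neg h1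
  have := hsG.1 0 h0
  rwa [zero_add] at this

theorem Cert.exists_inv (hω : ∀ x : F, isO x → ∃ a : Fin d → ℤ, x = ∑ i, (a i : F) * ω i)
    (h : Cert ω z L) {s : F} (hs : isO s) (hsz : ¬ isO (s * z)) :
    ∃ u, isO u ∧ isO ((1 - u * s) * z) := by
  obtain ⟨r, hr, h1⟩ := h.cover hω hs
  rcases h.inv r hr with h2 | ⟨u, hu, h2⟩
  · exfalso
    apply hsz
    have : s * z = (s - r) * z + r * z := by ring
    rw [this]; exact isO_add h1 h2
  · refine ⟨u, hu, ?_⟩
    have : (1 - u * s) * z = (1 - u * r) * z - u * ((s - r) * z) := by ring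
    rw [this]; exact isO_sub h2 (isO_mul hu h1)

theorem Cert.prime (hω : ∀ x : F, isO x → ∃ a : Fin d → ℤ, x = ∑ i, (a i : F) * ω i)
    (h : Cert ω z L) {s s' : F} (hs : isO s) (hs' : isO s') (hsz : ¬ isO (s * z))
    (hsz' : ¬ isO (s' * z)) : ¬ isO (s * s' * z) := by
  intro hss
  apply hsz'
  obtain ⟨u, hu, h1⟩ := h.exists_inv hω hs hsz
  have : s' * z = s' * ((1 - u * s) * z) + u * (s * s' * z) := by ring
  rw [this]
  exact isO_add (isO_mul hs' h1) (isO_mul hu hss)

variable (hω : ∀ x : F, isO x → ∃ a : Fin d → ℤ, x = ∑ i, (a i : F) * ω i) (h : Cert ω z L)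
include hω h

theorem Vz_of_isO {x : F} (hx : isO x) : Vz z x :=
  ⟨1, isO_one, by rw [one_mul]; exact h.notO, by rw [one_mul]; exact hx⟩

theorem Vz_add {x y : F} (hx : Vz z x) (hy : Vz z y) : Vz z (x + y) := by
  obtain ⟨s, hs, hsz, hsx⟩ := hx
  obtain ⟨s', hs', hsz', hsx'⟩ := hy
  refine ⟨s * s', isO_mul hs hs', h.prime hω hs hs' hsz hsz', ?_⟩
  have : s * s' * (x + y) = s' * (s * x) + s * (s' * y) := by ring
  rw [this]
  exact isO_add (isO_mul hs' hsx) (isO_mul hs hsx')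

theorem Vz_mul {x y : F} (hx : Vz z x) (hy : Vz z y) : Vz z (x * y) := by
  obtain ⟨s, hs, hsz, hsx⟩ := hx
  obtain ⟨s', hs', hsz', hsx'⟩ := hy
  refine ⟨s * s', isO_mul hs hs', h.prime hω hs hs' hsz hsz', ?_⟩
  have : s * s' * (x * y) = (s * x) * (s' * y) := by ring
  rw [this]
  exact isO_mul hsx hsx'

theorem Vz_neg {x : F} (hx : Vz z x) : Vz z (-x) := by
  have : -x = (-1) * x := by ring
  rw [this]
  exact Vz_mul hω h (Vz_of_isO hω h (isO_neg isO_one)) hx

theorem Vz_sub {x y : F} (hx : Vz z x) (hy : Vz z y) : Vz z (x - y) := by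
  rw [sub_eq_add_neg]; exact Vz_add hω h hx (Vz_neg hω h hy)

theorem Vz_total {x : F} (hx : x ≠ 0) : Vz z x ∨ Vz z x⁻¹ := by
  obtain ⟨s, s', hs, hs', hss, h1, h2⟩ := pruefer hx
  by_cases hsz : isO (s * z)
  · right
    refine ⟨s', hs', ?_, h2⟩
    intro hsz'
    apply h.notO
    have : z = s * z + s' * z := by linear_combination -z * hss
    rw [this]; exact isO_add hsz hsz'
  · exact Or.inl ⟨s, hs, hsz, h1⟩

theorem not_Vz_self : ¬ Vz z z := fun ⟨_, _, h1, h2⟩ => h1 h2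

theorem not_Vz_of_mul {t y : F} (ht : isO t) (hz : z = t * y) : ¬ Vz z y := by
  rintro ⟨s, hs, h1, h2⟩
  apply h1
  rw [hz]
  have : s * (t * y) = t * (s * y) := by ring
  rw [this]; exact isO_mul ht h2

theorem Vz_unif {x : F} (hx : Vz z x) (hx' : x ≠ 0 → ¬ Vz z x⁻¹) : Vz z (x * z) := by
  obtain ⟨s, hs, h1, h2⟩ := hx
  by_cases h3 : isO (s * x * z)
  · exact ⟨s, hs, h1, by rw [← mul_assoc]; exact h3⟩
  · exfalso
    have hx0 : x ≠ 0 := by
      rintro rfl
      apply h3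
      simp only [mul_zero, zero_mul]; exact isO_zero
    apply hx' hx0
    refine ⟨s * x, h2, h3, ?_⟩
    have : s * x * x⁻¹ = s := by field_simp
    rw [this]; exact hs

/-- reduction to representatives -/
theorem Vz_rep {x : F} (hx : Vz z x) : ∃ r ∈ L, Vz z ((x - r) * z) := by
  obtain ⟨s, hs, h1, h2⟩ := hx
  obtain ⟨u, hu, h3⟩ := h.exists_inv hω hs h1
  obtain ⟨r, hr, h4⟩ := h.cover hω (isO_mul hu h2)
  refine ⟨r, hr, ?_⟩
  have h5 : Vz z ((x - u * (s * x)) * z) := by
    refine ⟨s, hs, h1, ?_⟩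
    have : s * ((x - u * (s * x)) * z) = (s * x) * ((1 - u * s) * z) := by ring
    rw [this]; exact isO_mul h2 h3
  have : (x - r) * z = (x - u * (s * x)) * z + (u * (s * x) - r) * z := by ring
  rw [this]
  exact Vz_add hω h h5 (Vz_of_isO hω h h4)

omit hω h in
/-- bundling -/
def toO (x : F) (hx : isO x) : 𝓞 F := ⟨x, hx⟩

omit hω h in
theorem toO_coe (x : F) (hx : isO x) : ((toO x hx : 𝓞 F) : F) = x := rfl

theorem den_max : (den z).IsMaximal := by
  rw [Ideal.isMaximal_iff]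
  refine ⟨?_, ?_⟩
  · rw [mem_den]
    have : ((1 : 𝓞 F) : F) * z = z := by simp
    rw [this]; exact h.notO
  · intro J t hJ ht htJ
    rw [mem_den] at ht
    obtain ⟨u, hu, h3⟩ := h.exists_inv hω (isO_coe t) ht
    have h4 : 1 - toO u hu * t ∈ den z := by
      rw [mem_den]
      push_cast
      exact h3
    have : (1 : 𝓞 F) = (1 - toO u hu * t) + toO u hu * t := by ring
    rw [this]
    exact J.add_mem (hJ h4) (J.mul_mem_left _ htJ)

theorem den_fin : Finite (𝓞 F ⧸ den z) := by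
  let f : {r // r ∈ L} → 𝓞 F ⧸ den z :=
    fun r => Ideal.Quotient.mk (den z) (toO r.1 (h.mem r.1 r.2))
  have hf : Function.Surjective f := by
    intro q
    obtain ⟨t, rfl⟩ := Ideal.Quotient.mk_surjective q
    obtain ⟨r, hr, h3⟩ := h.cover hω (isO_coe t)
    refine ⟨⟨r, hr⟩, ?_⟩
    simp only [f]
    rw [eq_comm, Ideal.Quotient.eq, mem_den]
    push_cast
    exact h3
  have : Finite {r // r ∈ L} := List.finite_toSet L
  exact Finite.of_surjective f hf

/-- membership of integral multiples of `z` -/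
theorem isO_of_Vz_mul {s : F} (hs : isO s) (hsz : Vz z (s * z)) : isO (s * z) := by
  by_contra h0
  obtain ⟨u, hu, h1, h2⟩ := hsz
  apply h.prime hω hu hs h1 h0
  rw [mul_assoc]; exact h2

theorem exists_square_prod {x y : F} (hx : Vz z x) (hy : Vz z y)
    (hx' : ∀ w, Vz z w → ¬ Vz z ((x - w ^ 2) * z)) (hy' : ∀ w, Vz z w → ¬ Vz z ((y - w ^ 2) * z)) :
    ∃ w, Vz z w ∧ Vz z ((x * y - w ^ 2) * z) := by
  classical
  obtain ⟨r, hr, h1⟩ := Vz_rep hω h hx
  obtain ⟨s, hs, h2⟩ := Vz_rep hω h hy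
  have hrO := h.mem r hr
  have hsO := h.mem s hs
  have hmax := den_max hω h
  have hfin := den_fin hω h
  let := Ideal.Quotient.field (den z)
  have := Fintype.ofFinite (𝓞 F ⧸ den z)
  let r' : 𝓞 F := toO r hrO
  let s' : 𝓞 F := toO s hsO
  have hnsq : ∀ (x r : F) (r' : 𝓞 F), (r' : F) = r → Vz z ((x - r) * z) →
      (∀ w, Vz z w → ¬ Vz z ((x - w ^ 2) * z)) → ¬ IsSquare (Ideal.Quotient.mk (den z) r') := by
    rintro x r r' rfl h1 hx' ⟨q, hq⟩
    obtain ⟨w, rfl⟩ := Ideal.Quotient.mk_surjective q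
    rw [← map_mul, Ideal.Quotient.eq, mem_den] at hq
    apply hx' w (Vz_of_isO hω h (isO_coe w))
    have : (x - (w : F) ^ 2) * z = (x - r') * z + ((r' : F) - w * w) * z := by ring
    rw [this]
    apply Vz_add hω h h1
    apply Vz_of_isO hω h
    push_cast at hq
    exact hq
  have h3 := hnsq x r r' rfl h1 hx'
  have h4 := hnsq y s s' rfl h2 hy'
  have h5 : IsSquare (Ideal.Quotient.mk (den z) r' * Ideal.Quotient.mk (den z) s') := by
    by_cases hch : ringChar (𝓞 F ⧸ den z) = 2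
    · exact absurd (FiniteField.isSquare_of_char_two hch _) h3
    · have h6 := (quadraticChar_neg_one_iff_not_isSquare).2 h3
      have h7 := (quadraticChar_neg_one_iff_not_isSquare).2 h4
      have hne : Ideal.Quotient.mk (den z) r' * Ideal.Quotient.mk (den z) s' ≠ 0 := by
        apply mul_ne_zero
        · intro h0; rw [h0] at h3; exact h3 ⟨0, by simp⟩
        · intro h0; rw [h0] at h4; exact h4 ⟨0, by simp⟩
      rw [← quadraticChar_one_iff_isSquare hne, map_mul, h6, h7]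
      norm_num
  obtain ⟨q, hq⟩ := h5
  obtain ⟨w, rfl⟩ := Ideal.Quotient.mk_surjective q
  rw [← map_mul, ← map_mul, Ideal.Quotient.eq, mem_den] at hq
  refine ⟨w, Vz_of_isO hω h (isO_coe w), ?_⟩
  push_cast at hq
  have hq' : isO ((r * s - (w : F) * w) * z) := hq
  have : (x * y - (w : F) ^ 2) * z = x * ((y - s) * z) + s * ((x - r) * z) + (r * s - w * w) * z := by
    ring
  rw [this]
  exact Vz_add hω h (Vz_add hω h (Vz_mul hω h hx h2)
    (Vz_mul hω h (Vz_of_isO hω h hsO) h1)) (Vz_of_isO hω h hq')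

theorem exists_nonsq (h2 : ¬ isO (2 * z)) :
    ∃ r, isO r ∧ ∀ w ∈ L, ¬ isO ((r - w ^ 2) * z) := by
  classical
  by_contra hcon
  push Not at hcon
  have hmax := den_max hω h
  have hfin := den_fin hω h
  let := Ideal.Quotient.field (den z)
  have := Fintype.ofFinite (𝓞 F ⧸ den z)
  have hch : ringChar (𝓞 F ⧸ den z) ≠ 2 := by
    intro hch
    apply h2
    have h3 : ((2 : ℕ) : 𝓞 F ⧸ den z) = 0 := by
      rw [← hch]; exact CharP.cast_eq_zero _ _
    have h4 : Ideal.Quotient.mk (den z) 2 = 0 := by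
      have : Ideal.Quotient.mk (den z) 2 = ((2 : ℕ) : 𝓞 F ⧸ den z) := by
        rw [← map_natCast (Ideal.Quotient.mk (den z))]; rfl
      rw [this, h3]
    rw [Ideal.Quotient.eq_zero_iff_mem, mem_den] at h4
    have h5 : ((2 : 𝓞 F) : F) = 2 := map_ofNat _ 2
    rwa [h5] at h4
  obtain ⟨q, hq⟩ := FiniteField.exists_nonsquare hch
  obtain ⟨t, rfl⟩ := Ideal.Quotient.mk_surjective q
  obtain ⟨w, hw, h3⟩ := hcon t (isO_coe t)
  apply hq
  refine ⟨Ideal.Quotient.mk (den z) (toO w (h.mem w hw)), ?_⟩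
  rw [← map_mul, Ideal.Quotient.eq, mem_den]
  push_cast
  have : (t : F) - w * w = t - w ^ 2 := by ring
  change isO (((t : F) - w * w) * z)
  rw [this]; exact h3

end den2

end Pool.Agent.H89
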