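import Mathlib

set_option autoImplicit false

namespace Pool.Agent.H89

open Encodable

section CE

variable {α β γ δ : Type*} [Primcodable α] [Primcodable β] [Primcodable γ] [Primcodable δ]

theorem cfst {f : α → β × γ} (hf : Computable f) : Computable (fun a => (f a).1) :=
  Computable.fst.comp hf

theorem csnd {f : α → β × γ} (hf : Computable f) : Computable (fun a => (f a).2) :=
  Computable.snd.comp hf

theorem cid : Computable (fun a : α => a) := Computable.id

theorem cpair {f : α → β} {g : α → γ} (hf : Computable f) (hg : Computable g) :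
    Computable (fun a => (f a, g a)) := Computable.pair hf hg

theorem cconst (b : β) : Computable (fun _ : α => b) := Computable.const b

theorem ccomp₂ {h : β → γ → δ} (hh : Computable₂ h) {f : α → β} {g : α → γ}
    (hf : Computable f) (hg : Computable g) : Computable (fun a => h (f a) (g a)) :=
  hh.comp hf hg

theorem cfin {d : ℕ} {f : Fin d → α → β} (hf : ∀ i, Computable (f i)) :
    Computable (fun a => (fun i => f i a : Fin d → β)) := by
  have h1 : Computable (fun a => (List.Vector.ofFn (fun i => f i a)).get) :=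
    Primrec.vector_get'.to_comp.comp (Computable.vector_ofFn hf)
  refine h1.of_eq ?_
  intro a
  funext i
  simp

theorem capp {d : ℕ} {f : α → Fin d → β} (hf : Computable f) (i : Fin d) :
    Computable (fun a => f a i) :=
  Computable.fin_app.comp hf (Computable.const i)

/-- A predicate is r.e. iff it is the projection of a monotone primitive recursive relation. -/
theorem re_iff {p : α → Prop} : REPred p ↔
    ∃ Q : ℕ → α → Prop, PrimrecRel Q ∧ (∀ k k' a, k ≤ k' → Q k a → Q k' a) ∧
      ∀ a, p a ↔ ∃ k, Q k a := by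
  constructor
  · intro h
    obtain ⟨c, hc⟩ := Nat.Partrec.Code.exists_code.1 h
    refine ⟨fun k a => (Nat.Partrec.Code.evaln k c (encode a)).isSome = true, ?_, ?_, ?_⟩
    · refine Primrec.primrecPred (p := fun x : ℕ × α => (Nat.Partrec.Code.evaln x.1 c (encode x.2)).isSome = true) ?_
      have h1 : Primrec (fun x : ℕ × α => (Nat.Partrec.Code.evaln x.1 c (encode x.2)).isSome) := by
        refine Primrec.option_isSome.comp ?_
        exact Nat.Partrec.Code.primrec_evaln.comp
          ((Primrec.fst.pair (Primrec.const c)).pair (Primrec.encode.comp Primrec.snd))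
      refine h1.of_eq ?_
      intro x
      cases (Nat.Partrec.Code.evaln x.1 c (encode x.2)).isSome <;> simp
    · intro k k' a hk h
      simp only [Option.isSome_iff_exists] at h ⊢
      obtain ⟨x, hx⟩ := h
      exact ⟨x, Nat.Partrec.Code.evaln_mono hk hx⟩
    · intro a
      have h2 : (∃ k, (Nat.Partrec.Code.evaln k c (encode a)).isSome = true) ↔
          ∃ x, x ∈ Nat.Partrec.Code.eval c (encode a) := by
        simp only [Option.isSome_iff_exists]
        constructor
        · rintro ⟨k, x, hx⟩
          exact ⟨x, Nat.Partrec.Code.evaln_complete.2 ⟨k, hx⟩⟩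
        · rintro ⟨x, hx⟩
          obtain ⟨k, hk⟩ := Nat.Partrec.Code.evaln_complete.1 hx
          exact ⟨k, x, hk⟩
      rw [h2, hc]
      simp
  · rintro ⟨Q, hQ, -, hp⟩
    classical
    have h1 : Partrec (fun a : α => Nat.rfind (fun n => Part.some (decide (Q n a)))) := by
      apply Partrec.rfind
      have : Primrec₂ (fun (n : ℕ) (a : α) => decide (Q n a)) := hQ.decide
      exact (Computable.partrec (this.to_comp.comp Computable.snd Computable.fst))
    refine h1.dom_re.of_eq ?_
    intro a
    rw [hp a]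
    refine (@Nat.rfind_dom' (fun n => (Part.some (decide (Q n a)) : Part Bool))).trans ?_
    constructor
    · rintro ⟨n, hn, -⟩
      simp only [Part.mem_some_iff] at hn
      exact ⟨n, by simpa using hn.symm⟩
    · rintro ⟨n, hn⟩
      exact ⟨n, by simp [hn], fun {m} _ => trivial⟩

theorem re_comp {p : β → Prop} (hp : REPred p) {f : α → β} (hf : Computable f) :
    REPred (fun a => p (f a)) := Partrec.comp hp hf

theorem re_and {p q : α → Prop} (hp : REPred p) (hq : REPred q) : REPred (fun a => p a ∧ q a) := by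
  obtain ⟨P, hP, mP, eP⟩ := re_iff.1 hp
  obtain ⟨Q, hQ, mQ, eQ⟩ := re_iff.1 hq
  refine re_iff.2 ⟨fun k a => P k a ∧ Q k a, PrimrecPred.and hP hQ, ?_, ?_⟩
  · rintro k k' a hk ⟨h1, h2⟩
    exact ⟨mP k k' a hk h1, mQ k k' a hk h2⟩
  · intro a
    rw [eP, eQ]
    constructor
    · rintro ⟨⟨k, hk⟩, ⟨l, hl⟩⟩
      exact ⟨max k l, mP _ _ _ (le_max_left _ _) hk, mQ _ _ _ (le_max_right _ _) hl⟩
    · rintro ⟨k, h1, h2⟩
      exact ⟨⟨k, h1⟩, ⟨k, h2⟩⟩

theorem re_or {p q : α → Prop} (hp : REPred p) (hq : REPred q) : REPred (fun a => p a ∨ q a) := by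
  obtain ⟨P, hP, mP, eP⟩ := re_iff.1 hp
  obtain ⟨Q, hQ, mQ, eQ⟩ := re_iff.1 hq
  refine re_iff.2 ⟨fun k a => P k a ∨ Q k a, PrimrecPred.or hP hQ, ?_, ?_⟩
  · rintro k k' a hk (h1 | h2)
    · exact Or.inl (mP k k' a hk h1)
    · exact Or.inr (mQ k k' a hk h2)
  · intro a
    rw [eP, eQ]
    constructor
    · rintro (⟨k, hk⟩ | ⟨k, hk⟩)
      · exact ⟨k, Or.inl hk⟩
      · exact ⟨k, Or.inr hk⟩
    · rintro ⟨k, h1 | h2⟩
      · exact Or.inl ⟨k, h1⟩
      · exact Or.inr ⟨k, h2⟩

/-- Search over natural numbers of an r.e. relation. -/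
theorem re_exn {p : α × ℕ → Prop} (hp : REPred p) : REPred (fun a => ∃ n, p (a, n)) := by
  obtain ⟨P, hP, mP, eP⟩ := re_iff.1 hp
  refine re_iff.2 ⟨fun k a => ∃ n < k, P k (a, n), ?_, ?_, ?_⟩
  · have h1 : PrimrecRel (fun (n : ℕ) (y : ℕ × α) => P y.1 (y.2, n)) := by
      refine PrimrecPred.comp (p := fun z : ℕ × (α × ℕ) => P z.1 z.2) hP
        (f := fun z : ℕ × (ℕ × α) => (z.2.1, (z.2.2, z.1))) ?_
      exact (Primrec.fst.comp Primrec.snd).pair
        ((Primrec.snd.comp Primrec.snd).pair Primrec.fst)
    have h2 := h1.exists_mem_list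
    have h3 := PrimrecPred.comp (p := fun z : List ℕ × (ℕ × α) => ∃ x ∈ z.1, P z.2.1 (z.2.2, x)) h2
      (f := fun z : ℕ × α => (List.range z.1, (z.1, z.2)))
      ((Primrec.list_range.comp Primrec.fst).pair (Primrec.fst.pair Primrec.snd))
    refine h3.of_eq ?_
    intro z
    simp
  · rintro k k' a hk ⟨n, hn, h⟩
    exact ⟨n, lt_of_lt_of_le hn hk, mP k k' _ hk h⟩
  · intro a
    constructor
    · rintro ⟨n, hn⟩
      obtain ⟨k, hk⟩ := (eP _).1 hn
      exact ⟨max k (n+1), n, lt_of_lt_of_le (Nat.lt_succ_self n) (le_max_right _ _),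
        mP _ _ _ (le_max_left _ _) hk⟩
    · rintro ⟨k, n, -, h⟩
      exact ⟨n, (eP _).2 ⟨k, h⟩⟩

theorem re_eq {f g : α → β} (hf : Computable f) (hg : Computable g) :
    REPred (fun a => f a = g a) := by
  classical
  have h1 : ComputablePred (fun x : β × β => x.1 = x.2) :=
    PrimrecPred.computablePred (Primrec.eq (α := β))
  exact re_comp h1.to_re (cpair hf hg)

theorem re_ne {f g : α → β} (hf : Computable f) (hg : Computable g) :
    REPred (fun a => f a ≠ g a) := by
  classical
  have h1 : ComputablePred (fun x : β × β => x.1 = x.2) :=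
    PrimrecPred.computablePred (Primrec.eq (α := β))
  exact re_comp h1.not.to_re (cpair hf hg)

theorem re_lt {f g : α → ℕ} (hf : Computable f) (hg : Computable g) :
    REPred (fun a => f a < g a) := by
  classical
  have h1 : ComputablePred (fun x : ℕ × ℕ => x.1 < x.2) :=
    PrimrecPred.computablePred Primrec.nat_lt
  exact re_comp h1.to_re (cpair hf hg)

theorem re_le {f g : α → ℕ} (hf : Computable f) (hg : Computable g) :
    REPred (fun a => f a ≤ g a) := by
  classical
  have h1 : ComputablePred (fun x : ℕ × ℕ => x.1 ≤ x.2) :=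
    PrimrecPred.computablePred Primrec.nat_le
  exact re_comp h1.to_re (cpair hf hg)

theorem re_const (p : Prop) : REPred (fun _ : α => p) := by
  classical
  by_cases h : p
  · refine (re_eq (cconst (α := α) 0) (cconst 0)).of_eq ?_
    intro a; simp [h]
  · refine (re_ne (cconst (α := α) 0) (cconst 0)).of_eq ?_
    intro a; simp [h]

/-- Existential quantification over any coded type. -/
theorem re_ex {p : α × β → Prop} (hp : REPred p) : REPred (fun a => ∃ b, p (a, b)) := by
  have h1 : REPred (fun x : (α × ℕ) => ∃ b, b ∈ (decode x.2 : Option β) ∧ p (x.1, b)) := by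
    have hd : Computable (fun x : α × ℕ => (decode x.2 : Option β)) :=
      Computable.decode.comp Computable.snd
    have h2 : Partrec (fun x : α × ℕ => ((decode x.2 : Option β) : Part β).bind
        (fun b => Part.assert (p (x.1, b)) (fun _ => Part.some ()))) := by
      refine Partrec.bind hd.ofOption ?_
      have h3 : Partrec (fun y : (α × ℕ) × β => Part.assert (p (y.1.1, y.2)) (fun _ => Part.some ())) :=
        Partrec.comp hp (cpair (cfst (cfst cid)) (csnd cid))
      exact h3
    refine h2.dom_re.of_eq ?_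
    intro x
    rw [Part.dom_iff_mem]
    simp only [Part.mem_bind_iff, Part.mem_assert_iff, Part.mem_some_iff, Part.mem_coe]
    constructor
    · rintro ⟨_, b, hb, h, -⟩
      exact ⟨b, hb, h⟩
    · rintro ⟨b, hb, h⟩
      exact ⟨(), b, hb, h, trivial⟩
  refine (re_exn h1).of_eq ?_
  intro a
  constructor
  · rintro ⟨n, b, -, h⟩
    exact ⟨b, h⟩
  · rintro ⟨b, h⟩
    exact ⟨encode b, b, by simp, h⟩

/-- bounded universal quantifier over lists -/
theorem re_ball {p : α × β → Prop} (hp : REPred p) {l : α → List β} (hl : Computable l) :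
    REPred (fun a => ∀ b ∈ l a, p (a, b)) := by
  obtain ⟨P, hP, mP, eP⟩ := re_iff.1 hp
  have h0 : REPred (fun x : List β × α => ∀ b ∈ x.1, p (x.2, b)) := by
    refine re_iff.2 ⟨fun k x => ∀ b ∈ x.1, P k (x.2, b), ?_, ?_, ?_⟩
    · have h1 : PrimrecRel (fun (b : β) (y : ℕ × α) => P y.1 (y.2, b)) := by
        refine PrimrecPred.comp (p := fun z : ℕ × (α × β) => P z.1 z.2) hP
          (f := fun z : β × (ℕ × α) => (z.2.1, (z.2.2, z.1))) ?_
        exact (Primrec.fst.comp Primrec.snd).pair
          ((Primrec.snd.comp Primrec.snd).pair Primrec.fst)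
      have h2 := h1.forall_mem_list
      refine PrimrecPred.comp (p := fun z : List β × (ℕ × α) => ∀ x ∈ z.1, P z.2.1 (z.2.2, x)) h2
        (f := fun z : ℕ × (List β × α) => (z.2.1, (z.1, z.2.2))) ?_
      exact (Primrec.fst.comp Primrec.snd).pair (Primrec.fst.pair (Primrec.snd.comp Primrec.snd))
    · intro k k' x hk h b hb
      exact mP k k' _ hk (h b hb)
    · rintro ⟨l, a⟩
      constructor
      · intro h
        simp only at h ⊢
        induction l with
        | nil => exact ⟨0, by simp⟩
        | cons b l ih =>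
          obtain ⟨k, hk⟩ := ih (fun b hb => h b (List.mem_cons_of_mem _ hb))
          obtain ⟨k', hk'⟩ := (eP _).1 (h b List.mem_cons_self)
          refine ⟨max k k', ?_⟩
          intro c hc
          rcases List.mem_cons.1 hc with rfl | hc
          · exact mP _ _ _ (le_max_right _ _) hk'
          · exact mP _ _ _ (le_max_left _ _) (hk c hc)
      · rintro ⟨k, hk⟩ b hb
        exact (eP _).2 ⟨k, hk b hb⟩
  exact re_comp h0 (cpair hl cid)

/-- bounded universal quantifier over natural numbers -/
theorem re_ball_lt {p : α × ℕ → Prop} (hp : REPred p) {l : α → ℕ} (hl : Computable l) :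
    REPred (fun a => ∀ b < l a, p (a, b)) := by
  refine (re_ball hp (l := fun a => List.range (l a)) (Primrec.list_range.to_comp.comp hl)).of_eq ?_
  intro a
  simp

/-- universal quantifier over a finite type -/
theorem re_ballfin {d : ℕ} {p : Fin d → α → Prop} (hp : ∀ i, REPred (p i)) :
    REPred (fun a => ∀ i, p i a) := by
  induction d with
  | zero => exact (re_const True).of_eq (by intro a; simp)
  | succ d ih =>
    refine (re_and (hp 0) (ih (p := fun i a => p i.succ a) (fun i => hp i.succ))).of_eq ?_
    intro a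
    rw [Fin.forall_fin_succ]

/-- Selection: an r.e. relation which is total at many places can be uniformised by a partial
recursive function. -/
theorem re_select {p : α × β → Prop} (hp : REPred p) :
    ∃ φ : α →. β, Partrec φ ∧ (∀ a b, b ∈ φ a → p (a, b)) ∧
      ∀ a, (∃ b, p (a, b)) → (φ a).Dom := by
  obtain ⟨P, hP, mP, eP⟩ := re_iff.1 hp
  classical
  -- search over n = pair of (code of b) and stage
  let g : α × ℕ → Option β := fun x =>
    (decode (α := β) x.2.unpair.1).bind
      (fun b => if P x.2.unpair.2 (x.1, b) then some b else none)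
  have hg : Primrec g := by
    refine Primrec.option_bind ?_ ?_
    · exact Primrec.decode.comp (Primrec.fst.comp (Primrec.unpair.comp Primrec.snd))
    · have hh : Primrec (fun y : (α × ℕ) × β =>
          if P y.1.2.unpair.2 (y.1.1, y.2) then some y.2 else none) := by
        refine Primrec.ite ?_ (Primrec.option_some.comp Primrec.snd) (Primrec.const none)
        refine PrimrecPred.comp (p := fun z : ℕ × (α × β) => P z.1 z.2) hP
          (f := fun y : (α × ℕ) × β => (y.1.2.unpair.2, (y.1.1, y.2))) ?_
        exact (Primrec.snd.comp (Primrec.unpair.comp (Primrec.snd.comp Primrec.fst))).pair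
          ((Primrec.fst.comp Primrec.fst).pair Primrec.snd)
      exact hh
  refine ⟨fun a => Nat.rfindOpt (fun n => g (a, n)), ?_, ?_, ?_⟩
  · exact Partrec.rfindOpt hg.to_comp
  · intro a b hb
    obtain ⟨n, hn⟩ := Nat.rfindOpt_spec hb
    simp only [g, Option.mem_def, Option.bind_eq_some_iff] at hn
    obtain ⟨b', -, h2⟩ := hn
    split_ifs at h2 with h3
    obtain rfl := Option.some.inj h2
    exact (eP _).2 ⟨_, h3⟩
  · rintro a ⟨b, hb⟩
    rw [Nat.rfindOpt_dom]
    obtain ⟨k, hk⟩ := (eP _).1 hb
    refine ⟨Nat.pair (encode b) k, b, ?_⟩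
    simp [g, hk]

end CE

end Pool.Agent.H89
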