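import Mathlib
import Pool.Agent.H89.CE

set_option autoImplicit false

namespace Pool.Agent.H89

open Encodable

/-- The field operations of `F` are computable with respect to the fixed coding of `F`. -/
class CompField (F : Type*) [Field F] [Primcodable F] : Prop where
  cadd : Computable₂ (fun a b : F => a + b)
  cmul : Computable₂ (fun a b : F => a * b)

section

variable {α F : Type*} [Primcodable α] [Field F] [Primcodable F] [CompField F]

theorem cadd' {f g : α → F} (hf : Computable f) (hg : Computable g) :
    Computable (fun a => f a + g a) := CompField.cadd.comp hf hg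

theorem cmul' {f g : α → F} (hf : Computable f) (hg : Computable g) :
    Computable (fun a => f a * g a) := CompField.cmul.comp hf hg

theorem cneg' {f : α → F} (hf : Computable f) : Computable (fun a => - f a) :=
  (cmul' (cconst (-1)) hf).of_eq (fun a => by simp)

theorem csub' {f g : α → F} (hf : Computable f) (hg : Computable g) :
    Computable (fun a => f a - g a) :=
  (cadd' hf (cneg' hg)).of_eq (fun a => by ring)

/-- functions determined by an r.e. graph are computable -/
theorem computable_of_re_graph {β : Type*} [Primcodable β] {f : α → β}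
    (h : REPred (fun x : α × β => x.2 = f x.1)) : Computable f := by
  obtain ⟨φ, h1, h2, h3⟩ := re_select h
  refine h1.of_eq_tot ?_
  intro a
  have h4 := h3 a ⟨f a, rfl⟩
  have h5 := Part.get_mem h4
  have h6 := h2 _ _ h5
  simp only at h6
  rw [← h6]; exact h5

theorem cinv' {f : α → F} (hf : Computable f) : Computable (fun a => (f a)⁻¹) := by
  have h1 : Computable (fun a : F => a⁻¹) := by
    apply computable_of_re_graph
    have h2 : REPred (fun x : F × F => (x.1 = 0 ∧ x.2 = 0) ∨ x.1 * x.2 = 1) :=
      re_or (re_and (re_eq (cfst cid) (cconst 0)) (re_eq (csnd cid) (cconst 0)))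
        (re_eq (cmul' (cfst cid) (csnd cid)) (cconst 1))
    refine h2.of_eq ?_
    rintro ⟨a, b⟩
    simp only
    constructor
    · rintro (⟨rfl, rfl⟩ | h)
      · simp
      · exact eq_inv_of_mul_eq_one_right h
    · rintro rfl
      by_cases ha : a = 0
      · left; simp [ha]
      · right; exact mul_inv_cancel₀ ha
  exact h1.comp hf

theorem cdiv' {f g : α → F} (hf : Computable f) (hg : Computable g) :
    Computable (fun a => f a / g a) :=
  (cmul' hf (cinv' hg)).of_eq (fun a => by rw [div_eq_mul_inv])

theorem cpow' {f : α → F} {k : α → ℕ} (hf : Computable f) (hk : Computable k) :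
    Computable (fun a => f a ^ k a) := by
  have h1 : Computable (fun a => (Nat.rec (1 : F) (fun _ IH => IH * f a) (k a) : F)) := by
    refine Computable.nat_rec (f := k) (g := fun _ => (1:F)) (h := fun a p => p.2 * f a) hk (cconst 1) ?_
    exact (cmul' (csnd (csnd cid)) (hf.comp (cfst cid))).to₂
  refine h1.of_eq ?_
  intro a
  induction k a with
  | zero => simp
  | succ n ih => simp only [pow_succ, ← ih]

theorem cnat' {k : α → ℕ} (hk : Computable k) : Computable (fun a => (k a : F)) := by
  have h1 : Computable (fun a => (Nat.rec (0 : F) (fun _ IH => IH + 1) (k a) : F)) := by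
    refine Computable.nat_rec (f := k) (g := fun _ => (0:F)) (h := fun _ p => p.2 + 1) hk (cconst 0) ?_
    exact (cadd' (csnd (csnd cid)) (cconst 1)).to₂
  refine h1.of_eq ?_
  intro a
  induction k a with
  | zero => simp
  | succ n ih => simp [← ih]

theorem csum' {d : ℕ} {f : Fin d → α → F} (hf : ∀ i, Computable (f i)) :
    Computable (fun a => ∑ i, f i a) := by
  induction d with
  | zero => exact (cconst 0).of_eq (fun a => by simp)
  | succ d ih =>
    refine (cadd' (hf 0) (ih (f := fun i => f i.succ) (fun i => hf i.succ))).of_eq ?_
    intro a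
    rw [Fin.sum_univ_succ]

theorem cprod' {d : ℕ} {f : Fin d → α → F} (hf : ∀ i, Computable (f i)) :
    Computable (fun a => ∏ i, f i a) := by
  induction d with
  | zero => exact (cconst 1).of_eq (fun a => by simp)
  | succ d ih =>
    refine (cmul' (hf 0) (ih (f := fun i => f i.succ) (fun i => hf i.succ))).of_eq ?_
    intro a
    rw [Fin.prod_univ_succ]

end

end Pool.Agent.H89
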