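import Mathlib
import Pool.Agent.H89.CE

set_option autoImplicit false

namespace Pool.Agent.H89

open Encodable Filter

/-- A set `C` of natural numbers is cohesive: it is infinite and every r.e. set either meets it
in a finite set or contains all but finitely many of its elements. -/
def IsCohesive (C : Set ℕ) : Prop :=
  C.Infinite ∧ ∀ W : ℕ → Prop, REPred W → ({n | W n} ∩ C).Finite ∨ (C \ {n | W n}).Finite

/-- the filter of sets containing almost all of `C` -/
def coF (C : Set ℕ) : Filter ℕ := Filter.cofinite ⊓ Filter.principal C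

theorem coF_iff {C : Set ℕ} {P : ℕ → Prop} :
    (∀ᶠ n in coF C, P n) ↔ (C \ {n | P n}).Finite := by
  rw [coF, Filter.eventually_inf_principal, Filter.eventually_cofinite]
  have : {x | ¬(x ∈ C → P x)} = C \ {n | P n} := by
    ext x; simp
  rw [this]

theorem coF_neBot {C : Set ℕ} (hC : C.Infinite) : (coF C).NeBot := by
  rw [Filter.neBot_iff]
  intro h
  have : ∀ᶠ n in coF C, False := by rw [h]; exact Filter.eventually_bot
  rw [coF_iff] at this
  apply hC
  simpa using this

section basics

variable {α β γ : Type*} [Primcodable α] [Primcodable β] [Primcodable γ] {C : Set ℕ}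

theorem IsCohesive.dich (hC : IsCohesive C) {W : ℕ → Prop} (hW : REPred W) :
    (∀ᶠ n in coF C, W n) ∨ (∀ᶠ n in coF C, ¬ W n) := by
  rcases hC.2 W hW with h | h
  · right
    rw [coF_iff]
    refine h.subset ?_
    rintro n ⟨h1, h2⟩
    simp only [Set.mem_ofPred_eq, not_not] at h2
    exact ⟨h2, h1⟩
  · left
    rw [coF_iff]
    exact h

/-- `f` agrees almost everywhere on `C` with a partial recursive function. -/
def IsPC (C : Set ℕ) (f : ℕ → α) : Prop :=
  ∃ φ : ℕ →. α, Partrec φ ∧ ∀ᶠ n in coF C, f n ∈ φ n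

theorem pc_of_computable {f : ℕ → α} (hf : Computable f) : IsPC C f :=
  ⟨f, hf, Filter.Eventually.of_forall (fun n => by simp)⟩

theorem pc_const (a : α) : IsPC C (fun _ => a) := pc_of_computable (Computable.const a)

theorem pc_id : IsPC C (fun n : ℕ => n) := pc_of_computable Computable.id

theorem pc_congr {f g : ℕ → α} (hf : IsPC C f) (h : ∀ᶠ n in coF C, f n = g n) : IsPC C g := by
  obtain ⟨φ, h1, h2⟩ := hf
  refine ⟨φ, h1, ?_⟩
  filter_upwards [h, h2] with n h3 h4
  rw [← h3]; exact h4

theorem pc_part {f : ℕ → α} (hf : IsPC C f) {ψ : α →. β} (hψ : Partrec ψ) {g : ℕ → β}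
    (h : ∀ᶠ n in coF C, g n ∈ ψ (f n)) : IsPC C g := by
  obtain ⟨φ, h1, h2⟩ := hf
  refine ⟨fun n => (φ n).bind ψ, Partrec.bind h1 (hψ.comp Computable.snd).to₂, ?_⟩
  filter_upwards [h, h2] with n h3 h4
  exact Part.mem_bind h4 h3

theorem pc_comp {f : ℕ → α} (hf : IsPC C f) {g : α → β} (hg : Computable g) :
    IsPC C (fun n => g (f n)) :=
  pc_part hf hg.partrec (Filter.Eventually.of_forall (fun n => by simp))

theorem pc_pair {f : ℕ → α} (hf : IsPC C f) {g : ℕ → β} (hg : IsPC C g) :
    IsPC C (fun n => (f n, g n)) := by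
  obtain ⟨φ, h1, h2⟩ := hf
  obtain ⟨ψ, h3, h4⟩ := hg
  refine ⟨fun n => (φ n).bind (fun a => (ψ n).map (fun b => (a, b))), ?_, ?_⟩
  · refine Partrec.bind h1 ?_
    refine Partrec.map (h3.comp Computable.fst) ?_
    exact (Computable.pair (Computable.snd.comp Computable.fst) Computable.snd).to₂
  · filter_upwards [h2, h4] with n h5 h6
    exact Part.mem_bind h5 (Part.mem_map _ h6)

theorem pc_fst {f : ℕ → α × β} (hf : IsPC C f) : IsPC C (fun n => (f n).1) :=
  pc_comp hf Computable.fst

theorem pc_snd {f : ℕ → α × β} (hf : IsPC C f) : IsPC C (fun n => (f n).2) :=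
  pc_comp hf Computable.snd

theorem pc_fin {d : ℕ} {f : Fin d → ℕ → α} (hf : ∀ i, IsPC C (f i)) :
    IsPC C (fun n => (fun i => f i n : Fin d → α)) := by
  induction d with
  | zero =>
    refine pc_congr (pc_const (fun i => i.elim0)) ?_
    refine Filter.Eventually.of_forall (fun n => ?_)
    funext i; exact i.elim0
  | succ d ih =>
    have h1 := ih (f := fun i => f i.succ) (fun i => hf i.succ)
    have h2 := pc_pair (hf 0) h1
    have h3 : Computable (fun x : α × (Fin d → α) =>
        (fun i => (Fin.cons x.1 x.2 : Fin (d+1) → α) i : Fin (d+1) → α)) := by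
      refine cfin (f := fun i (x : α × (Fin d → α)) => (Fin.cons x.1 x.2 : Fin (d+1) → α) i) ?_
      intro i
      refine Fin.cases ?_ (fun j => ?_) i
      · simpa using Computable.fst
      · simpa using capp Computable.snd j
    refine pc_congr (pc_comp h2 h3) ?_
    refine Filter.Eventually.of_forall (fun n => ?_)
    funext i
    refine Fin.cases ?_ (fun j => ?_) i <;> simp

theorem IsCohesive.dichPC (hC : IsCohesive C) {R : α → Prop} (hR : REPred R) {f : ℕ → α}
    (hf : IsPC C f) : (∀ᶠ n in coF C, R (f n)) ∨ (∀ᶠ n in coF C, ¬ R (f n)) := by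
  obtain ⟨φ, h1, h2⟩ := hf
  have h3 : REPred (fun n => ∃ b, b ∈ φ n ∧ R b) := by
    have : Partrec (fun n => (φ n).bind (fun b => Part.assert (R b) (fun _ => Part.some ()))) := by
      refine Partrec.bind h1 ?_
      exact (Partrec.comp hR Computable.snd)
    refine this.dom_re.of_eq ?_
    intro n
    rw [Part.dom_iff_mem]
    simp only [Part.mem_bind_iff, Part.mem_assert_iff, Part.mem_some_iff]
    constructor
    · rintro ⟨_, b, hb, h, -⟩
      exact ⟨b, hb, h⟩
    · rintro ⟨b, hb, h⟩
      exact ⟨(), b, hb, h, trivial⟩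
  rcases hC.dich h3 with h | h
  · left
    filter_upwards [h, h2] with n h4 h5
    obtain ⟨b, hb, hb'⟩ := h4
    rw [Part.mem_unique h5 hb]; exact hb'
  · right
    filter_upwards [h, h2] with n h4 h5 h6
    exact h4 ⟨_, h5, h6⟩

theorem pc_select [Nonempty β] {p : α × β → Prop} (hp : REPred p) {f : ℕ → α} (hf : IsPC C f)
    (h : ∀ᶠ n in coF C, ∃ b, p (f n, b)) :
    ∃ g : ℕ → β, IsPC C g ∧ ∀ᶠ n in coF C, p (f n, g n) := by
  classical
  obtain ⟨φ, h1, h2, h3⟩ := re_select hp
  let g : ℕ → β := fun n => if h : (φ (f n)).Dom then (φ (f n)).get h else Classical.arbitrary β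
  have h4 : ∀ᶠ n in coF C, g n ∈ φ (f n) := by
    filter_upwards [h] with n h5
    have h6 := h3 _ h5
    simp only [g, h6, dif_pos]
    exact Part.get_mem _
  refine ⟨g, pc_part hf h1 h4, ?_⟩
  filter_upwards [h4] with n h5
  exact h2 _ _ h5

end basics

end Pool.Agent.H89
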