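import Mathlib
import Pool.Agent.H89.CField
import Pool.Agent.H89.Coh

set_option autoImplicit false

namespace Pool.Agent.H89

open Encodable Filter

variable {F : Type*} [Field F] [Primcodable F] [CompField F] {C : Set ℕ}

/-- The cohesive power, as a subring of the ring of germs along `C`. -/
def kSub (C : Set ℕ) (F : Type*) [Field F] [Primcodable F] [CompField F] :
    Subring ((coF C).Germ F) where
  carrier := {g | ∃ f : ℕ → F, IsPC C f ∧ g = ↑f}
  mul_mem' := by
    rintro _ _ ⟨f, hf, rfl⟩ ⟨g, hg, rfl⟩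
    exact ⟨fun n => f n * g n, pc_comp (pc_pair hf hg) (cmul' (cfst cid) (csnd cid)), rfl⟩
  add_mem' := by
    rintro _ _ ⟨f, hf, rfl⟩ ⟨g, hg, rfl⟩
    exact ⟨fun n => f n + g n, pc_comp (pc_pair hf hg) (cadd' (cfst cid) (csnd cid)), rfl⟩
  neg_mem' := by
    rintro _ ⟨f, hf, rfl⟩
    exact ⟨fun n => - f n, pc_comp hf (cneg' cid), rfl⟩
  zero_mem' := ⟨fun _ => 0, pc_const 0, rfl⟩
  one_mem' := ⟨fun _ => 1, pc_const 1, rfl⟩

/-- The cohesive power of `F` over `C` (internal version). -/
abbrev Kp (C : Set ℕ) (F : Type*) [Field F] [Primcodable F] [CompField F] := ↥(kSub C F)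

namespace Kp

/-- element of the cohesive power with a given representative -/
def mk (f : ℕ → F) (hf : IsPC C f) : Kp C F := ⟨(f : (coF C).Germ F), f, hf, rfl⟩

/-- a chosen representative -/
noncomputable def rep (x : Kp C F) : ℕ → F := Classical.choose x.2

theorem rep_pc (x : Kp C F) : IsPC C x.rep := (Classical.choose_spec x.2).1

theorem val_eq (x : Kp C F) : x.1 = (x.rep : (coF C).Germ F) := (Classical.choose_spec x.2).2

theorem ext_iff' {x y : Kp C F} : x = y ↔ ∀ᶠ n in coF C, x.rep n = y.rep n := by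
  rw [Subtype.ext_iff, val_eq x, val_eq y, Filter.Germ.coe_eq]
  rfl

theorem rep_mk (f : ℕ → F) (hf : IsPC C f) : ∀ᶠ n in coF C, (mk f hf).rep n = f n := by
  have := val_eq (mk f hf)
  rw [mk, Filter.Germ.coe_eq] at this
  filter_upwards [this] with n hn using hn.symm

theorem mk_rep (x : Kp C F) : mk x.rep x.rep_pc = x := by
  apply Subtype.ext
  rw [val_eq x]
  rfl

theorem eq_mk {x : Kp C F} {f : ℕ → F} (hf : IsPC C f) (h : ∀ᶠ n in coF C, x.rep n = f n) :
    x = mk f hf := by
  rw [ext_iff']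
  filter_upwards [h, rep_mk f hf] with n h1 h2
  rw [h1, h2]

theorem mk_eq_mk {f g : ℕ → F} (hf : IsPC C f) (hg : IsPC C g) :
    mk f hf = mk g hg ↔ ∀ᶠ n in coF C, f n = g n := by
  rw [ext_iff']
  constructor
  · intro h
    filter_upwards [h, rep_mk f hf, rep_mk g hg] with n h1 h2 h3
    rw [← h2, ← h3, h1]
  · intro h
    filter_upwards [h, rep_mk f hf, rep_mk g hg] with n h1 h2 h3
    rw [h2, h3, h1]

theorem rep_add (x y : Kp C F) : ∀ᶠ n in coF C, (x + y).rep n = x.rep n + y.rep n := by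
  have h1 := val_eq (x + y)
  have h2 : (x + y).1 = ((fun n => x.rep n + y.rep n : ℕ → F) : (coF C).Germ F) := by
    change x.1 + y.1 = _
    rw [val_eq x, val_eq y]; rfl
  rw [h2, Filter.Germ.coe_eq] at h1
  filter_upwards [h1] with n hn using hn.symm

theorem rep_mul (x y : Kp C F) : ∀ᶠ n in coF C, (x * y).rep n = x.rep n * y.rep n := by
  have h1 := val_eq (x * y)
  have h2 : (x * y).1 = ((fun n => x.rep n * y.rep n : ℕ → F) : (coF C).Germ F) := by
    change x.1 * y.1 = _
    rw [val_eq x, val_eq y]; rfl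
  rw [h2, Filter.Germ.coe_eq] at h1
  filter_upwards [h1] with n hn using hn.symm

theorem rep_neg (x : Kp C F) : ∀ᶠ n in coF C, (- x).rep n = - x.rep n := by
  have h1 := val_eq (- x)
  have h2 : (- x).1 = ((fun n => - x.rep n : ℕ → F) : (coF C).Germ F) := by
    change - x.1 = _
    rw [val_eq x]; rfl
  rw [h2, Filter.Germ.coe_eq] at h1
  filter_upwards [h1] with n hn using hn.symm

theorem rep_zero : ∀ᶠ n in coF C, (0 : Kp C F).rep n = 0 :=
  rep_mk (C := C) (fun _ => (0:F)) (pc_const 0)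

theorem rep_one : ∀ᶠ n in coF C, (1 : Kp C F).rep n = 1 :=
  rep_mk (C := C) (fun _ => (1:F)) (pc_const 1)

theorem rep_sub (x y : Kp C F) : ∀ᶠ n in coF C, (x - y).rep n = x.rep n - y.rep n := by
  rw [sub_eq_add_neg]
  filter_upwards [rep_add x (-y), rep_neg y] with n h1 h2
  rw [h1, h2, sub_eq_add_neg]

theorem eq_zero_iff {x : Kp C F} : x = 0 ↔ ∀ᶠ n in coF C, x.rep n = 0 := by
  rw [ext_iff']
  constructor
  · intro h
    filter_upwards [h, rep_zero (C := C) (F := F)] with n h1 h2
    rw [h1, h2]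
  · intro h
    filter_upwards [h, rep_zero (C := C) (F := F)] with n h1 h2
    rw [h1, h2]

theorem rep_pow (x : Kp C F) (k : ℕ) : ∀ᶠ n in coF C, (x ^ k).rep n = x.rep n ^ k := by
  induction k with
  | zero =>
    filter_upwards [rep_one (C := C) (F := F)] with n h1
    simp [h1]
  | succ k ih =>
    rw [pow_succ]
    filter_upwards [ih, rep_mul (x^k) x] with n h1 h2
    rw [h2, h1, pow_succ]

theorem rep_natCast (k : ℕ) : ∀ᶠ n in coF C, ((k : ℕ) : Kp C F).rep n = k := by
  induction k with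
  | zero =>
    filter_upwards [rep_zero (C := C) (F := F)] with n h1
    simp [h1]
  | succ k ih =>
    rw [Nat.cast_succ]
    filter_upwards [ih, rep_add (k : Kp C F) 1, rep_one (C := C) (F := F)] with n h1 h2 h3
    rw [h2, h1, h3]; simp

theorem rep_intCast (k : ℤ) : ∀ᶠ n in coF C, ((k : ℤ) : Kp C F).rep n = k := by
  obtain ⟨a, rfl | rfl⟩ := Int.eq_nat_or_neg k
  · filter_upwards [rep_natCast (C := C) (F := F) a] with n h1
    simp [h1]
  · rw [Int.cast_neg]
    filter_upwards [rep_natCast (C := C) (F := F) a, rep_neg (((a:ℤ)) : Kp C F)] with n h1 h2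
    rw [h2]
    simp [h1]

theorem rep_sum {ι : Type*} (s : Finset ι) (x : ι → Kp C F) :
    ∀ᶠ n in coF C, (∑ i ∈ s, x i).rep n = ∑ i ∈ s, (x i).rep n := by
  classical
  induction s using Finset.induction_on with
  | empty =>
    filter_upwards [rep_zero (C := C) (F := F)] with n h1
    simp [h1]
  | insert i s hi ih =>
    rw [Finset.sum_insert hi]
    filter_upwards [ih, rep_add (x i) (∑ i ∈ s, x i)] with n h1 h2
    rw [h2, h1, Finset.sum_insert hi]

theorem rep_prod {ι : Type*} (s : Finset ι) (x : ι → Kp C F) :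
    ∀ᶠ n in coF C, (∏ i ∈ s, x i).rep n = ∏ i ∈ s, (x i).rep n := by
  classical
  induction s using Finset.induction_on with
  | empty =>
    filter_upwards [rep_one (C := C) (F := F)] with n h1
    simp [h1]
  | insert i s hi ih =>
    rw [Finset.prod_insert hi]
    filter_upwards [ih, rep_mul (x i) (∏ i ∈ s, x i)] with n h1 h2
    rw [h2, h1, Finset.prod_insert hi]

section field

variable [hC : Fact (IsCohesive C)]

instance : (coF C).NeBot := coF_neBot hC.out.1

theorem ne_iff {x y : Kp C F} : x ≠ y ↔ ∀ᶠ n in coF C, x.rep n ≠ y.rep n := by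
  constructor
  · intro h
    rcases hC.out.dichPC (R := fun z : F × F => z.1 = z.2) (re_eq (cfst cid) (csnd cid))
      (pc_pair x.rep_pc y.rep_pc) with h1 | h1
    · exact absurd (ext_iff'.2 h1) h
    · exact h1
  · intro h h1
    subst h1
    obtain ⟨n, hn⟩ := h.exists
    exact hn rfl

theorem ne_zero_iff {x : Kp C F} : x ≠ 0 ↔ ∀ᶠ n in coF C, x.rep n ≠ 0 := by
  rw [ne_iff]
  constructor
  · intro h
    filter_upwards [h, rep_zero (C := C) (F := F)] with n h1 h2
    rwa [h2] at h1
  · intro h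
    filter_upwards [h, rep_zero (C := C) (F := F)] with n h1 h2
    rwa [h2]

noncomputable instance : Field (Kp C F) where
  inv x := mk (fun n => (x.rep n)⁻¹) (pc_comp x.rep_pc (cinv' cid))
  exists_pair_ne := ⟨0, 1, by
    rw [ne_iff]
    filter_upwards [rep_zero (C := C) (F := F), rep_one (C := C) (F := F)] with n h1 h2
    rw [h1, h2]; exact zero_ne_one⟩
  mul_inv_cancel := by
    intro x hx
    rw [ext_iff']
    rw [ne_zero_iff] at hx
    filter_upwards [hx, rep_mul x (mk (fun n => (x.rep n)⁻¹) (pc_comp x.rep_pc (cinv' cid))),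
      rep_mk (C := C) (fun n => (x.rep n)⁻¹) (pc_comp x.rep_pc (cinv' cid)),
      rep_one (C := C) (F := F)] with n h1 h2 h3 h4
    rw [h2, h3, h4, mul_inv_cancel₀ h1]
  inv_zero := by
    rw [eq_zero_iff]
    filter_upwards [rep_mk (C := C) (fun n => ((0 : Kp C F).rep n)⁻¹) (pc_comp (0 : Kp C F).rep_pc (cinv' cid)),
      rep_zero (C := C) (F := F)] with n h1 h2
    rw [h1, h2, inv_zero]
  nnqsmul := _
  nnqsmul_def := fun _ _ => rfl
  qsmul := _
  qsmul_def := fun _ _ => rfl

theorem rep_inv (x : Kp C F) : ∀ᶠ n in coF C, (x⁻¹).rep n = (x.rep n)⁻¹ :=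
  rep_mk (C := C) (fun n => (x.rep n)⁻¹) (pc_comp x.rep_pc (cinv' cid))

theorem rep_div (x y : Kp C F) : ∀ᶠ n in coF C, (x / y).rep n = x.rep n / y.rep n := by
  rw [div_eq_mul_inv]
  filter_upwards [rep_mul x y⁻¹, rep_inv y] with n h1 h2
  rw [h1, h2, div_eq_mul_inv]

end field

/-- the diagonal embedding of `F` -/
def diag (C : Set ℕ) (F : Type*) [Field F] [Primcodable F] [CompField F] : F →+* Kp C F where
  toFun a := mk (fun _ => a) (pc_const a)
  map_zero' := rfl
  map_one' := rfl
  map_add' _ _ := rfl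
  map_mul' _ _ := rfl

theorem rep_diag (a : F) : ∀ᶠ n in coF C, (diag C F a).rep n = a :=
  rep_mk (C := C) (fun _ => a) (pc_const a)

instance : Algebra F (Kp C F) := (diag C F).toAlgebra

theorem algebraMap_eq : algebraMap F (Kp C F) = diag C F := rfl

theorem rep_algebraMap (a : F) : ∀ᶠ n in coF C, (algebraMap F (Kp C F) a).rep n = a :=
  rep_diag a

end Kp

end Pool.Agent.H89
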