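import Mathlib
import Pool.Agent.H89.Star
import Pool.Agent.H89.Den2

set_option autoImplicit false
set_option linter.unusedSectionVars false

namespace Pool.Agent.H89

open Encodable Filter NumberField

theorem re_exfin {α : Type*} [Primcodable α] {d : ℕ} {p : Fin d → α → Prop}
    (hp : ∀ i, REPred (p i)) : REPred (fun a => ∃ i, p i a) := by
  induction d with
  | zero => exact (re_const False).of_eq (by intro a; simp)
  | succ d ih =>
    refine (re_or (hp 0) (ih (p := fun i a => p i.succ a) (fun i => hp i.succ))).of_eq ?_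
    intro a
    rw [Fin.exists_fin_succ]

section intb

variable {F : Type*} [Field F] [NumberField F]

theorem exists_intbasis : ∃ b : Module.Basis (Fin (Module.finrank ℚ F)) ℚ F,
    ∀ x : F, isO x ↔ ∀ i, ∃ z : ℤ, b.repr x i = z := by
  classical
  let b0 := NumberField.integralBasis F
  have hcard : Fintype.card (Module.Free.ChooseBasisIndex ℤ (𝓞 F)) = Module.finrank ℚ F := by
    rw [Module.finrank_eq_card_basis b0]
  let e : Module.Free.ChooseBasisIndex ℤ (𝓞 F) ≃ Fin (Module.finrank ℚ F) :=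
    Fintype.equivFinOfCardEq hcard
  refine ⟨b0.reindex e, ?_⟩
  intro x
  have h1 : isO x ↔ x ∈ Submodule.span ℤ (Set.range b0) := by
    rw [NumberField.mem_span_integralBasis]
    constructor
    · intro h
      exact ⟨⟨x, h⟩, rfl⟩
    · rintro ⟨y, rfl⟩
      exact isO_coe y
  rw [h1, Module.Basis.mem_span_iff_repr_mem]
  constructor
  · intro h i
    obtain ⟨z, hz⟩ := h (e.symm i)
    refine ⟨z, ?_⟩
    rw [Module.Basis.repr_reindex_apply, ← hz]
    simp
  · intro h i
    obtain ⟨z, hz⟩ := h (e i)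
    refine ⟨z, ?_⟩
    rw [Module.Basis.repr_reindex_apply] at hz
    simp at hz
    rw [hz]; simp

/-- integral basis data -/
structure IB (F : Type*) [Field F] [NumberField F] where
  /-- the basis -/
  b : Module.Basis (Fin (Module.finrank ℚ F)) ℚ F
  spec : ∀ x : F, isO x ↔ ∀ i, ∃ z : ℤ, b.repr x i = z

variable (B : IB F)

theorem IB.isO_basis (i : Fin (Module.finrank ℚ F)) : isO (B.b i) := by
  rw [B.spec]
  intro j
  rw [Module.Basis.repr_self]
  by_cases h : i = j
  · exact ⟨1, by rw [h]; simp⟩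
  · exact ⟨0, by rw [Finsupp.single_apply, if_neg h]; simp⟩

theorem IB.isO_iff (x : F) : isO x ↔ ∃ a : Fin (Module.finrank ℚ F) → ℤ,
    x = ∑ i, (a i : F) * B.b i := by
  constructor
  · intro h
    rw [B.spec] at h
    choose a ha using h
    refine ⟨a, ?_⟩
    conv_lhs => rw [← B.b.sum_repr x]
    apply Finset.sum_congr rfl
    intro i _
    rw [ha i, Algebra.smul_def]
    simp
  · rintro ⟨a, rfl⟩
    apply isO_sum
    intro i _
    exact isO_mul (isO_int _) (B.isO_basis i)

theorem IB.hω (x : F) (h : isO x) : ∃ a : Fin (Module.finrank ℚ F) → ℤ,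
    x = ∑ i, (a i : F) * B.b i := (B.isO_iff x).1 h

/-- coordinates with natural numbers -/
theorem IB.isO_iff' (x : F) : isO x ↔ ∃ p : (Fin (Module.finrank ℚ F) → ℕ) ×
    (Fin (Module.finrank ℚ F) → ℕ), x = ∑ i, ((p.1 i : F) - (p.2 i : F)) * B.b i := by
  rw [B.isO_iff]
  constructor
  · rintro ⟨a, rfl⟩
    refine ⟨(fun i => (a i).toNat, fun i => (-a i).toNat), ?_⟩
    apply Finset.sum_congr rfl
    intro i _
    congr 1
    have h1 : a i = ((a i).toNat : ℤ) - ((-a i).toNat : ℤ) := by omega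
    calc ((a i : ℤ) : F) = ((((a i).toNat : ℤ) - ((-a i).toNat : ℤ) : ℤ) : F) := by rw [← h1]
      _ = _ := by push_cast; rfl
  · rintro ⟨p, rfl⟩
    refine ⟨fun i => (p.1 i : ℤ) - (p.2 i : ℤ), ?_⟩
    apply Finset.sum_congr rfl
    intro i _
    push_cast; rfl

theorem IB.not_isO_iff (x : F) : ¬ isO x ↔ ∃ q : ℕ × ((Fin (Module.finrank ℚ F) → ℕ) ×
    (Fin (Module.finrank ℚ F) → ℕ)), 0 < q.1 ∧
      (q.1 : F) * x = ∑ i, ((q.2.1 i : F) - (q.2.2 i : F)) * B.b i ∧
      ∃ i, q.2.1 i % q.1 ≠ q.2.2 i % q.1 := by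
  constructor
  · intro h
    obtain ⟨k, hk, hkx⟩ := exists_den x
    obtain ⟨p, hp⟩ := (B.isO_iff' _).1 hkx
    refine ⟨(k, p), hk, hp, ?_⟩
    by_contra hcon
    push Not at hcon
    apply h
    have hk0 : (k : F) ≠ 0 := by exact_mod_cast hk.ne'
    have h1 : ∀ i, ∃ c : ℤ, (p.1 i : ℤ) - (p.2 i : ℤ) = k * c := by
      intro i
      have := hcon i
      obtain ⟨c, hc⟩ := Nat.modEq_iff_dvd.1 (show p.2 i ≡ p.1 i [MOD k] from this.symm)
      exact ⟨c, hc⟩
    choose c hc using h1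
    rw [B.isO_iff]
    refine ⟨c, ?_⟩
    apply mul_left_cancel₀ hk0
    rw [hp, Finset.mul_sum]
    apply Finset.sum_congr rfl
    intro i _
    have h2 : (p.1 i : F) - (p.2 i : F) = (k : F) * (c i : F) := by
      have := congrArg (fun t : ℤ => (t : F)) (hc i)
      push_cast at this
      exact this
    rw [h2]; ring
  · rintro ⟨⟨k, p⟩, hk, hp, i, hi⟩ h
    simp only at hk hp hi
    obtain ⟨a, ha⟩ := (B.isO_iff x).1 h
    apply hi
    have h1 : ∑ i, ((k : ℚ) * (a i : ℚ)) • B.b i = ∑ i, ((p.1 i : ℚ) - (p.2 i : ℚ)) • B.b i := by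
      have h2 : ∑ i, ((k : ℚ) * (a i : ℚ)) • B.b i = (k : F) * x := by
        rw [ha, Finset.mul_sum]
        apply Finset.sum_congr rfl
        intro i _
        rw [Algebra.smul_def]
        simp only [map_mul, map_natCast, map_intCast]
        ring
      rw [h2, hp]
      apply Finset.sum_congr rfl
      intro i _
      rw [Algebra.smul_def]
      simp
    have h2 := congrArg (fun v => B.b.repr v i) h1
    simp only [Module.Basis.repr_sum_self] at h2
    have h3 : (k : ℤ) * a i = (p.1 i : ℤ) - (p.2 i : ℤ) := by exact_mod_cast h2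
    have h4 : p.2 i ≡ p.1 i [MOD k] := Nat.modEq_iff_dvd.2 ⟨a i, h3.symm⟩
    exact h4.symm

end intb

section re

variable {F : Type*} [Field F] [NumberField F] [Primcodable F] [CompField F] (B : IB F)
variable {α : Type*} [Primcodable α]

include B in
theorem re_isO {f : α → F} (hf : Computable f) : REPred (fun a => isO (f a)) := by
  have h1 : REPred (fun q : α × ((Fin (Module.finrank ℚ F) → ℕ) × (Fin (Module.finrank ℚ F) → ℕ)) =>
      f q.1 = ∑ i, ((q.2.1 i : F) - (q.2.2 i : F)) * B.b i) := by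
    refine re_eq (hf.comp (cfst cid)) (csum' (fun i => ?_))
    exact cmul' (csub' (cnat' (capp (cfst (csnd cid)) i)) (cnat' (capp (csnd (csnd cid)) i)))
      (cconst _)
  refine (re_ex h1).of_eq ?_
  intro a
  rw [B.isO_iff']

include B in
theorem re_notO {f : α → F} (hf : Computable f) : REPred (fun a => ¬ isO (f a)) := by
  have h1 : REPred (fun q : α × (ℕ × ((Fin (Module.finrank ℚ F) → ℕ) ×
      (Fin (Module.finrank ℚ F) → ℕ))) => 0 < q.2.1 ∧
      (q.2.1 : F) * f q.1 = ∑ i, ((q.2.2.1 i : F) - (q.2.2.2 i : F)) * B.b i ∧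
      ∃ i, q.2.2.1 i % q.2.1 ≠ q.2.2.2 i % q.2.1) := by
    refine re_and (re_lt (cconst 0) (cfst (csnd cid))) (re_and ?_ ?_)
    · refine re_eq (cmul' (cnat' (cfst (csnd cid))) (hf.comp (cfst cid))) (csum' (fun i => ?_))
      exact cmul' (csub' (cnat' (capp (cfst (csnd (csnd cid))) i))
        (cnat' (capp (csnd (csnd (csnd cid))) i))) (cconst _)
    · refine re_exfin (fun i => re_ne ?_ ?_)
      · exact Primrec.nat_mod.to_comp.comp (capp (cfst (csnd (csnd cid))) i) (cfst (csnd cid))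
      · exact Primrec.nat_mod.to_comp.comp (capp (csnd (csnd (csnd cid))) i) (cfst (csnd cid))
  refine (re_ex h1).of_eq ?_
  intro a
  rw [B.not_isO_iff]

/-- being rational -/
def isQ (x : F) : Prop := ∃ q : ℚ, x = (q : F)

theorem isQ_iff (x : F) : isQ x ↔ ∃ q : ℕ × (ℕ × ℕ), 0 < q.1 ∧ (q.1 : F) * x = (q.2.1 : F) - q.2.2 := by
  constructor
  · rintro ⟨q, rfl⟩
    refine ⟨(q.den, (q.num.toNat, (-q.num).toNat)), q.den_pos, ?_⟩
    simp only
    have h1 : (q.den : ℚ) * q = ((q.num.toNat : ℤ) : ℚ) - (((-q.num).toNat : ℤ) : ℚ) := by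
      rw [Rat.den_mul_eq_num]
      have : q.num = (q.num.toNat : ℤ) - ((-q.num).toNat : ℤ) := by omega
      exact_mod_cast this
    have := congrArg (fun t : ℚ => (t : F)) h1
    push_cast at this
    exact this
  · rintro ⟨⟨k, a, b⟩, hk, h⟩
    simp only at hk h
    refine ⟨((a : ℚ) - b) / k, ?_⟩
    have hk0 : (k : F) ≠ 0 := by exact_mod_cast hk.ne'
    push_cast
    rw [← h]; field_simp

theorem re_isQ {f : α → F} (hf : Computable f) : REPred (fun a => isQ (f a)) := by
  have h1 : REPred (fun q : α × (ℕ × (ℕ × ℕ)) => 0 < q.2.1 ∧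
      (q.2.1 : F) * f q.1 = (q.2.2.1 : F) - q.2.2.2) := by
    refine re_and (re_lt (cconst 0) (cfst (csnd cid))) (re_eq ?_ ?_)
    · exact cmul' (cnat' (cfst (csnd cid))) (hf.comp (cfst cid))
    · exact csub' (cnat' (cfst (csnd (csnd cid)))) (cnat' (csnd (csnd (csnd cid))))
  refine (re_ex h1).of_eq ?_
  intro a
  rw [isQ_iff]

/-- being a positive rational -/
def isP (x : F) : Prop := ∃ q : ℕ × ℕ, 0 < q.1 ∧ 0 < q.2 ∧ (q.1 : F) * x = (q.2 : F)

theorem re_isP {f : α → F} (hf : Computable f) : REPred (fun a => isP (f a)) := by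
  have h1 : REPred (fun q : α × (ℕ × ℕ) => 0 < q.2.1 ∧ 0 < q.2.2 ∧
      (q.2.1 : F) * f q.1 = (q.2.2 : F)) := by
    refine re_and (re_lt (cconst 0) (cfst (csnd cid))) (re_and (re_lt (cconst 0) (csnd (csnd cid)))
      (re_eq ?_ ?_))
    · exact cmul' (cnat' (cfst (csnd cid))) (hf.comp (cfst cid))
    · exact cnat' (csnd (csnd cid))
  exact (re_ex h1).of_eq (fun a => Iff.rfl)

theorem isP_iff (q : ℚ) : isP (q : F) ↔ 0 < q := by
  constructor
  · rintro ⟨⟨a, b⟩, ha, hb, h⟩
    simp only at ha hb h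
    have h1 : (a : ℚ) * q = b := by exact_mod_cast h
    have h2 : (0 : ℚ) < a * q := by rw [h1]; exact_mod_cast hb
    by_contra hq
    push Not at hq
    have h3 : (a : ℚ) * q ≤ 0 := mul_nonpos_of_nonneg_of_nonpos (by positivity) hq
    linarith
  · intro h
    refine ⟨(q.den, q.num.toNat), q.den_pos, ?_, ?_⟩
    · have := Rat.num_pos.2 h
      simp only; omega
    · simp only
      have h1 : (q.den : ℚ) * q = ((q.num.toNat : ℤ) : ℚ) := by
        rw [Rat.den_mul_eq_num, Int.toNat_of_nonneg (Rat.num_pos.2 h).le]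
      exact_mod_cast congrArg (fun t : ℚ => (t : F)) h1

include B in
theorem re_Vz {f g : α → F} (hf : Computable f) (hg : Computable g) :
    REPred (fun a => Vz (f a) (g a)) := by
  have h1 : REPred (fun q : α × F => isO q.2 ∧ ¬ isO (q.2 * f q.1) ∧ isO (q.2 * g q.1)) :=
    re_and (re_isO B (csnd cid)) (re_and (re_notO B (cmul' (csnd cid) (hf.comp (cfst cid))))
      (re_isO B (cmul' (csnd cid) (hg.comp (cfst cid)))))
  exact re_ex h1

include B in
theorem re_cert {ω : Fin (Module.finrank ℚ F) → F} {f : α → F} {l : α → List F}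
    (hf : Computable f) (hl : Computable l) : REPred (fun a => Cert ω (f a) (l a)) := by
  have hmem : REPred (fun q : F × List F => q.1 ∈ q.2) := by
    have h2 : PrimrecRel (fun (x : F) (y : F) => x = y) := Primrec.eq
    have h3 := h2.exists_mem_list
    have h4 := PrimrecPred.comp (p := fun z : List F × F => ∃ x ∈ z.1, x = z.2) h3
      (f := fun q : F × List F => (q.2, q.1)) (Primrec.snd.pair Primrec.fst)
    refine h4.computablePred.to_re.of_eq ?_
    intro q
    simp
  have h0 : REPred (fun a => ¬ isO (f a)) := re_notO B hf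
  have h1 : REPred (fun a => ∀ r ∈ l a, isO r) :=
    re_ball (p := fun q : α × F => isO q.2) (re_isO B (csnd cid)) hl
  have h2 : REPred (fun a => ∃ r, r ∈ l a ∧ isO (r * f a)) :=
    re_ex (p := fun q : α × F => q.2 ∈ l q.1 ∧ isO (q.2 * f q.1))
      (re_and (re_comp hmem (cpair (csnd cid) (hl.comp (cfst cid))))
        (re_isO B (cmul' (csnd cid) (hf.comp (cfst cid)))))
  have h3 : REPred (fun a => ∀ r ∈ l a, ∀ i, ∃ r', r' ∈ l a ∧ isO ((r + ω i - r') * f a)) := by
    refine re_ball (p := fun q : α × F => ∀ i, ∃ r', r' ∈ l q.1 ∧ isO ((q.2 + ω i - r') * f q.1)) ?_ hl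
    refine re_ballfin (fun i => ?_)
    refine re_ex (p := fun q : (α × F) × F => q.2 ∈ l q.1.1 ∧ isO ((q.1.2 + ω i - q.2) * f q.1.1)) ?_
    refine re_and (re_comp hmem (cpair (csnd cid) (hl.comp (cfst (cfst cid))))) (re_isO B ?_)
    exact cmul' (csub' (cadd' (csnd (cfst cid)) (cconst _)) (csnd cid)) (hf.comp (cfst (cfst cid)))
  have h4 : REPred (fun a => ∀ r ∈ l a, ∀ i, ∃ r', r' ∈ l a ∧ isO ((r - ω i - r') * f a)) := by
    refine re_ball (p := fun q : α × F => ∀ i, ∃ r', r' ∈ l q.1 ∧ isO ((q.2 - ω i - r') * f q.1)) ?_ hl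
    refine re_ballfin (fun i => ?_)
    refine re_ex (p := fun q : (α × F) × F => q.2 ∈ l q.1.1 ∧ isO ((q.1.2 - ω i - q.2) * f q.1.1)) ?_
    refine re_and (re_comp hmem (cpair (csnd cid) (hl.comp (cfst (cfst cid))))) (re_isO B ?_)
    exact cmul' (csub' (csub' (csnd (cfst cid)) (cconst _)) (csnd cid)) (hf.comp (cfst (cfst cid)))
  have h5 : REPred (fun a => ∀ r ∈ l a, isO (r * f a) ∨ ∃ u, isO u ∧ isO ((1 - u * r) * f a)) := by
    refine re_ball (p := fun q : α × F => isO (q.2 * f q.1) ∨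
      ∃ u, isO u ∧ isO ((1 - u * q.2) * f q.1)) ?_ hl
    refine re_or (re_isO B (cmul' (csnd cid) (hf.comp (cfst cid)))) ?_
    refine re_ex (p := fun q : (α × F) × F => isO q.2 ∧ isO ((1 - q.2 * q.1.2) * f q.1.1)) ?_
    refine re_and (re_isO B (csnd cid)) (re_isO B ?_)
    exact cmul' (csub' (cconst 1) (cmul' (csnd cid) (csnd (cfst cid)))) (hf.comp (cfst (cfst cid)))
  refine (re_and h0 (re_and h1 (re_and h2 (re_and h3 (re_and h4 h5))))).of_eq ?_
  intro a
  constructor
  · rintro ⟨a0, a1, a2, a3, a4, a5⟩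
    exact ⟨a0, a1, a2, a3, a4, a5⟩
  · rintro ⟨a0, a1, a2, a3, a4, a5⟩
    exact ⟨a0, a1, a2, a3, a4, a5⟩

end re

end Pool.Agent.H89
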