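import Mathlib

set_option autoImplicit false

namespace Pool.Agent.H89.NumQ

/-- exponent of `p` in `x` -/
def vv (p : ℕ) (x : ℤ) : ℕ := padicValInt p x

/-- prime-to-`p` part of `x` -/
def uu (p : ℕ) (x : ℤ) : ℤ := x / (p : ℤ) ^ (vv p x)

theorem vu_spec {p : ℕ} (hp : p.Prime) {x : ℤ} (hx : x ≠ 0) :
    x = (p : ℤ) ^ (vv p x) * uu p x ∧ ¬ (p : ℤ) ∣ uu p x := by
  have : Fact p.Prime := ⟨hp⟩
  have h1 : (p : ℤ) ^ (vv p x) ∣ x := padicValInt_dvd x
  have h2 : x = (p : ℤ) ^ (vv p x) * uu p x := (Int.mul_ediv_cancel' h1).symm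
  refine ⟨h2, ?_⟩
  rintro ⟨c, hc⟩
  have h3 : (p : ℤ) ^ (vv p x + 1) ∣ x := ⟨c, by rw [pow_succ, mul_assoc, ← hc]; exact h2⟩
  have h4 := (padicValInt_dvd_iff (vv p x + 1) x).1 h3
  rcases h4 with h4 | h4
  · exact hx h4
  · unfold vv at h4; omega

theorem vu_uniq {p : ℕ} (hp : p.Prime) {x u : ℤ} {k : ℕ} (h : x = (p : ℤ) ^ k * u)
    (hu : ¬ (p : ℤ) ∣ u) : vv p x = k ∧ uu p x = u := by
  have hp0 : (p : ℤ) ≠ 0 := by exact_mod_cast hp.ne_zero
  have hu0 : u ≠ 0 := by rintro rfl; exact hu (dvd_zero _)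
  have hx : x ≠ 0 := by rw [h]; exact mul_ne_zero (pow_ne_zero _ hp0) hu0
  obtain ⟨h1, h2⟩ := vu_spec hp hx
  have hk : vv p x = k := by
    rcases lt_trichotomy (vv p x) k with h3 | h3 | h3
    · exfalso
      apply h2
      have h4 : (p : ℤ) ^ (vv p x) * uu p x = (p : ℤ) ^ (vv p x) * ((p : ℤ) ^ (k - vv p x) * u) := by
        rw [← h1, ← mul_assoc, ← pow_add, show vv p x + (k - vv p x) = k by omega, ← h]
      have h5 := mul_left_cancel₀ (pow_ne_zero _ hp0) h4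
      rw [h5]
      exact Dvd.dvd.mul_right (dvd_pow_self _ (by omega)) _
    · exact h3
    · exfalso
      apply hu
      have h4 : (p : ℤ) ^ k * u = (p : ℤ) ^ k * ((p : ℤ) ^ (vv p x - k) * uu p x) := by
        rw [← h, ← mul_assoc, ← pow_add, show k + (vv p x - k) = vv p x by omega, ← h1]
      have h5 := mul_left_cancel₀ (pow_ne_zero _ hp0) h4
      rw [h5]
      exact Dvd.dvd.mul_right (dvd_pow_self _ (by omega)) _
  refine ⟨hk, ?_⟩
  rw [hk] at h1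
  exact mul_left_cancel₀ (pow_ne_zero k hp0) (h1.symm.trans h)

theorem vu_mul {p : ℕ} (hp : p.Prime) {x y : ℤ} (hx : x ≠ 0) (hy : y ≠ 0) :
    vv p (x * y) = vv p x + vv p y ∧ uu p (x * y) = uu p x * uu p y := by
  obtain ⟨h1, h2⟩ := vu_spec hp hx
  obtain ⟨h3, h4⟩ := vu_spec hp hy
  apply vu_uniq hp
  · conv_lhs => rw [h1, h3]
    rw [pow_add]; ring
  · intro h
    rcases (Nat.prime_iff_prime_int.1 hp).dvd_or_dvd h with h | h
    · exact h2 h
    · exact h4 h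

theorem vu_of_not_dvd {p : ℕ} (hp : p.Prime) {x : ℤ} (h : ¬ (p : ℤ) ∣ x) :
    vv p x = 0 ∧ uu p x = x := vu_uniq hp (by simp) h

theorem vu_self {p : ℕ} (hp : p.Prime) : vv p (p : ℤ) = 1 ∧ uu p (p : ℤ) = 1 := by
  apply vu_uniq hp (by simp)
  intro h
  have := Int.isUnit_iff.1 (isUnit_of_dvd_one h)
  have := hp.two_le
  omega

/-- quadratic class of the unit part, written additively -/
def cc (p : ℕ) (x : ℤ) : ZMod 2 := if jacobiSym (uu p x) p = 1 then 0 else 1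

/-- Hilbert symbol at an odd prime, written additively -/
def hs (p : ℕ) (x y : ℤ) : ZMod 2 :=
  ((p / 2 : ℕ) : ZMod 2) * (vv p x : ZMod 2) * (vv p y : ZMod 2) +
    cc p x * (vv p y : ZMod 2) + cc p y * (vv p x : ZMod 2)

/-- class of a unit mod 4 -/
def eps (u : ℤ) : ZMod 2 := if u % 4 = 1 then 0 else 1

/-- class of a unit mod 8 -/
def omg (u : ℤ) : ZMod 2 := if u % 8 = 1 ∨ u % 8 = 7 then 0 else 1

/-- Hilbert symbol at two, written additively -/
def hs2 (x y : ℤ) : ZMod 2 :=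
  eps (uu 2 x) * eps (uu 2 y) + omg (uu 2 x) * (vv 2 y : ZMod 2) +
    omg (uu 2 y) * (vv 2 x : ZMod 2)

theorem jac_unit {p : ℕ} (hp : p.Prime) {u : ℤ} (hu : ¬ (p : ℤ) ∣ u) :
    jacobiSym u p = 1 ∨ jacobiSym u p = -1 := by
  have : Fact p.Prime := ⟨hp⟩
  rw [← jacobiSym.legendreSym.to_jacobiSym]
  apply legendreSym.eq_one_or_neg_one
  rwa [Ne, ZMod.intCast_zmod_eq_zero_iff_dvd]

theorem cc_mul {p : ℕ} (hp : p.Prime) {x y : ℤ} (hx : x ≠ 0) (hy : y ≠ 0) :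
    cc p (x * y) = cc p x + cc p y := by
  unfold cc
  rw [(vu_mul hp hx hy).2, jacobiSym.mul_left]
  rcases jac_unit hp (vu_spec hp hx).2 with h1 | h1 <;>
    rcases jac_unit hp (vu_spec hp hy).2 with h2 | h2 <;> rw [h1, h2] <;> decide

theorem eps_mul {x y : ℤ} (hx : ¬ (2 : ℤ) ∣ x) (hy : ¬ (2 : ℤ) ∣ y) :
    eps (x * y) = eps x + eps y := by
  unfold eps
  have h1 : x % 4 = 1 ∨ x % 4 = 3 := by omega
  have h2 : y % 4 = 1 ∨ y % 4 = 3 := by omega
  rw [Int.mul_emod]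
  rcases h1 with h1 | h1 <;> rcases h2 with h2 | h2 <;> rw [h1, h2] <;> decide

theorem omg_mul {x y : ℤ} (hx : ¬ (2 : ℤ) ∣ x) (hy : ¬ (2 : ℤ) ∣ y) :
    omg (x * y) = omg x + omg y := by
  unfold omg
  have h1 : x % 8 = 1 ∨ x % 8 = 3 ∨ x % 8 = 5 ∨ x % 8 = 7 := by omega
  have h2 : y % 8 = 1 ∨ y % 8 = 3 ∨ y % 8 = 5 ∨ y % 8 = 7 := by omega
  rw [Int.mul_emod]
  rcases h1 with h1 | h1 | h1 | h1 <;> rcases h2 with h2 | h2 | h2 | h2 <;> rw [h1, h2] <;> decide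

theorem hs_mul_left {p : ℕ} (hp : p.Prime) {x y z : ℤ} (hx : x ≠ 0) (hy : y ≠ 0) :
    hs p (x * y) z = hs p x z + hs p y z := by
  unfold hs
  rw [(vu_mul hp hx hy).1, cc_mul hp hx hy]
  push_cast
  ring

theorem hs_comm (p : ℕ) (x y : ℤ) : hs p x y = hs p y x := by
  unfold hs; ring

theorem hs_mul_right {p : ℕ} (hp : p.Prime) {x y z : ℤ} (hx : x ≠ 0) (hy : y ≠ 0) :
    hs p z (x * y) = hs p z x + hs p z y := by
  rw [hs_comm, hs_mul_left hp hx hy, hs_comm p x, hs_comm p y]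

theorem hs2_mul_left {x y z : ℤ} (hx : x ≠ 0) (hy : y ≠ 0) :
    hs2 (x * y) z = hs2 x z + hs2 y z := by
  unfold hs2
  have h1 := vu_mul Nat.prime_two hx hy
  rw [h1.1, h1.2, eps_mul (vu_spec Nat.prime_two hx).2 (vu_spec Nat.prime_two hy).2,
    omg_mul (vu_spec Nat.prime_two hx).2 (vu_spec Nat.prime_two hy).2]
  push_cast
  ring

theorem hs2_comm (x y : ℤ) : hs2 x y = hs2 y x := by
  unfold hs2; ring

theorem hs2_mul_right {x y z : ℤ} (hx : x ≠ 0) (hy : y ≠ 0) :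
    hs2 z (x * y) = hs2 z x + hs2 z y := by
  rw [hs2_comm, hs2_mul_left hx hy, hs2_comm x, hs2_comm y]

theorem hs_unit {p : ℕ} (hp : p.Prime) {x y : ℤ} (hx : ¬ (p : ℤ) ∣ x) (hy : ¬ (p : ℤ) ∣ y) :
    hs p x y = 0 := by
  unfold hs
  rw [(vu_of_not_dvd hp hx).1, (vu_of_not_dvd hp hy).1]
  simp

theorem zmod2_add_self (a : ZMod 2) : a + a = 0 := by
  revert a; decide

theorem zmod2_eq (a b : ZMod 2) (h : a + b = 0) : a = b := by
  revert a b; decide

/-- the total symbol -/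
def tot (T : Finset ℕ) (x y : ℤ) : ZMod 2 := hs2 x y + ∑ p ∈ T, hs p x y

theorem tot_mul_left {T : Finset ℕ} (hT : ∀ p ∈ T, p.Prime) {x y z : ℤ} (hx : x ≠ 0) (hy : y ≠ 0) :
    tot T (x * y) z = tot T x z + tot T y z := by
  unfold tot
  rw [hs2_mul_left hx hy, Finset.sum_congr rfl (fun p hp => hs_mul_left (hT p hp) hx hy),
    Finset.sum_add_distrib]
  ring

theorem tot_comm (T : Finset ℕ) (x y : ℤ) : tot T x y = tot T y x := by
  unfold tot
  rw [hs2_comm, Finset.sum_congr rfl (fun p _ => hs_comm p x y)]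

theorem tot_mul_right {T : Finset ℕ} (hT : ∀ p ∈ T, p.Prime) {x y z : ℤ} (hx : x ≠ 0) (hy : y ≠ 0) :
    tot T z (x * y) = tot T z x + tot T z y := by
  rw [tot_comm, tot_mul_left hT hx hy, tot_comm T x, tot_comm T y]

theorem cc_prime {p : ℕ} (hp : p.Prime) {x : ℤ} (hx : ¬ (p : ℤ) ∣ x) :
    cc p x = if jacobiSym x p = 1 then 0 else 1 := by
  unfold cc
  rw [(vu_of_not_dvd hp hx).2]

theorem eps_odd {p : ℕ} (hp : p % 2 = 1) : eps p = ((p / 2 : ℕ) : ZMod 2) := by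
  unfold eps
  have h : p % 4 = 1 ∨ p % 4 = 3 := by omega
  rcases h with h | h
  · rw [if_pos (by omega), eq_comm, ZMod.natCast_eq_zero_iff]
    omega
  · rw [if_neg (by omega), eq_comm, ← Nat.cast_one, ZMod.natCast_eq_natCast_iff]
    unfold Nat.ModEq; omega

theorem sum_one {T : Finset ℕ} {p : ℕ} (hp : p ∈ T) (f : ℕ → ZMod 2)
    (hf : ∀ r ∈ T, r ≠ p → f r = 0) : ∑ r ∈ T, f r = f p :=
  Finset.sum_eq_single_of_mem p hp hf

theorem hs_away {r : ℕ} (hr : r.Prime) {x y : ℤ} (hx : IsCoprime (r : ℤ) x)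
    (hy : IsCoprime (r : ℤ) y) : hs r x y = 0 := by
  have h1 : ¬ IsUnit (r : ℤ) := (Nat.prime_iff_prime_int.1 hr).not_isUnit
  apply hs_unit hr
  · intro h; exact h1 (hx.isUnit_of_dvd' dvd_rfl h)
  · intro h; exact h1 (hy.isUnit_of_dvd' dvd_rfl h)

theorem coprime_primes {p q : ℕ} (hp : p.Prime) (hq : q.Prime) (h : p ≠ q) :
    IsCoprime (p : ℤ) (q : ℤ) := Nat.isCoprime_iff_coprime.2 ((Nat.coprime_primes hp hq).2 h)

theorem not_dvd_primes {p q : ℕ} (hp : p.Prime) (hq : q.Prime) (h : p ≠ q) :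
    ¬ (p : ℤ) ∣ (q : ℤ) := by
  intro h1
  exact h ((Nat.prime_dvd_prime_iff_eq hp hq).1 (Int.natCast_dvd_natCast.1 h1))

theorem not_dvd_neg_one {p : ℕ} (hp : p.Prime) : ¬ (p : ℤ) ∣ -1 := by
  intro h
  have := Int.isUnit_iff.1 (isUnit_of_dvd_unit h (by simp))
  have := hp.two_le
  omega

theorem odd_of_prime {p : ℕ} (hp : p.Prime) (h2 : p ≠ 2) : p % 2 = 1 :=
  (hp.eq_two_or_odd).resolve_left h2

theorem two_vu : vv 2 (2 : ℤ) = 1 ∧ uu 2 (2 : ℤ) = 1 := vu_self Nat.prime_two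

theorem pow_neg_one_log (n : ℕ) : (n : ZMod 2) = if (-1 : ℤ) ^ n = 1 then 0 else 1 := by
  rcases Nat.even_or_odd n with h | h
  · rw [h.neg_one_pow, if_pos rfl, ZMod.natCast_eq_zero_iff]
    exact h.two_dvd
  · rw [h.neg_one_pow, if_neg (by decide)]
    exact (ZMod.natCast_eq_one_iff_odd).2 h

theorem tot_pq {T : Finset ℕ} (hT : ∀ p ∈ T, p.Prime ∧ p ≠ 2) {p q : ℕ} (hp : p ∈ T) (hq : q ∈ T)
    (hpq : p ≠ q) : tot T p q = 0 := by
  obtain ⟨hp1, hp2⟩ := hT p hp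
  obtain ⟨hq1, hq2⟩ := hT q hq
  have : Fact p.Prime := ⟨hp1⟩
  have : Fact q.Prime := ⟨hq1⟩
  unfold tot
  have h1 : ∑ r ∈ T, hs r p q = hs p p q + hs q p q := by
    rw [Finset.sum_eq_add_of_mem p q hp hq hpq]
    intro r hr h
    exact hs_away (hT r hr).1 (coprime_primes (hT r hr).1 hp1 h.1)
      (coprime_primes (hT r hr).1 hq1 h.2)
  rw [h1]
  have h2p := vu_of_not_dvd Nat.prime_two (not_dvd_primes Nat.prime_two hp1 (Ne.symm hp2))
  have h2q := vu_of_not_dvd Nat.prime_two (not_dvd_primes Nat.prime_two hq1 (Ne.symm hq2))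
  have hpp := vu_self hp1
  have hqq := vu_self hq1
  have hpq' := vu_of_not_dvd hp1 (not_dvd_primes hp1 hq1 hpq)
  have hqp' := vu_of_not_dvd hq1 (not_dvd_primes hq1 hp1 (Ne.symm hpq))
  unfold hs2 hs
  rw [h2p.1, h2p.2, h2q.1, h2q.2, hpp.1, hqq.1, hpq'.1, hqp'.1, eps_odd (odd_of_prime hp1 hp2),
    eps_odd (odd_of_prime hq1 hq2), cc_prime hp1 (not_dvd_primes hp1 hq1 hpq),
    cc_prime hq1 (not_dvd_primes hq1 hp1 (Ne.symm hpq))]
  have hqr := legendreSym.quadratic_reciprocity hp2 hq2 hpq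
  rw [jacobiSym.legendreSym.to_jacobiSym, jacobiSym.legendreSym.to_jacobiSym, pow_mul] at hqr
  have h3 := pow_neg_one_log (p / 2 * (q / 2))
  rw [pow_mul] at h3
  rw [← hqr] at h3
  rw [Nat.cast_mul] at h3
  generalize cc p (p : ℤ) = x1
  generalize cc q (q : ℤ) = x2
  generalize omg (p : ℤ) = x3
  generalize omg (q : ℤ) = x4
  generalize ((p / 2 : ℕ) : ZMod 2) = x5 at h3 ⊢
  generalize ((q / 2 : ℕ) : ZMod 2) = x6 at h3 ⊢
  rcases jac_unit hp1 (not_dvd_primes hp1 hq1 hpq) with h4 | h4 <;>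
    rcases jac_unit hq1 (not_dvd_primes hq1 hp1 (Ne.symm hpq)) with h5 | h5 <;>
    rw [h4, h5] at h3 <;> rw [h4, h5] <;> revert x1 x2 x3 x4 x5 x6 <;> decide

theorem tot_pp {T : Finset ℕ} (hT : ∀ p ∈ T, p.Prime ∧ p ≠ 2) {p : ℕ} (hp : p ∈ T) :
    tot T p p = 0 := by
  obtain ⟨hp1, hp2⟩ := hT p hp
  unfold tot
  rw [sum_one hp (fun r => hs r p p) (fun r hr h => hs_away (hT r hr).1
    (coprime_primes (hT r hr).1 hp1 h) (coprime_primes (hT r hr).1 hp1 h))]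
  have h2p := vu_of_not_dvd Nat.prime_two (not_dvd_primes Nat.prime_two hp1 (Ne.symm hp2))
  have hpp := vu_self hp1
  unfold hs2 hs
  rw [h2p.1, h2p.2, hpp.1, eps_odd (odd_of_prime hp1 hp2)]
  generalize ((p / 2 : ℕ) : ZMod 2) = a
  generalize cc p (p : ℤ) = b
  generalize omg (p : ℤ) = c
  revert a b c
  decide

theorem tot_p2 {T : Finset ℕ} (hT : ∀ p ∈ T, p.Prime ∧ p ≠ 2) {p : ℕ} (hp : p ∈ T) :
    tot T p 2 = 0 := by
  obtain ⟨hp1, hp2⟩ := hT p hp
  have : Fact p.Prime := ⟨hp1⟩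
  unfold tot
  rw [sum_one hp (fun r => hs r p 2) (fun r hr h => hs_away (hT r hr).1
    (coprime_primes (hT r hr).1 hp1 h)
    (by have := coprime_primes (hT r hr).1 Nat.prime_two (hT r hr).2; exact_mod_cast this))]
  have h2p := vu_of_not_dvd Nat.prime_two (not_dvd_primes Nat.prime_two hp1 (Ne.symm hp2))
  have hpp := vu_self hp1
  have h2 := two_vu
  have hnd : ¬ (p : ℤ) ∣ 2 := by
    have := not_dvd_primes hp1 Nat.prime_two hp2; exact_mod_cast this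
  have hp2' := vu_of_not_dvd hp1 hnd
  unfold hs2 hs
  rw [h2p.1, h2p.2, hpp.1, h2.1, h2.2, hp2'.1, cc_prime hp1 hnd,
    ← jacobiSym.legendreSym.to_jacobiSym, legendreSym.at_two hp2, ZMod.χ₈_nat_eq_if_mod_eight]
  have h3 := odd_of_prime hp1 hp2
  unfold omg eps
  have h4 : p % 8 = 1 ∨ p % 8 = 3 ∨ p % 8 = 5 ∨ p % 8 = 7 := by omega
  rcases h4 with h4 | h4 | h4 | h4
  · have h5 : (p : ℤ) % 8 = 1 := by omega
    rw [h5, h4, h3]; simp
  · have h5 : (p : ℤ) % 8 = 3 := by omega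
    rw [h5, h4, h3]; simp; decide
  · have h5 : (p : ℤ) % 8 = 5 := by omega
    rw [h5, h4, h3]; simp; decide
  · have h5 : (p : ℤ) % 8 = 7 := by omega
    rw [h5, h4, h3]; simp

theorem tot_pm {T : Finset ℕ} (hT : ∀ p ∈ T, p.Prime ∧ p ≠ 2) {p : ℕ} (hp : p ∈ T) :
    tot T p (-1) = 0 := by
  obtain ⟨hp1, hp2⟩ := hT p hp
  have : Fact p.Prime := ⟨hp1⟩
  unfold tot
  rw [sum_one hp (fun r => hs r p (-1)) (fun r hr h => hs_away (hT r hr).1
    (coprime_primes (hT r hr).1 hp1 h) (isCoprime_one_right.neg_right))]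
  have h2p := vu_of_not_dvd Nat.prime_two (not_dvd_primes Nat.prime_two hp1 (Ne.symm hp2))
  have hpp := vu_self hp1
  have hm := vu_of_not_dvd Nat.prime_two (not_dvd_neg_one Nat.prime_two)
  have hmp := vu_of_not_dvd hp1 (not_dvd_neg_one hp1)
  unfold hs2 hs
  rw [h2p.1, h2p.2, hpp.1, hm.1, hm.2, hmp.1, cc_prime hp1 (not_dvd_neg_one hp1),
    ← jacobiSym.legendreSym.to_jacobiSym, legendreSym.at_neg_one hp2, ZMod.χ₄_nat_eq_if_mod_four]
  have h3 := odd_of_prime hp1 hp2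
  unfold eps
  have h4 : p % 4 = 1 ∨ p % 4 = 3 := by omega
  rcases h4 with h4 | h4
  · have h5 : (p : ℤ) % 4 = 1 := by omega
    rw [h5, h4, h3]; simp
  · have h5 : (p : ℤ) % 4 = 3 := by omega
    rw [h5, h4, h3]; simp; decide

theorem hs2_22 : hs2 2 2 = 0 := by
  unfold hs2
  rw [two_vu.1, two_vu.2]
  decide

theorem hs2_2m : hs2 2 (-1) = 0 := by
  have hm := vu_of_not_dvd Nat.prime_two (not_dvd_neg_one Nat.prime_two)
  unfold hs2
  rw [two_vu.1, two_vu.2, hm.1, hm.2]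
  decide

theorem tot_22 {T : Finset ℕ} (hT : ∀ p ∈ T, p.Prime ∧ p ≠ 2) : tot T 2 2 = 0 := by
  unfold tot
  rw [hs2_22, zero_add]
  apply Finset.sum_eq_zero
  intro r hr
  have := coprime_primes (hT r hr).1 Nat.prime_two (hT r hr).2
  exact hs_away (hT r hr).1 (by exact_mod_cast this) (by exact_mod_cast this)

theorem tot_2m {T : Finset ℕ} (hT : ∀ p ∈ T, p.Prime ∧ p ≠ 2) : tot T 2 (-1) = 0 := by
  unfold tot
  rw [hs2_2m, zero_add]
  apply Finset.sum_eq_zero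
  intro r hr
  have := coprime_primes (hT r hr).1 Nat.prime_two (hT r hr).2
  exact hs_away (hT r hr).1 (by exact_mod_cast this) isCoprime_one_right.neg_right

theorem tot_one_left {T : Finset ℕ} (hT : ∀ p ∈ T, p.Prime ∧ p ≠ 2) (x : ℤ) : tot T 1 x = 0 := by
  have h := tot_mul_left (T := T) (fun p hp => (hT p hp).1) (x := 1) (y := 1) (z := x)
    one_ne_zero one_ne_zero
  rw [mul_one] at h
  generalize tot T 1 x = a at h
  revert a; decide

/-- product formula for primes times integers -/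
theorem tot_prime {T : Finset ℕ} (hT : ∀ p ∈ T, p.Prime ∧ p ≠ 2) {p : ℕ} (hp : p ∈ T ∨ p = 2)
    (n : ℕ) : (∀ q : ℕ, q.Prime → q ≠ 2 → q ∣ n → q ∈ T) → n ≠ 0 →
      tot T p n = 0 := by
  have hTp : ∀ p ∈ T, p.Prime := fun p hp => (hT p hp).1
  induction n using induction_on_primes with
  | zero => intro _ h; exact absurd rfl h
  | one => intro _ _; rw [tot_comm, Nat.cast_one]; exact tot_one_left hT _
  | prime_mul q n hq ih =>
    intro h1 h2
    have hn : n ≠ 0 := by rintro rfl; simp at h2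
    have h3 := ih (fun r hr hr2 hrn => h1 r hr hr2 (Dvd.dvd.mul_left hrn q)) hn
    push_cast
    rw [tot_mul_right hTp (by exact_mod_cast hq.ne_zero) (by exact_mod_cast hn), h3, add_zero]
    by_cases hq2 : q = 2
    · subst hq2
      rcases hp with hp | hp
      · exact_mod_cast tot_p2 hT hp
      · subst hp; exact_mod_cast tot_22 hT
    · have hqT : q ∈ T := h1 q hq hq2 (dvd_mul_right q n)
      rcases hp with hp | hp
      · by_cases hpq : p = q
        · subst hpq; exact tot_pp hT hp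
        · exact tot_pq hT hp hqT hpq
      · subst hp
        rw [tot_comm]
        exact_mod_cast tot_p2 hT hqT

/-- the product formula -/
theorem product_formula {T : Finset ℕ} (hT : ∀ p ∈ T, p.Prime ∧ p ≠ 2) (a : ℕ) {b : ℤ}
    (hb : b ≠ 0) (hbT : ∀ q : ℕ, q.Prime → q ≠ 2 → (q : ℤ) ∣ b → q ∈ T) :
    (∀ q : ℕ, q.Prime → q ≠ 2 → q ∣ a → q ∈ T) → a ≠ 0 → tot T a b = 0 := by
  have hTp : ∀ p ∈ T, p.Prime := fun p hp => (hT p hp).1
  induction a using induction_on_primes with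
  | zero => intro _ h; exact absurd rfl h
  | one => intro _ _; rw [Nat.cast_one]; exact tot_one_left hT _
  | prime_mul p n hp ih =>
    intro h1 h2
    have hn : n ≠ 0 := by rintro rfl; simp at h2
    have h3 := ih (fun r hr hr2 hrn => h1 r hr hr2 (Dvd.dvd.mul_left hrn p)) hn
    push_cast
    rw [tot_mul_left hTp (by exact_mod_cast hp.ne_zero) (by exact_mod_cast hn), h3, add_zero]
    have hpT : p ∈ T ∨ p = 2 := by
      by_cases h : p = 2
      · exact Or.inr h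
      · exact Or.inl (h1 p hp h (dvd_mul_right p n))
    have hbn : b.natAbs ≠ 0 := by simpa using hb
    have h4 := tot_prime hT hpT b.natAbs (fun q hq hq2 hqb => hbT q hq hq2 (by
      exact Int.natCast_dvd.2 hqb)) hbn
    rcases Int.natAbs_eq b with h | h
    · rw [h]; exact h4
    · rw [h, ← neg_one_mul, tot_mul_right hTp (by norm_num) (by exact_mod_cast hbn), h4, add_zero]
      rcases hpT with hpT | hpT
      · exact tot_pm hT hpT
      · subst hpT; exact_mod_cast tot_2m hT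

end Pool.Agent.H89.NumQ
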