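import Mathlib
import Pool.Agent.H89.NumQ1

set_option autoImplicit false

namespace Pool.Agent.H89.NumQ

/-- `b` is of the form `x ^ 2 - a * y ^ 2` -/
def IsN (a b : ℚ) : Prop := ∃ x y : ℚ, b = x ^ 2 - a * y ^ 2

theorem IsN.mul {a b c : ℚ} (h1 : IsN a b) (h2 : IsN a c) : IsN a (b * c) := by
  obtain ⟨x, y, rfl⟩ := h1
  obtain ⟨z, w, rfl⟩ := h2
  exact ⟨x * z + a * y * w, x * w + y * z, by ring⟩

theorem IsN.inv {a b : ℚ} (h : IsN a b) : IsN a b⁻¹ := by
  by_cases hb : b = 0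
  · rw [hb, inv_zero]; exact ⟨0, 0, by ring⟩
  · obtain ⟨x, y, h⟩ := h
    refine ⟨x / b, y / b, ?_⟩
    have : (x / b) ^ 2 - a * (y / b) ^ 2 = (x ^ 2 - a * y ^ 2) / b ^ 2 := by ring
    rw [this, ← h]
    field_simp

theorem IsN.sq (a k : ℚ) : IsN a (k ^ 2) := ⟨k, 0, by ring⟩

theorem IsN.of_sq {t : ℚ} (ht : t ≠ 0) (b : ℚ) : IsN (t ^ 2) b :=
  ⟨(b + 1) / 2, (b - 1) / (2 * t), by field_simp; ring⟩

theorem IsN.symm {a b : ℚ} (hb : b ≠ 0) (h : IsN a b) : IsN b a := by
  obtain ⟨x, y, h⟩ := h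
  by_cases hy : y = 0
  · subst hy
    have hb2 : b = x ^ 2 := by linear_combination h
    rw [hb2]
    apply IsN.of_sq
    rintro rfl
    apply hb; rw [hb2]; ring
  · refine ⟨x / y, 1 / y, ?_⟩
    rw [h]
    field_simp
    ring

/-- classes agree -/
theorem cc_of_sq_mod {p : ℕ} (hp : p.Prime) {x t : ℤ} (hx : ¬ (p : ℤ) ∣ x)
    (h : (p : ℤ) ∣ t ^ 2 - x) : jacobiSym x p = 1 := by
  have ht : ¬ (p : ℤ) ∣ t := by
    intro h1
    apply hx
    have h2 : (p : ℤ) ∣ t ^ 2 := Dvd.dvd.pow h1 (by norm_num)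
    have h3 := dvd_sub h2 h
    have h4 : t ^ 2 - (t ^ 2 - x) = x := by ring
    rwa [h4] at h3
  have h3 : x % (p : ℤ) = t ^ 2 % (p : ℤ) := (Int.modEq_iff_dvd).2 h
  rw [jacobiSym.mod_left' h3, jacobiSym.pow_left]
  rcases jac_unit hp ht with h | h <;> rw [h] <;> norm_num

theorem hs_norm {p : ℕ} (hp : p.Prime) (h2 : p ≠ 2) {a t : ℤ} (ha : Squarefree a)
    (h : t ^ 2 - a ≠ 0) : hs p a (t ^ 2 - a) = 0 := by
  have ha0 : a ≠ 0 := ha.ne_zero
  have hpz : Prime (p : ℤ) := Nat.prime_iff_prime_int.1 hp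
  by_cases hpa : (p : ℤ) ∣ a
  · obtain ⟨a', ha'⟩ := hpa
    have hpa' : ¬ (p : ℤ) ∣ a' := by
      rintro ⟨c, hc⟩
      apply hpz.not_isUnit
      apply ha
      exact ⟨c, by rw [ha', hc]; ring⟩
    have h3 := vu_uniq hp (x := a) (u := a') (k := 1) (by rw [ha']; ring) hpa'
    have hcca : cc p a = if jacobiSym a' p = 1 then 0 else 1 := by unfold cc; rw [h3.2]
    by_cases hpt : (p : ℤ) ∣ t
    · obtain ⟨t', ht'⟩ := hpt
      have h4 : ¬ (p : ℤ) ∣ (p * t' ^ 2 - a') := by
        intro h5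
        apply hpa'
        have h6 := dvd_sub (dvd_mul_right (p : ℤ) (t' ^ 2)) h5
        have h7 : (p : ℤ) * t' ^ 2 - (p * t' ^ 2 - a') = a' := by ring
        rwa [h7] at h6
      have h5 := vu_uniq hp (x := t ^ 2 - a) (u := p * t' ^ 2 - a') (k := 1)
        (by rw [ha', ht']; ring) h4
      have hccn : cc p (t ^ 2 - a) = if jacobiSym (-a') p = 1 then 0 else 1 := by
        unfold cc
        rw [h5.2]
        have : jacobiSym (p * t' ^ 2 - a') p = jacobiSym (-a') p := by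
          apply jacobiSym.mod_left'
          exact (Int.modEq_iff_dvd).2 ⟨-t' ^ 2, by ring⟩
        rw [this]
      unfold hs
      rw [h3.1, h5.1, hcca, hccn]
      have hp2 := odd_of_prime hp h2
      have : Fact p.Prime := ⟨hp⟩
      have hm : jacobiSym (-a') p = jacobiSym (-1) p * jacobiSym a' p := by
        rw [← jacobiSym.mul_left]; congr 1; ring
      have hm1 : jacobiSym (-1) p = (-1) ^ (p / 2) := by
        rw [← jacobiSym.legendreSym.to_jacobiSym, legendreSym.at_neg_one h2,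
          ZMod.χ₄_eq_neg_one_pow hp2]
      rw [hm, hm1, pow_neg_one_log (p / 2)]
      rcases jac_unit hp hpa' with h6 | h6 <;> rcases Nat.even_or_odd (p / 2) with h7 | h7 <;>
        rw [h6, h7.neg_one_pow] <;> decide
    · have h4 : ¬ (p : ℤ) ∣ (t ^ 2 - a) := by
        intro h5
        apply hpt
        have h6 : (p : ℤ) ∣ t ^ 2 := by
          have := dvd_add h5 (show (p : ℤ) ∣ a from ⟨a', ha'⟩)
          have h7 : t ^ 2 - a + a = t ^ 2 := by ring
          rwa [h7] at this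
        exact hpz.dvd_of_dvd_pow h6
      have h5 := vu_of_not_dvd hp h4
      have hccn : cc p (t ^ 2 - a) = 0 := by
        unfold cc
        rw [h5.2, if_pos]
        apply cc_of_sq_mod hp h4 (t := t)
        exact ⟨a', by rw [ha']; ring⟩
      unfold hs
      rw [h5.1, hccn]; simp
  · have h3 := vu_of_not_dvd hp hpa
    unfold hs
    rw [h3.1]
    by_cases hn : (p : ℤ) ∣ (t ^ 2 - a)
    · have hcca : cc p a = 0 := by
        unfold cc
        rw [h3.2, if_pos (cc_of_sq_mod hp hpa hn)]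
      rw [hcca]; simp
    · rw [(vu_of_not_dvd hp hn).1]; simp

theorem cc_sq {p : ℕ} (hp : p.Prime) {k : ℤ} (hk : k ≠ 0) : cc p (k ^ 2) = 0 := by
  rw [pow_two, cc_mul hp hk hk, zmod2_add_self]

theorem hs_sq_left {p : ℕ} (hp : p.Prime) {k x : ℤ} (hk : k ≠ 0) : hs p (k ^ 2) x = 0 := by
  rw [pow_two, hs_mul_left hp hk hk, zmod2_add_self]

theorem pos_of_mul_pos_left' {a b : ℤ} (h : 0 < a * b) (ha : 0 ≤ a) : 0 < b := by
  by_contra hb
  push Not at hb
  have := mul_nonpos_of_nonneg_of_nonpos ha hb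
  omega

theorem exists_sqrt_mod {b a : ℤ} (hb : Squarefree b)
    (h : ∀ p : ℕ, p.Prime → (p : ℤ) ∣ b → ∃ t : ℤ, (p : ℤ) ∣ t ^ 2 - a) :
    ∃ t : ℤ, b ∣ t ^ 2 - a := by
  classical
  have hbn : Squarefree b.natAbs := Int.squarefree_natAbs.2 hb
  have hb0 : b.natAbs ≠ 0 := hbn.ne_zero
  have h1 : ∀ p : ℕ, ∃ t : ℕ, p.Prime → (p : ℤ) ∣ b → (p : ℤ) ∣ (t : ℤ) ^ 2 - a := by
    intro p
    by_cases hp : p.Prime ∧ (p : ℤ) ∣ b
    · obtain ⟨t, ht⟩ := h p hp.1 hp.2
      have hp0 : (p : ℤ) ≠ 0 := by exact_mod_cast hp.1.ne_zero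
      refine ⟨(t % p).toNat, fun _ _ => ?_⟩
      rw [Int.toNat_of_nonneg (Int.emod_nonneg _ hp0)]
      have h2 : (p : ℤ) ∣ t - t % p := Int.dvd_self_sub_emod
      have h3 : (t % p) ^ 2 - a = (t ^ 2 - a) - (t - t % p) * (t + t % p) := by ring
      rw [h3]
      exact dvd_sub ht (Dvd.dvd.mul_right h2 _)
    · exact ⟨0, fun h3 h4 => absurd ⟨h3, h4⟩ hp⟩
  choose t ht using h1
  obtain ⟨k, hk⟩ := Nat.chineseRemainderOfFinset t id b.natAbs.primeFactors
    (fun i hi => (Nat.prime_of_mem_primeFactors hi).ne_zero)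
    (by
      intro p hp q hq hpq
      exact (Nat.coprime_primes (Nat.prime_of_mem_primeFactors hp)
        (Nat.prime_of_mem_primeFactors hq)).2 hpq)
  refine ⟨k, ?_⟩
  rw [← Int.natAbs_dvd_natAbs]
  rw [← Nat.prod_primeFactors_of_squarefree hbn]
  apply Finset.prod_primes_dvd
  · intro p hp
    exact (Nat.prime_of_mem_primeFactors hp).prime
  · intro p hp
    have hpp := Nat.prime_of_mem_primeFactors hp
    have hpb : (p : ℤ) ∣ b := Int.natCast_dvd.2 (Nat.dvd_of_mem_primeFactors hp)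
    have h5 := hk p hp
    have h6 := ht p hpp hpb
    rw [← Int.natCast_dvd]
    have h7 : (p : ℤ) ∣ (k : ℤ) - t p := by
      have := (Nat.modEq_iff_dvd.1 h5.symm)
      exact_mod_cast this
    have h8 : (k : ℤ) ^ 2 - a = ((t p : ℤ) ^ 2 - a) + ((k : ℤ) - t p) * (k + t p) := by ring
    rw [h8]
    exact dvd_add h6 (Dvd.dvd.mul_right h7 _)

theorem int_sq_mul_squarefree {n : ℤ} (hn : n ≠ 0) :
    ∃ k m : ℤ, n = k ^ 2 * m ∧ Squarefree m ∧ k ≠ 0 ∧ m.natAbs ≤ n.natAbs := by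
  obtain ⟨a, b, h1, h2⟩ := Nat.sq_mul_squarefree n.natAbs
  have hb : b ≠ 0 := by
    rintro rfl
    apply hn
    rw [← Int.natAbs_eq_zero, ← h1]; ring
  have hle : a ≤ n.natAbs := by
    rw [← h1]
    exact Nat.le_mul_of_pos_left a (by positivity)
  rcases Int.natAbs_eq n with h | h
  · refine ⟨b, a, ?_, ?_, by exact_mod_cast hb, ?_⟩
    · rw [h, ← h1]; push_cast; ring
    · rw [← Int.squarefree_natAbs]; exact h2
    · simpa using hle
  · refine ⟨b, -a, ?_, ?_, by exact_mod_cast hb, ?_⟩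
    · rw [h, ← h1]; push_cast; ring
    · rw [← Int.squarefree_natAbs]; simpa using h2
    · simpa using hle

theorem isSq_mod_of_hs {p : ℕ} (hp : p.Prime) {a b : ℤ} (hb : Squarefree b)
    (hpb : (p : ℤ) ∣ b) (h : p ≠ 2 → hs p a b = 0) : ∃ t : ℤ, (p : ℤ) ∣ t ^ 2 - a := by
  by_cases hpa : (p : ℤ) ∣ a
  · exact ⟨0, by simpa using hpa⟩
  by_cases hp2 : p = 2
  · subst hp2
    refine ⟨1, ?_⟩
    have : ¬ (2 : ℤ) ∣ a := hpa
    push_cast
    omega
  have h1 := h hp2
  obtain ⟨b', hb'⟩ := hpb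
  have hpb' : ¬ (p : ℤ) ∣ b' := by
    rintro ⟨c, hc⟩
    apply (Nat.prime_iff_prime_int.1 hp).not_isUnit
    apply hb
    exact ⟨c, by rw [hb', hc]; ring⟩
  have h3 := vu_uniq hp (x := b) (u := b') (k := 1) (by rw [hb']; ring) hpb'
  have h4 := vu_of_not_dvd hp hpa
  unfold hs at h1
  rw [h3.1, h4.1, cc_prime hp hpa] at h1
  have h5 : jacobiSym a p = 1 := by
    by_contra h6
    rw [if_neg h6] at h1
    simp at h1
  have : Fact p.Prime := ⟨hp⟩
  obtain ⟨r, hr⟩ := ZMod.isSquare_of_jacobiSym_eq_one h5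
  refine ⟨r.val, ?_⟩
  rw [← ZMod.intCast_zmod_eq_zero_iff_dvd]
  push_cast
  rw [ZMod.natCast_zmod_val, hr]
  ring

theorem legendre_aux (n : ℕ) : ∀ a b : ℤ, a.natAbs + b.natAbs ≤ n → Squarefree a → Squarefree b →
    (0 < a ∨ 0 < b) → (∀ p : ℕ, p.Prime → p ≠ 2 → hs p a b = 0) → IsN a b := by
  induction n with
  | zero =>
    intro a b h ha hb
    exact absurd (by omega) ha.ne_zero
  | succ n ih =>
    -- the main step, under `|a| ≤ |b|`
    have main : ∀ a b : ℤ, a.natAbs ≤ b.natAbs → a.natAbs + b.natAbs ≤ n + 1 → Squarefree a →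
        Squarefree b → (0 < a ∨ 0 < b) → (∀ p : ℕ, p.Prime → p ≠ 2 → hs p a b = 0) →
        IsN a b := by
      intro a b hab hn ha hb hpos hsy
      have ha0 := ha.ne_zero
      have hb0 := hb.ne_zero
      by_cases hb1 : b = 1
      · subst hb1; exact ⟨1, 0, by push_cast; ring⟩
      by_cases ha1 : a = 1
      · subst ha1
        have := IsN.of_sq (t := 1) one_ne_zero (b : ℚ)
        simpa using this
      have hb2 : 2 ≤ b.natAbs := by
        rcases hpos with h | h <;> omega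
      obtain ⟨t0, ht0⟩ := exists_sqrt_mod hb (fun p hp hpb => isSq_mod_of_hs hp hb hpb
        (fun h => hsy p hp h))
      obtain ⟨t, ht, htb⟩ : ∃ t : ℤ, b ∣ t ^ 2 - a ∧ 2 * t.natAbs ≤ b.natAbs := by
        refine ⟨t0.bmod b.natAbs, ?_, ?_⟩
        · have h1 : (b.natAbs : ℤ) ∣ t0.bmod b.natAbs - t0 := Int.dvd_bmod_sub_self
          have h2 : b ∣ t0.bmod b.natAbs - t0 := Int.natAbs_dvd.1 h1
          have h3 : (t0.bmod b.natAbs) ^ 2 - a =
            (t0 ^ 2 - a) + (t0.bmod b.natAbs - t0) * (t0.bmod b.natAbs + t0) := by ring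
          rw [h3]
          exact dvd_add ht0 (Dvd.dvd.mul_right h2 _)
        · have h1 := Int.le_bmod (x := t0) (m := b.natAbs) (by omega)
          have h2 := Int.bmod_le (x := t0) (m := b.natAbs) (by omega)
          omega
      obtain ⟨b', hb'⟩ := ht
      by_cases hb'0 : b' = 0
      · rw [hb'0, mul_zero] at hb'
        have h1 : (a : ℚ) = (t : ℚ) ^ 2 := by
          have : a = t ^ 2 := by linarith
          exact_mod_cast this
        rw [h1]
        apply IsN.of_sq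
        intro h2
        apply ha0
        have h3 : (a : ℚ) = 0 := by rw [h1, h2]; ring
        exact_mod_cast h3
      have hlt : b'.natAbs < b.natAbs := by
        have h1 : b.natAbs * b'.natAbs ≤ t.natAbs ^ 2 + a.natAbs := by
          rw [← Int.natAbs_mul, ← hb']
          calc (t ^ 2 - a).natAbs ≤ (t ^ 2).natAbs + a.natAbs := Int.natAbs_sub_le _ _
            _ = t.natAbs ^ 2 + a.natAbs := by rw [Int.natAbs_pow]
        by_contra h2
        push Not at h2
        have h3 : b.natAbs * b.natAbs ≤ b.natAbs * b'.natAbs := Nat.mul_le_mul_left _ h2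
        have h4 : 4 * t.natAbs ^ 2 ≤ b.natAbs ^ 2 := by
          calc 4 * t.natAbs ^ 2 = (2 * t.natAbs) ^ 2 := by ring
            _ ≤ b.natAbs ^ 2 := Nat.pow_le_pow_left htb 2
        nlinarith
      obtain ⟨k, m, hkm, hm, hk, hmle⟩ := int_sq_mul_squarefree hb'0
      have hm0 := hm.ne_zero
      have hih : IsN a m := by
        apply ih a m (by omega) ha hm
        · by_cases ha' : 0 < a
          · exact Or.inl ha'
          · right
            have hbpos : 0 < b := hpos.resolve_left ha'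
            have h1 : 0 < b * b' := by
              rw [← hb']
              have : a < 0 := by omega
              nlinarith [sq_nonneg t]
            have h2 : 0 < b' := pos_of_mul_pos_left' h1 hbpos.le
            rw [hkm] at h2
            exact pos_of_mul_pos_left' h2 (sq_nonneg k)
        · intro p hp hp2
          have h1 := hs_norm hp hp2 ha (t := t) (by rw [hb']; exact mul_ne_zero hb0 hb'0)
          rw [hb', hs_mul_right hp hb0 hb'0, hsy p hp hp2, zero_add, hkm,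
            hs_mul_right hp (pow_ne_zero 2 hk) hm0, hs_comm, hs_sq_left hp hk, zero_add] at h1
          exact h1
      -- conclude
      have h1 : IsN a ((b : ℚ) * b') := by
        refine ⟨t, 1, ?_⟩
        have : (b : ℚ) * b' = (t : ℚ) ^ 2 - a := by exact_mod_cast hb'.symm
        rw [this]; ring
      have h2 : IsN a (b' : ℚ) := by
        rw [hkm]; push_cast
        exact (IsN.sq _ _).mul hih
      have h3 := h1.mul h2.inv
      have h4 : (b : ℚ) * b' * (b' : ℚ)⁻¹ = b := by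
        have : (b' : ℚ) ≠ 0 := by exact_mod_cast hb'0
        field_simp
      rwa [h4] at h3
    intro a b hn ha hb hpos hsy
    rcases le_total a.natAbs b.natAbs with h | h
    · exact main a b h hn ha hb hpos hsy
    · refine IsN.symm ?_ (main b a h (by omega) hb ha hpos.symm ?_)
      · exact_mod_cast ha.ne_zero
      · intro p hp hp2; rw [hs_comm]; exact hsy p hp hp2

theorem legendre {a b : ℤ} (ha : a ≠ 0) (hb : b ≠ 0) (hpos : 0 < a ∨ 0 < b)
    (h : ∀ p : ℕ, p.Prime → p ≠ 2 → hs p a b = 0) : IsN a b := by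
  obtain ⟨k, m, hkm, hm, hk, -⟩ := int_sq_mul_squarefree ha
  obtain ⟨k', m', hkm', hm', hk', -⟩ := int_sq_mul_squarefree hb
  have hm0 := hm.ne_zero
  have hm0' := hm'.ne_zero
  have h1 : IsN m m' := by
    apply legendre_aux _ m m' le_rfl hm hm'
    · rcases hpos with h1 | h1
      · left; rw [hkm] at h1; exact pos_of_mul_pos_left' h1 (sq_nonneg k)
      · right; rw [hkm'] at h1; exact pos_of_mul_pos_left' h1 (sq_nonneg k')
    · intro p hp hp2
      have h1 := h p hp hp2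
      rw [hkm, hkm', hs_mul_left hp (pow_ne_zero 2 hk) hm0, hs_sq_left hp hk, zero_add,
        hs_mul_right hp (pow_ne_zero 2 hk') hm0', hs_comm, hs_sq_left hp hk', zero_add] at h1
      exact h1
  obtain ⟨x, y, hxy⟩ := h1
  refine ⟨k' * x, k' * y / k, ?_⟩
  have hk0 : (k : ℚ) ≠ 0 := by exact_mod_cast hk
  rw [hkm, hkm']
  push_cast
  rw [hxy]
  field_simp

end Pool.Agent.H89.NumQ
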