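import Mathlib
import Pool.Agent.H89.NumQ2

set_option autoImplicit false

namespace Pool.Agent.H89.NumQ

theorem local_odd : ∀ (e va ca vb cb vd cd : ZMod 2),
    (e * va * vb + ca * vb + cb * va = 1 → ¬ (vd = 0 ∧ cd = 0)) →
    ∃ vs cs : ZMod 2,
      e * va * (vb + vs) + ca * (vb + vs) + (cb + cs) * va = 0 ∧
      e * (va + vd) * (vd + vs) + (ca + cd) * (vd + vs) + (cd + cs) * (va + vd) = 0 := by
  decide

set_option maxRecDepth 100000 in
theorem local_two : ∀ (va ea oa vb eb ob vd ed od : ZMod 2),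
    (ea * eb + oa * vb + ob * va = 1 → ¬ (vd = 0 ∧ ed = 0 ∧ od = 0)) →
    ∃ vs es os : ZMod 2,
      ea * (eb + es) + oa * (vb + vs) + (ob + os) * va = 0 ∧
      (ea + ed) * (ed + es) + (oa + od) * (vd + vs) + (od + os) * (va + vd) = 0 := by
  decide

theorem cc_congr {p : ℕ} (hp : p.Prime) {x y : ℤ} (hx : ¬ (p : ℤ) ∣ x) (hy : ¬ (p : ℤ) ∣ y)
    (h : x % (p : ℤ) = y % (p : ℤ)) : cc p x = cc p y := by
  rw [cc_prime hp hx, cc_prime hp hy, jacobiSym.mod_left' h]

theorem eps_congr {x y : ℤ} (h : x % 8 = y % 8) : eps x = eps y := by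
  unfold eps
  have : x % 4 = y % 4 := by omega
  rw [this]

theorem omg_congr {x y : ℤ} (h : x % 8 = y % 8) : omg x = omg y := by
  unfold omg
  rw [h]

theorem exists_unit_odd {p : ℕ} (hp : p.Prime) (hp2 : p ≠ 2) (c : ZMod 2) :
    ∃ r : ℕ, ¬ p ∣ r ∧ cc p (r : ℤ) = c := by
  have : Fact p.Prime := ⟨hp⟩
  have hc : c = 0 ∨ c = 1 := by revert c; decide
  have h1 : ¬ p ∣ 1 := fun h => hp.one_lt.ne' (Nat.dvd_one.1 h)
  rcases hc with rfl | rfl
  · refine ⟨1, h1, ?_⟩
    rw [cc_prime hp (by exact_mod_cast h1)]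
    simp
  · obtain ⟨a, ha⟩ := FiniteField.exists_nonsquare (F := ZMod p) (by rwa [ZMod.ringChar_zmod_n])
    have ha0 : a ≠ 0 := by rintro rfl; exact ha ⟨0, by simp⟩
    have h2 : ¬ p ∣ a.val := by
      intro h
      apply ha0
      rw [← ZMod.natCast_zmod_val a]
      exact (ZMod.natCast_eq_zero_iff _ _).2 h
    refine ⟨a.val, h2, ?_⟩
    rw [cc_prime hp (by exact_mod_cast h2), if_neg]
    intro h
    have h3 := ZMod.isSquare_of_jacobiSym_eq_one h
    apply ha
    simpa using h3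

theorem exists_unit_two (e o : ZMod 2) : ∃ r : ℕ, r % 2 = 1 ∧ eps r = e ∧ omg r = o := by
  have he : e = 0 ∨ e = 1 := by revert e; decide
  have ho : o = 0 ∨ o = 1 := by revert o; decide
  rcases he with rfl | rfl <;> rcases ho with rfl | rfl
  · exact ⟨1, by decide⟩
  · exact ⟨5, by decide⟩
  · exact ⟨7, by decide⟩
  · exact ⟨3, by decide⟩

theorem exists_s (T : Finset ℕ) (hT : ∀ p ∈ T, p.Prime ∧ p ≠ 2) (vp cp : ℕ → ZMod 2)
    (v2 e2 o2 : ZMod 2) : ∃ s q : ℕ, q.Prime ∧ q ≠ 2 ∧ q ∉ T ∧ 0 < s ∧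
      (∀ p ∈ T, (vv p s : ZMod 2) = vp p ∧ cc p s = cp p) ∧
      ((vv 2 s : ZMod 2) = v2 ∧ eps (uu 2 s) = e2 ∧ omg (uu 2 s) = o2) ∧
      (∀ r : ℕ, r.Prime → r ∣ s → r = 2 ∨ r ∈ T ∨ r = q) := by
  classical
  have h2T : 2 ∉ T := fun h => (hT 2 h).2 rfl
  set I : Finset ℕ := insert 2 T with hI
  have hIp : ∀ p ∈ I, p.Prime := by
    intro p hp
    rcases Finset.mem_insert.1 hp with h | h
    · rw [h]; exact Nat.prime_two
    · exact (hT p h).1
  let ex : ℕ → ℕ := fun p => if p = 2 then v2.val else (vp p).val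
  let m : ℕ := ∏ r ∈ I, r ^ ex r
  let mm : ℕ → ℕ := fun p => ∏ r ∈ I.erase p, r ^ ex r
  have hm : ∀ p ∈ I, m = p ^ ex p * mm p := fun p hp => (Finset.mul_prod_erase I _ hp).symm
  have hmm : ∀ p ∈ I, ¬ p ∣ mm p := by
    intro p hp h
    obtain ⟨r, hr, hpr⟩ := (Prime.dvd_finsetProd_iff (hIp p hp).prime _).1 h
    have hr' := Finset.mem_erase.1 hr
    have := (Nat.prime_dvd_prime_iff_eq (hIp p hp) (hIp r hr'.2)).1
      ((hIp p hp).dvd_of_dvd_pow hpr)
    exact hr'.1 this.symm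
  have hm0 : 0 < m := Finset.prod_pos (fun r hr => pow_pos (hIp r hr).pos _)
  -- residues
  have hres : ∀ p : ℕ, ∃ r : ℕ, p ∈ T → (¬ p ∣ r ∧ cc p (r : ℤ) = cp p - cc p (mm p : ℤ)) := by
    intro p
    by_cases hp : p ∈ T
    · obtain ⟨r, hr⟩ := exists_unit_odd (hT p hp).1 (hT p hp).2 (cp p - cc p (mm p : ℤ))
      exact ⟨r, fun _ => hr⟩
    · exact ⟨0, fun h => absurd h hp⟩
  choose res hres using hres
  obtain ⟨r2, hr2, hr2e, hr2o⟩ := exists_unit_two (e2 - eps (mm 2 : ℤ)) (o2 - omg (mm 2 : ℤ))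
  let md : ℕ → ℕ := fun p => if p = 2 then 8 else p
  have hmd0 : ∀ p ∈ I, md p ≠ 0 := by
    intro p hp
    simp only [md]
    split_ifs
    · norm_num
    · exact (hIp p hp).ne_zero
  have hcop : Set.Pairwise (I : Set ℕ) (Function.onFun Nat.Coprime md) := by
    intro p hp q hq hpq
    have h1 : Nat.Coprime p q := (Nat.coprime_primes (hIp p hp) (hIp q hq)).2 hpq
    simp only [Function.onFun, md]
    split_ifs with h3 h4 h4
    · exact absurd (h3.trans h4.symm) hpq
    · subst h3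
      exact Nat.Coprime.pow_left 3 h1
    · subst h4
      exact Nat.Coprime.pow_right 3 h1
    · exact h1
  obtain ⟨k, hk⟩ := Nat.chineseRemainderOfFinset (fun p => if p = 2 then r2 else res p) md I hmd0 hcop
  let Q : ℕ := ∏ p ∈ I, md p
  have hQ0 : Q ≠ 0 := Finset.prod_ne_zero_iff.2 hmd0
  have hkT : ∀ p ∈ T, k ≡ res p [MOD p] := by
    intro p hp
    have := hk p (Finset.mem_insert_of_mem hp)
    simp only [md, (hT p hp).2, if_false] at this
    exact this
  have hk2 : k ≡ r2 [MOD 8] := by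
    have := hk 2 (Finset.mem_insert_self _ _)
    simpa [md] using this
  have hkQ : k.Coprime Q := by
    apply Nat.Coprime.prod_right
    intro p hp
    rcases Finset.mem_insert.1 hp with h | h
    · subst h
      simp only [md, if_true]
      have : k % 2 = 1 := by
        have h3 : k % 8 = r2 % 8 := hk2
        omega
      have h4 : Nat.Coprime k 2 := (Nat.coprime_two_right).2 (Nat.odd_iff.2 this)
      exact Nat.Coprime.pow_right 3 h4
    · simp only [md, (hT p h).2, if_false]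
      rw [Nat.coprime_comm, (hT p h).1.coprime_iff_not_dvd]
      intro h3
      apply (hres p h).1
      exact (Nat.ModEq.dvd_iff (hkT p h) dvd_rfl).1 h3
  obtain ⟨q, hqgt, hq, hqk⟩ := Nat.forall_exists_prime_gt_and_modEq (∑ p ∈ I, p) hQ0 hkQ
  have hqI : q ∉ I := by
    intro h
    have : q ≤ ∑ p ∈ I, p := Finset.single_le_sum (f := fun p => p) (fun _ _ => Nat.zero_le _) h
    omega
  have hqT : q ∉ T := fun h => hqI (Finset.mem_insert_of_mem h)
  have hq2 : q ≠ 2 := fun h => hqI (by rw [h]; exact Finset.mem_insert_self _ _)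
  have hqp : ∀ p ∈ I, ¬ p ∣ q := by
    intro p hp h
    have := (Nat.prime_dvd_prime_iff_eq (hIp p hp) hq).1 h
    exact hqI (this ▸ hp)
  have hspec : ∀ p ∈ I, vv p ((m * q : ℕ) : ℤ) = ex p ∧
      uu p ((m * q : ℕ) : ℤ) = ((mm p * q : ℕ) : ℤ) := by
    intro p hp
    apply vu_uniq (hIp p hp)
    · rw [hm p hp]; push_cast; ring
    · intro h
      have h1 : p ∣ mm p * q := by exact_mod_cast h
      rcases (hIp p hp).dvd_mul.1 h1 with h2 | h2
      · exact hmm p hp h2
      · exact hqp p hp h2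
  refine ⟨m * q, q, hq, hq2, hqT, Nat.mul_pos hm0 hq.pos, ?_, ?_, ?_⟩
  · intro p hp
    have hpI : p ∈ I := Finset.mem_insert_of_mem hp
    obtain ⟨h1, h2⟩ := hspec p hpI
    have hpp := (hT p hp).1
    constructor
    · rw [h1]
      simp only [ex, (hT p hp).2, if_false]
      exact ZMod.natCast_zmod_val _
    · have h3 : cc p ((m * q : ℕ) : ℤ) = cc p ((mm p * q : ℕ) : ℤ) := by
        unfold cc
        rw [h2]
        congr 1
        have h4 : ¬ (p : ℤ) ∣ ((mm p * q : ℕ) : ℤ) := by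
          intro h
          have h1 : p ∣ mm p * q := by exact_mod_cast h
          rcases hpp.dvd_mul.1 h1 with h2 | h2
          · exact hmm p hpI h2
          · exact hqp p hpI h2
        rw [(vu_of_not_dvd hpp h4).2]
      rw [h3]
      push_cast
      have hmm0 : (mm p : ℤ) ≠ 0 := by
        intro h
        have : mm p = 0 := by exact_mod_cast h
        apply hmm p hpI
        rw [this]; exact dvd_zero _
      rw [cc_mul hpp hmm0 (by exact_mod_cast hq.ne_zero)]
      have h5 : cc p (q : ℤ) = cc p (res p : ℤ) := by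
        apply cc_congr hpp
        · exact_mod_cast hqp p hpI
        · exact_mod_cast (hres p hp).1
        · have h6 : q ≡ k [MOD p] := by
            apply Nat.ModEq.of_dvd _ hqk
            have := Finset.dvd_prod_of_mem md hpI
            simp only [md, (hT p hp).2, if_false] at this
            exact this
          have h7 := h6.trans (hkT p hp)
          exact_mod_cast h7
      rw [h5, (hres p hp).2]
      ring
  · have h2I : 2 ∈ I := Finset.mem_insert_self _ _
    obtain ⟨h1, h2⟩ := hspec 2 h2I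
    have hqmod : (q : ℤ) % 8 = (r2 : ℤ) % 8 := by
      have h6 : q ≡ k [MOD 8] := by
        apply Nat.ModEq.of_dvd _ hqk
        have := Finset.dvd_prod_of_mem md h2I
        simpa [md] using this
      have h7 : q % 8 = r2 % 8 := h6.trans hk2
      omega
    have hmm2 : ¬ (2 : ℤ) ∣ (mm 2 : ℤ) := by
      have := hmm 2 h2I
      exact_mod_cast this
    have hq2' : ¬ (2 : ℤ) ∣ (q : ℤ) := by
      have := hqp 2 h2I
      exact_mod_cast this
    refine ⟨?_, ?_, ?_⟩
    · rw [h1]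
      simp only [ex, if_true]
      exact ZMod.natCast_zmod_val _
    · rw [h2]
      push_cast
      rw [eps_mul hmm2 hq2', eps_congr hqmod, hr2e]
      ring
    · rw [h2]
      push_cast
      rw [omg_mul hmm2 hq2', omg_congr hqmod, hr2o]
      ring
  · intro r hr hrs
    rcases hr.dvd_mul.1 hrs with h | h
    · obtain ⟨p, hp, hpr⟩ := (Prime.dvd_finsetProd_iff hr.prime _).1 h
      have := (Nat.prime_dvd_prime_iff_eq hr (hIp p hp)).1 (hr.dvd_of_dvd_pow hpr)
      subst this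
      rcases Finset.mem_insert.1 hp with h | h
      · exact Or.inl h
      · exact Or.inr (Or.inl h)
    · exact Or.inr (Or.inr ((Nat.prime_dvd_prime_iff_eq hr hq).1 h))

theorem hs_zero_of_not_dvd {p : ℕ} (hp : p.Prime) {x y : ℤ} (h : ¬ (p : ℤ) ∣ x * y) :
    hs p x y = 0 :=
  hs_unit hp (fun h1 => h (Dvd.dvd.mul_right h1 y)) (fun h1 => h (Dvd.dvd.mul_left h1 x))

theorem hm_core {α β d : ℤ} (hα : α ≠ 0) (hβ : 0 < β) (hd : 0 < d)
    (hodd : ∀ p : ℕ, p.Prime → p ≠ 2 → hs p α β = 1 → ¬ ((vv p d : ZMod 2) = 0 ∧ cc p d = 0))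
    (h2 : hs2 α β = 1 → ¬ ((vv 2 d : ZMod 2) = 0 ∧ eps (uu 2 d) = 0 ∧ omg (uu 2 d) = 0)) :
    ∃ s : ℤ, 0 < s ∧ IsN α ((β * s : ℤ) : ℚ) ∧ IsN ((α * d : ℤ) : ℚ) ((d * s : ℤ) : ℚ) := by
  classical
  have hβ0 : β ≠ 0 := hβ.ne'
  have hd0 : d ≠ 0 := hd.ne'
  have hprod : α * β * d ≠ 0 := mul_ne_zero (mul_ne_zero hα hβ0) hd0
  set T : Finset ℕ := (α * β * d).natAbs.primeFactors.erase 2 with hTdef
  have hT : ∀ p ∈ T, p.Prime ∧ p ≠ 2 := by
    intro p hp
    have := Finset.mem_erase.1 hp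
    exact ⟨Nat.prime_of_mem_primeFactors this.2, this.1⟩
  have hmemT : ∀ p : ℕ, p.Prime → p ≠ 2 → (p : ℤ) ∣ α * β * d → p ∈ T := by
    intro p hp hp2 h
    rw [hTdef, Finset.mem_erase, Nat.mem_primeFactors]
    exact ⟨hp2, hp, Int.natCast_dvd.1 h, by simpa using hprod⟩
  have hloc : ∀ p : ℕ, ∃ vs cs : ZMod 2, p ∈ T →
      ((p / 2 : ℕ) : ZMod 2) * (vv p α : ZMod 2) * ((vv p β : ZMod 2) + vs) +
        cc p α * ((vv p β : ZMod 2) + vs) + (cc p β + cs) * (vv p α : ZMod 2) = 0 ∧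
      ((p / 2 : ℕ) : ZMod 2) * ((vv p α : ZMod 2) + (vv p d : ZMod 2)) *
        ((vv p d : ZMod 2) + vs) + (cc p α + cc p d) * ((vv p d : ZMod 2) + vs) +
        (cc p d + cs) * ((vv p α : ZMod 2) + (vv p d : ZMod 2)) = 0 := by
    intro p
    by_cases hp : p ∈ T
    · obtain ⟨vs, cs, h⟩ := local_odd ((p / 2 : ℕ) : ZMod 2) (vv p α : ZMod 2) (cc p α)
        (vv p β : ZMod 2) (cc p β) (vv p d : ZMod 2) (cc p d) (hodd p (hT p hp).1 (hT p hp).2)
      exact ⟨vs, cs, fun _ => h⟩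
    · exact ⟨0, 0, fun h => absurd h hp⟩
  choose vp cp hloc using hloc
  obtain ⟨v2, e2, o2, hl1, hl2⟩ := local_two (vv 2 α : ZMod 2) (eps (uu 2 α)) (omg (uu 2 α))
    (vv 2 β : ZMod 2) (eps (uu 2 β)) (omg (uu 2 β)) (vv 2 d : ZMod 2) (eps (uu 2 d))
    (omg (uu 2 d)) h2
  obtain ⟨s, q, hq, hq2, hqT, hs0, hsT, hs2', hsr⟩ := exists_s T hT vp cp v2 e2 o2
  have hsz : (s : ℤ) ≠ 0 := by exact_mod_cast hs0.ne'
  have hp2 := Nat.prime_two
  -- symbol at two
  have hA2 : hs2 (β * s) α = 0 := by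
    rw [hs2_comm]
    unfold hs2
    rw [(vu_mul hp2 hβ0 hsz).1, (vu_mul hp2 hβ0 hsz).2,
      eps_mul (vu_spec hp2 hβ0).2 (vu_spec hp2 hsz).2,
      omg_mul (vu_spec hp2 hβ0).2 (vu_spec hp2 hsz).2]
    push_cast
    rw [hs2'.1, hs2'.2.1, hs2'.2.2]
    exact hl1
  have hB2 : hs2 (d * s) (α * d) = 0 := by
    rw [hs2_comm]
    unfold hs2
    rw [(vu_mul hp2 hd0 hsz).1, (vu_mul hp2 hd0 hsz).2, (vu_mul hp2 hα hd0).1,
      (vu_mul hp2 hα hd0).2,
      eps_mul (vu_spec hp2 hd0).2 (vu_spec hp2 hsz).2,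
      omg_mul (vu_spec hp2 hd0).2 (vu_spec hp2 hsz).2,
      eps_mul (vu_spec hp2 hα).2 (vu_spec hp2 hd0).2,
      omg_mul (vu_spec hp2 hα).2 (vu_spec hp2 hd0).2]
    push_cast
    rw [hs2'.1, hs2'.2.1, hs2'.2.2]
    exact hl2
  have hAT : ∀ p ∈ T, hs p (β * s) α = 0 := by
    intro p hp
    have hpp := (hT p hp).1
    rw [hs_comm]
    unfold hs
    rw [(vu_mul hpp hβ0 hsz).1, cc_mul hpp hβ0 hsz]
    push_cast
    rw [(hsT p hp).1, (hsT p hp).2]
    exact (hloc p hp).1
  have hBT : ∀ p ∈ T, hs p (d * s) (α * d) = 0 := by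
    intro p hp
    have hpp := (hT p hp).1
    rw [hs_comm]
    unfold hs
    rw [(vu_mul hpp hd0 hsz).1, cc_mul hpp hd0 hsz, (vu_mul hpp hα hd0).1, cc_mul hpp hα hd0]
    push_cast
    rw [(hsT p hp).1, (hsT p hp).2]
    exact (hloc p hp).2
  -- the set of all bad primes
  have hT' : ∀ p ∈ insert q T, p.Prime ∧ p ≠ 2 := by
    intro p hp
    rcases Finset.mem_insert.1 hp with h | h
    · rw [h]; exact ⟨hq, hq2⟩
    · exact hT p h
  have hmem : ∀ p : ℕ, p.Prime → p ≠ 2 → ((p : ℤ) ∣ α ∨ (p : ℤ) ∣ β ∨ (p : ℤ) ∣ d ∨ (p : ℤ) ∣ s) →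
      p ∈ insert q T := by
    intro p hp hp2 h
    rcases h with h | h | h | h
    · exact Finset.mem_insert_of_mem (hmemT p hp hp2 (Dvd.dvd.mul_right (Dvd.dvd.mul_right h β) d))
    · exact Finset.mem_insert_of_mem (hmemT p hp hp2 (Dvd.dvd.mul_right (Dvd.dvd.mul_left h α) d))
    · exact Finset.mem_insert_of_mem (hmemT p hp hp2 (Dvd.dvd.mul_left h _))
    · rcases hsr p hp (by exact_mod_cast h) with h1 | h1 | h1
      · exact absurd h1 hp2
      · exact Finset.mem_insert_of_mem h1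
      · rw [h1]; exact Finset.mem_insert_self _ _
  have hA : ∀ p : ℕ, p.Prime → p ≠ 2 → hs p (β * s) α = 0 := by
    intro p hp hp2
    by_cases hpI : p ∈ insert q T
    · rcases Finset.mem_insert.1 hpI with h | h
      · subst h
        have h1 := product_formula hT' (β * s).natAbs hα
          (fun r hr hr2 hrα => hmem r hr hr2 (Or.inl hrα))
          (fun r hr hr2 hrβ => hmem r hr hr2 (by
            have h3 : (r : ℤ) ∣ β * s := Int.natCast_dvd.2 hrβ
            rcases (Nat.prime_iff_prime_int.1 hr).dvd_or_dvd h3 with h4 | h4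
            · exact Or.inr (Or.inl h4)
            · exact Or.inr (Or.inr (Or.inr h4))))
          (by simpa using ⟨hβ0, hs0.ne'⟩)
        have h2 : ((β * s).natAbs : ℤ) = β * s :=
          Int.natAbs_of_nonneg (mul_nonneg hβ.le (by positivity))
        rw [h2] at h1
        unfold tot at h1
        rw [hA2, Finset.sum_insert hqT, Finset.sum_eq_zero hAT, add_zero, zero_add] at h1
        exact h1
      · exact hAT p h
    · apply hs_zero_of_not_dvd hp
      intro h
      apply hpI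
      rcases (Nat.prime_iff_prime_int.1 hp).dvd_or_dvd h with h4 | h4
      · rcases (Nat.prime_iff_prime_int.1 hp).dvd_or_dvd h4 with h5 | h5
        · exact hmem p hp hp2 (Or.inr (Or.inl h5))
        · exact hmem p hp hp2 (Or.inr (Or.inr (Or.inr h5)))
      · exact hmem p hp hp2 (Or.inl h4)
  have hB : ∀ p : ℕ, p.Prime → p ≠ 2 → hs p (d * s) (α * d) = 0 := by
    intro p hp hp2
    by_cases hpI : p ∈ insert q T
    · rcases Finset.mem_insert.1 hpI with h | h
      · subst h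
        have h1 := product_formula hT' (d * s).natAbs (mul_ne_zero hα hd0)
          (fun r hr hr2 hrα => hmem r hr hr2 (by
            rcases (Nat.prime_iff_prime_int.1 hr).dvd_or_dvd hrα with h4 | h4
            · exact Or.inl h4
            · exact Or.inr (Or.inr (Or.inl h4))))
          (fun r hr hr2 hrβ => hmem r hr hr2 (by
            have h3 : (r : ℤ) ∣ d * s := Int.natCast_dvd.2 hrβ
            rcases (Nat.prime_iff_prime_int.1 hr).dvd_or_dvd h3 with h4 | h4
            · exact Or.inr (Or.inr (Or.inl h4))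
            · exact Or.inr (Or.inr (Or.inr h4))))
          (by simpa using ⟨hd0, hs0.ne'⟩)
        have h2 : ((d * s).natAbs : ℤ) = d * s :=
          Int.natAbs_of_nonneg (mul_nonneg hd.le (by positivity))
        rw [h2] at h1
        unfold tot at h1
        rw [hB2, Finset.sum_insert hqT, Finset.sum_eq_zero hBT, add_zero, zero_add] at h1
        exact h1
      · exact hBT p h
    · apply hs_zero_of_not_dvd hp
      intro h
      apply hpI
      rcases (Nat.prime_iff_prime_int.1 hp).dvd_or_dvd h with h4 | h4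
      · rcases (Nat.prime_iff_prime_int.1 hp).dvd_or_dvd h4 with h5 | h5
        · exact hmem p hp hp2 (Or.inr (Or.inr (Or.inl h5)))
        · exact hmem p hp hp2 (Or.inr (Or.inr (Or.inr h5)))
      · rcases (Nat.prime_iff_prime_int.1 hp).dvd_or_dvd h4 with h5 | h5
        · exact hmem p hp hp2 (Or.inl h5)
        · exact hmem p hp hp2 (Or.inr (Or.inr (Or.inl h5)))
  refine ⟨s, by exact_mod_cast hs0, ?_, ?_⟩
  · exact legendre hα (mul_ne_zero hβ0 hsz) (Or.inr (mul_pos hβ (by exact_mod_cast hs0)))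
      (fun p hp hp2 => by rw [hs_comm]; exact hA p hp hp2)
  · exact legendre (mul_ne_zero hα hd0) (mul_ne_zero hd0 hsz)
      (Or.inr (mul_pos hd (by exact_mod_cast hs0)))
      (fun p hp hp2 => by rw [hs_comm]; exact hB p hp hp2)

/-- representation by the pure part of the norm form -/
theorem repr_of_core {α β d s : ℚ} (hα : α ≠ 0) (hβ : β ≠ 0) (hd : d ≠ 0) (hs : s ≠ 0)
    (h1 : IsN α (β * s)) (h2 : IsN (α * d) (d * s)) :
    ∃ y z w : ℚ, d = α * y ^ 2 + β * z ^ 2 - α * β * w ^ 2 := by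
  obtain ⟨x, y, hxy⟩ := h1
  obtain ⟨e, v, hev⟩ := h2
  have key : β * e ^ 2 = d * (x ^ 2 - α * y ^ 2 + α * β * v ^ 2) := by
    have h3 : β * (d * s) = d * (β * s) := by ring
    rw [hev, hxy] at h3
    linear_combination h3
  by_cases he : e = 0
  · -- the ternary form is isotropic
    subst he
    have h4 : x ^ 2 - α * y ^ 2 + α * β * v ^ 2 = 0 := by
      have : d * (x ^ 2 - α * y ^ 2 + α * β * v ^ 2) = 0 := by rw [← key]; ring
      exact (mul_eq_zero.1 this).resolve_left hd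
    have hv : v ≠ 0 := by
      rintro rfl
      have : d * s = 0 := by rw [hev]; ring
      exact (mul_ne_zero hd hs) this
    obtain ⟨t, ht⟩ : ∃ t : ℚ, 2 * α * t * (β * v) = d - α :=
      ⟨(d - α) / (2 * α * (β * v)), by field_simp⟩
    refine ⟨1 + t * (β * v), t * x, t * y, ?_⟩
    linear_combination (-1) * ht - t ^ 2 * β * h4
  · refine ⟨d * v / e, d * x / (β * e), d * y / (β * e), ?_⟩
    field_simp
    linear_combination key

end Pool.Agent.H89.NumQ
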