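import Mathlib
import Pool.Agent.H89.NumQ3

set_option autoImplicit false

namespace Pool.Agent.H89.NumQ

/-- residues `a` for which `a ^ 2 - 4` is a nonzero square -/
def Bad (p : ℕ) (a : ZMod p) : Prop := ∃ c : ZMod p, c ≠ 0 ∧ a ^ 2 - 4 = c ^ 2

theorem two_ne {p : ℕ} (hp : p.Prime) (hp2 : p ≠ 2) : (2 : ZMod p) ≠ 0 := by
  intro h
  have h1 : ((2 : ℕ) : ZMod p) = 0 := by exact_mod_cast h
  rw [ZMod.natCast_eq_zero_iff] at h1
  exact hp2 ((Nat.prime_dvd_prime_iff_eq hp Nat.prime_two).1 h1)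

theorem exists_not_bad {p : ℕ} (hp : p.Prime) (hp2 : p ≠ 2) (n : ZMod p) :
    ∃ a : ZMod p, ¬ Bad p a ∧ ¬ Bad p (a - n) := by
  classical
  have : Fact p.Prime := ⟨hp⟩
  have h2 := two_ne hp hp2
  set B : Finset (ZMod p) := Finset.univ.filter (Bad p) with hB
  set S : Finset (ZMod p) := Finset.univ.filter (fun t => t ≠ 0 ∧ Bad p (t + t⁻¹)) with hS
  let g : ZMod p → ZMod p := fun t => t + t⁻¹
  have hfib : ∀ a, Bad p a → ∃ t t' : ZMod p, t ≠ t' ∧ t ≠ 0 ∧ t' ≠ 0 ∧ g t = a ∧ g t' = a := by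
    rintro a ⟨c, hc, hac⟩
    have h1 : (a + c) / 2 * ((a - c) / 2) = 1 := by
      have h4 : (a + c) / 2 * ((a - c) / 2) = (a ^ 2 - c ^ 2) / (2 * 2) := by
        rw [div_mul_div_comm]; congr 1; ring
      rw [h4, ← hac]
      field_simp
      ring
    have ht : (a + c) / 2 ≠ 0 := left_ne_zero_of_mul_eq_one h1
    have ht' : (a - c) / 2 ≠ 0 := right_ne_zero_of_mul_eq_one h1
    refine ⟨(a + c) / 2, (a - c) / 2, ?_, ht, ht', ?_, ?_⟩
    · intro h
      apply hc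
      have h5 : (a + c) / 2 - (a - c) / 2 = c := by field_simp; ring
      rw [← h5, h, sub_self]
    · have h5 : ((a + c) / 2)⁻¹ = (a - c) / 2 := inv_eq_of_mul_eq_one_right h1
      simp only [g]
      rw [h5]; field_simp; ring
    · have h5 : ((a - c) / 2)⁻¹ = (a + c) / 2 := by
        rw [mul_comm] at h1
        exact inv_eq_of_mul_eq_one_right h1
      simp only [g]
      rw [h5]; field_simp; ring
  have himg : S.image g = B := by
    ext a
    rw [Finset.mem_image]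
    constructor
    · rintro ⟨t, ht, rfl⟩
      have := (Finset.mem_filter.1 ht).2.2
      exact Finset.mem_filter.2 ⟨Finset.mem_univ _, this⟩
    · intro ha
      have ha' := (Finset.mem_filter.1 ha).2
      obtain ⟨t, t', -, ht0, -, hgt, -⟩ := hfib a ha'
      refine ⟨t, Finset.mem_filter.2 ⟨Finset.mem_univ _, ht0, ?_⟩, hgt⟩
      have : t + t⁻¹ = a := hgt
      rw [this]; exact ha'
  have hcard : 2 * B.card ≤ S.card := by
    rw [← himg]
    apply Finset.mul_card_image_le_card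
    intro a ha
    rw [himg] at ha
    have ha' := (Finset.mem_filter.1 ha).2
    obtain ⟨t, t', htt, ht0, ht0', hgt, hgt'⟩ := hfib a ha'
    have hsub : ({t, t'} : Finset (ZMod p)) ⊆ S.filter (fun x => g x = a) := by
      intro x hx
      rw [Finset.mem_insert, Finset.mem_singleton] at hx
      rcases hx with rfl | rfl
      · refine Finset.mem_filter.2 ⟨Finset.mem_filter.2 ⟨Finset.mem_univ _, ht0, ?_⟩, hgt⟩
        have : x + x⁻¹ = a := hgt
        rw [this]; exact ha'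
      · refine Finset.mem_filter.2 ⟨Finset.mem_filter.2 ⟨Finset.mem_univ _, ht0', ?_⟩, hgt'⟩
        have : x + x⁻¹ = a := hgt'
        rw [this]; exact ha'
    calc 2 = ({t, t'} : Finset (ZMod p)).card := (Finset.card_pair htt).symm
      _ ≤ _ := Finset.card_le_card hsub
  have hS1 : S.card < p := by
    have h1 : S ⊆ Finset.univ.erase 0 := by
      intro x hx
      exact Finset.mem_erase.2 ⟨(Finset.mem_filter.1 hx).2.1, Finset.mem_univ _⟩
    have h3 := Finset.card_le_card h1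
    rw [Finset.card_erase_of_mem (Finset.mem_univ _), Finset.card_univ, ZMod.card] at h3
    have := hp.pos
    omega
  by_contra hcon
  push Not at hcon
  have hcov : (Finset.univ : Finset (ZMod p)) ⊆ B ∪ B.image (fun x => x + n) := by
    intro a _
    rw [Finset.mem_union]
    by_cases ha : Bad p a
    · exact Or.inl (Finset.mem_filter.2 ⟨Finset.mem_univ _, ha⟩)
    · right
      rw [Finset.mem_image]
      exact ⟨a - n, Finset.mem_filter.2 ⟨Finset.mem_univ _, hcon a ha⟩, by ring⟩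
  have h4 := Finset.card_le_card hcov
  rw [Finset.card_univ, ZMod.card] at h4
  have h5 := Finset.card_union_le B (B.image (fun x => x + n))
  have h6 : (B.image (fun x => x + n)).card ≤ B.card := Finset.card_image_le
  omega

/-- a good integer at an odd prime -/
def Good (p : ℕ) (A : ℤ) : Prop := ¬ ((p : ℤ) ^ 2 ∣ A ^ 2 - 4) ∧ ¬ Bad p (A : ZMod p)

theorem exists_good {p : ℕ} (hp : p.Prime) (hp2 : p ≠ 2) (n : ℤ) :
    ∃ A : ℤ, Good p A ∧ Good p (A - n) := by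
  have : Fact p.Prime := ⟨hp⟩
  have hpz : Prime (p : ℤ) := Nat.prime_iff_prime_int.1 hp
  obtain ⟨a, ha, han⟩ := exists_not_bad hp hp2 (n : ZMod p)
  have hp3 : 3 ≤ p := by
    have := hp.two_le
    omega
  -- at most one lift is bad
  have key : ∀ x : ℤ, ∀ k k' : ℤ, 0 ≤ k → k ≤ 2 → 0 ≤ k' → k' ≤ 2 →
      (p : ℤ) ^ 2 ∣ (x + p * k) ^ 2 - 4 → (p : ℤ) ^ 2 ∣ (x + p * k') ^ 2 - 4 → k = k' := by
    intro x k k' hk0 hk2 hk0' hk2' h h'
    by_contra hne
    have h1 := dvd_sub h h'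
    have h3 : (x + p * k) ^ 2 - 4 - ((x + p * k') ^ 2 - 4) =
        (p : ℤ) * ((k - k') * (2 * x + p * (k + k'))) := by ring
    rw [h3, pow_two] at h1
    have h4 : (p : ℤ) ∣ (k - k') * (2 * x + p * (k + k')) :=
      Int.dvd_of_mul_dvd_mul_left (by exact_mod_cast hp.ne_zero) h1 |> fun h => h
    have hx : (p : ℤ) ∣ x := by
      rcases hpz.dvd_or_dvd h4 with h5 | h5
      · exfalso
        have h6 : (k - k').natAbs < p := by omega
        have h7 := Int.eq_zero_of_abs_lt_dvd h5 (by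
          rw [Int.abs_eq_natAbs]; exact_mod_cast h6)
        omega
      · have h6 : (p : ℤ) ∣ 2 * x := by
          have := dvd_sub h5 (dvd_mul_right (p : ℤ) (k + k'))
          have h7 : 2 * x + p * (k + k') - p * (k + k') = 2 * x := by ring
          rwa [h7] at this
        rcases hpz.dvd_or_dvd h6 with h7 | h7
        · exfalso
          have h8 : p ∣ 2 := by exact_mod_cast h7
          have := Nat.le_of_dvd (by norm_num) h8
          omega
        · exact h7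
    have h5 : (p : ℤ) ∣ (x + p * k) ^ 2 - 4 := dvd_trans (dvd_pow_self _ two_ne_zero) h
    have h6 : (p : ℤ) ∣ (x + p * k) ^ 2 :=
      Dvd.dvd.pow (dvd_add hx (dvd_mul_right _ _)) two_ne_zero
    have h7 := dvd_sub h6 h5
    have h8 : (x + p * k) ^ 2 - ((x + p * k) ^ 2 - 4) = 4 := by ring
    rw [h8] at h7
    have h9 : p ∣ 4 := by exact_mod_cast h7
    have h10 : p ∣ 2 ^ 2 := h9
    have := Nat.le_of_dvd (by norm_num) (hp.dvd_of_dvd_pow h10)
    omega
  have hcast : ∀ k : ℤ, (((a.val : ℤ) + p * k : ℤ) : ZMod p) = a := by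
    intro k
    push_cast
    simp
  have hcast' : ∀ k : ℤ, (((a.val : ℤ) + p * k - n : ℤ) : ZMod p) = a - n := by
    intro k
    rw [Int.cast_sub, hcast]
  obtain ⟨k, hk1, hk2⟩ : ∃ k : ℤ, ¬ (p : ℤ) ^ 2 ∣ ((a.val : ℤ) + p * k) ^ 2 - 4 ∧
      ¬ (p : ℤ) ^ 2 ∣ ((a.val : ℤ) - n + p * k) ^ 2 - 4 := by
    by_contra hcon
    push Not at hcon
    have k1 := key (a.val : ℤ)
    have k2 := key ((a.val : ℤ) - n)
    have c0 := hcon 0
    have c1 := hcon 1
    have c2 := hcon 2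
    have e01 := k1 0 1 (by norm_num) (by norm_num) (by norm_num) (by norm_num)
    have e02 := k1 0 2 (by norm_num) (by norm_num) (by norm_num) (by norm_num)
    have e12 := k1 1 2 (by norm_num) (by norm_num) (by norm_num) (by norm_num)
    have f01 := k2 0 1 (by norm_num) (by norm_num) (by norm_num) (by norm_num)
    have f02 := k2 0 2 (by norm_num) (by norm_num) (by norm_num) (by norm_num)
    have f12 := k2 1 2 (by norm_num) (by norm_num) (by norm_num) (by norm_num)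
    have n01 : ¬ (0 : ℤ) = 1 := by norm_num
    have n02 : ¬ (0 : ℤ) = 2 := by norm_num
    have n12 : ¬ (1 : ℤ) = 2 := by norm_num
    clear key hcon k1 k2
    rcases Classical.em ((p : ℤ) ^ 2 ∣ ((a.val : ℤ) + p * 0) ^ 2 - 4) with p0 | p0 <;>
    rcases Classical.em ((p : ℤ) ^ 2 ∣ ((a.val : ℤ) + p * 1) ^ 2 - 4) with p1 | p1 <;>
    rcases Classical.em ((p : ℤ) ^ 2 ∣ ((a.val : ℤ) + p * 2) ^ 2 - 4) with p2 | p2 <;>
    first
      | exact n01 (e01 p0 p1)
      | exact n02 (e02 p0 p2)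
      | exact n12 (e12 p1 p2)
      | exact n01 (f01 (c0 p0) (c1 p1))
      | exact n02 (f02 (c0 p0) (c2 p2))
      | exact n12 (f12 (c1 p1) (c2 p2))
  refine ⟨(a.val : ℤ) + p * k, ⟨hk1, ?_⟩, ⟨?_, ?_⟩⟩
  · rw [hcast]; exact ha
  · have : (a.val : ℤ) + p * k - n = (a.val : ℤ) - n + p * k := by ring
    rw [this]; exact hk2
  · rw [hcast']; exact han

theorem good_congr {p : ℕ} {A A' : ℤ} (h : (p : ℤ) ^ 2 ∣ A - A') (hA : Good p A) : Good p A' := by
  constructor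
  · intro h1
    apply hA.1
    have : A ^ 2 - 4 = (A' ^ 2 - 4) + (A - A') * (A + A') := by ring
    rw [this]
    exact dvd_add h1 (Dvd.dvd.mul_right h _)
  · have h1 : (A' : ZMod p) = (A : ZMod p) := by
      rw [ZMod.intCast_eq_intCast_iff]
      exact (Int.modEq_iff_dvd).2 (dvd_trans (dvd_pow_self _ two_ne_zero) h)
    rw [h1]; exact hA.2

theorem good_class {p : ℕ} (hp : p.Prime) {A : ℤ} (hA : Good p A) :
    ¬ ((vv p (A ^ 2 - 4) : ZMod 2) = 0 ∧ cc p (A ^ 2 - 4) = 0) := by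
  rintro ⟨h1, h2⟩
  by_cases hpd : (p : ℤ) ∣ A ^ 2 - 4
  · obtain ⟨c, hc⟩ := hpd
    have hpc : ¬ (p : ℤ) ∣ c := by
      rintro ⟨e, he⟩
      apply hA.1
      exact ⟨e, by rw [hc, he]; ring⟩
    have h3 := vu_uniq hp (x := A ^ 2 - 4) (u := c) (k := 1) (by rw [hc]; ring) hpc
    rw [h3.1] at h1
    simp at h1
  · rw [cc_prime hp hpd] at h2
    have h3 : jacobiSym (A ^ 2 - 4) p = 1 := by
      by_contra h4
      rw [if_neg h4] at h2
      exact one_ne_zero h2
    have : Fact p.Prime := ⟨hp⟩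
    obtain ⟨c, hc⟩ := ZMod.isSquare_of_jacobiSym_eq_one h3
    apply hA.2
    push_cast at hc
    refine ⟨c, ?_, by rw [hc]; ring⟩
    rintro rfl
    apply hpd
    rw [← ZMod.intCast_zmod_eq_zero_iff_dvd]
    push_cast
    rw [hc]; ring

/-- good at two -/
theorem good_two {A : ℤ} (hA : A % 2 = 1 ∨ A % 4 = 0) :
    ¬ ((vv 2 (A ^ 2 - 4) : ZMod 2) = 0 ∧ eps (uu 2 (A ^ 2 - 4)) = 0 ∧
      omg (uu 2 (A ^ 2 - 4)) = 0) := by
  rintro ⟨h1, h2, h3⟩
  rcases hA with hA | hA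
  · obtain ⟨k, hk⟩ : ∃ k, A = 2 * k + 1 := ⟨A / 2, by omega⟩
    have h4 : (A ^ 2 - 4) % 8 = 5 := by
      rw [hk]
      have h5 : (2 * k + 1) ^ 2 - 4 = 4 * (k * (k + 1)) - 3 := by ring
      rw [h5]
      have h6 : (k * (k + 1)) % 2 = 0 := Int.even_iff.1 (Int.even_mul_succ_self k)
      omega
    have h5 : ¬ ((2 : ℕ) : ℤ) ∣ A ^ 2 - 4 := by push_cast; omega
    rw [(vu_of_not_dvd Nat.prime_two h5).2] at h3
    unfold omg at h3
    rw [h4] at h3
    simp at h3
  · obtain ⟨k, hk⟩ : ∃ k, A = 4 * k := ⟨A / 4, by omega⟩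
    have h4 : A ^ 2 - 4 = ((2 : ℕ) : ℤ) ^ 2 * (4 * k ^ 2 - 1) := by rw [hk]; push_cast; ring
    have h5 : ¬ ((2 : ℕ) : ℤ) ∣ 4 * k ^ 2 - 1 := by push_cast; omega
    rw [(vu_uniq Nat.prime_two h4 h5).2] at h2
    unfold eps at h2
    have h6 : (4 * k ^ 2 - 1) % 4 ≠ 1 := by omega
    rw [if_neg h6] at h2
    exact one_ne_zero h2

theorem exists_A (T : Finset ℕ) (hT : ∀ p ∈ T, p.Prime ∧ p ≠ 2) (n : ℤ) :
    ∃ A : ℤ, (∀ p ∈ T, Good p A ∧ Good p (A - n)) ∧ (A % 2 = 1 ∨ A % 4 = 0) ∧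
      ((A - n) % 2 = 1 ∨ (A - n) % 4 = 0) ∧ 3 ≤ A ∧ 3 ≤ A - n := by
  classical
  have h2T : 2 ∉ T := fun h => (hT 2 h).2 rfl
  set I : Finset ℕ := insert 2 T with hI
  have hIp : ∀ p ∈ I, p.Prime := by
    intro p hp
    rcases Finset.mem_insert.1 hp with h | h
    · rw [h]; exact Nat.prime_two
    · exact (hT p h).1
  have hres : ∀ p : ℕ, ∃ r : ℕ, p ∈ T → (Good p r ∧ Good p (r - n)) := by
    intro p
    by_cases hp : p ∈ T
    · obtain ⟨A, hA1, hA2⟩ := exists_good (hT p hp).1 (hT p hp).2 n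
      have hp0 : (p : ℤ) ^ 2 ≠ 0 := pow_ne_zero _ (by exact_mod_cast (hT p hp).1.ne_zero)
      refine ⟨(A % (p : ℤ) ^ 2).toNat, fun _ => ?_⟩
      rw [Int.toNat_of_nonneg (Int.emod_nonneg _ hp0)]
      have h1 : (p : ℤ) ^ 2 ∣ A - A % (p : ℤ) ^ 2 := Int.dvd_self_sub_emod
      exact ⟨good_congr h1 hA1, good_congr (by
        have : A - n - (A % (p : ℤ) ^ 2 - n) = A - A % (p : ℤ) ^ 2 := by ring
        rw [this]; exact h1) hA2⟩
    · exact ⟨0, fun h => absurd h hp⟩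
  choose res hres using hres
  have hcop : Set.Pairwise (I : Set ℕ) (Function.onFun Nat.Coprime (fun p => p ^ 2)) := by
    intro p hp q hq hpq
    have h1 : Nat.Coprime p q := (Nat.coprime_primes (hIp p hp) (hIp q hq)).2 hpq
    exact Nat.Coprime.pow 2 2 h1
  obtain ⟨k, hk⟩ := Nat.chineseRemainderOfFinset
    (fun p => if p = 2 then (if n % 2 = 0 then 1 else 0) else res p) (fun p => p ^ 2) I
    (fun p hp => pow_ne_zero _ (hIp p hp).ne_zero) hcop
  let Q : ℕ := ∏ p ∈ I, p ^ 2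
  have hQ0 : 0 < Q := Finset.prod_pos (fun p hp => pow_pos (hIp p hp).pos _)
  have hQd : ∀ p ∈ I, ((p : ℤ) ^ 2) ∣ (Q : ℤ) := by
    intro p hp
    have := Finset.dvd_prod_of_mem (fun p => p ^ 2) hp
    exact_mod_cast this
  set A : ℤ := k + Q * (n.natAbs + 3) with hA
  have hAT : ∀ p ∈ T, Good p A ∧ Good p (A - n) := by
    intro p hp
    have hpI : p ∈ I := Finset.mem_insert_of_mem hp
    have h1 := hk p hpI
    simp only [(hT p hp).2, if_false] at h1
    have h2 : ((p : ℤ) ^ 2) ∣ (res p : ℤ) - A := by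
      have h3 : ((p ^ 2 : ℕ) : ℤ) ∣ (res p : ℤ) - k := Nat.modEq_iff_dvd.1 h1
      have h4 : (res p : ℤ) - A = ((res p : ℤ) - k) - Q * (n.natAbs + 3) := by rw [hA]; ring
      rw [h4]
      push_cast at h3
      exact dvd_sub h3 (Dvd.dvd.mul_right (hQd p hpI) _)
    exact ⟨good_congr h2 (hres p hp).1, good_congr (by
      have : (res p : ℤ) - n - (A - n) = (res p : ℤ) - A := by ring
      rw [this]; exact h2) (hres p hp).2⟩
  have h4 : A % 4 = if n % 2 = 0 then 1 else 0 := by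
    have h1 := hk 2 (Finset.mem_insert_self _ _)
    simp only [if_true] at h1
    have h3 : ((4 : ℤ)) ∣ (Q : ℤ) := by
      have := hQd 2 (Finset.mem_insert_self _ _)
      norm_num at this
      exact this
    obtain ⟨c, hc⟩ := h3
    have h5 : A = k + 4 * (c * (n.natAbs + 3)) := by rw [hA, hc]; ring
    have h6 : (k : ℕ) % 4 = (if n % 2 = 0 then 1 else 0) % 4 := h1
    split_ifs with hn
    · rw [if_pos hn] at h6; omega
    · rw [if_neg hn] at h6; omega
  refine ⟨A, hAT, ?_, ?_, ?_, ?_⟩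
  · split_ifs at h4 <;> omega
  · split_ifs at h4 <;> omega
  · have h5 : (Q : ℤ) * (n.natAbs + 3) ≥ 1 * (n.natAbs + 3) := by
      apply mul_le_mul_of_nonneg_right _ (by positivity)
      exact_mod_cast hQ0
    omega
  · have h5 : (Q : ℤ) * (n.natAbs + 3) ≥ 1 * (n.natAbs + 3) := by
      apply mul_le_mul_of_nonneg_right _ (by positivity)
      exact_mod_cast hQ0
    omega

theorem single {α β : ℤ} (hα : α ≠ 0) (hβ : 0 < β) {A : ℤ} (hA3 : 3 ≤ A)
    (hA : ∀ p : ℕ, p.Prime → p ≠ 2 → (p : ℤ) ∣ α * β → Good p A) (hA2 : A % 2 = 1 ∨ A % 4 = 0) :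
    ∃ X Y Z W : ℚ, (A : ℚ) = 2 * X ∧
      X ^ 2 - (α : ℚ) * Y ^ 2 - (β : ℚ) * Z ^ 2 + (α : ℚ) * β * W ^ 2 = 1 := by
  have hd : 0 < A ^ 2 - 4 := by nlinarith
  obtain ⟨s, hs, h1, h2⟩ := hm_core hα hβ hd (by
      intro p hp hp2 h
      apply good_class hp
      apply hA p hp hp2
      by_contra hc
      rw [hs_zero_of_not_dvd hp hc] at h
      exact zero_ne_one h) (fun _ => good_two hA2)
  push_cast at h1 h2
  obtain ⟨y, z, w, hyzw⟩ := repr_of_core (α := (α : ℚ)) (β := (β : ℚ)) (d := (A : ℚ) ^ 2 - 4)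
    (s := (s : ℚ)) (by exact_mod_cast hα) (by exact_mod_cast hβ.ne')
    (by have : ((A ^ 2 - 4 : ℤ) : ℚ) ≠ 0 := by exact_mod_cast hd.ne'
        push_cast at this; exact this) (by exact_mod_cast hs.ne') h1 h2
  refine ⟨A / 2, y / 2, z / 2, w / 2, by ring, ?_⟩
  linear_combination (1 / 4) * hyzw

/-- the arithmetic theorem -/
theorem theoremQ {α β : ℚ} (hα : α ≠ 0) (hβ : 0 < β) (n : ℤ) :
    ∃ X Y Z W X' Y' Z' W' : ℚ, (n : ℚ) = 2 * X - 2 * X' ∧
      X ^ 2 - α * Y ^ 2 - β * Z ^ 2 + α * β * W ^ 2 = 1 ∧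
      X' ^ 2 - α * Y' ^ 2 - β * Z' ^ 2 + α * β * W' ^ 2 = 1 := by
  classical
  set a : ℤ := α.num * α.den with ha
  set b : ℤ := β.num * β.den with hb
  have hda : (α.den : ℚ) ≠ 0 := by exact_mod_cast α.den_nz
  have hdb : (β.den : ℚ) ≠ 0 := by exact_mod_cast β.den_nz
  have ha' : (a : ℚ) = α * (α.den : ℚ) ^ 2 := by
    rw [ha]; push_cast
    have := Rat.mul_den_eq_num α
    rw [← this]; ring
  have hb' : (b : ℚ) = β * (β.den : ℚ) ^ 2 := by
    rw [hb]; push_cast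
    have := Rat.mul_den_eq_num β
    rw [← this]; ring
  have ha0 : a ≠ 0 := by
    have : (a : ℚ) ≠ 0 := by rw [ha']; positivity
    exact_mod_cast this
  have hb0 : 0 < b := by
    have : (0 : ℚ) < b := by rw [hb']; positivity
    exact_mod_cast this
  set T : Finset ℕ := (a * b).natAbs.primeFactors.erase 2 with hTdef
  have hT : ∀ p ∈ T, p.Prime ∧ p ≠ 2 := by
    intro p hp
    have := Finset.mem_erase.1 hp
    exact ⟨Nat.prime_of_mem_primeFactors this.2, this.1⟩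
  have hmemT : ∀ p : ℕ, p.Prime → p ≠ 2 → (p : ℤ) ∣ a * b → p ∈ T := by
    intro p hp hp2 h
    rw [hTdef, Finset.mem_erase, Nat.mem_primeFactors]
    exact ⟨hp2, hp, Int.natCast_dvd.1 h, by simpa using ⟨ha0, hb0.ne'⟩⟩
  obtain ⟨A, hAT, hA2, hA2', hA3, hA3'⟩ := exists_A T hT n
  obtain ⟨X, Y, Z, W, h1, h2⟩ := single ha0 hb0 hA3
    (fun p hp hp2 h => (hAT p (hmemT p hp hp2 h)).1) hA2
  obtain ⟨X', Y', Z', W', h1', h2'⟩ := single ha0 hb0 hA3'
    (fun p hp hp2 h => (hAT p (hmemT p hp hp2 h)).2) hA2'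
  rw [ha', hb'] at h2 h2'
  refine ⟨X, α.den * Y, β.den * Z, α.den * β.den * W, X', α.den * Y', β.den * Z',
    α.den * β.den * W', ?_, ?_, ?_⟩
  · rw [← h1, ← h1']; push_cast; ring
  · linear_combination h2
  · linear_combination h2'

end Pool.Agent.H89.NumQ
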