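import Mathlib

set_option autoImplicit false

namespace Pool.Agent.H89

section GalLemma

variable {k κ : Type*} [Field k] [Field κ] [Algebra k κ] [FiniteDimensional k κ] [IsGalois k κ]

/-- if every element of `k` is a square then the Galois group has no subgroup of index two -/
theorem no_index_two (h2 : (2 : κ) ≠ 0) (hk : ∀ y : k, IsSquare y)
    (H : Subgroup (κ ≃ₐ[k] κ)) (hH : ∀ g h : κ ≃ₐ[k] κ, g ∉ H → h ∉ H → g * h ∈ H) : H = ⊤ := by
  classical
  by_contra hne
  have hnorm : ∀ g h : κ ≃ₐ[k] κ, g ∉ H → h ∈ H → g⁻¹ * h * g ∈ H := by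
    intro g h hg hh
    by_contra h3
    have h4 := hH g _ hg h3
    have h5 : g * (g⁻¹ * h * g) = h * g := by group
    rw [h5] at h4
    exact hg ((H.mul_mem_cancel_left hh).1 h4)
  -- an element outside H
  obtain ⟨g, hg⟩ : ∃ g, g ∉ H := by
    by_contra h; push Not at h
    exact hne (eq_top_iff.2 (fun x _ => h x))
  -- the fixed field of H is not bottom
  have hfix : IntermediateField.fixedField H ≠ ⊥ := by
    intro h
    have h3 := IntermediateField.fixingSubgroup_fixedField H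
    rw [h, IntermediateField.fixingSubgroup_bot] at h3
    exact hne h3.symm
  obtain ⟨y, hyH, hyk⟩ : ∃ y : κ, (∀ h ∈ H, h y = y) ∧ y ∉ (⊥ : IntermediateField k κ) := by
    by_contra h; push Not at h
    apply hfix
    rw [eq_bot_iff]
    intro y hy
    apply h
    intro h' hh'
    exact (IntermediateField.mem_fixedField_iff H y).1 hy h' hh'
  -- the anti-invariant element
  set z := y - g y with hz
  have key1 : ∀ h : κ ≃ₐ[k] κ, h ∈ H → h z = z := by
    intro h hh
    have h3 : h (g y) = g y := by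
      have h4 : (g⁻¹ * h * g) y = y := hyH _ (hnorm g h hg hh)
      have h5 : h (g y) = g ((g⁻¹ * h * g) y) := by
        simp [AlgEquiv.mul_apply]
      rw [h5, h4]
    rw [hz, map_sub, hyH h hh, h3]
  have key2 : ∀ h : κ ≃ₐ[k] κ, h ∉ H → h z = - z := by
    intro h hh
    have h3 : h y = g y := by
      have h4 : g⁻¹ * h ∈ H := by
        apply hH
        · intro h5; exact hg (by simpa using H.inv_mem h5)
        · exact hh
      have h5 : (g⁻¹ * h) y = y := hyH _ h4
      have h6 : h y = g ((g⁻¹ * h) y) := by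
        rw [AlgEquiv.mul_apply, ← AlgEquiv.mul_apply g g⁻¹]; simp
      rw [h6, h5]
    have h4 : h (g y) = y := by
      have h5 : h * g ∈ H := hH _ _ hh hg
      exact hyH _ h5
    rw [hz, map_sub, h3, h4]; ring
  have hzz : z ^ 2 ∈ (⊥ : IntermediateField k κ) := by
    rw [IsGalois.mem_bot_iff_fixed]
    intro h
    by_cases hh : h ∈ H
    · rw [map_pow, key1 h hh]
    · rw [map_pow, key2 h hh]; ring
  obtain ⟨w, hw⟩ := IntermediateField.mem_bot.1 hzz
  obtain ⟨t, ht⟩ := hk w
  have h6 : (z - algebraMap k κ t) * (z + algebraMap k κ t) = 0 := by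
    have : algebraMap k κ w = algebraMap k κ t * algebraMap k κ t := by rw [ht, map_mul]
    linear_combination -hw + this
  have h7 : ∀ h : κ ≃ₐ[k] κ, h z = z := by
    intro h
    rcases mul_eq_zero.1 h6 with h8 | h8
    · rw [sub_eq_zero] at h8
      rw [h8, AlgEquiv.commutes]
    · rw [add_eq_zero_iff_eq_neg] at h8
      rw [h8, map_neg, AlgEquiv.commutes]
  have h8 : z = 0 := by
    have h9 := key2 g hg
    rw [h7 g] at h9
    have : (2:κ) * z = 0 := by linear_combination h9
    exact (mul_eq_zero.1 this).resolve_left h2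
  apply hyk
  rw [IsGalois.mem_bot_iff_fixed]
  intro h
  by_cases hh : h ∈ H
  · exact hyH h hh
  · have h4 : g⁻¹ * h ∈ H := by
      apply hH
      · intro h5; exact hg (by simpa using H.inv_mem h5)
      · exact hh
    have h5 : (g⁻¹ * h) y = y := hyH _ h4
    have h6 : h y = g ((g⁻¹ * h) y) := by
      rw [AlgEquiv.mul_apply, ← AlgEquiv.mul_apply g g⁻¹]; simp
    rw [h6, h5]
    rw [hz, sub_eq_zero] at h8
    exact h8.symm

/-- in a field all of whose elements are squares there are primitive roots of unity of every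
`2`-power order -/
theorem exists_prim_root (h2 : (2 : k) ≠ 0) (hk : ∀ y : k, IsSquare y) (i : ℕ) :
    ∃ ξ : k, IsPrimitiveRoot ξ (2 ^ i) := by
  induction i with
  | zero => exact ⟨1, by simp⟩
  | succ i ih =>
    rcases Nat.eq_zero_or_pos i with rfl | hi
    · refine ⟨-1, ?_⟩
      have : ((-1 : k)) ≠ 1 := by
        intro h
        apply h2
        linear_combination -h
      rw [IsPrimitiveRoot.iff_def]
      refine ⟨by norm_num, ?_⟩
      intro l hl
      rcases Nat.even_or_odd l with he | ho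
      · obtain ⟨m, rfl⟩ := he
        exact ⟨m, by ring⟩
      · rw [ho.neg_one_pow] at hl
        exact absurd hl this
    · obtain ⟨ξ, hξ⟩ := ih
      obtain ⟨η, hη⟩ := hk ξ
      refine ⟨η, ?_⟩
      have h3 : orderOf η = 2 ^ (i + 1) := by
        apply orderOf_eq_prime_pow
        · intro h
          obtain ⟨j, rfl⟩ : ∃ j, i = j + 1 := ⟨i - 1, by omega⟩
          have h4 : ξ ^ (2 ^ j) = 1 := by
            rw [hη, ← h, pow_succ 2 j, mul_comm (2^j) 2, pow_mul]; ring
          have h5 := hξ.dvd_of_pow_eq_one _ h4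
          have h6 := Nat.le_of_dvd (by positivity) h5
          have : 2 ^ j < 2 ^ (j+1) := by
            apply Nat.pow_lt_pow_right <;> omega
          omega
        · have h4 : η ^ 2 ^ (i+1) = ξ ^ (2 ^ i) := by
            rw [hη, pow_succ 2 i, mul_comm (2^i) 2, pow_mul]; ring
          rw [h4, hξ.pow_eq_one]
      rw [← h3]
      exact IsPrimitiveRoot.orderOf η

theorem pow_two_pow {k : Type*} [Field k] (hk : ∀ y : k, IsSquare y) (j : ℕ) (y : k) : ∃ z : k, z ^ (2 ^ j) = y := by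
  induction j generalizing y with
  | zero => exact ⟨y, by simp⟩
  | succ j ih =>
    obtain ⟨w, hw⟩ := hk y
    obtain ⟨z, hz⟩ := ih w
    refine ⟨z, ?_⟩
    rw [pow_succ, pow_mul, hz, hw]; ring

omit [FiniteDimensional k κ] [IsGalois k κ] in
theorem root_of_unity_square (h2 : (2 : k) ≠ 0) (hk : ∀ y : k, IsSquare y) (i : ℕ) (η : κ)
    (hη : η ^ (2 ^ i) = 1) : IsSquare η := by
  obtain ⟨ξ, hξ⟩ := exists_prim_root h2 hk (i + 1)
  -- `ξ ^ 2` is a primitive `2^i`-th root of unity in `k`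
  have h3 : IsPrimitiveRoot (algebraMap k κ (ξ ^ 2)) (2 ^ i) := by
    have h4 : IsPrimitiveRoot (ξ ^ 2) (2 ^ i) := by
      apply hξ.pow (by positivity)
      rw [pow_succ]; ring
    exact h4.map_of_injective (algebraMap k κ).injective
  have : NeZero (2 ^ i) := ⟨by positivity⟩
  obtain ⟨m, -, hm⟩ := h3.eq_pow_of_pow_eq_one hη
  refine ⟨algebraMap k κ ξ ^ m, ?_⟩
  rw [← hm, map_pow]; ring

/-- Key Galois lemma: if `κ/k` is finite Galois, `κ` has a non-square and products of
non-squares are squares in `κ`, then `k` has a non-square. -/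
theorem exists_nonsquare_base (h2 : (2 : k) ≠ 0) (x : κ) (hx : ¬ IsSquare x)
    (hprod : ∀ a b : κ, ¬ IsSquare a → ¬ IsSquare b → IsSquare (a * b)) :
    ∃ y : k, ¬ IsSquare y := by
  classical
  by_contra hcon
  push Not at hcon
  have hk : ∀ y : k, IsSquare y := hcon
  have h2' : (2 : κ) ≠ 0 := by
    intro h
    apply h2
    apply (algebraMap k κ).injective
    rw [map_zero, map_ofNat, h]
  have hx0 : x ≠ 0 := by rintro rfl; exact hx (IsSquare.zero)
  have hsq : ∀ (g : κ ≃ₐ[k] κ) (a : κ), IsSquare (g a) → IsSquare a := by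
    intro g a ⟨b, hb⟩
    refine ⟨g.symm b, ?_⟩
    rw [← map_mul, ← hb]; simp
  -- the filtration
  let H : ℕ → Subgroup (κ ≃ₐ[k] κ) := fun i =>
    { carrier := {g | ∃ s : κ, g x = x * s ^ (2 ^ i)}
      one_mem' := ⟨1, by simp⟩
      mul_mem' := by
        rintro a b ⟨s, hs⟩ ⟨t, ht⟩
        refine ⟨s * a t, ?_⟩
        rw [AlgEquiv.mul_apply, ht, map_mul, map_pow, hs]; ring
      inv_mem' := by
        rintro a ⟨s, hs⟩
        have hs0 : s ≠ 0 := by
          rintro rfl
          rw [zero_pow (by positivity), mul_zero] at hs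
          exact hx0 (by simpa using hs)
        refine ⟨(a⁻¹ s)⁻¹, ?_⟩
        have h3 : x = a⁻¹ x * (a⁻¹ s) ^ (2 ^ i) := by
          have := congrArg (a⁻¹ : κ ≃ₐ[k] κ) hs
          rw [map_mul, map_pow, ← AlgEquiv.mul_apply a⁻¹ a] at this
          simpa using this
        have h4 : (a⁻¹ s) ≠ 0 := by
          intro h; exact hs0 (by simpa using h)
        rw [inv_pow, eq_mul_inv_iff_mul_eq₀ (pow_ne_zero _ h4)]
        exact h3.symm }
  have Htop : ∀ i, H (i + 1) = ⊤ := by
    intro i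
    induction i with
    | zero =>
      rw [eq_top_iff]
      intro g _
      have h3 : ¬ IsSquare (g x) := fun h => hx (hsq g x h)
      obtain ⟨r, hr⟩ := hprod _ _ h3 hx
      refine ⟨r / x, ?_⟩
      have h4 : (2:ℕ) ^ (0 + 1) = 2 := by norm_num
      rw [h4]
      field_simp
      linear_combination hr
    | succ i ih =>
      apply no_index_two h2' hk
      have h3 : ∀ g : κ ≃ₐ[k] κ, g ∉ H (i + 1 + 1) → ∃ s : κ, ¬ IsSquare s ∧ g x = x * s ^ (2 ^ (i+1)) := by
        intro g hg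
        have h4 : g ∈ H (i + 1) := by rw [ih]; trivial
        obtain ⟨s, hs⟩ := h4
        refine ⟨s, ?_, hs⟩
        rintro ⟨t, rfl⟩
        apply hg
        refine ⟨t, ?_⟩
        rw [hs, pow_succ 2 (i+1), mul_comm (2^(i+1)) 2, pow_mul]; ring
      intro g h hg hh
      obtain ⟨s, hs, hs'⟩ := h3 g hg
      obtain ⟨t, ht, ht'⟩ := h3 h hh
      have h5 : ¬ IsSquare (g t) := fun h => ht (hsq g t h)
      obtain ⟨r, hr⟩ := hprod _ _ hs h5
      refine ⟨r, ?_⟩
      rw [AlgEquiv.mul_apply, ht', map_mul, map_pow, hs', mul_assoc, ← mul_pow, hr,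
        pow_succ 2 (i+1), mul_comm (2^(i+1)) 2, pow_mul]; ring
  -- choose j with 2^j > |D|
  set D := Fintype.card (κ ≃ₐ[k] κ) with hD
  have hDpos : 0 < D := Fintype.card_pos
  obtain ⟨j, hj⟩ : ∃ j, D < 2 ^ (j + 1) := ⟨D, lt_trans (Nat.lt_two_pow_self) (Nat.pow_lt_pow_right (by norm_num) (by omega))⟩
  have h3 : ∀ g : κ ≃ₐ[k] κ, ∃ s : κ, g x = x * s ^ (2 ^ (j+1)) := by
    intro g
    have : g ∈ H (j + 1) := by rw [Htop]; trivial
    exact this
  choose s hs using h3
  have hN : (∏ g : κ ≃ₐ[k] κ, g x) = x ^ D * (∏ g : κ ≃ₐ[k] κ, s g) ^ (2 ^ (j+1)) := by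
    rw [Finset.prod_congr rfl (fun g _ => hs g), Finset.prod_mul_distrib, Finset.prod_pow,
      Finset.prod_const, Finset.card_univ]
  have hNb : (∏ g : κ ≃ₐ[k] κ, g x) ∈ (⊥ : IntermediateField k κ) := by
    rw [IsGalois.mem_bot_iff_fixed]
    intro h
    rw [map_prod]
    exact Fintype.prod_equiv (Equiv.mulLeft h) _ _ (fun g => rfl)
  obtain ⟨w, hw⟩ := IntermediateField.mem_bot.1 hNb
  obtain ⟨M, hM⟩ := pow_two_pow hk (j+1) w
  have hs0 : (∏ g : κ ≃ₐ[k] κ, s g) ≠ 0 := by
    rw [Finset.prod_ne_zero_iff]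
    intro g _ h
    have := hs g
    rw [h, zero_pow (by positivity), mul_zero] at this
    exact hx0 (by simpa using this)
  set T := algebraMap k κ M / (∏ g : κ ≃ₐ[k] κ, s g) with hT
  have h4 : x ^ D = T ^ (2 ^ (j+1)) := by
    rw [hT, div_pow, eq_div_iff (pow_ne_zero _ hs0), ← hN, ← hw, ← hM, map_pow]
  have hT0 : T ≠ 0 := by
    intro h
    rw [h, zero_pow (by positivity)] at h4
    exact hx0 (pow_eq_zero_iff (by omega) |>.1 h4)
  obtain ⟨i, m, hm, hD2⟩ := Nat.exists_eq_two_pow_mul_odd hDpos.ne'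
  have hij : i < j + 1 := by
    by_contra h
    push Not at h
    have h5 : 2 ^ (j+1) ≤ 2 ^ i := Nat.pow_le_pow_right (by norm_num) h
    have h6 : 2 ^ i ≤ D := by
      rw [hD2]
      exact Nat.le_mul_of_pos_right _ hm.pos
    omega
  obtain ⟨e, he⟩ : ∃ e, j + 1 = i + (e + 1) := ⟨j - i, by omega⟩
  have h5 : (x ^ m / T ^ (2 ^ (e+1))) ^ (2 ^ i) = 1 := by
    rw [div_pow, ← pow_mul, ← pow_mul, mul_comm m, ← hD2, h4, ← pow_add,
      show e + 1 + i = j + 1 by omega, div_self (pow_ne_zero _ hT0)]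
  obtain ⟨r, hr⟩ := root_of_unity_square (κ := κ) h2 hk i _ h5
  obtain ⟨l, rfl⟩ := hm
  apply hx
  refine ⟨r * T ^ (2 ^ e) / x ^ l, ?_⟩
  have h6 : x ^ (2 * l + 1) = r * r * T ^ (2 ^ (e+1)) := by
    rw [← hr, div_mul_cancel₀ _ (pow_ne_zero _ hT0)]
  have hxl : x ^ l ≠ 0 := pow_ne_zero _ hx0
  field_simp
  have h7 : T ^ (2 ^ (e+1)) = (T ^ (2^e))^2 := by rw [← pow_mul, pow_succ]
  rw [h7] at h6
  have h8 : x ^ (2 * l + 1) = x * (x ^ l)^2 := by rw [← pow_mul, pow_succ]; ring
  rw [h8] at h6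
  linear_combination h6

end GalLemma

end Pool.Agent.H89
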