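import Mathlib
import Pool.Agent.H89.GalLemma

set_option autoImplicit false

namespace Pool.Agent.H89

open IsLocalRing

section aniso

variable {L Γ : Type*} [Field L] [LinearOrderedCommGroupWithZero Γ] (v : Valuation L Γ)

theorem val_form {a : L} (ha : ∀ t : L, v t ≤ 1 → v (t ^ 2 + t + a) = 1) (x y : L) :
    ∃ b : L, v (x ^ 2 + x * y + a * y ^ 2) = v b ^ 2 ∧ v x ≤ v b ∧ v y ≤ v b := by
  have ha1 : v a = 1 := by simpa using ha 0 (by simp)
  rcases le_or_gt (v x) (v y) with h | h
  · refine ⟨y, ?_, h, le_refl _⟩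
    by_cases hy : y = 0
    · subst hy
      have hx : v x = 0 := by simpa using h
      have : x = 0 := by simpa using hx
      subst this; simp
    · have hvy : v y ≠ 0 := (v.ne_zero_iff).2 hy
      have h1 : x ^ 2 + x * y + a * y ^ 2 = y ^ 2 * ((x/y) ^ 2 + (x/y) + a) := by
        field_simp
      rw [h1, map_mul, map_pow, ha, mul_one]
      rw [map_div₀]
      exact div_le_one_of_le₀ h zero_le
  · refine ⟨x, ?_, le_refl _, h.le⟩
    have hx : v x ≠ 0 := by
      intro h0; rw [h0] at h; exact not_lt_zero h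
    have h1 : v (x * y) < v (x ^ 2) := by
      rw [map_mul, map_pow, pow_two]
      exact mul_lt_mul_of_pos_left h (zero_lt_iff.2 hx)
    have h2 : v (a * y ^ 2) < v (x ^ 2) := by
      rw [map_mul, ha1, one_mul, map_pow, map_pow]
      exact pow_lt_pow_left₀ h zero_le (by norm_num)
    have h3 : v (x ^ 2 + x * y) = v (x ^ 2) := Valuation.map_add_eq_of_lt_left v h1
    rw [Valuation.map_add_eq_of_lt_left v (by rw [h3]; exact h2), h3, map_pow]

theorem aniso_bound {a β : L} (ha : ∀ t : L, v t ≤ 1 → v (t ^ 2 + t + a) = 1)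
    (hβ : ∀ b : L, v β ≠ v b ^ 2) {x y z w : L}
    (h : (x ^ 2 + x * y + a * y ^ 2) - β * (z ^ 2 + z * w + a * w ^ 2) = 1) :
    v x ≤ 1 ∧ v y ≤ 1 := by
  obtain ⟨b, hb, hxb, hyb⟩ := val_form v ha x y
  obtain ⟨c, hc, -, -⟩ := val_form v ha z w
  have hle : v b ^ 2 ≤ 1 := by
    by_cases hc0 : c = 0
    · have h1 : v (z ^ 2 + z * w + a * w ^ 2) = 0 := by rw [hc, hc0]; simp
      have h2 : z ^ 2 + z * w + a * w ^ 2 = 0 := by simpa using h1
      rw [h2] at h
      rw [← hb]
      have : x ^ 2 + x * y + a * y ^ 2 = 1 := by linear_combination h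
      rw [this]; simp
    · have hvc : v c ≠ 0 := (v.ne_zero_iff).2 hc0
      have hne : v (x ^ 2 + x * y + a * y ^ 2) ≠ v (β * (z ^ 2 + z * w + a * w ^ 2)) := by
        rw [hb, map_mul, hc]
        intro h3
        apply hβ (b / c)
        rw [map_div₀, div_pow, h3, mul_div_cancel_right₀ _ (pow_ne_zero _ hvc)]
      have h4 : v ((x ^ 2 + x * y + a * y ^ 2) - β * (z ^ 2 + z * w + a * w ^ 2)) =
          max (v (x ^ 2 + x * y + a * y ^ 2)) (v (β * (z ^ 2 + z * w + a * w ^ 2))) := by
        rcases lt_or_gt_of_ne hne with h5 | h5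
        · rw [Valuation.map_sub_eq_of_lt_right v h5, max_eq_right h5.le]
        · rw [Valuation.map_sub_eq_of_lt_left v h5, max_eq_left h5.le]
      rw [h, map_one] at h4
      rw [← hb, h4]
      exact le_max_left _ _
  have hb1 : v b ≤ 1 := by
    by_contra h5
    push Not at h5
    have : 1 < v b ^ 2 := one_lt_pow₀ h5 (by norm_num)
    exact absurd hle (not_le.2 this)
  exact ⟨hxb.trans hb1, hyb.trans hb1⟩

theorem aniso_bound' {a β : L} (ha : ∀ t : L, v t ≤ 1 → v (t ^ 2 + t + a) = 1)
    (hβ : ∀ b : L, v β ≠ v b ^ 2) {X Y Z W : L}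
    (h : X ^ 2 - (1 - 4 * a) * Y ^ 2 - β * Z ^ 2 + (1 - 4 * a) * β * W ^ 2 = 1) :
    v (2 * X) ≤ 1 := by
  have h1 := aniso_bound v ha hβ (x := X - Y) (y := 2 * Y) (z := Z - W) (w := 2 * W)
    (by linear_combination h)
  have h2 : 2 * X = (X - Y) + ((X - Y) + 2 * Y) := by ring
  rw [h2]
  exact Valuation.map_add_le v h1.1 (Valuation.map_add_le v h1.1 h1.2)

theorem form_ne_zero {a : L} (ha : ∀ t : L, v t ≤ 1 → v (t ^ 2 + t + a) = 1) :
    (1 : L) - 4 * a ≠ 0 := by
  intro h
  have ha1 : v a = 1 := by simpa using ha 0 (by simp)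
  have h2le : v (2 : L) ≤ 1 := by
    have : (2 : L) = 1 + 1 := by norm_num
    rw [this]
    exact Valuation.map_add_le v (by simp) (by simp)
  have h3 := ha (-(2 * a)) (by rw [Valuation.map_neg, map_mul, ha1, mul_one]; exact h2le)
  have h4 : (-(2 * a)) ^ 2 + -(2 * a) + a = 0 := by
    linear_combination (-a) * h
  rw [h4] at h3
  simp at h3

end aniso

section beta

variable {K : Type*} [Field K] (K0 : Subfield K) (V : ValuationSubring K)

theorem exists_beta [FiniteDimensional K0 K] {π : K} (hπ0 : π ≠ 0) (hπ1 : V.valuation π < 1)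
    (hπ : ∀ x : K, V.valuation x < 1 → V.valuation x ≤ V.valuation π) :
    ∃ β : K0, β ≠ 0 ∧ ∀ b : K0, V.valuation (β : K) ≠ V.valuation (b : K) ^ 2 := by
  classical
  set v := V.valuation with hv
  have hvπ : v π ≠ 0 := (v.ne_zero_iff).2 hπ0
  have hvπ' : 0 < v π := zero_lt_iff.2 hvπ
  have hanti : StrictAnti (fun n : ℕ => v π ^ n) := pow_right_strictAnti₀ hvπ' hπ1
  -- a nontrivial relation
  have hex : ∃ m : ℕ, 1 ≤ m ∧ ∃ c : K0, c ≠ 0 ∧ v (c : K) = v π ^ m := by
    have hint : IsIntegral K0 π := Algebra.IsIntegral.isIntegral π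
    set p := minpoly K0 π with hp
    have hp0 : p ≠ 0 := minpoly.ne_zero hint
    have hrel : ∑ i ∈ p.support, ((p.coeff i : K0) : K) * π ^ i = 0 := by
      have := minpoly.aeval K0 π
      rw [Polynomial.aeval_def, Polynomial.eval₂_eq_sum, Polynomial.sum_def] at this
      exact this
    have hne : p.support.Nonempty := Polynomial.support_nonempty.2 hp0
    obtain ⟨i, hi, himax⟩ := Finset.exists_max_image p.support
      (fun i => v (((p.coeff i : K0) : K) * π ^ i)) hne
    have hnz : ∀ j ∈ p.support, v (((p.coeff j : K0) : K) * π ^ j) ≠ 0 := by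
      intro j hj
      rw [map_mul, map_pow]
      refine mul_ne_zero ?_ (pow_ne_zero _ hvπ)
      rw [v.ne_zero_iff]
      have := Polynomial.mem_support_iff.1 hj
      simpa using this
    obtain ⟨j, hj, hji, hjv⟩ : ∃ j ∈ p.support, j ≠ i ∧
        v (((p.coeff j : K0) : K) * π ^ j) = v (((p.coeff i : K0) : K) * π ^ i) := by
      by_contra hcon
      push Not at hcon
      have h1 : ∀ j ∈ p.support.erase i, v (((p.coeff j : K0) : K) * π ^ j) <
          v (((p.coeff i : K0) : K) * π ^ i) := by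
        intro j hj
        have hj' := Finset.mem_erase.1 hj
        exact lt_of_le_of_ne (himax j hj'.2) (hcon j hj'.2 hj'.1)
      have h2 := Valuation.map_sum_lt v (hnz i hi) h1
      rw [← Finset.add_sum_erase _ _ hi] at hrel
      have h3 := Valuation.map_add_eq_of_lt_left v h2
      rw [hrel, map_zero] at h3
      exact hnz i hi h3.symm
    -- both orders
    have hgen : ∀ i j : ℕ, i < j → i ∈ p.support → j ∈ p.support →
        v (((p.coeff j : K0) : K) * π ^ j) = v (((p.coeff i : K0) : K) * π ^ i) →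
        ∃ m : ℕ, 1 ≤ m ∧ ∃ c : K0, c ≠ 0 ∧ v (c : K) = v π ^ m := by
      intro i j hij hi hj hjv
      refine ⟨j - i, by omega, p.coeff i / p.coeff j, ?_, ?_⟩
      · exact div_ne_zero (Polynomial.mem_support_iff.1 hi) (Polynomial.mem_support_iff.1 hj)
      · have hcj : v ((p.coeff j : K0) : K) ≠ 0 := by
          rw [v.ne_zero_iff]
          have := Polynomial.mem_support_iff.1 hj
          simpa using this
        rw [map_mul, map_mul, map_pow, map_pow] at hjv
        have h4 : v π ^ j = v π ^ i * v π ^ (j - i) := by rw [← pow_add]; congr 1; omega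
        rw [h4] at hjv
        have hpi : v π ^ i ≠ 0 := pow_ne_zero _ hvπ
        have : v ((p.coeff i / p.coeff j : K0) : K) = v ((p.coeff i : K0) : K) / v ((p.coeff j : K0) : K) := by
          push_cast
          rw [map_div₀]
        rw [this, div_eq_iff hcj]
        apply mul_right_cancel₀ hpi
        rw [← hjv]
        ac_rfl
    rcases lt_or_gt_of_ne hji with h | h
    · exact hgen j i h hj hi hjv.symm
    · exact hgen i j h hi hj hjv
  -- minimal m
  let m := Nat.find hex
  obtain ⟨hm1, c, hc0, hcv⟩ := Nat.find_spec hex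
  refine ⟨c, hc0, ?_⟩
  intro b hb
  rw [hcv] at hb
  have hb0 : v (b : K) ≠ 0 := by
    intro h; rw [h] at hb
    exact (pow_ne_zero _ hvπ) (by rw [hb]; simp)
  have hb1 : v (b : K) ≤ 1 := by
    by_contra h5
    push Not at h5
    have h6 : 1 < v (b:K) ^ 2 := one_lt_pow₀ h5 (by norm_num)
    rw [← hb] at h6
    exact absurd h6 (not_lt.2 (pow_le_one₀ zero_le hπ1.le))
  have hbge : v π ^ m ≤ v (b : K) := by
    change v π ^ (Nat.find hex) ≤ _
    rw [hb, pow_two]
    exact mul_le_of_le_one_left zero_le hb1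
  -- v b is a power of v π
  have hpow : ∃ k, v (b : K) = v π ^ k := by
    let P : ℕ → Prop := fun k => v (b : K) ≤ v π ^ k
    have hP0 : P 0 := by simpa [P] using hb1
    obtain ⟨k, hk1, hk2⟩ : ∃ k, P k ∧ ¬ P (k + 1) := by
      by_contra hcon
      push Not at hcon
      have : ∀ k, P k := by
        intro k
        induction k with
        | zero => exact hP0
        | succ k ih => exact hcon k ih
      have h7 := this (m + 1)
      have h8 : v π ^ (m + 1) < v π ^ m := hanti (Nat.lt_succ_self m)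
      exact absurd (lt_of_le_of_lt h7 h8) (not_lt.2 hbge)
    refine ⟨k, ?_⟩
    have hk3 : v ((b : K) / π ^ k) ≤ 1 := by
      rw [map_div₀, map_pow]
      exact div_le_one_of_le₀ hk1 zero_le
    rcases lt_or_eq_of_le hk3 with h9 | h9
    · exfalso
      have h10 := hπ _ h9
      apply hk2
      change v (b : K) ≤ v π ^ (k + 1)
      rw [map_div₀, map_pow, div_le_iff₀ (pow_pos hvπ' k)] at h10
      rw [pow_succ, mul_comm]; exact h10
    · rw [map_div₀, map_pow, div_eq_one_iff_eq (pow_ne_zero _ hvπ)] at h9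
      exact h9
  obtain ⟨k, hk⟩ := hpow
  rw [hk, ← pow_mul] at hb
  have h11 := hanti.injective hb
  have hk1 : 1 ≤ k := by omega
  have h12 : Nat.find hex ≤ k := by
    apply Nat.find_min' hex
    refine ⟨hk1, b, ?_, hk⟩
    rintro rfl
    simp at hb0
  omega

end beta

end Pool.Agent.H89
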