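import Mathlib
import Pool.Agent.H89.Val

set_option autoImplicit false

namespace Pool.Agent.H89

open IsLocalRing

section res

variable {K : Type*} [Field K] (K0 : Subfield K) (V : ValuationSubring K)

theorem res_eq_zero {x : K} (hx : x ∈ V) : residue V ⟨x, hx⟩ = 0 ↔ V.valuation x < 1 := by
  rw [residue_eq_zero_iff]
  exact V.valuation_lt_one_iff ⟨x, hx⟩

theorem res_ne_zero {x : K} (hx : x ∈ V) : residue V ⟨x, hx⟩ ≠ 0 ↔ V.valuation x = 1 := by
  rw [Ne, res_eq_zero V hx, not_lt]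
  have h1 := (V.valuation_le_one_iff x).2 hx
  constructor
  · intro h; exact le_antisymm h1 h
  · intro h; exact h.ge

/-- the residue field of `V ∩ K0` inside the residue field of `V` -/
def resSub : Subfield (ResidueField V) where
  carrier := {y | ∃ x : K, ∃ hx : x ∈ V, x ∈ K0 ∧ residue V ⟨x, hx⟩ = y}
  mul_mem' := by
    rintro _ _ ⟨x, hx, hx0, rfl⟩ ⟨y, hy, hy0, rfl⟩
    exact ⟨x * y, V.mul_mem _ _ hx hy, K0.mul_mem hx0 hy0, by rw [← map_mul]; rfl⟩
  one_mem' := ⟨1, V.one_mem, K0.one_mem, by exact map_one _⟩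
  add_mem' := by
    rintro _ _ ⟨x, hx, hx0, rfl⟩ ⟨y, hy, hy0, rfl⟩
    exact ⟨x + y, V.add_mem _ _ hx hy, K0.add_mem hx0 hy0, by rw [← map_add]; rfl⟩
  zero_mem' := ⟨0, V.zero_mem, K0.zero_mem, by exact map_zero _⟩
  neg_mem' := by
    rintro _ ⟨x, hx, hx0, rfl⟩
    exact ⟨-x, V.neg_mem _ hx, K0.neg_mem hx0, by rw [← map_neg]; rfl⟩
  inv_mem' := by
    rintro _ ⟨x, hx, hx0, rfl⟩
    by_cases h : residue V ⟨x, hx⟩ = 0
    · rw [h, inv_zero]
      exact ⟨0, V.zero_mem, K0.zero_mem, by exact map_zero _⟩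
    · have h1 := (res_ne_zero V hx).1 h
      have hx' : x⁻¹ ∈ V := by
        rw [← V.valuation_le_one_iff, map_inv₀, h1, inv_one]
      refine ⟨x⁻¹, hx', K0.inv_mem hx0, ?_⟩
      apply eq_inv_of_mul_eq_one_left
      rw [← map_mul]
      have hx1 : x ≠ 0 := by rintro rfl; simp at h1
      have : (⟨x⁻¹, hx'⟩ * ⟨x, hx⟩ : V) = 1 := by
        apply Subtype.ext
        simp [hx1]
      rw [this, map_one]

theorem mem_resSub {y : ResidueField V} :
    y ∈ resSub K0 V ↔ ∃ x : K, ∃ hx : x ∈ V, x ∈ K0 ∧ residue V ⟨x, hx⟩ = y := Iff.rfl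

/-- case of a finite residue field -/
theorem exists_a_finite [Finite (ResidueField V)] :
    ∃ a : K0, ∀ t : K0, V.valuation (t : K) ≤ 1 →
      V.valuation ((t : K) ^ 2 + (t : K) + (a : K)) = 1 := by
  let f : resSub K0 V → resSub K0 V := fun t => -(t ^ 2 + t)
  have hf : ¬ Function.Injective f := by
    intro h
    have h1 : f 0 = f (-1) := by simp [f]
    have h2 := h h1
    have h3 : (1 : resSub K0 V) = 0 := by
      rw [← neg_eq_zero]; exact h2.symm
    exact one_ne_zero h3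
  rw [Finite.injective_iff_surjective] at hf
  rw [Function.Surjective] at hf
  push Not at hf
  obtain ⟨⟨y, x, hx, hx0, hy⟩, hy2⟩ := hf
  refine ⟨⟨x, hx0⟩, ?_⟩
  intro t ht
  have htV : (t : K) ∈ V := (V.valuation_le_one_iff _).1 ht
  have hmem : (t : K) ^ 2 + (t : K) + x ∈ V :=
    V.add_mem _ _ (V.add_mem _ _ (by rw [pow_two]; exact V.mul_mem _ _ htV htV) htV) hx
  change V.valuation ((t : K) ^ 2 + (t : K) + x) = 1
  rw [← res_ne_zero V hmem]
  intro h
  apply hy2 ⟨residue V ⟨t, htV⟩, t, htV, t.2, rfl⟩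
  apply Subtype.ext
  have h4 : residue V ⟨(t : K) ^ 2 + (t : K) + x, hmem⟩ =
      (residue V ⟨t, htV⟩) ^ 2 + residue V ⟨t, htV⟩ + residue V ⟨x, hx⟩ := by
    rw [← map_pow, ← map_add, ← map_add]; rfl
  rw [h4] at h
  change -((residue V ⟨t, htV⟩) ^ 2 + residue V ⟨t, htV⟩) = y
  rw [← hy]
  linear_combination -h

/-- case of a non-square in the residue field of `V ∩ K0` -/
theorem exists_a_nonsquare (h2 : V.valuation (2 : K) = 1)
    (hns : ∃ y : resSub K0 V, ¬ IsSquare y) :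
    ∃ a : K0, ∀ t : K0, V.valuation (t : K) ≤ 1 →
      V.valuation ((t : K) ^ 2 + (t : K) + (a : K)) = 1 := by
  obtain ⟨⟨y, x, hx, hx0, hy⟩, hy2⟩ := hns
  have h20 : (2 : K) ≠ 0 := by intro h; rw [h] at h2; simp at h2
  have h4 : V.valuation (4 : K) = 1 := by
    have : (4 : K) = 2 * 2 := by norm_num
    rw [this, map_mul, h2, one_mul]
  have h40 : (4 : K) ≠ 0 := by intro h; rw [h] at h4; simp at h4
  refine ⟨(1 - ⟨x, hx0⟩) / 4, ?_⟩
  intro t ht
  have htV : (t : K) ∈ V := (V.valuation_le_one_iff _).1 ht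
  have h2V : (2 : K) ∈ V := (V.valuation_le_one_iff _).1 h2.le
  have hs : 2 * (t : K) + 1 ∈ V := V.add_mem _ _ (V.mul_mem _ _ h2V htV) V.one_mem
  have hs0 : 2 * (t : K) + 1 ∈ K0 := (2 * t + 1 : K0).2
  have hmem : (2 * (t : K) + 1) * (2 * (t : K) + 1) - x ∈ V :=
    sub_mem (V.mul_mem _ _ hs hs) hx
  have h5 : V.valuation ((2 * (t : K) + 1) * (2 * (t : K) + 1) - x) = 1 := by
    rw [← res_ne_zero V hmem]
    intro h
    apply hy2
    refine ⟨⟨residue V ⟨_, hs⟩, _, hs, hs0, rfl⟩, ?_⟩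
    apply Subtype.ext
    have h6 : residue V ⟨(2 * (t : K) + 1) * (2 * (t : K) + 1) - x, hmem⟩ =
      (residue V ⟨_, hs⟩) * (residue V ⟨_, hs⟩) - residue V ⟨x, hx⟩ := by
      rw [← map_mul, ← map_sub]; rfl
    rw [h6] at h
    change y = (residue V ⟨_, hs⟩) * (residue V ⟨_, hs⟩)
    rw [← hy]
    linear_combination -h
  have h6 : (2 * (t : K) + 1) * (2 * (t : K) + 1) - x =
      4 * ((t : K) ^ 2 + (t : K) + (((1 - ⟨x, hx0⟩) / 4 : K0) : K)) := by
    have h7 : ((4 : K0) : K) = 4 := rfl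
    push_cast
    rw [h7]
    field_simp
    ring
  rw [h6, map_mul, h4, one_mul] at h5
  exact h5

end res

end Pool.Agent.H89
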