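import Mathlib
import Pool.Agent.H89.Val2

set_option autoImplicit false

namespace Pool.Agent.H89

open IsLocalRing

section gen

variable {K : Type*} [Field K] (K0 : Subfield K) (V : ValuationSubring K)

theorem int_of_val {y : K}
    (h : ∀ W : ValuationSubring K, (∀ c : K, c ∈ K0 → c ∈ V → c ∈ W) → y ∈ W) :
    IsIntegral (V.comap (algebraMap K0 K)) y := by
  let s : Set K := {c | c ∈ K0 ∧ c ∈ V}
  have h1 : y ∈ (⨅ W : {W : ValuationSubring K // s ⊆ W.toSubring}, W.1.toSubring) := by
    rw [Subring.mem_iInf]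
    rintro ⟨W, hW⟩
    exact h W (fun c h1 h2 => hW ⟨h1, h2⟩)
  rw [iInf_valuationSubring_superset] at h1
  have h2 : IsIntegral (Subring.closure s) y := h1
  have hle : Subring.closure s ≤ K0.toSubring ⊓ V.toSubring := by
    rw [Subring.closure_le]
    rintro c ⟨h3, h4⟩
    exact ⟨h3, h4⟩
  let φ : Subring.closure s →+* V.comap (algebraMap K0 K) :=
    { toFun := fun c => ⟨⟨c.1, (hle c.2).1⟩, (hle c.2).2⟩
      map_one' := rfl
      map_mul' := fun _ _ => rfl
      map_zero' := rfl
      map_add' := fun _ _ => rfl }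
  exact h2.map_of_comp_eq φ (RingHom.id K) (by ext c; rfl)

theorem integral_frac {x : K} (hx : x ∈ V) (halg : IsAlgebraic K0 x) (hx0 : x ≠ 0) :
    ∃ u : K, V.valuation u = 1 ∧ IsIntegral (V.comap (algebraMap K0 K)) u ∧
      IsIntegral (V.comap (algebraMap K0 K)) (u * x) := by
  classical
  set v := V.valuation with hv
  obtain ⟨p, hp0, hpx⟩ := halg
  have hvx : v x ≤ 1 := (V.valuation_le_one_iff x).2 hx
  -- the set of indices of maximal valuation
  have hne : p.support.Nonempty := Polynomial.support_nonempty.2 hp0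
  obtain ⟨i0, hi0, hmax⟩ := Finset.exists_max_image p.support
      (fun i => v ((p.coeff i : K0) : K)) hne
  set M := v ((p.coeff i0 : K0) : K) with hM
  have hM0 : M ≠ 0 := by
    rw [hM, v.ne_zero_iff]
    have := Polynomial.mem_support_iff.1 hi0
    simpa using this
  have hmax' : ∀ i, v ((p.coeff i : K0) : K) ≤ M := by
    intro i
    by_cases hi : i ∈ p.support
    · exact hmax i hi
    · have : p.coeff i = 0 := by simpa using hi
      rw [this]; simp
  let S := p.support.filter (fun i => v ((p.coeff i : K0) : K) = M)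
  have hS : S.Nonempty := ⟨i0, by simp only [S, Finset.mem_filter]; exact ⟨hi0, rfl⟩⟩
  let k := S.max' hS
  have hkS : k ∈ S := Finset.max'_mem S hS
  have hkv : v ((p.coeff k : K0) : K) = M := (Finset.mem_filter.1 hkS).2
  have hgt : ∀ i, k < i → v ((p.coeff i : K0) : K) < M := by
    intro i hi
    refine lt_of_le_of_ne (hmax' i) ?_
    intro h
    have : i ∈ S := by
      simp only [S, Finset.mem_filter]
      refine ⟨?_, h⟩
      rw [Polynomial.mem_support_iff]
      intro h0
      rw [h0] at h; simp at h; exact hM0 h.symm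
    exact absurd (Finset.le_max' S i this) (not_le.2 hi)
  have hck0 : ((p.coeff k : K0) : K) ≠ 0 := by
    intro h; rw [h] at hkv; simp at hkv; exact hM0 hkv.symm
  -- normalised coefficients
  let a : ℕ → K := fun i => ((p.coeff i / p.coeff k : K0) : K)
  have haK0 : ∀ i, a i ∈ K0 := fun i => (p.coeff i / p.coeff k : K0).2
  have haval : ∀ i, v (a i) = v ((p.coeff i : K0) : K) / M := by
    intro i
    simp only [a]
    push_cast
    rw [map_div₀, hkv]
  have haV : ∀ i, a i ∈ V := by
    intro i
    rw [← V.valuation_le_one_iff, ← hv, haval]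
    exact div_le_one_of_le₀ (hmax' i) zero_le
  have hak : a k = 1 := by
    simp only [a]; push_cast; exact div_self hck0
  have halt : ∀ i, k < i → v (a i) < 1 := by
    intro i hi
    rw [haval, div_lt_one₀ (zero_lt_iff.2 hM0)]
    exact hgt i hi
  set N := p.natDegree with hN
  have hkN : k ≤ N := Polynomial.le_natDegree_of_mem_supp _ (Finset.mem_filter.1 hkS).1
  have hrel : ∑ i ∈ Finset.range (N + 1), a i * x ^ i = 0 := by
    have h1 : ∑ i ∈ Finset.range (N + 1), ((p.coeff i : K0) : K) * x ^ i = 0 := by
      rw [Polynomial.aeval_eq_sum_range] at hpx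
      rw [← hpx]
      apply Finset.sum_congr rfl
      intro i _
      rfl
    have h2 : ∑ i ∈ Finset.range (N + 1), a i * x ^ i =
        ((p.coeff k : K0) : K)⁻¹ * ∑ i ∈ Finset.range (N + 1), ((p.coeff i : K0) : K) * x ^ i := by
      rw [Finset.mul_sum]
      apply Finset.sum_congr rfl
      intro i _
      simp only [a]; push_cast
      rw [div_eq_inv_mul, mul_assoc]
    rw [h2, h1, mul_zero]
  -- the element u
  let u : K := ∑ i ∈ Finset.range (N + 1 - k), a (k + i) * x ^ i
  have hsplit : u * x ^ k = - ∑ i ∈ Finset.range k, a i * x ^ i := by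
    have h1 : ∑ i ∈ Finset.range (N + 1), a i * x ^ i =
        ∑ i ∈ Finset.range k, a i * x ^ i + ∑ i ∈ Finset.range (N + 1 - k), a (k + i) * x ^ (k + i) := by
      rw [← Finset.sum_range_add]
      congr 2; omega
    have h2 : u * x ^ k = ∑ i ∈ Finset.range (N + 1 - k), a (k + i) * x ^ (k + i) := by
      simp only [u]
      rw [Finset.sum_mul]
      apply Finset.sum_congr rfl
      intro i _
      rw [pow_add]; ring
    rw [h2]
    rw [h1] at hrel
    linear_combination hrel
  have huval : v u = 1 := by
    have h1 : u = a k + ∑ i ∈ Finset.range (N - k), a (k + (i + 1)) * x ^ (i + 1) := by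
      simp only [u]
      rw [show N + 1 - k = (N - k) + 1 by omega, Finset.sum_range_succ']
      simp [add_comm]
    rw [h1, hak]
    have h2 : v (∑ i ∈ Finset.range (N - k), a (k + (i + 1)) * x ^ (i + 1)) < v (1 : K) := by
      rw [map_one]
      apply Valuation.map_sum_lt v one_ne_zero
      intro i _
      rw [map_mul, map_pow]
      exact mul_lt_one_of_lt_of_le (halt _ (by omega)) (pow_le_one₀ zero_le hvx)
    rw [Valuation.map_add_eq_of_lt_left v h2, map_one]
  have hk1 : 1 ≤ k := by
    by_contra h
    have hk0 : k = 0 := by omega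
    have h1 : u * x ^ k = 0 := by rw [hsplit, hk0]; simp
    have h2 : u ≠ 0 := by intro h; rw [h] at huval; simp at huval
    rcases mul_eq_zero.1 h1 with h3 | h3
    · exact h2 h3
    · exact hx0 (pow_eq_zero_iff (by
        intro h4; rw [h4] at h3; simp at h3) |>.1 h3)
  have hxk : u * x = - ∑ i ∈ Finset.range k, a i * (x⁻¹) ^ (k - 1 - i) := by
    have h1 : x ^ (k - 1) ≠ 0 := pow_ne_zero _ hx0
    apply mul_right_cancel₀ h1
    have h2 : u * x * x ^ (k - 1) = u * x ^ k := by
      rw [mul_assoc, ← pow_succ']; congr 2; omega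
    rw [h2, hsplit, neg_mul, Finset.sum_mul]
    congr 1
    apply Finset.sum_congr rfl
    intro i hi
    have hi' := Finset.mem_range.1 hi
    have h3 : x ^ (k - 1) = x ^ (k - 1 - i) * x ^ i := by
      rw [← pow_add]; congr 1; omega
    rw [h3, inv_pow]
    field_simp
  have hboth : ∀ W : ValuationSubring K, (∀ c : K, c ∈ K0 → c ∈ V → c ∈ W) → u ∈ W ∧ u * x ∈ W := by
    intro W hW
    have haW : ∀ i, a i ∈ W := fun i => hW _ (haK0 i) (haV i)
    rcases W.mem_or_inv_mem x with h | h
    · have h1 : u ∈ W := by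
        simp only [u]
        apply sum_mem
        intro i _
        exact W.mul_mem _ _ (haW _) (pow_mem h _)
      exact ⟨h1, W.mul_mem _ _ h1 h⟩
    · have h1 : u * x ∈ W := by
        rw [hxk]
        apply neg_mem
        apply sum_mem
        intro i _
        exact W.mul_mem _ _ (haW _) (pow_mem h _)
      refine ⟨?_, h1⟩
      have : u = u * x * x⁻¹ := by field_simp
      rw [this]
      exact W.mul_mem _ _ h1 h
  refine ⟨u, huval, int_of_val K0 V (fun W hW => (hboth W hW).1),
    int_of_val K0 V (fun W hW => (hboth W hW).2)⟩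

end gen

end Pool.Agent.H89
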