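import Mathlib
import Pool.Agent.H89.Val3

set_option autoImplicit false
set_option linter.unusedSectionVars false

namespace Pool.Agent.H89

open IsLocalRing

section galres

variable {K : Type*} [Field K] (K0 : Subfield K) (V : ValuationSubring K)

theorem mem_of_isIntegral_comap {z : K}
    (hz : IsIntegral (V.comap (algebraMap K0 K)) z) : z ∈ V := by
  let φ : V.comap (algebraMap K0 K) →+* V :=
    { toFun := fun c => ⟨c.1.1, c.2⟩
      map_one' := rfl
      map_mul' := fun _ _ => rfl
      map_zero' := rfl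
      map_add' := fun _ _ => rfl }
  have h1 : IsIntegral V z := hz.map_of_comp_eq φ (RingHom.id K) (by ext c; rfl)
  obtain ⟨y, hy⟩ := IsIntegrallyClosed.isIntegral_iff.1 h1
  rw [← hy]
  exact y.2

theorem mem_of_integral_of_sub {A : Type*} [CommRing A] [Algebra A K]
    (hA : ∀ a : A, algebraMap A K a ∈ V) {z : K} (hz : IsIntegral A z) : z ∈ V := by
  let φ : A →+* V := (algebraMap A K).codRestrict V.toSubring hA
  have h1 : IsIntegral V z := hz.map_of_comp_eq φ (RingHom.id K) (by ext c; rfl)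
  obtain ⟨y, hy⟩ := IsIntegrallyClosed.isIntegral_iff.1 h1
  rw [← hy]
  exact y.2

variable [CharZero K] [FiniteDimensional K0 K] {F : Type*} [Field F] [Algebra F K]

omit [CharZero K] [FiniteDimensional K0 K] in
theorem rat_mem [CharZero F] (hF : ∀ x : F, algebraMap F K x ∈ V) (q : ℚ) : (q : K) ∈ V := by
  have := hF (q : F)
  simpa using this

/-- the map from `F` to the residue field -/
noncomputable def resHom (hF : ∀ x : F, algebraMap F K x ∈ V) : F →+* ResidueField V :=
  (residue V).comp ((algebraMap F K).codRestrict V.toSubring hF)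

theorem resHom_apply (hF : ∀ x : F, algebraMap F K x ∈ V) (x : F) :
    resHom V hF x = residue V ⟨algebraMap F K x, hF x⟩ := rfl

theorem discr_val [CharZero F] (hF : ∀ x : F, algebraMap F K x ∈ V) [Algebra.IsIntegral ℚ F]
    (pb : PowerBasis K0 K) (ζ : F) (hζ : pb.gen = algebraMap F K ζ) :
    V.valuation ((Algebra.discr K0 pb.basis : K0) : K) = 1 := by
  classical
  have hint : ∀ i, IsIntegral ℚ (pb.basis i) := by
    intro i
    rw [pb.basis_eq_pow, hζ]
    refine IsIntegral.pow ?_ _
    exact (Algebra.IsIntegral.isIntegral (R := ℚ) ζ).map_of_comp_eq (RingHom.id ℚ) (algebraMap F K)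
      (Subsingleton.elim _ _)
  have h1 : IsIntegral ℚ (Algebra.discr K0 pb.basis) := Algebra.discr_isIntegral K0 hint
  have h0 : Algebra.discr K0 pb.basis ≠ 0 := Algebra.discr_not_zero_of_basis K0 pb.basis
  have h2 : IsIntegral ℚ ((Algebra.discr K0 pb.basis : K0) : K) :=
    h1.map_of_comp_eq (RingHom.id ℚ) (algebraMap K0 K) (Subsingleton.elim _ _)
  have h3 : IsIntegral ℚ (((Algebra.discr K0 pb.basis : K0) : K)⁻¹) := by
    rw [← isAlgebraic_iff_isIntegral] at h2 ⊢
    exact h2.inv
  have hQ : ∀ q : ℚ, algebraMap ℚ K q ∈ V := fun q => by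
    have := rat_mem V hF q
    simpa using this
  have h4 := (V.valuation_le_one_iff _).2 (mem_of_integral_of_sub V hQ h2)
  have h5 := (V.valuation_le_one_iff _).2 (mem_of_integral_of_sub V hQ h3)
  have h6 : V.valuation ((Algebra.discr K0 pb.basis : K0) : K) ≠ 0 := by
    rw [V.valuation.ne_zero_iff]
    simpa using h0
  refine le_antisymm h4 ?_
  rw [map_inv₀] at h5
  exact (inv_le_one₀ (zero_lt_iff.2 h6)).1 h5

theorem res_adjoin [CharZero F] (hF : ∀ x : F, algebraMap F K x ∈ V) [Algebra.IsIntegral ℚ F]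
    (pb : PowerBasis K0 K) (ζ : F) (hζ : pb.gen = algebraMap F K ζ) :
    IntermediateField.adjoin (resSub K0 V) {resHom V hF ζ} = ⊤ := by
  classical
  rw [eq_top_iff]
  intro y _
  obtain ⟨⟨x, hx⟩, rfl⟩ := residue_surjective y
  -- integral elements
  have hζV0 : IsIntegral (V.comap (algebraMap K0 K)) pb.gen := by
    rw [hζ]
    have hQ : ∀ q : ℚ, algebraMap ℚ K0 q ∈ V.comap (algebraMap K0 K) := fun q => by
      have := rat_mem V hF q
      rw [ValuationSubring.mem_comap]
      simpa using this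
    let φ : ℚ →+* V.comap (algebraMap K0 K) := (algebraMap ℚ K0).codRestrict
      (V.comap (algebraMap K0 K)).toSubring hQ
    exact (Algebra.IsIntegral.isIntegral (R := ℚ) ζ).map_of_comp_eq φ (algebraMap F K)
      (Subsingleton.elim _ _)
  have hd := discr_val K0 V hF pb ζ hζ
  set D := Algebra.discr K0 pb.basis with hD
  have hint : ∀ z : K, ∀ hz : IsIntegral (V.comap (algebraMap K0 K)) z,
      residue V ⟨z, mem_of_isIntegral_comap K0 V hz⟩ ∈
        IntermediateField.adjoin (resSub K0 V) {resHom V hF ζ} := by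
    intro z hz
    have h1 := Algebra.discr_mul_isIntegral_mem_adjoin K0 hζV0 hz
    have h2 : ∀ w : K, w ∈ Algebra.adjoin (V.comap (algebraMap K0 K)) {pb.gen} →
        ∃ hw : w ∈ V, residue V ⟨w, hw⟩ ∈
          IntermediateField.adjoin (resSub K0 V) {resHom V hF ζ} := by
      intro w hw
      induction hw using Algebra.adjoin_induction with
      | mem w hw =>
        rw [Set.mem_singleton_iff] at hw
        subst hw
        refine ⟨by rw [hζ]; exact hF ζ, ?_⟩
        have : residue V ⟨pb.gen, by rw [hζ]; exact hF ζ⟩ = resHom V hF ζ := by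
          rw [resHom_apply]
          congr 2
        rw [this]
        exact IntermediateField.mem_adjoin_simple_self _ _
      | algebraMap c =>
        refine ⟨c.2, ?_⟩
        have h3 : residue V ⟨(c.1 : K), c.2⟩ ∈ resSub K0 V := ⟨(c.1 : K), c.2, c.1.2, rfl⟩
        exact IntermediateField.algebraMap_mem _ (⟨_, h3⟩ : resSub K0 V)
      | add a b _ _ iha ihb =>
        obtain ⟨ha, ha'⟩ := iha
        obtain ⟨hb, hb'⟩ := ihb
        exact ⟨V.add_mem _ _ ha hb, add_mem ha' hb'⟩
      | mul a b _ _ iha ihb =>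
        obtain ⟨ha, ha'⟩ := iha
        obtain ⟨hb, hb'⟩ := ihb
        exact ⟨V.mul_mem _ _ ha hb, mul_mem ha' hb'⟩
    obtain ⟨hw, hw'⟩ := h2 _ h1
    have hDV : ((D : K0) : K) ∈ V := (V.valuation_le_one_iff _).1 hd.le
    have hzV := mem_of_isIntegral_comap K0 V hz
    have h3 : residue V ⟨D • z, hw⟩ = residue V ⟨(D : K), hDV⟩ * residue V ⟨z, hzV⟩ := by
      rw [← map_mul]; rfl
    have h4 : residue V ⟨(D : K), hDV⟩ ≠ 0 := (res_ne_zero V hDV).2 hd
    have h5 : residue V ⟨(D : K), hDV⟩ ∈ resSub K0 V := ⟨(D : K), hDV, D.2, rfl⟩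
    have h6 : residue V ⟨(D : K), hDV⟩ ∈
        IntermediateField.adjoin (resSub K0 V) {resHom V hF ζ} :=
      IntermediateField.algebraMap_mem _ (⟨_, h5⟩ : resSub K0 V)
    have h7 : residue V ⟨z, hzV⟩ = (residue V ⟨(D : K), hDV⟩)⁻¹ * residue V ⟨D • z, hw⟩ := by
      rw [h3]; field_simp
    rw [h7]
    exact mul_mem (inv_mem h6) hw'
  by_cases hx0 : x = 0
  · subst hx0
    have : residue V ⟨0, hx⟩ = 0 := by exact map_zero _
    rw [this]
    exact zero_mem _
  · obtain ⟨u, hu, hu1, hu2⟩ := integral_frac K0 V hx (Algebra.IsAlgebraic.isAlgebraic x) hx0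
    have h1 := hint u hu1
    have h2 := hint (u * x) hu2
    have huV := mem_of_isIntegral_comap K0 V hu1
    have huxV := mem_of_isIntegral_comap K0 V hu2
    have h3 : residue V ⟨u * x, huxV⟩ = residue V ⟨u, huV⟩ * residue V ⟨x, hx⟩ := by
      rw [← map_mul]; rfl
    have h4 : residue V ⟨u, huV⟩ ≠ 0 := (res_ne_zero V huV).2 hu
    have h7 : residue V ⟨x, hx⟩ = (residue V ⟨u, huV⟩)⁻¹ * residue V ⟨u * x, huxV⟩ := by
      rw [h3]; field_simp
    rw [h7]
    exact mul_mem (inv_mem h1) h2

theorem res_isGalois [CharZero F] (hF : ∀ x : F, algebraMap F K x ∈ V) [IsGalois ℚ F]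
    (pb : PowerBasis K0 K) (ζ : F) (hζ : pb.gen = algebraMap F K ζ) :
    FiniteDimensional (resSub K0 V) (ResidueField V) ∧
      IsGalois (resSub K0 V) (ResidueField V) := by
  classical
  have hcz : CharZero (ResidueField V) := charZero_of_injective_ringHom (resHom V hF).injective
  set f : Polynomial (resSub K0 V) := (minpoly ℚ ζ).map (algebraMap ℚ (resSub K0 V)) with hf
  have hf0 : f ≠ 0 := by
    rw [hf, Polynomial.map_ne_zero_iff (algebraMap ℚ (resSub K0 V)).injective]
    exact minpoly.ne_zero (Algebra.IsIntegral.isIntegral ζ)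
  have hsep : f.Separable := by
    have h1 : (minpoly ℚ ζ).Separable := IsGalois.separable ℚ ζ
    exact Polynomial.Separable.map h1
  have hmap : f.map (algebraMap (resSub K0 V) (ResidueField V)) =
      ((minpoly ℚ ζ).map (algebraMap ℚ F)).map (resHom V hF) := by
    rw [hf, Polynomial.map_map, Polynomial.map_map]
    congr 1
    exact Subsingleton.elim _ _
  have hspl : (f.map (algebraMap (resSub K0 V) (ResidueField V))).Splits := by
    rw [hmap]
    exact (Normal.splits (F := ℚ) inferInstance ζ).map _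
  have hroot : resHom V hF ζ ∈ f.rootSet (ResidueField V) := by
    rw [Polynomial.mem_rootSet_of_ne hf0, Polynomial.aeval_def, ← Polynomial.eval_map, hmap,
      Polynomial.eval_map, Polynomial.eval₂_map, ← Polynomial.hom_eval₂]
    have h1 := minpoly.aeval ℚ ζ
    rw [Polynomial.aeval_def] at h1
    rw [h1, map_zero]
  have : f.IsSplittingField (resSub K0 V) (ResidueField V) := by
    rw [isSplittingField_iff_intermediateField]
    refine ⟨hspl, ?_⟩
    rw [eq_top_iff, ← res_adjoin K0 V hF pb ζ hζ]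
    apply IntermediateField.adjoin.mono
    rintro _ rfl
    exact hroot
  exact ⟨Polynomial.IsSplittingField.finiteDimensional _ f, IsGalois.of_separable_splitting_field hsep⟩

theorem V_theorem [CharZero F] [IsGalois ℚ F]
    (pb : PowerBasis K0 K) (ζ : F) (hζ : pb.gen = algebraMap F K ζ)
    {π : K} (hπ0 : π ≠ 0) (hπ1 : V.valuation π < 1)
    (hπ : ∀ x : K, V.valuation x < 1 → V.valuation x ≤ V.valuation π)
    (hcase : Finite (ResidueField V) ∨ ((∀ x : F, algebraMap F K x ∈ V) ∧
      (∃ x : ResidueField V, ¬ IsSquare x) ∧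
      (∀ a b : ResidueField V, ¬ IsSquare a → ¬ IsSquare b → IsSquare (a * b)))) :
    ∃ α β : K0, α ≠ 0 ∧ β ≠ 0 ∧
      (∀ X Y Z W : K0, X ^ 2 - α * Y ^ 2 - β * Z ^ 2 + α * β * W ^ 2 = 1 →
        ((2 * X : K0) : K) ∈ V) ∧
      (∀ X Y Z W : K0, X ^ 2 - α * Y ^ 2 - (-β) * Z ^ 2 + α * (-β) * W ^ 2 = 1 →
        ((2 * X : K0) : K) ∈ V) := by
  classical
  obtain ⟨β, hβ0, hβ⟩ := exists_beta K0 V hπ0 hπ1 hπ
  have ha : ∃ a : K0, ∀ t : K0, V.valuation (t : K) ≤ 1 →
      V.valuation ((t : K) ^ 2 + (t : K) + (a : K)) = 1 := by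
    rcases hcase with h | ⟨hF, ⟨x, hx⟩, hprod⟩
    · exact exists_a_finite K0 V
    · have h2V : (2 : K) ∈ V := by
        have := rat_mem V hF 2
        simpa using this
      have h2V' : (2 : K)⁻¹ ∈ V := by
        have := rat_mem V hF (2⁻¹)
        simpa using this
      have h2 : V.valuation (2 : K) = 1 := by
        refine le_antisymm ((V.valuation_le_one_iff _).2 h2V) ?_
        have h3 := (V.valuation_le_one_iff _).2 h2V'
        rw [map_inv₀] at h3
        refine (inv_le_one₀ (zero_lt_iff.2 ?_)).1 h3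
        rw [V.valuation.ne_zero_iff]
        exact two_ne_zero
      apply exists_a_nonsquare K0 V h2
      obtain ⟨h4, h5⟩ := res_isGalois K0 V hF pb ζ hζ
      have hcz : CharZero (ResidueField V) := charZero_of_injective_ringHom (resHom V hF).injective
      exact exists_nonsquare_base two_ne_zero x hx hprod
  obtain ⟨a, ha⟩ := ha
  let v : Valuation K0 V.ValueGroup := V.valuation.comap (algebraMap K0 K)
  have hva : ∀ t : K0, v t ≤ 1 → v (t ^ 2 + t + a) = 1 := fun t ht => ha t ht
  have hvβ : ∀ b : K0, v β ≠ v b ^ 2 := hβ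
  have hvβ' : ∀ b : K0, v (-β) ≠ v b ^ 2 := by
    intro b; rw [Valuation.map_neg]; exact hβ b
  refine ⟨1 - 4 * a, β, form_ne_zero v hva, hβ0, ?_, ?_⟩
  · intro X Y Z W h
    exact (V.valuation_le_one_iff _).1 (aniso_bound' v hva hvβ h)
  · intro X Y Z W h
    exact (V.valuation_le_one_iff _).1 (aniso_bound' v hva hvβ' h)

end galres

end Pool.Agent.H89
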