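import Mathlib
import Pool.Agent.H89.Val4

set_option autoImplicit false
set_option linter.unusedSectionVars false

namespace Pool.Agent.H89

open IsLocalRing

section elem

variable {K : Type*} [Field K] (K0 : Subfield K) (V : ValuationSubring K)
variable [CharZero K] [FiniteDimensional K0 K] {F : Type*} [Field F] [Algebra F K]

theorem V_elem [CharZero F] [IsGalois ℚ F]
    (pb : PowerBasis K0 K) (ζ : F) (hζ : pb.gen = algebraMap F K ζ) {z : K} (hz : z ∉ V)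
    (hzz : ∀ x ∈ V, (x ≠ 0 → x⁻¹ ∉ V) → x * z ∈ V)
    (hcase : (∃ R : Set K, R.Finite ∧ ∀ x ∈ V, ∃ r ∈ R, (x - r) * z ∈ V) ∨
      ((∀ x : F, algebraMap F K x ∈ V) ∧ (∃ x ∈ V, ∀ w ∈ V, (x - w ^ 2) * z ∉ V) ∧
      (∀ a ∈ V, ∀ b ∈ V, (∀ w ∈ V, (a - w ^ 2) * z ∉ V) → (∀ w ∈ V, (b - w ^ 2) * z ∉ V) →
        ∃ w ∈ V, (a * b - w ^ 2) * z ∈ V))) :
    ∃ α β : K0, α ≠ 0 ∧ β ≠ 0 ∧
      (∀ X Y Z W : K0, X ^ 2 - α * Y ^ 2 - β * Z ^ 2 + α * β * W ^ 2 = 1 →
        ((2 * X : K0) : K) ∈ V) ∧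
      (∀ X Y Z W : K0, X ^ 2 - α * Y ^ 2 - (-β) * Z ^ 2 + α * (-β) * W ^ 2 = 1 →
        ((2 * X : K0) : K) ∈ V) := by
  classical
  have hz0 : z ≠ 0 := by rintro rfl; exact hz V.zero_mem
  have hvz : V.valuation z ≠ 0 := (V.valuation.ne_zero_iff).2 hz0
  have hvz1 : 1 < V.valuation z := by
    by_contra h
    push Not at h
    exact hz ((V.valuation_le_one_iff _).1 h)
  have hvzpos : 0 < V.valuation z := zero_lt_iff.2 hvz
  have hπ1 : V.valuation z⁻¹ < 1 := by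
    rw [map_inv₀]; exact inv_lt_one_of_one_lt₀ hvz1
  have hlt : ∀ x : K, V.valuation x < 1 → x * z ∈ V := by
    intro x hx
    apply hzz x ((V.valuation_le_one_iff _).1 hx.le)
    intro hx0 hx1
    have h1 := (V.valuation_le_one_iff _).2 hx1
    rw [map_inv₀] at h1
    have h2 : 0 < V.valuation x := zero_lt_iff.2 ((V.valuation.ne_zero_iff).2 hx0)
    have h3 := (inv_le_one₀ h2).1 h1
    exact absurd h3 (not_le.2 hx)
  have hle : ∀ x : K, x * z ∈ V → V.valuation x ≤ V.valuation z⁻¹ := by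
    intro x hx
    have h1 := (V.valuation_le_one_iff _).2 hx
    rw [map_mul] at h1
    rw [map_inv₀]
    rw [← le_div_iff₀ hvzpos] at h1
    rwa [one_div] at h1
  have hiff : ∀ x : K, x * z ∈ V ↔ V.valuation x < 1 :=
    fun x => ⟨fun h => lt_of_le_of_lt (hle x h) hπ1, hlt x⟩
  apply V_theorem K0 V pb ζ hζ (π := z⁻¹) (inv_ne_zero hz0) hπ1
    (fun x hx => hle x (hlt x hx))
  rcases hcase with ⟨R, hRf, hR⟩ | ⟨hF, ⟨x, hxV, hx⟩, hprod⟩
  · left
    have : Finite {r : K // r ∈ R ∧ r ∈ V} := (hRf.subset (fun r hr => hr.1) : Set.Finite {r : K | r ∈ R ∧ r ∈ V})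
    refine Finite.of_surjective (fun r : {r : K // r ∈ R ∧ r ∈ V} => residue V ⟨r.1, r.2.2⟩) ?_
    intro y
    obtain ⟨⟨x, hx⟩, rfl⟩ := residue_surjective y
    obtain ⟨r, hr, h1⟩ := hR x hx
    have h2 := (hiff _).1 h1
    have h3 : x - r ∈ V := (V.valuation_le_one_iff _).1 h2.le
    have h4 : r ∈ V := by
      have := V.toSubring.sub_mem hx h3
      have h5 : x - (x - r) = r := by ring
      rwa [h5] at this
    refine ⟨⟨r, hr, h4⟩, ?_⟩
    have h6 : residue V ⟨x - r, h3⟩ = 0 := (res_eq_zero V h3).2 h2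
    have h7 : residue V ⟨x, hx⟩ - residue V ⟨r, h4⟩ = residue V ⟨x - r, h3⟩ := by
      rw [← map_sub]; rfl
    rw [h6, sub_eq_zero] at h7
    exact h7.symm
  · right
    have hsq : ∀ x : K, ∀ hx : x ∈ V, IsSquare (residue V ⟨x, hx⟩) ↔ ∃ w ∈ V, (x - w ^ 2) * z ∈ V := by
      intro x hx
      constructor
      · rintro ⟨y, hy⟩
        obtain ⟨⟨w, hw⟩, rfl⟩ := residue_surjective y
        refine ⟨w, hw, ?_⟩
        rw [hiff]
        have h1 : x - w ^ 2 ∈ V := V.toSubring.sub_mem hx (V.toSubring.pow_mem hw 2)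
        rw [← res_eq_zero V h1]
        have h2 : residue V ⟨x - w ^ 2, h1⟩ = residue V ⟨x, hx⟩ - residue V ⟨w, hw⟩ * residue V ⟨w, hw⟩ := by
          rw [← map_mul, ← map_sub]
          congr 1
          apply Subtype.ext
          change x - w ^ 2 = x - w * w
          ring
        rw [h2, hy, sub_self]
      · rintro ⟨w, hw, h1⟩
        rw [hiff] at h1
        have h2 : x - w ^ 2 ∈ V := (V.valuation_le_one_iff _).1 h1.le
        have h3 := (res_eq_zero V h2).2 h1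
        refine ⟨residue V ⟨w, hw⟩, ?_⟩
        have h4 : residue V ⟨x - w ^ 2, h2⟩ = residue V ⟨x, hx⟩ - residue V ⟨w, hw⟩ * residue V ⟨w, hw⟩ := by
          rw [← map_mul, ← map_sub]
          congr 1
          apply Subtype.ext
          change x - w ^ 2 = x - w * w
          ring
        rw [h3] at h4
        exact (sub_eq_zero.1 h4.symm)
    have hnsq : ∀ x : K, ∀ hx : x ∈ V, ¬ IsSquare (residue V ⟨x, hx⟩) ↔
        ∀ w ∈ V, (x - w ^ 2) * z ∉ V := by
      intro x hx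
      rw [hsq]
      push Not
      rfl
    refine ⟨hF, ⟨residue V ⟨x, hxV⟩, (hnsq x hxV).2 hx⟩, ?_⟩
    intro a b ha hb
    obtain ⟨⟨a, haV⟩, rfl⟩ := residue_surjective a
    obtain ⟨⟨b, hbV⟩, rfl⟩ := residue_surjective b
    have h1 := hprod a haV b hbV ((hnsq a haV).1 ha) ((hnsq b hbV).1 hb)
    have h2 := (hsq (a * b) (V.mul_mem _ _ haV hbV)).2 h1
    have h3 : residue V ⟨a, haV⟩ * residue V ⟨b, hbV⟩ = residue V ⟨a * b, V.mul_mem _ _ haV hbV⟩ := by
      rw [← map_mul]; rfl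
    rw [h3]; exact h2

end elem

end Pool.Agent.H89
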