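import Mathlib
import Pool.Agent.H89.Int1
import Pool.Agent.H89.ValE
import Pool.Agent.H89.NumQ4

set_option autoImplicit false
set_option linter.unusedSectionVars false

namespace Pool.Agent.H89

open Encodable Filter NumberField

section int2

variable {F : Type*} [Field F] [NumberField F] [Primcodable F] [CompField F]
variable {C : Set ℕ} [hC : Fact (IsCohesive C)]

namespace Kp

theorem exists_rep {f : ℕ → F} (hf : IsPC C f) : ∃ x : Kp C F, ∀ᶠ n in coF C, x.rep n = f n :=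
  ⟨mk f hf, rep_mk f hf⟩

end Kp

instance : CharZero (Kp C F) :=
  charZero_of_injective_algebraMap (algebraMap F (Kp C F)).injective

theorem isQ_add {x y : F} (hx : isQ x) (hy : isQ y) : isQ (x + y) := by
  obtain ⟨a, rfl⟩ := hx
  obtain ⟨b, rfl⟩ := hy
  exact ⟨a + b, by push_cast; rfl⟩

theorem isQ_mul {x y : F} (hx : isQ x) (hy : isQ y) : isQ (x * y) := by
  obtain ⟨a, rfl⟩ := hx
  obtain ⟨b, rfl⟩ := hy
  exact ⟨a * b, by push_cast; rfl⟩

theorem isQ_neg {x : F} (hx : isQ x) : isQ (-x) := by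
  obtain ⟨a, rfl⟩ := hx
  exact ⟨-a, by push_cast; rfl⟩

theorem isQ_inv {x : F} (hx : isQ x) : isQ (x⁻¹) := by
  obtain ⟨a, rfl⟩ := hx
  exact ⟨a⁻¹, by push_cast; rfl⟩

/-- the nonstandard rationals -/
def Qst (C : Set ℕ) [Fact (IsCohesive C)] (F : Type*) [Field F] [NumberField F] [Primcodable F]
    [CompField F] : Subfield (Kp C F) where
  carrier := {x | ∀ᶠ n in coF C, isQ (x.rep n)}
  mul_mem' := by
    intro x y hx hy
    change ∀ᶠ n in coF C, isQ ((x * y).rep n)
    filter_upwards [hx, hy, Kp.rep_mul x y] with n h1 h2 h3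
    rw [h3]; exact isQ_mul h1 h2
  one_mem' := by
    change ∀ᶠ n in coF C, isQ ((1 : Kp C F).rep n)
    filter_upwards [Kp.rep_one (C := C) (F := F)] with n h1
    rw [h1]; exact ⟨1, by simp⟩
  add_mem' := by
    intro x y hx hy
    change ∀ᶠ n in coF C, isQ ((x + y).rep n)
    filter_upwards [hx, hy, Kp.rep_add x y] with n h1 h2 h3
    rw [h3]; exact isQ_add h1 h2
  zero_mem' := by
    change ∀ᶠ n in coF C, isQ ((0 : Kp C F).rep n)
    filter_upwards [Kp.rep_zero (C := C) (F := F)] with n h1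
    rw [h1]; exact ⟨0, by simp⟩
  neg_mem' := by
    intro x hx
    change ∀ᶠ n in coF C, isQ ((-x).rep n)
    filter_upwards [hx, Kp.rep_neg x] with n h1 h2
    rw [h2]; exact isQ_neg h1
  inv_mem' := by
    intro x hx
    change ∀ᶠ n in coF C, isQ ((x⁻¹).rep n)
    filter_upwards [hx, Kp.rep_inv x] with n h1 h2
    rw [h2]; exact isQ_inv h1

theorem mem_Qst {x : Kp C F} : x ∈ Qst C F ↔ ∀ᶠ n in coF C, isQ (x.rep n) := Iff.rfl

/-- coordinates with respect to a rational basis -/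
theorem exists_coord {d : ℕ} (b : Module.Basis (Fin d) ℚ F) (x : Kp C F) :
    ∃ g : Fin d → Qst C F, x = ∑ i, (g i : Kp C F) * algebraMap F (Kp C F) (b i) := by
  have hre : REPred (fun q : F × (Fin d → F) => (∀ i, isQ (q.2 i)) ∧
      q.1 = ∑ i, q.2 i * b i) := by
    refine re_and (re_ballfin (fun i => re_isQ (capp (csnd cid) i))) (re_eq (cfst cid) ?_)
    exact csum' (fun i => cmul' (capp (csnd cid) i) (cconst _))
  obtain ⟨g, hg, hg2⟩ := pc_select hre x.rep_pc (Filter.Eventually.of_forall (fun n => by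
    refine ⟨fun i => ((b.repr (x.rep n) i : ℚ) : F), fun i => ⟨_, rfl⟩, ?_⟩
    simp only
    conv_lhs => rw [← b.sum_repr (x.rep n)]
    apply Finset.sum_congr rfl
    intro i _
    rw [Algebra.smul_def]
    simp))
  have hgi : ∀ i, IsPC C (fun n => g n i) := fun i =>
    pc_comp hg (g := fun v : Fin d → F => v i) (capp cid i)
  choose y hy using fun i => Kp.exists_rep (hgi i)
  have hyQ : ∀ i, y i ∈ Qst C F := by
    intro i
    rw [mem_Qst]
    filter_upwards [hy i, hg2] with n h1 h2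
    rw [h1]; exact h2.1 i
  refine ⟨fun i => ⟨y i, hyQ i⟩, ?_⟩
  rw [Kp.ext_iff']
  have hall : ∀ᶠ n in coF C, ∀ i, (y i * algebraMap F (Kp C F) (b i)).rep n = g n i * b i := by
    rw [Filter.eventually_all]
    intro i
    filter_upwards [Kp.rep_mul (y i) (algebraMap F (Kp C F) (b i)), hy i,
      Kp.rep_algebraMap (C := C) (b i)] with n h1 h2 h3
    rw [h1, h2, h3]
  filter_upwards [hg2, hall, Kp.rep_sum Finset.univ
    (fun i => y i * algebraMap F (Kp C F) (b i))] with n h1 h2 h3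
  rw [h3, h1.2]
  apply Finset.sum_congr rfl
  intro i _
  rw [h2 i]

theorem linInd {d : ℕ} (b : Module.Basis (Fin d) ℚ F) :
    LinearIndependent (Qst C F) (fun i => algebraMap F (Kp C F) (b i)) := by
  rw [Fintype.linearIndependent_iff]
  intro g hg i
  have hall : ∀ᶠ n in coF C, ∀ i, ((g i : Kp C F) * algebraMap F (Kp C F) (b i)).rep n =
      (g i : Kp C F).rep n * b i := by
    rw [Filter.eventually_all]
    intro i
    filter_upwards [Kp.rep_mul (g i : Kp C F) (algebraMap F (Kp C F) (b i)),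
      Kp.rep_algebraMap (C := C) (b i)] with n h1 h3
    rw [h1, h3]
  have hQ : ∀ᶠ n in coF C, ∀ i, isQ ((g i : Kp C F).rep n) := by
    rw [Filter.eventually_all]
    intro i
    exact (g i).2
  have hg' : ∑ i, (g i : Kp C F) * algebraMap F (Kp C F) (b i) = 0 := hg
  rw [Kp.eq_zero_iff] at hg'
  apply Subtype.ext
  change (g i : Kp C F) = 0
  rw [Kp.eq_zero_iff]
  filter_upwards [hall, hQ, hg', Kp.rep_sum Finset.univ
    (fun i => (g i : Kp C F) * algebraMap F (Kp C F) (b i))] with n h1 h2 h3 h4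
  rw [h4] at h3
  choose q hq using h2
  have h5 : ∑ i, q i • b i = 0 := by
    rw [← h3]
    apply Finset.sum_congr rfl
    intro i _
    rw [h1 i, hq i, Algebra.smul_def]
    simp
  have h6 := Fintype.linearIndependent_iff.1 b.linearIndependent q h5 i
  rw [hq i, h6]; simp

/-- basis of the cohesive power over the nonstandard rationals -/
noncomputable def Kbasis (C : Set ℕ) [Fact (IsCohesive C)] {d : ℕ} (b : Module.Basis (Fin d) ℚ F) :
    Module.Basis (Fin d) (Qst C F) (Kp C F) :=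
  Module.Basis.mk (linInd b) (by
    intro x _
    obtain ⟨g, hg⟩ := exists_coord b x
    rw [hg]
    apply sum_mem
    intro i _
    have : (g i : Kp C F) * algebraMap F (Kp C F) (b i) = (g i) • (algebraMap F (Kp C F) (b i)) := rfl
    rw [this]
    exact Submodule.smul_mem _ _ (Submodule.subset_span ⟨i, rfl⟩))

theorem Kbasis_apply {d : ℕ} (b : Module.Basis (Fin d) ℚ F) (i : Fin d) :
    Kbasis C b i = algebraMap F (Kp C F) (b i) := by
  unfold Kbasis
  rw [Module.Basis.mk_apply]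

/-- power basis -/
noncomputable def Kpow (C : Set ℕ) [Fact (IsCohesive C)] (pb : PowerBasis ℚ F) :
    PowerBasis (Qst C F) (Kp C F) where
  gen := algebraMap F (Kp C F) pb.gen
  dim := pb.dim
  basis := Kbasis C pb.basis
  basis_eq_pow := by
    intro i
    rw [Kbasis_apply, pb.basis_eq_pow, map_pow]

instance : FiniteDimensional (Qst C F) (Kp C F) :=
  (Kpow C (Field.powerBasisOfFiniteOfSeparable ℚ F)).finite

variable (B : IB F)

/-- data for the valuation ring -/
structure ZD (C : Set ℕ) [Fact (IsCohesive C)] (B : IB F) where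
  /-- the pole -/
  z : Kp C F
  /-- residues -/
  L : ℕ → List F
  pc : IsPC C L
  cert : ∀ᶠ n in coF C, Cert B.b (z.rep n) (L n)

include B in
theorem re_VzP : REPred (fun q : F × F => Vz q.1 q.2) := re_Vz B (cfst cid) (csnd cid)

variable {B} (D : ZD C B)

/-- the valuation ring attached to the data -/
def ZD.V : ValuationSubring (Kp C F) where
  carrier := {x | ∀ᶠ n in coF C, Vz (D.z.rep n) (x.rep n)}
  mul_mem' := by
    intro x y hx hy
    change ∀ᶠ n in coF C, Vz (D.z.rep n) ((x * y).rep n)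
    filter_upwards [hx, hy, Kp.rep_mul x y, D.cert] with n h1 h2 h3 h4
    rw [h3]; exact Vz_mul B.hω h4 h1 h2
  one_mem' := by
    change ∀ᶠ n in coF C, Vz (D.z.rep n) ((1 : Kp C F).rep n)
    filter_upwards [Kp.rep_one (C := C) (F := F), D.cert] with n h1 h4
    rw [h1]; exact Vz_of_isO B.hω h4 isO_one
  add_mem' := by
    intro x y hx hy
    change ∀ᶠ n in coF C, Vz (D.z.rep n) ((x + y).rep n)
    filter_upwards [hx, hy, Kp.rep_add x y, D.cert] with n h1 h2 h3 h4
    rw [h3]; exact Vz_add B.hω h4 h1 h2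
  zero_mem' := by
    change ∀ᶠ n in coF C, Vz (D.z.rep n) ((0 : Kp C F).rep n)
    filter_upwards [Kp.rep_zero (C := C) (F := F), D.cert] with n h1 h4
    rw [h1]; exact Vz_of_isO B.hω h4 isO_zero
  neg_mem' := by
    intro x hx
    change ∀ᶠ n in coF C, Vz (D.z.rep n) ((-x).rep n)
    filter_upwards [hx, Kp.rep_neg x, D.cert] with n h1 h2 h4
    rw [h2]; exact Vz_neg B.hω h4 h1
  mem_or_inv_mem' := by
    intro x
    change (∀ᶠ n in coF C, Vz (D.z.rep n) (x.rep n)) ∨
      (∀ᶠ n in coF C, Vz (D.z.rep n) ((x⁻¹).rep n))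
    rcases hC.out.dichPC (re_VzP B) (pc_pair D.z.rep_pc x.rep_pc) with h | h
    · exact Or.inl h
    · right
      filter_upwards [h, D.cert, Kp.rep_inv x] with n h1 h2 h3
      rw [h3]
      have hx0 : x.rep n ≠ 0 := by
        intro h0
        apply h1
        change Vz (D.z.rep n) (x.rep n)
        rw [h0]; exact Vz_of_isO B.hω h2 isO_zero
      exact (Vz_total B.hω h2 hx0).resolve_left h1

theorem ZD.mem {x : Kp C F} : x ∈ D.V ↔ ∀ᶠ n in coF C, Vz (D.z.rep n) (x.rep n) := Iff.rfl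

theorem ZD.not_mem {x : Kp C F} : x ∉ D.V ↔ ∀ᶠ n in coF C, ¬ Vz (D.z.rep n) (x.rep n) := by
  constructor
  · intro h
    exact (hC.out.dichPC (re_VzP B) (pc_pair D.z.rep_pc x.rep_pc)).resolve_left h
  · intro h h'
    obtain ⟨n, h1, h2⟩ := (h.and (D.mem.1 h')).exists
    exact h1 h2

theorem ZD.z_not_mem : D.z ∉ D.V := by
  rw [D.not_mem]
  filter_upwards [D.cert] with n hn
  exact not_Vz_self B.hω hn

theorem ZD.unif {x : Kp C F} (hx : x ∈ D.V) (hx' : x ≠ 0 → x⁻¹ ∉ D.V) : x * D.z ∈ D.V := by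
  rw [D.mem] at hx ⊢
  by_cases hx0 : x = 0
  · subst hx0
    rw [zero_mul]
    exact D.mem.1 D.V.zero_mem
  · have h1 := D.not_mem.1 (hx' hx0)
    filter_upwards [hx, h1, D.cert, Kp.rep_mul x D.z, Kp.rep_inv x] with n h2 h3 h4 h5 h6
    rw [h5]
    apply Vz_unif B.hω h4 h2
    intro _
    rw [← h6]; exact h3

theorem rep_sub_mul (x r z : Kp C F) : ∀ᶠ n in coF C,
    ((x - r) * z).rep n = (x.rep n - r.rep n) * z.rep n := by
  filter_upwards [Kp.rep_mul (x - r) z, Kp.rep_sub x r] with n h1 h2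
  rw [h1, h2]

theorem ZD.case_one {k : ℕ} (hk : 0 < k) (h : ∀ᶠ n in coF C, isO ((k : F) * D.z.rep n)) :
    ∃ R : Set (Kp C F), R.Finite ∧ ∀ x ∈ D.V, ∃ r ∈ R, (x - r) * D.z ∈ D.V := by
  classical
  let rp : (Fin (Module.finrank ℚ F) → Fin k) → F := fun a => ∑ i, ((a i : ℕ) : F) * B.b i
  refine ⟨Set.range (fun a => algebraMap F (Kp C F) (rp a)), Set.finite_range _, ?_⟩
  intro x hx
  by_contra hcon
  push Not at hcon
  have h1 : ∀ a : Fin (Module.finrank ℚ F) → Fin k, ∀ᶠ n in coF C,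
      ¬ Vz (D.z.rep n) ((x.rep n - rp a) * D.z.rep n) := by
    intro a
    have := D.not_mem.1 (hcon _ ⟨a, rfl⟩)
    filter_upwards [this, rep_sub_mul x (algebraMap F (Kp C F) (rp a)) D.z,
      Kp.rep_algebraMap (C := C) (rp a)] with n h2 h3 h4
    rw [h3, h4] at h2
    exact h2
  rw [← Filter.eventually_all] at h1
  obtain ⟨n, h2, h3, h4, h5⟩ := (h1.and (h.and (D.cert.and (D.mem.1 hx)))).exists
  obtain ⟨r, hr, h6⟩ := Vz_rep B.hω h4 h5
  obtain ⟨c, hc⟩ := B.hω r (h4.mem r hr)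
  have hk0 : (k : ℤ) ≠ 0 := by exact_mod_cast hk.ne'
  let a : Fin (Module.finrank ℚ F) → Fin k := fun i =>
    ⟨(c i % k).toNat, by
      have h7 := Int.emod_lt_of_pos (c i) (show (0 : ℤ) < k by exact_mod_cast hk)
      have h8 := Int.emod_nonneg (c i) hk0
      omega⟩
  apply h2 a
  have h7 : (x.rep n - rp a) * D.z.rep n = (x.rep n - r) * D.z.rep n + (r - rp a) * D.z.rep n := by
    ring
  rw [h7]
  apply Vz_add B.hω h4 h6
  apply Vz_of_isO B.hω h4
  have h8 : (r - rp a) * D.z.rep n = ∑ i, ((c i / (k : ℤ) : ℤ) : F) * B.b i * ((k : F) * D.z.rep n) := by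
    rw [hc, ← Finset.sum_sub_distrib, Finset.sum_mul]
    apply Finset.sum_congr rfl
    intro i _
    have h9 : ((a i : ℕ) : ℤ) = c i % k := Int.toNat_of_nonneg (Int.emod_nonneg _ hk0)
    have h10 : (c i : ℤ) = k * (c i / k) + ((a i : ℕ) : ℤ) := by
      rw [h9]; exact (Int.mul_ediv_add_emod _ _).symm
    have h11 : (c i : F) = (k : F) * ((c i / (k : ℤ) : ℤ) : F) + ((a i : ℕ) : F) := by
      have := congrArg (fun t : ℤ => (t : F)) h10
      push_cast at this
      exact this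
    rw [h11]; ring
  rw [h8]
  apply isO_sum
  intro i _
  exact isO_mul (isO_mul (isO_int _) (B.isO_basis i)) h3

theorem ZD.case_two (h : ∀ k : ℕ, 0 < k → ∀ᶠ n in coF C, ¬ isO ((k : F) * D.z.rep n)) :
    (∀ x : F, algebraMap F (Kp C F) x ∈ D.V) ∧
      (∃ x ∈ D.V, ∀ w ∈ D.V, (x - w ^ 2) * D.z ∉ D.V) ∧
      (∀ a ∈ D.V, ∀ b ∈ D.V, (∀ w ∈ D.V, (a - w ^ 2) * D.z ∉ D.V) →
        (∀ w ∈ D.V, (b - w ^ 2) * D.z ∉ D.V) → ∃ w ∈ D.V, (a * b - w ^ 2) * D.z ∈ D.V) := by
  have hrepw : ∀ x w : Kp C F, ∀ᶠ n in coF C,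
      ((x - w ^ 2) * D.z).rep n = (x.rep n - w.rep n ^ 2) * D.z.rep n := by
    intro x w
    filter_upwards [rep_sub_mul x (w ^ 2) D.z, Kp.rep_pow w 2] with n h1 h2
    rw [h1, h2]
  refine ⟨?_, ?_, ?_⟩
  · intro x
    obtain ⟨k, hk, hkx⟩ := exists_den x
    rw [D.mem]
    filter_upwards [h k hk, Kp.rep_algebraMap (C := C) x] with n h1 h2
    rw [h2]
    exact ⟨k, isO_nat k, h1, hkx⟩
  · have hre : REPred (fun q : (F × List F) × F => isO q.2 ∧
        ∀ w ∈ q.1.2, ¬ isO ((q.2 - w ^ 2) * q.1.1)) := by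
      refine re_and (re_isO B (csnd cid)) ?_
      refine re_ball (p := fun q : ((F × List F) × F) × F => ¬ isO ((q.1.2 - q.2 ^ 2) * q.1.1.1)) ?_
        (csnd (cfst cid))
      refine re_notO B ?_
      exact cmul' (csub' (csnd (cfst cid)) (cpow' (csnd cid) (cconst 2))) (cfst (cfst (cfst cid)))
    obtain ⟨r0, hr0, hr⟩ := pc_select hre (pc_pair D.z.rep_pc D.pc) (by
      filter_upwards [D.cert, h 2 (by norm_num)] with n h1 h2
      apply exists_nonsq B.hω h1
      exact_mod_cast h2)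
    obtain ⟨x, hx⟩ := Kp.exists_rep hr0
    refine ⟨x, ?_, ?_⟩
    · rw [D.mem]
      filter_upwards [hr, hx, D.cert] with n h1 h2 h3
      rw [h2]; exact Vz_of_isO B.hω h3 h1.1
    · intro w hw
      rw [D.not_mem]
      filter_upwards [hr, hx, D.cert, D.mem.1 hw, hrepw x w] with n h1 h2 h3 h4 h5
      rw [h5, h2]
      intro h6
      obtain ⟨s, hs, h7⟩ := Vz_rep B.hω h3 h4
      have hsO := h3.mem s hs
      apply h1.2 s hs
      apply isO_of_Vz_mul B.hω h3 (isO_sub h1.1 (isO_pow hsO 2))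
      have h8 : (r0 n - s ^ 2) * D.z.rep n = (r0 n - w.rep n ^ 2) * D.z.rep n +
          (w.rep n + s) * ((w.rep n - s) * D.z.rep n) := by ring
      rw [h8]
      exact Vz_add B.hω h3 h6 (Vz_mul B.hω h3 (Vz_add B.hω h3 h4 (Vz_of_isO B.hω h3 hsO)) h7)
  · intro a ha b hb ha' hb'
    have hreSq : REPred (fun q : (F × F) × F => Vz q.1.1 q.2 ∧ Vz q.1.1 ((q.1.2 - q.2 ^ 2) * q.1.1)) := by
      refine re_and (re_Vz B (cfst (cfst cid)) (csnd cid)) (re_Vz B (cfst (cfst cid)) ?_)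
      exact cmul' (csub' (csnd (cfst cid)) (cpow' (csnd cid) (cconst 2))) (cfst (cfst cid))
    have hns : ∀ a : Kp C F, (∀ w ∈ D.V, (a - w ^ 2) * D.z ∉ D.V) →
        ∀ᶠ n in coF C, ∀ w, Vz (D.z.rep n) w → ¬ Vz (D.z.rep n) ((a.rep n - w ^ 2) * D.z.rep n) := by
      intro a ha'
      rcases hC.out.dichPC (re_ex hreSq) (pc_pair D.z.rep_pc a.rep_pc) with h1 | h1
      · exfalso
        obtain ⟨w0, hw0, hw⟩ := pc_select hreSq (pc_pair D.z.rep_pc a.rep_pc) h1
        obtain ⟨w, hww⟩ := Kp.exists_rep hw0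
        apply ha' w
        · rw [D.mem]
          filter_upwards [hw, hww] with n h2 h3
          rw [h3]; exact h2.1
        · rw [D.mem]
          filter_upwards [hw, hww, hrepw a w] with n h2 h3 h4
          rw [h4, h3]; exact h2.2
      · filter_upwards [h1] with n h2 w hw hw'
        exact h2 ⟨w, hw, hw'⟩
    obtain ⟨w0, hw0, hw⟩ := pc_select hreSq (pc_pair D.z.rep_pc (a * b).rep_pc) (by
      filter_upwards [hns a ha', hns b hb', D.mem.1 ha, D.mem.1 hb, D.cert, Kp.rep_mul a b]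
        with n h1 h2 h3 h4 h5 h6
      obtain ⟨w, hw, hw'⟩ := exists_square_prod B.hω h5 h3 h4 h1 h2
      refine ⟨w, hw, ?_⟩
      rw [h6]; exact hw')
    obtain ⟨w, hww⟩ := Kp.exists_rep hw0
    refine ⟨w, ?_, ?_⟩
    · rw [D.mem]
      filter_upwards [hw, hww] with n h2 h3
      rw [h3]; exact h2.1
    · rw [D.mem]
      filter_upwards [hw, hww, hrepw (a * b) w] with n h2 h3 h4
      rw [h4, h3]; exact h2.2

end int2

end Pool.Agent.H89
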