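import Mathlib
import Pool.Agent.H89.Int2

set_option autoImplicit false
set_option linter.unusedSectionVars false

namespace Pool.Agent.H89

open Encodable Filter NumberField

section int3

variable {F : Type*} [Field F] [NumberField F] [Primcodable F] [CompField F]
variable {C : Set ℕ} [hC : Fact (IsCohesive C)]

/-- the quaternionic norm equation over the nonstandard rationals -/
def NormEq {R : Type*} [Ring R] (α β X Y Z W : R) : Prop :=
  X ^ 2 - α * Y ^ 2 - β * Z ^ 2 + α * β * W ^ 2 = 1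

/-- pointwise predicate used for the selection of the eight coordinates -/
def QP (q : (F × F × F) × (Fin 8 → F)) : Prop :=
  (∀ i, isQ (q.2 i)) ∧ q.1.2.2 = 2 * q.2 0 - 2 * q.2 4 ∧
    (q.2 0) ^ 2 - q.1.1 * (q.2 1) ^ 2 - q.1.2.1 * (q.2 2) ^ 2 + q.1.1 * q.1.2.1 * (q.2 3) ^ 2 = 1 ∧
    (q.2 4) ^ 2 - q.1.1 * (q.2 5) ^ 2 - q.1.2.1 * (q.2 6) ^ 2 + q.1.1 * q.1.2.1 * (q.2 7) ^ 2 = 1

theorem re_QP : REPred (QP (F := F)) := by
  have hv : ∀ i : Fin 8, Computable (fun q : (F × F × F) × (Fin 8 → F) => q.2 i) :=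
    fun i => capp (csnd cid) i
  have hsq : ∀ i : Fin 8, Computable (fun q : (F × F × F) × (Fin 8 → F) => (q.2 i) ^ 2) :=
    fun i => cpow' (hv i) (cconst 2)
  have ha : Computable (fun q : (F × F × F) × (Fin 8 → F) => q.1.1) := cfst (cfst cid)
  have hb : Computable (fun q : (F × F × F) × (Fin 8 → F) => q.1.2.1) := cfst (csnd (cfst cid))
  have hx : Computable (fun q : (F × F × F) × (Fin 8 → F) => q.1.2.2) := csnd (csnd (cfst cid))
  refine re_and (re_ballfin (fun i => re_isQ (hv i))) (re_and ?_ (re_and ?_ ?_))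
  · exact re_eq hx (csub' (cmul' (cconst 2) (hv 0)) (cmul' (cconst 2) (hv 4)))
  · refine re_eq (cadd' (csub' (csub' (hsq 0) (cmul' ha (hsq 1))) (cmul' hb (hsq 2)))
      (cmul' (cmul' ha hb) (hsq 3))) (cconst 1)
  · refine re_eq (cadd' (csub' (csub' (hsq 4) (cmul' ha (hsq 5))) (cmul' hb (hsq 6)))
      (cmul' (cmul' ha hb) (hsq 7))) (cconst 1)

theorem exists_QP {α β : F} {x : F} {a b : ℚ} {k : ℤ} (hα : α = a) (hβ : β = b) (hx : x = k)
    (ha : a ≠ 0) (hb : 0 < b) : ∃ v, QP ((α, β, x), v) := by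
  obtain ⟨X, Y, Z, W, X', Y', Z', W', h1, h2, h3⟩ := NumQ.theoremQ ha hb k
  refine ⟨![(X : F), Y, Z, W, X', Y', Z', W'], ?_, ?_, ?_, ?_⟩
  · intro i
    fin_cases i
    · exact ⟨X, rfl⟩
    · exact ⟨Y, rfl⟩
    · exact ⟨Z, rfl⟩
    · exact ⟨W, rfl⟩
    · exact ⟨X', rfl⟩
    · exact ⟨Y', rfl⟩
    · exact ⟨Z', rfl⟩
    · exact ⟨W', rfl⟩
  · change x = 2 * (X : F) - 2 * (X' : F)
    rw [hx]
    have := congrArg (fun t : ℚ => (t : F)) h1
    push_cast at this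
    exact this
  · change (X : F) ^ 2 - α * (Y : F) ^ 2 - β * (Z : F) ^ 2 + α * β * (W : F) ^ 2 = 1
    rw [hα, hβ]
    have := congrArg (fun t : ℚ => (t : F)) h2
    push_cast at this
    exact this
  · change (X' : F) ^ 2 - α * (Y' : F) ^ 2 - β * (Z' : F) ^ 2 + α * β * (W' : F) ^ 2 = 1
    rw [hα, hβ]
    have := congrArg (fun t : ℚ => (t : F)) h3
    push_cast at this
    exact this

theorem rep_form (α β X Y Z W : Kp C F) : ∀ᶠ n in coF C,
    (X ^ 2 - α * Y ^ 2 - β * Z ^ 2 + α * β * W ^ 2).rep n =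
      (X.rep n) ^ 2 - α.rep n * (Y.rep n) ^ 2 - β.rep n * (Z.rep n) ^ 2 +
        α.rep n * β.rep n * (W.rep n) ^ 2 := by
  filter_upwards [Kp.rep_add (X ^ 2 - α * Y ^ 2 - β * Z ^ 2) (α * β * W ^ 2),
    Kp.rep_sub (X ^ 2 - α * Y ^ 2) (β * Z ^ 2), Kp.rep_sub (X ^ 2) (α * Y ^ 2),
    Kp.rep_mul α (Y ^ 2), Kp.rep_mul β (Z ^ 2), Kp.rep_mul (α * β) (W ^ 2), Kp.rep_mul α β,
    Kp.rep_pow X 2, Kp.rep_pow Y 2, Kp.rep_pow Z 2, Kp.rep_pow W 2]
    with n h1 h2 h3 h4 h5 h6 h7 h8 h9 h10 h11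
  rw [h1, h2, h3, h4, h5, h6, h7, h8, h9, h10, h11]

/-- The arithmetic theorem transferred to the nonstandard rationals. -/
theorem transQ (α β : Qst C F) (hα : α ≠ 0) (hβ : ∀ᶠ n in coF C, isP ((β : Kp C F).rep n))
    {x : Kp C F} (hx : ∀ᶠ n in coF C, ∃ k : ℤ, x.rep n = k) :
    ∃ X Y Z W X' Y' Z' W' : Qst C F, x = ((2 * X : Qst C F) : Kp C F) - ((2 * X' : Qst C F) : Kp C F) ∧
      X ^ 2 - α * Y ^ 2 - β * Z ^ 2 + α * β * W ^ 2 = 1 ∧
      X' ^ 2 - α * Y' ^ 2 - β * Z' ^ 2 + α * β * W' ^ 2 = 1 := by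
  have hα' : (α : Kp C F) ≠ 0 := by
    intro h; exact hα (Subtype.ext h)
  rw [Kp.ne_zero_iff] at hα'
  obtain ⟨v0, hv0, hv⟩ := pc_select (re_QP (F := F))
    (pc_pair (α : Kp C F).rep_pc (pc_pair (β : Kp C F).rep_pc x.rep_pc)) (by
      filter_upwards [hα', mem_Qst.1 α.2, hβ, mem_Qst.1 β.2, hx] with n h1 h2 h3 h4 h5
      obtain ⟨a, ha⟩ := h2
      obtain ⟨b, hb⟩ := h4
      obtain ⟨k, hk⟩ := h5
      refine exists_QP ha hb hk ?_ ?_
      · rintro rfl
        apply h1; rw [ha]; simp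
      · rw [hb, isP_iff] at h3; exact h3)
  have hvi : ∀ i, IsPC C (fun n => v0 n i) := fun i =>
    pc_comp hv0 (g := fun v : Fin 8 → F => v i) (capp cid i)
  choose y hy using fun i => Kp.exists_rep (hvi i)
  have hyQ : ∀ i, y i ∈ Qst C F := by
    intro i
    rw [mem_Qst]
    filter_upwards [hy i, hv] with n h1 h2
    rw [h1]; exact h2.1 i
  have hyall : ∀ᶠ n in coF C, ∀ i, (y i).rep n = v0 n i := by
    rw [Filter.eventually_all]; exact hy
  have htwo : ∀ᶠ n in coF C, (2 : Kp C F).rep n = 2 := by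
    have := Kp.rep_natCast (C := C) (F := F) 2
    filter_upwards [this] with n hn
    exact_mod_cast hn
  refine ⟨⟨y 0, hyQ 0⟩, ⟨y 1, hyQ 1⟩, ⟨y 2, hyQ 2⟩, ⟨y 3, hyQ 3⟩, ⟨y 4, hyQ 4⟩, ⟨y 5, hyQ 5⟩,
    ⟨y 6, hyQ 6⟩, ⟨y 7, hyQ 7⟩, ?_, ?_, ?_⟩
  · change x = 2 * y 0 - 2 * y 4
    rw [Kp.ext_iff']
    filter_upwards [hv, hyall, Kp.rep_sub (2 * y 0) (2 * y 4), Kp.rep_mul 2 (y 0),
      Kp.rep_mul 2 (y 4), htwo] with n h1 h2 h3 h4 h5 h6
    rw [h3, h4, h5, h6, h2, h2]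
    exact h1.2.1
  · apply Subtype.ext
    change (y 0) ^ 2 - (α : Kp C F) * (y 1) ^ 2 - (β : Kp C F) * (y 2) ^ 2 +
      (α : Kp C F) * (β : Kp C F) * (y 3) ^ 2 = 1
    rw [Kp.ext_iff']
    filter_upwards [hv, hyall, rep_form (α : Kp C F) β (y 0) (y 1) (y 2) (y 3),
      Kp.rep_one (C := C) (F := F)] with n h1 h2 h3 h4
    rw [h3, h4, h2, h2, h2, h2]
    exact h1.2.2.1
  · apply Subtype.ext
    change (y 4) ^ 2 - (α : Kp C F) * (y 5) ^ 2 - (β : Kp C F) * (y 6) ^ 2 +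
      (α : Kp C F) * (β : Kp C F) * (y 7) ^ 2 = 1
    rw [Kp.ext_iff']
    filter_upwards [hv, hyall, rep_form (α : Kp C F) β (y 4) (y 5) (y 6) (y 7),
      Kp.rep_one (C := C) (F := F)] with n h1 h2 h3 h4
    rw [h3, h4, h2, h2, h2, h2]
    exact h1.2.2.2

variable (B : IB F)

include B in
/-- automorphisms over `F` map nonstandard integers to nonstandard algebraic integers -/
theorem sigma_int [IsGalois ℚ F] (σ : Kp C F ≃+* Kp C F)
    (hσ : ∀ x : F, σ (algebraMap F (Kp C F) x) = algebraMap F (Kp C F) x) {x : Kp C F}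
    (hx : ∀ᶠ n in coF C, ∃ k : ℤ, x.rep n = k) : ∀ᶠ n in coF C, isO ((σ x).rep n) := by
  rcases hC.out.dichPC (R := fun y : F => isO y) (re_isO B cid) (σ x).rep_pc with h0 | h0
  · exact h0
  exfalso
  -- choice of the pole
  have hre : REPred (fun q : F × (F × List F) => isO q.2.1 ∧ Cert B.b (q.2.1 * q.1) q.2.2) := by
    refine re_and (re_isO B (cfst (csnd cid))) (re_cert B ?_ (csnd (csnd cid)))
    exact cmul' (cfst (csnd cid)) (cfst cid)
  obtain ⟨tL, htL, h1⟩ := pc_select hre (σ x).rep_pc (by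
    filter_upwards [h0] with n hn
    obtain ⟨t, ht, L, hL⟩ := exists_cert B.b B.isO_basis hn
    exact ⟨(t, L), ht, hL⟩)
  obtain ⟨t, htt⟩ := Kp.exists_rep (pc_fst htL)
  let D : ZD C B :=
    { z := t * σ x
      L := fun n => (tL n).2
      pc := pc_snd htL
      cert := by
        filter_upwards [h1, htt, Kp.rep_mul t (σ x)] with n h2 h3 h4
        rw [h4, h3]; exact h2.2 }
  have hσx : σ x ∉ D.V := by
    rw [D.not_mem]
    filter_upwards [h1, htt, Kp.rep_mul t (σ x), D.cert] with n h2 h3 h4 h5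
    exact not_Vz_of_mul B.hω h5 (t := t.rep n) (by rw [h3]; exact h2.1) h4
  -- the pulled back valuation ring
  let V : ValuationSubring (Kp C F) := D.V.comap (σ : Kp C F →+* Kp C F)
  have hV : ∀ u, u ∈ V ↔ σ u ∈ D.V := fun u => Iff.rfl
  have hVs : ∀ u, u ∈ D.V ↔ σ.symm u ∈ V := fun u => by rw [hV]; simp
  let pbF := Field.powerBasisOfFiniteOfSeparable ℚ F
  have hzV : σ.symm D.z ∉ V := by rw [hV]; simpa using D.z_not_mem
  have hmulz : ∀ u, u * σ.symm D.z ∈ V ↔ σ u * D.z ∈ D.V := by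
    intro u; rw [hV]; simp
  obtain ⟨α, β, hα, hβ, hf1, hf2⟩ := V_elem (Qst C F) V (Kpow C pbF) pbF.gen rfl hzV (by
      intro u hu hu'
      rw [hmulz]
      apply D.unif ((hV u).1 hu)
      intro hne hinv
      apply hu' (by rintro rfl; simp at hne)
      rw [hV]; simpa using hinv) (by
      by_cases hk : ∃ k : ℕ, 0 < k ∧ ∀ᶠ n in coF C, isO ((k : F) * D.z.rep n)
      · left
        obtain ⟨k, hk0, hk⟩ := hk
        obtain ⟨R, hRf, hR⟩ := D.case_one hk0 hk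
        refine ⟨σ.symm '' R, hRf.image _, ?_⟩
        intro u hu
        obtain ⟨r, hr, h2⟩ := hR (σ u) hu
        refine ⟨σ.symm r, ⟨r, hr, rfl⟩, ?_⟩
        rw [hmulz]
        simpa using h2
      · right
        obtain ⟨c1, ⟨u, hu, hu2⟩, c3⟩ := D.case_two (fun k hk0 => by
          have h2 : REPred (fun z : F => isO ((k : F) * z)) := re_isO B (cmul' (cconst _) cid)
          exact (hC.out.dichPC h2 D.z.rep_pc).resolve_left (fun h => hk ⟨k, hk0, h⟩))
        refine ⟨?_, ⟨σ.symm u, (hVs u).1 hu, ?_⟩, ?_⟩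
        · intro x; rw [hV, hσ]; exact c1 x
        · intro w hw hw2
          apply hu2 (σ w) hw
          rw [hmulz] at hw2
          simpa using hw2
        · intro a ha b hb ha' hb'
          obtain ⟨w, hw, hw2⟩ := c3 (σ a) ha (σ b) hb (by
            intro w hw hw2
            apply ha' (σ.symm w) ((hVs w).1 hw)
            rw [hmulz]; simpa using hw2) (by
            intro w hw hw2
            apply hb' (σ.symm w) ((hVs w).1 hw)
            rw [hmulz]; simpa using hw2)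
          refine ⟨σ.symm w, (hVs w).1 hw, ?_⟩
          rw [hmulz]
          simpa using hw2)
  -- positivity of `β` or `-β`
  obtain ⟨β', hβ', hf⟩ : ∃ β' : Qst C F, (∀ᶠ n in coF C, isP ((β' : Kp C F).rep n)) ∧
      (∀ X Y Z W : Qst C F, X ^ 2 - α * Y ^ 2 - β' * Z ^ 2 + α * β' * W ^ 2 = 1 →
        ((2 * X : Qst C F) : Kp C F) ∈ V) := by
    rcases hC.out.dichPC (R := fun y : F => isP y) (re_isP cid) (β : Kp C F).rep_pc with h2 | h2
    · exact ⟨β, h2, hf1⟩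
    · refine ⟨-β, ?_, hf2⟩
      have hβ0 : (β : Kp C F) ≠ 0 := fun h => hβ (Subtype.ext h)
      rw [Kp.ne_zero_iff] at hβ0
      have : ((-β : Qst C F) : Kp C F) = -(β : Kp C F) := rfl
      rw [this]
      filter_upwards [h2, hβ0, mem_Qst.1 β.2, Kp.rep_neg (β : Kp C F)] with n h3 h4 h5 h6
      obtain ⟨q, hq⟩ := h5
      rw [hq, isP_iff] at h3
      rw [h6, hq]
      have h7 : -(q : F) = ((-q : ℚ) : F) := by push_cast; rfl
      rw [h7, isP_iff]
      have h8 : q ≠ 0 := by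
        rintro rfl
        apply h4; rw [hq]; simp
      push Not at h3
      have := lt_of_le_of_ne h3 h8
      linarith
  obtain ⟨X, Y, Z, W, X', Y', Z', W', e1, e2, e3⟩ := transQ α β' hα hβ' hx
  have hxV : x ∈ V := by
    rw [e1]
    exact sub_mem (hf _ _ _ _ e2) (hf _ _ _ _ e3)
  exact hσx ((hV x).1 hxV)

end int3

end Pool.Agent.H89
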