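import Mathlib
import Pool.Agent.H89.Int3
import Pool.Agent.H89.Coding

set_option autoImplicit false
set_option linter.unusedSectionVars false

namespace Pool.Agent.H89

open Encodable Filter NumberField

section comp

theorem comp_factorial : Computable Nat.factorial := by
  have h1 : Computable (fun n : ℕ => (Nat.rec 1 (fun m IH => (m + 1) * IH) n : ℕ)) := by
    refine Computable.nat_rec (f := fun n : ℕ => n) (g := fun _ => 1)
      (h := fun _ p => (p.1 + 1) * p.2) cid (cconst 1) ?_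
    exact (Primrec.nat_mul.to_comp.comp (Primrec.succ.to_comp.comp (cfst (csnd cid)))
      (csnd (csnd cid))).to₂
  refine h1.of_eq ?_
  intro n
  induction n with
  | zero => rfl
  | succ n ih => rw [Nat.factorial_succ, ← ih]

theorem cpowN {α : Type*} [Primcodable α] {f g : α → ℕ} (hf : Computable f) (hg : Computable g) :
    Computable (fun a => f a ^ g a) := by
  have h1 : Computable (fun a => (Nat.rec 1 (fun _ IH => IH * f a) (g a) : ℕ)) := by
    refine Computable.nat_rec (f := g) (g := fun _ => 1) (h := fun a p => p.2 * f a) hg (cconst 1) ?_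
    exact (Primrec.nat_mul.to_comp.comp (csnd (csnd cid)) (hf.comp (cfst cid))).to₂
  refine h1.of_eq ?_
  intro a
  induction g a with
  | zero => simp
  | succ n ih => simp only [pow_succ, ← ih]

theorem caddN {α : Type*} [Primcodable α] {f g : α → ℕ} (hf : Computable f) (hg : Computable g) :
    Computable (fun a => f a + g a) := Primrec.nat_add.to_comp.comp hf hg

theorem cmulN {α : Type*} [Primcodable α] {f g : α → ℕ} (hf : Computable f) (hg : Computable g) :
    Computable (fun a => f a * g a) := Primrec.nat_mul.to_comp.comp hf hg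

theorem comp_cY (d : ℕ) : Computable (cY d) := comp_factorial.comp (caddN cid (cconst d))

theorem comp_cB (d : ℕ) : Computable (cB d) := by
  unfold cB
  exact caddN (cpowN (caddN cid (cconst d)) (cconst d))
    (cmulN (cconst d) (cmulN (cpowN (comp_cY d) (cconst d)) (cpowN (caddN cid (cconst d)) (cconst d))))

theorem comp_cF (d : ℕ) : Computable (cF d) := comp_factorial.comp (comp_cB d)

theorem comp_cH (d i : ℕ) : Computable (cH d i) := by
  have h1 : Computable (fun n : ℕ => (Nat.rec 1 (fun j IH => IH * (1 + j * i * cF d n)) (n + 1) : ℕ)) := by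
    refine Computable.nat_rec (f := fun n : ℕ => n + 1) (g := fun _ => 1)
      (h := fun n p => p.2 * (1 + p.1 * i * cF d n)) Primrec.succ.to_comp (cconst 1) ?_
    exact (cmulN (csnd (csnd cid)) (caddN (cconst 1) (cmulN (cmulN (cfst (csnd cid)) (cconst i))
      ((comp_cF d).comp (cfst cid))))).to₂
  refine h1.of_eq ?_
  intro n
  unfold cH
  generalize cF d n = f
  generalize n + 1 = m
  induction m with
  | zero => simp
  | succ m ih => rw [Finset.prod_range_succ, ← ih]

end comp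

section int4

variable {F : Type*} [Field F] [NumberField F] [Primcodable F] [CompField F]
variable {C : Set ℕ} [hC : Fact (IsCohesive C)] (B : IB F)

include B in
theorem sigma_O [IsGalois ℚ F] (σ : Kp C F ≃+* Kp C F)
    (hσ : ∀ x : F, σ (algebraMap F (Kp C F) x) = algebraMap F (Kp C F) x) {x : Kp C F}
    (hx : ∀ᶠ n in coF C, isO (x.rep n)) : ∀ᶠ n in coF C, isO ((σ x).rep n) := by
  have hre : REPred (fun q : F × ((Fin (Module.finrank ℚ F) → ℕ) × (Fin (Module.finrank ℚ F) → ℕ)) =>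
      q.1 = ∑ i, ((q.2.1 i : F) - (q.2.2 i : F)) * B.b i) := by
    refine re_eq (cfst cid) (csum' (fun i => ?_))
    exact cmul' (csub' (cnat' (capp (cfst (csnd cid)) i)) (cnat' (capp (csnd (csnd cid)) i)))
      (cconst _)
  obtain ⟨v, hv, h1⟩ := pc_select hre x.rep_pc (by
    filter_upwards [hx] with n hn
    exact (B.isO_iff' _).1 hn)
  have hyi : ∀ i, IsPC C (fun n => (((v n).1 i : ℕ) : F) - (((v n).2 i : ℕ) : F)) := fun i =>
    pc_comp hv (g := fun q : ((Fin (Module.finrank ℚ F) → ℕ) × (Fin (Module.finrank ℚ F) → ℕ)) =>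
      ((q.1 i : ℕ) : F) - ((q.2 i : ℕ) : F))
      (csub' (cnat' (capp (cfst cid) i)) (cnat' (capp (csnd cid) i)))
  choose y hy using fun i => Kp.exists_rep (hyi i)
  have hyall : ∀ᶠ n in coF C, ∀ i, (y i).rep n = (((v n).1 i : ℕ) : F) - (((v n).2 i : ℕ) : F) := by
    rw [Filter.eventually_all]; exact hy
  have hyO : ∀ i, ∀ᶠ n in coF C, isO ((σ (y i)).rep n) := by
    intro i
    apply sigma_int B σ hσ
    filter_upwards [hy i] with n hn
    exact ⟨((v n).1 i : ℤ) - ((v n).2 i : ℤ), by rw [hn]; push_cast; rfl⟩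
  have hxs : x = ∑ i, y i * algebraMap F (Kp C F) (B.b i) := by
    rw [Kp.ext_iff']
    have hall : ∀ᶠ n in coF C, ∀ i, (y i * algebraMap F (Kp C F) (B.b i)).rep n =
        (y i).rep n * B.b i := by
      rw [Filter.eventually_all]
      intro i
      filter_upwards [Kp.rep_mul (y i) (algebraMap F (Kp C F) (B.b i)),
        Kp.rep_algebraMap (C := C) (B.b i)] with n h1 h3
      rw [h1, h3]
    filter_upwards [h1, hyall, hall, Kp.rep_sum Finset.univ
      (fun i => y i * algebraMap F (Kp C F) (B.b i))] with n h1 h2 h3 h4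
    rw [h4, h1]
    apply Finset.sum_congr rfl
    intro i _
    rw [h3 i, h2 i]
  have hσx : σ x = ∑ i, σ (y i) * algebraMap F (Kp C F) (B.b i) := by
    conv_lhs => rw [hxs]
    rw [map_sum]
    apply Finset.sum_congr rfl
    intro i _
    rw [map_mul, hσ]
  rw [hσx]
  have hall : ∀ᶠ n in coF C, ∀ i, (σ (y i) * algebraMap F (Kp C F) (B.b i)).rep n =
      (σ (y i)).rep n * B.b i ∧ isO ((σ (y i)).rep n) := by
    rw [Filter.eventually_all]
    intro i
    filter_upwards [Kp.rep_mul (σ (y i)) (algebraMap F (Kp C F) (B.b i)),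
      Kp.rep_algebraMap (C := C) (B.b i), hyO i] with n h1 h3 h4
    exact ⟨by rw [h1, h3], h4⟩
  filter_upwards [hall, Kp.rep_sum Finset.univ
    (fun i => σ (y i) * algebraMap F (Kp C F) (B.b i))] with n h1 h2
  rw [h2]
  apply isO_sum
  intro i _
  rw [(h1 i).1]
  exact isO_mul (h1 i).2 (B.isO_basis i)

/-- coded initial segments -/
def JJ (q : (F × F × (Fin (2 * Module.finrank ℚ F + 1) → F)) × F) : Prop :=
  isO q.2 ∧ (∀ i : Fin (Module.finrank ℚ F), q.2 + (((i : ℕ) + 1 : ℕ) : F) ≠ 0 ∧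
      isO (q.1.1 / (q.2 + (((i : ℕ) + 1 : ℕ) : F)))) ∧
    (∀ i : Fin (2 * Module.finrank ℚ F + 1),
      1 + q.2 * q.1.2.1 * (((i : ℕ) + 1 : ℕ) : F) ≠ 0 ∧
      isO (q.1.2.2 i / (1 + q.2 * q.1.2.1 * (((i : ℕ) + 1 : ℕ) : F))))

include B in
theorem re_JJ : REPred (JJ (F := F)) := by
  refine re_and (re_isO B (csnd cid)) (re_and (re_ballfin (fun i => ?_)) (re_ballfin (fun i => ?_)))
  · have h1 : Computable (fun q : (F × F × (Fin (2 * Module.finrank ℚ F + 1) → F)) × F =>
      q.2 + (((i : ℕ) + 1 : ℕ) : F)) := cadd' (csnd cid) (cconst _)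
    exact re_and (re_ne h1 (cconst 0)) (re_isO B (cdiv' (cfst (cfst cid)) h1))
  · have h1 : Computable (fun q : (F × F × (Fin (2 * Module.finrank ℚ F + 1) → F)) × F =>
      1 + q.2 * q.1.2.1 * (((i : ℕ) + 1 : ℕ) : F)) :=
      cadd' (cconst 1) (cmul' (cmul' (csnd cid) (cfst (csnd (cfst cid)))) (cconst _))
    exact re_and (re_ne h1 (cconst 0)) (re_isO B (cdiv' (capp (csnd (csnd (cfst cid))) i) h1))

include B in
theorem re_notJJ : REPred (fun q => ¬ JJ (F := F) q) := by
  have h0 : REPred (fun q : (F × F × (Fin (2 * Module.finrank ℚ F + 1) → F)) × F =>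
      ¬ isO q.2 ∨ (∃ i : Fin (Module.finrank ℚ F), q.2 + (((i : ℕ) + 1 : ℕ) : F) = 0 ∨
        ¬ isO (q.1.1 / (q.2 + (((i : ℕ) + 1 : ℕ) : F)))) ∨
      (∃ i : Fin (2 * Module.finrank ℚ F + 1), 1 + q.2 * q.1.2.1 * (((i : ℕ) + 1 : ℕ) : F) = 0 ∨
        ¬ isO (q.1.2.2 i / (1 + q.2 * q.1.2.1 * (((i : ℕ) + 1 : ℕ) : F))))) := by
    refine re_or (re_notO B (csnd cid)) (re_or (re_exfin (fun i => ?_)) (re_exfin (fun i => ?_)))
    · have h1 : Computable (fun q : (F × F × (Fin (2 * Module.finrank ℚ F + 1) → F)) × F =>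
        q.2 + (((i : ℕ) + 1 : ℕ) : F)) := cadd' (csnd cid) (cconst _)
      exact re_or (re_eq h1 (cconst 0)) (re_notO B (cdiv' (cfst (cfst cid)) h1))
    · have h1 : Computable (fun q : (F × F × (Fin (2 * Module.finrank ℚ F + 1) → F)) × F =>
        1 + q.2 * q.1.2.1 * (((i : ℕ) + 1 : ℕ) : F)) :=
        cadd' (cconst 1) (cmul' (cmul' (csnd cid) (cfst (csnd (cfst cid)))) (cconst _))
      exact re_or (re_eq h1 (cconst 0)) (re_notO B (cdiv' (capp (csnd (csnd (cfst cid))) i) h1))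
  refine h0.of_eq ?_
  intro q
  unfold JJ
  constructor
  · rintro (h | ⟨i, h | h⟩ | ⟨i, h | h⟩) hq
    · exact h hq.1
    · exact (hq.2.1 i).1 h
    · exact h (hq.2.1 i).2
    · exact (hq.2.2 i).1 h
    · exact h (hq.2.2 i).2
  · intro hq
    by_contra hcon
    push Not at hcon
    exact hq ⟨hcon.1, hcon.2.1, hcon.2.2⟩

/-- natural parameters -/
noncomputable def prm (F : Type*) [Field F] [NumberField F] (k : ℕ) :
    F × F × (Fin (2 * Module.finrank ℚ F + 1) → F) :=
  ((cY (Module.finrank ℚ F) k : F), (cF (Module.finrank ℚ F) k : F),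
    fun i => (cH (Module.finrank ℚ F) ((i : ℕ) + 1) k : F))

theorem JJ_of_le {k j : ℕ} (hj : j ≤ k) : JJ (prm F k, (j : F)) := by
  obtain ⟨h1, h2⟩ := coding_conv (F := F) hj
  refine ⟨isO_nat j, ?_, ?_⟩
  · intro i
    have h3 : (j : F) + (((i : ℕ) + 1 : ℕ) : F) ≠ 0 := by
      have : ((j + (i + 1) : ℕ) : F) ≠ 0 := by exact_mod_cast (by omega : j + ((i : ℕ) + 1) ≠ 0)
      rwa [Nat.cast_add] at this
    refine ⟨h3, ?_⟩
    obtain ⟨c, hc⟩ := h1 ((i : ℕ) + 1) (by omega) (by omega)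
    have hc' : (cY (Module.finrank ℚ F) k : F) = ((j : F) + (((i : ℕ) + 1 : ℕ) : F)) * c := by
      have := congrArg (fun t : 𝓞 F => (t : F)) hc
      simp only [map_mul, map_add, map_natCast] at this
      exact this
    simp only [prm]
    rw [hc', mul_div_cancel_left₀ _ h3]
    exact isO_coe c
  · intro i
    have h3 : 1 + (j : F) * (cF (Module.finrank ℚ F) k : F) * (((i : ℕ) + 1 : ℕ) : F) ≠ 0 := by
      have : ((1 + j * cF (Module.finrank ℚ F) k * (i + 1) : ℕ) : F) ≠ 0 := by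
        exact_mod_cast (by omega : 1 + j * cF (Module.finrank ℚ F) k * ((i : ℕ) + 1) ≠ 0)
      push_cast at this ⊢
      exact this
    refine ⟨h3, ?_⟩
    obtain ⟨c, hc⟩ := h2 ((i : ℕ) + 1)
    have hc' : (cH (Module.finrank ℚ F) ((i : ℕ) + 1) k : F) =
        (1 + (j : F) * (cF (Module.finrank ℚ F) k : F) * (((i : ℕ) + 1 : ℕ) : F)) * c := by
      have := congrArg (fun t : 𝓞 F => (t : F)) hc
      simp only [map_mul, map_add, map_natCast, map_one] at this
      exact this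
    simp only [prm]
    rw [hc', mul_div_cancel_left₀ _ h3]
    exact isO_coe c

theorem le_of_JJ {k : ℕ} {t : F} (h : JJ (prm F k, t)) : ∃ j ≤ k, t = (j : F) := by
  obtain ⟨h0, h1, h2⟩ := h
  simp only [prm] at h0 h1 h2
  have h3 : ∀ (y s : F) (y' s' : 𝓞 F), (y' : F) = y → (s' : F) = s → s ≠ 0 → isO (y / s) → s' ∣ y' := by
    rintro y s y' s' rfl rfl hs hys
    refine ⟨toO _ hys, ?_⟩
    apply RingOfIntegers.coe_injective
    rw [map_mul]
    have : algebraMap (𝓞 F) F (toO ((y' : F) / s') hys) = (y' : F) / s' := rfl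
    rw [this]
    change (y' : F) = (s' : F) * ((y' : F) / (s' : F))
    rw [mul_div_cancel₀ _ hs]
  obtain ⟨j, hj, hj2⟩ := coding (t := toO t h0) (n := k) (by
    intro i hi1 hi2
    obtain ⟨h4, h5⟩ := h1 ⟨i - 1, by omega⟩
    have h6 : i - 1 + 1 = i := by omega
    simp only [h6] at h4 h5
    apply h3 _ _ _ _ _ _ h4 h5
    · simp
    · simp only [map_add, map_natCast]; rfl) (by
    intro i hi1 hi2
    obtain ⟨h4, h5⟩ := h2 ⟨i - 1, by omega⟩
    have h6 : i - 1 + 1 = i := by omega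
    simp only [h6] at h4 h5
    apply h3 _ _ _ _ _ _ h4 h5
    · simp
    · simp only [map_add, map_mul, map_natCast, map_one]; rfl)
  refine ⟨j, hj, ?_⟩
  have := congrArg (fun t : 𝓞 F => (t : F)) hj2
  simp only [map_natCast] at this
  exact this

theorem not_JJ {p : F × F × (Fin (2 * Module.finrank ℚ F + 1) → F)} (hp : p.1 ≠ 0) (hp' : isO p.1) :
    ∃ m : ℕ, ¬ JJ (p, (m : F)) := by
  by_contra hcon
  push Not at hcon
  let y : 𝓞 F := toO p.1 hp'
  have hy : y ≠ 0 := by
    intro h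
    apply hp
    have : ((y : 𝓞 F) : F) = 0 := by rw [h]; simp
    exact this
  have hd : 0 < Module.finrank ℚ F := Module.finrank_pos
  have h1 : ∀ m : ℕ, ((m + 1 : ℕ) : 𝓞 F) ∣ y := by
    intro m
    obtain ⟨-, h2, -⟩ := hcon m
    obtain ⟨h3, h4⟩ := h2 ⟨0, hd⟩
    simp only [zero_add] at h3 h4
    refine ⟨toO _ h4, ?_⟩
    apply RingOfIntegers.coe_injective
    rw [map_mul, map_natCast]
    have h5 : algebraMap (𝓞 F) F (toO (p.1 / ((m : F) + ((1 : ℕ) : F))) h4) = p.1 / ((m : F) + ((1 : ℕ) : F)) := rfl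
    have h6 : algebraMap (𝓞 F) F y = p.1 := rfl
    rw [h5, h6, Nat.cast_add, mul_div_cancel₀ _ h3]
  have h2 := Nm_le_of_dvd (h1 (Nm y)) hy
  rw [Nm_natCast] at h2
  have h3 : Nm y + 1 ≤ (Nm y + 1) ^ (Module.finrank ℚ F) := Nat.le_self_pow hd.ne' _
  omega

/-- internal integers -/
def SO (x : Kp C F) : Prop := ∀ᶠ n in coF C, isO (x.rep n)

/-- internal version of `JJ` -/
def JK (Y f : Kp C F) (H : Fin (2 * Module.finrank ℚ F + 1) → Kp C F) (t : Kp C F) : Prop :=
  SO t ∧ (∀ i : Fin (Module.finrank ℚ F), t + (((i : ℕ) + 1 : ℕ) : Kp C F) ≠ 0 ∧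
      SO (Y / (t + (((i : ℕ) + 1 : ℕ) : Kp C F)))) ∧
    (∀ i : Fin (2 * Module.finrank ℚ F + 1),
      1 + t * f * (((i : ℕ) + 1 : ℕ) : Kp C F) ≠ 0 ∧
      SO (H i / (1 + t * f * (((i : ℕ) + 1 : ℕ) : Kp C F))))

theorem JK_iff (Y f : Kp C F) (H : Fin (2 * Module.finrank ℚ F + 1) → Kp C F) (t : Kp C F) :
    JK Y f H t ↔ ∀ᶠ n in coF C, JJ ((Y.rep n, f.rep n, fun i => (H i).rep n), t.rep n) := by
  unfold JK JJ
  rw [Filter.eventually_and, Filter.eventually_and, Filter.eventually_all, Filter.eventually_all]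
  refine and_congr Iff.rfl (and_congr (forall_congr' fun i => ?_) (forall_congr' fun i => ?_))
  · rw [Filter.eventually_and]
    have h1 : ∀ᶠ n in coF C, (t + (((i : ℕ) + 1 : ℕ) : Kp C F)).rep n =
        t.rep n + (((i : ℕ) + 1 : ℕ) : F) := by
      filter_upwards [Kp.rep_add t (((i : ℕ) + 1 : ℕ) : Kp C F),
        Kp.rep_natCast (C := C) (F := F) ((i : ℕ) + 1)] with n h1 h2
      rw [h1, h2]
    refine and_congr ?_ ?_
    · rw [Kp.ne_zero_iff]
      exact Filter.eventually_congr (by filter_upwards [h1] with n hn; rw [hn])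
    · exact Filter.eventually_congr (by
        filter_upwards [h1, Kp.rep_div Y (t + (((i : ℕ) + 1 : ℕ) : Kp C F))] with n hn hn2
        rw [hn2, hn])
  · rw [Filter.eventually_and]
    have h1 : ∀ᶠ n in coF C, (1 + t * f * (((i : ℕ) + 1 : ℕ) : Kp C F)).rep n =
        1 + t.rep n * f.rep n * (((i : ℕ) + 1 : ℕ) : F) := by
      filter_upwards [Kp.rep_add 1 (t * f * (((i : ℕ) + 1 : ℕ) : Kp C F)),
        Kp.rep_mul (t * f) (((i : ℕ) + 1 : ℕ) : Kp C F), Kp.rep_mul t f,
        Kp.rep_one (C := C) (F := F),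
        Kp.rep_natCast (C := C) (F := F) ((i : ℕ) + 1)] with n h1 h2 h3 h4 h5
      rw [h1, h2, h3, h4, h5]
    refine and_congr ?_ ?_
    · rw [Kp.ne_zero_iff]
      exact Filter.eventually_congr (by filter_upwards [h1] with n hn; rw [hn])
    · exact Filter.eventually_congr (by
        filter_upwards [h1, Kp.rep_div (H i) (1 + t * f * (((i : ℕ) + 1 : ℕ) : Kp C F))] with n hn hn2
        rw [hn2, hn])

theorem JK_sigma (σ : Kp C F ≃+* Kp C F) (hσ : ∀ x : Kp C F, SO x → SO (σ x))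
    {Y f : Kp C F} {H : Fin (2 * Module.finrank ℚ F + 1) → Kp C F} {t : Kp C F}
    (h : JK Y f H t) : JK (σ Y) (σ f) (fun i => σ (H i)) (σ t) := by
  obtain ⟨h0, h1, h2⟩ := h
  refine ⟨hσ _ h0, fun i => ?_, fun i => ?_⟩
  · have h3 : σ t + (((i : ℕ) + 1 : ℕ) : Kp C F) = σ (t + (((i : ℕ) + 1 : ℕ) : Kp C F)) := by
      rw [map_add, map_natCast]
    rw [h3, ← map_div₀]
    exact ⟨by rw [Ne, map_eq_zero]; exact (h1 i).1, hσ _ (h1 i).2⟩
  · have h3 : 1 + σ t * σ f * (((i : ℕ) + 1 : ℕ) : Kp C F) =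
        σ (1 + t * f * (((i : ℕ) + 1 : ℕ) : Kp C F)) := by
      rw [map_add, map_mul, map_mul, map_natCast, map_one]
    rw [h3, ← map_div₀]
    exact ⟨by rw [Ne, map_eq_zero]; exact (h2 i).1, hσ _ (h2 i).2⟩

include B in
/-- automorphisms over `F` preserve the nonstandard natural numbers -/
theorem sigma_N [IsGalois ℚ F] (σ : Kp C F ≃+* Kp C F)
    (hσ : ∀ x : F, σ (algebraMap F (Kp C F) x) = algebraMap F (Kp C F) x) {x : Kp C F}
    (hx : ∀ᶠ n in coF C, ∃ k : ℕ, x.rep n = k) : ∀ᶠ n in coF C, ∃ k : ℕ, (σ x).rep n = k := by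
  have hσ' : ∀ x : F, σ.symm (algebraMap F (Kp C F) x) = algebraMap F (Kp C F) x := by
    intro x; rw [RingEquiv.symm_apply_eq]; exact (hσ x).symm
  have hSO : ∀ x : Kp C F, SO x → SO (σ x) := fun x h => sigma_O B σ hσ h
  have hSO' : ∀ x : Kp C F, SO x → SO (σ.symm x) := fun x h => sigma_O B σ.symm hσ' h
  -- natural representative
  have hre : REPred (fun q : F × ℕ => q.1 = (q.2 : F)) := re_eq (cfst cid) (cnat' (csnd cid))
  obtain ⟨k, hk, hk2⟩ := pc_select hre x.rep_pc hx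
  -- parameters
  obtain ⟨Y, hY⟩ := Kp.exists_rep (F := F) (f := fun n => ((cY (Module.finrank ℚ F) (k n) : ℕ) : F))
    (pc_comp hk (g := fun k : ℕ => ((cY (Module.finrank ℚ F) k : ℕ) : F)) (cnat' (comp_cY _)))
  obtain ⟨f, hf⟩ := Kp.exists_rep (F := F) (f := fun n => ((cF (Module.finrank ℚ F) (k n) : ℕ) : F))
    (pc_comp hk (g := fun k : ℕ => ((cF (Module.finrank ℚ F) k : ℕ) : F)) (cnat' (comp_cF _)))
  choose H hH using fun i : Fin (2 * Module.finrank ℚ F + 1) => Kp.exists_rep (F := F)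
    (f := fun n => ((cH (Module.finrank ℚ F) ((i : ℕ) + 1) (k n) : ℕ) : F))
    (pc_comp hk (g := fun k : ℕ => ((cH (Module.finrank ℚ F) ((i : ℕ) + 1) k : ℕ) : F))
      (cnat' (comp_cH _ _)))
  have hprm : ∀ᶠ n in coF C, (Y.rep n, f.rep n, fun i => (H i).rep n) = prm F (k n) := by
    have hHall : ∀ᶠ n in coF C, ∀ i, (H i).rep n = ((cH (Module.finrank ℚ F) ((i : ℕ) + 1) (k n) : ℕ) : F) := by
      rw [Filter.eventually_all]; exact hH
    filter_upwards [hY, hf, hHall] with n h1 h2 h3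
    unfold prm
    rw [h1, h2]
    congr 2
    funext i
    exact h3 i
  have hJK : ∀ t : Kp C F, JK Y f H t ↔ ∀ᶠ n in coF C, JJ (prm F (k n), t.rep n) := by
    intro t
    rw [JK_iff]
    exact Filter.eventually_congr (by filter_upwards [hprm] with n hn; rw [hn])
  -- zero
  have h0 : JK (σ Y) (σ f) (fun i => σ (H i)) 0 := by
    have : JK Y f H 0 := by
      rw [hJK]
      filter_upwards [Kp.rep_zero (C := C) (F := F)] with n h1
      rw [h1]
      exact_mod_cast JJ_of_le (F := F) (Nat.zero_le (k n))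
    have h1 := JK_sigma σ hSO this
    rwa [map_zero] at h1
  -- successor
  have hsucc : ∀ t : Kp C F, JK (σ Y) (σ f) (fun i => σ (H i)) t → t ≠ σ x →
      JK (σ Y) (σ f) (fun i => σ (H i)) (t + 1) := by
    intro t ht hne
    have h1 : JK Y f H (σ.symm t) := by
      have := JK_sigma σ.symm hSO' ht
      simpa using this
    rw [hJK] at h1
    have hne' : σ.symm t ≠ x := by
      intro h; apply hne; rw [← h]; simp
    rw [Kp.ne_iff] at hne'
    have h2 : JK Y f H (σ.symm t + 1) := by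
      rw [hJK]
      filter_upwards [h1, hne', hk2, Kp.rep_add (σ.symm t) 1, Kp.rep_one (C := C) (F := F)]
        with n h3 h4 h5 h6 h7
      obtain ⟨j, hj, hj2⟩ := le_of_JJ h3
      rw [h6, h7, hj2]
      have h8 : j ≠ k n := by
        rintro rfl
        apply h4; rw [hj2]; exact h5.symm
      have h9 := JJ_of_le (F := F) (show j + 1 ≤ k n by omega)
      rwa [Nat.cast_add, Nat.cast_one] at h9
    have h3 := JK_sigma σ hSO h2
    rw [map_add, map_one] at h3
    simpa using h3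
  -- the internal induction
  let P : ℕ → (F × F × (Fin (2 * Module.finrank ℚ F + 1) → F)) :=
    fun n => ((σ Y).rep n, (σ f).rep n, fun i => (σ (H i)).rep n)
  have hPpc : IsPC C P := by
    refine pc_pair (σ Y).rep_pc (pc_pair (σ f).rep_pc ?_)
    exact pc_fin (fun i => (σ (H i)).rep_pc)
  have hbadre : REPred (fun q : ((F × F × (Fin (2 * Module.finrank ℚ F + 1) → F)) × F) × ℕ =>
      JJ (q.1.1, (q.2 : F)) ∧ (q.2 : F) ≠ q.1.2 ∧ ¬ JJ (q.1.1, (q.2 : F) + 1)) := by
    refine re_and (re_comp (re_JJ B) (cpair (cfst (cfst cid)) (cnat' (csnd cid))))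
      (re_and (re_ne (cnat' (csnd cid)) (csnd (cfst cid))) ?_)
    exact re_comp (re_notJJ B) (cpair (cfst (cfst cid)) (cadd' (cnat' (csnd cid)) (cconst 1)))
  have hall : ∀ᶠ n in coF C, ∀ m : ℕ, JJ (P n, (m : F)) → (m : F) ≠ (σ x).rep n →
      JJ (P n, (m : F) + 1) := by
    rcases hC.out.dichPC (re_ex hbadre) (pc_pair hPpc (σ x).rep_pc) with hbad | hbad
    · exfalso
      obtain ⟨m0, hm0, hm⟩ := pc_select hbadre (pc_pair hPpc (σ x).rep_pc) hbad
      obtain ⟨t, ht⟩ := Kp.exists_rep (F := F) (f := fun n => ((m0 n : ℕ) : F))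
        (pc_comp hm0 (g := fun k : ℕ => (k : F)) (cnat' cid))
      have h1 : JK (σ Y) (σ f) (fun i => σ (H i)) t := by
        rw [JK_iff]
        filter_upwards [hm, ht] with n h2 h3
        rw [h3]; exact h2.1
      have h2 : t ≠ σ x := by
        rw [Kp.ne_iff]
        filter_upwards [hm, ht] with n h2 h3
        rw [h3]; exact h2.2.1
      have h3 := hsucc t h1 h2
      rw [JK_iff] at h3
      obtain ⟨n, h4, h5, h6, h7, h8⟩ := (h3.and (hm.and (ht.and ((Kp.rep_add t 1).and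
        (Kp.rep_one (C := C) (F := F)))))).exists
      apply h5.2.2
      rw [h7, h8, h6] at h4
      exact h4
    · filter_upwards [hbad] with n hn m h1 h2
      by_contra h3
      exact hn ⟨m, h1, h2, h3⟩
  have hY0 : Y ≠ 0 := by
    rw [Kp.ne_zero_iff]
    filter_upwards [hY] with n hn
    rw [hn]
    exact_mod_cast (Nat.factorial_pos _).ne'
  have hYO : SO Y := by
    unfold SO
    filter_upwards [hY] with n hn
    rw [hn]; exact isO_nat _
  have hσY0 : σ Y ≠ 0 := by rw [Ne, map_eq_zero]; exact hY0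
  rw [Kp.ne_zero_iff] at hσY0
  rw [JK_iff] at h0
  filter_upwards [hall, hσY0, hSO Y hYO, h0, Kp.rep_zero (C := C) (F := F)] with n h1 h2 h3 h4 h5
  have h6 : ∃ m : ℕ, ¬ JJ (P n, (m : F)) := not_JJ h2 h3
  classical
  have h7 := Nat.find_spec h6
  have h8 : Nat.find h6 ≠ 0 := by
    intro h9
    rw [h9] at h7
    apply h7
    rw [Nat.cast_zero]
    rw [h5] at h4
    exact h4
  obtain ⟨m, hm⟩ := Nat.exists_eq_succ_of_ne_zero h8
  have h9 : JJ (P n, (m : F)) := by
    by_contra h10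
    have := Nat.find_min' h6 h10
    omega
  refine ⟨m, ?_⟩
  by_contra h10
  have h11 := h1 m h9 (fun h => h10 h.symm)
  apply h7
  rw [hm, Nat.cast_succ]
  exact h11

end int4

end Pool.Agent.H89
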