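import Mathlib
import Pool.Agent.H89.Coh

set_option autoImplicit false
set_option linter.unusedSectionVars false

namespace Pool.Agent.H89

open Encodable Filter

/-- germs along `C` of functions which are almost everywhere partial recursive -/
def Cp (C : Set ℕ) (α : Type*) [Primcodable α] : Type _ :=
  {g : (coF C).Germ α // ∃ f : ℕ → α, IsPC C f ∧ g = (f : (coF C).Germ α)}

namespace Cp

variable {α β γ : Type*} [Primcodable α] [Primcodable β] [Primcodable γ] {C : Set ℕ}

/-- element with a given representative -/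
def mk (f : ℕ → α) (hf : IsPC C f) : Cp C α := ⟨(f : (coF C).Germ α), f, hf, rfl⟩

/-- a chosen representative -/
noncomputable def rep (x : Cp C α) : ℕ → α := Classical.choose x.2

theorem rep_pc (x : Cp C α) : IsPC C x.rep := (Classical.choose_spec x.2).1

theorem val_eq (x : Cp C α) : x.1 = (x.rep : (coF C).Germ α) := (Classical.choose_spec x.2).2

theorem ext_iff' {x y : Cp C α} : x = y ↔ ∀ᶠ n in coF C, x.rep n = y.rep n := by
  constructor
  · rintro rfl; exact Filter.Eventually.of_forall (fun n => rfl)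
  · intro h
    apply Subtype.ext
    rw [val_eq x, val_eq y, Filter.Germ.coe_eq]
    exact h

theorem rep_mk (f : ℕ → α) (hf : IsPC C f) : ∀ᶠ n in coF C, (mk f hf).rep n = f n := by
  have := val_eq (mk f hf)
  rw [mk, Filter.Germ.coe_eq] at this
  filter_upwards [this] with n hn using hn.symm

theorem exists_rep {f : ℕ → α} (hf : IsPC C f) : ∃ x : Cp C α, ∀ᶠ n in coF C, x.rep n = f n :=
  ⟨mk f hf, rep_mk f hf⟩

end Cp

/-- a permutation of the cohesive power of `ℕ` compatible with addition and multiplication -/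
structure NAut (C : Set ℕ) where
  /-- the permutation -/
  e : Cp C ℕ ≃ Cp C ℕ
  add : ∀ x y z : Cp C ℕ, (∀ᶠ n in coF C, z.rep n = x.rep n + y.rep n) →
    ∀ᶠ n in coF C, (e z).rep n = (e x).rep n + (e y).rep n
  mul : ∀ x y z : Cp C ℕ, (∀ᶠ n in coF C, z.rep n = x.rep n * y.rep n) →
    ∀ᶠ n in coF C, (e z).rep n = (e x).rep n * (e y).rep n

namespace NAut

variable {C : Set ℕ} [hC : Fact (IsCohesive C)] (θ : NAut C)

instance : (coF C).NeBot := coF_neBot hC.out.1

/-- inverse -/
def symm : NAut C where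
  e := θ.e.symm
  add := by
    intro x y z h
    obtain ⟨w, hw⟩ := Cp.exists_rep (f := fun n => (θ.e.symm x).rep n + (θ.e.symm y).rep n)
      (C := C) (pc_comp (pc_pair (θ.e.symm x).rep_pc (θ.e.symm y).rep_pc)
        (g := fun p : ℕ × ℕ => p.1 + p.2) (Primrec.nat_add.to_comp.comp (cfst cid) (csnd cid)))
    have h1 := θ.add _ _ w hw
    have h2 : θ.e w = z := by
      rw [Cp.ext_iff']
      simp only [Equiv.apply_symm_apply] at h1
      filter_upwards [h, h1] with n h3 h4
      rw [h3, h4]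
    have h3 : w = θ.e.symm z := by rw [← h2]; simp
    rw [← h3]
    exact hw
  mul := by
    intro x y z h
    obtain ⟨w, hw⟩ := Cp.exists_rep (f := fun n => (θ.e.symm x).rep n * (θ.e.symm y).rep n)
      (C := C) (pc_comp (pc_pair (θ.e.symm x).rep_pc (θ.e.symm y).rep_pc)
        (g := fun p : ℕ × ℕ => p.1 * p.2) (Primrec.nat_mul.to_comp.comp (cfst cid) (csnd cid)))
    have h1 := θ.mul _ _ w hw
    have h2 : θ.e w = z := by
      rw [Cp.ext_iff']
      simp only [Equiv.apply_symm_apply] at h1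
      filter_upwards [h, h1] with n h3 h4
      rw [h3, h4]
    have h3 : w = θ.e.symm z := by rw [← h2]; simp
    rw [← h3]
    exact hw

theorem zero {x : Cp C ℕ} (h : ∀ᶠ n in coF C, x.rep n = 0) :
    ∀ᶠ n in coF C, (θ.e x).rep n = 0 := by
  have h1 := θ.add x x x (by filter_upwards [h] with n hn; omega)
  filter_upwards [h1] with n hn
  omega

theorem one {x : Cp C ℕ} (h : ∀ᶠ n in coF C, x.rep n = 1) :
    ∀ᶠ n in coF C, (θ.e x).rep n = 1 := by
  obtain ⟨u, hu⟩ := Cp.exists_rep (C := C) (f := fun _ => 1) (pc_const 1)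
  have h1 := θ.mul x (θ.e.symm u) (θ.e.symm u) (by filter_upwards [h] with n hn; rw [hn, one_mul])
  simp only [Equiv.apply_symm_apply] at h1
  filter_upwards [h1, hu] with n h2 h3
  rw [h3, mul_one] at h2
  exact h2.symm

theorem const (k : ℕ) {x : Cp C ℕ} (h : ∀ᶠ n in coF C, x.rep n = k) :
    ∀ᶠ n in coF C, (θ.e x).rep n = k := by
  induction k generalizing x with
  | zero => exact θ.zero h
  | succ k ih =>
    obtain ⟨u, hu⟩ := Cp.exists_rep (C := C) (f := fun _ => 1) (pc_const 1)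
    obtain ⟨v, hv⟩ := Cp.exists_rep (C := C) (f := fun _ => k) (pc_const k)
    have h1 := θ.add v u x (by filter_upwards [h, hu, hv] with n h1 h2 h3; rw [h1, h2, h3])
    filter_upwards [h1, θ.one hu, ih hv] with n h2 h3 h4
    rw [h2, h3, h4]

/-- preserved unary function -/
def Pres (f : ℕ → ℕ) : Prop := ∀ x y : Cp C ℕ, (∀ᶠ n in coF C, y.rep n = f (x.rep n)) →
    ∀ᶠ n in coF C, (θ.e y).rep n = f ((θ.e x).rep n)

/-- preserved binary function -/
def Pres2 (f : ℕ → ℕ → ℕ) : Prop :=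
  ∀ x y z : Cp C ℕ, (∀ᶠ n in coF C, z.rep n = f (x.rep n) (y.rep n)) →
    ∀ᶠ n in coF C, (θ.e z).rep n = f ((θ.e x).rep n) ((θ.e y).rep n)

theorem pres_comp {f g : ℕ → ℕ} (hf : θ.Pres f) (hg : θ.Pres g) (cg : Computable g) :
    θ.Pres (fun x => f (g x)) := by
  intro x y h
  obtain ⟨w, hw⟩ := Cp.exists_rep (pc_comp x.rep_pc cg)
  have h1 := hg x w hw
  have h2 := hf w y (by filter_upwards [h, hw] with n h3 h4; rw [h3, h4])
  filter_upwards [h1, h2] with n h3 h4
  rw [h4, h3]

theorem pres_comp2 {f : ℕ → ℕ → ℕ} {g h : ℕ → ℕ} (hf : θ.Pres2 f) (hg : θ.Pres g) (hh : θ.Pres h)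
    (cg : Computable g) (ch : Computable h) : θ.Pres (fun x => f (g x) (h x)) := by
  intro x y hy
  obtain ⟨w, hw⟩ := Cp.exists_rep (pc_comp x.rep_pc cg)
  obtain ⟨w', hw'⟩ := Cp.exists_rep (pc_comp x.rep_pc ch)
  have h1 := hg x w hw
  have h1' := hh x w' hw'
  have h2 := hf w w' y (by filter_upwards [hy, hw, hw'] with n h3 h4 h5; rw [h3, h4, h5])
  filter_upwards [h1, h1', h2] with n h3 h4 h5
  rw [h5, h3, h4]

theorem pres_succ : θ.Pres Nat.succ := by
  intro x y h
  obtain ⟨u, hu⟩ := Cp.exists_rep (C := C) (f := fun _ => 1) (pc_const 1)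
  have h1 := θ.add x u y (by filter_upwards [h, hu] with n h1 h2; rw [h1, h2])
  filter_upwards [h1, θ.one hu] with n h2 h3
  rw [h2, h3]

theorem pres_const (k : ℕ) : θ.Pres (fun _ => k) := fun _ _ h => θ.const k h

theorem le {x y : Cp C ℕ} (h : ∀ᶠ n in coF C, x.rep n ≤ y.rep n) :
    ∀ᶠ n in coF C, (θ.e x).rep n ≤ (θ.e y).rep n := by
  obtain ⟨w, hw⟩ := Cp.exists_rep (f := fun n => y.rep n - x.rep n)
      (C := C) (pc_comp (pc_pair y.rep_pc x.rep_pc)
        (g := fun p : ℕ × ℕ => p.1 - p.2) (Primrec.nat_sub.to_comp.comp (cfst cid) (csnd cid)))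
  have h1 := θ.add x w y (by filter_upwards [h, hw] with n h1 h2; omega)
  filter_upwards [h1] with n h2
  omega

theorem lt {x y : Cp C ℕ} (h : ∀ᶠ n in coF C, x.rep n < y.rep n) :
    ∀ᶠ n in coF C, (θ.e x).rep n < (θ.e y).rep n := by
  obtain ⟨w, hw⟩ := Cp.exists_rep (f := fun n => Nat.succ (x.rep n))
      (C := C) (pc_comp x.rep_pc Primrec.succ.to_comp)
  have h1 := θ.le (x := w) (y := y) (by filter_upwards [h, hw] with n h1 h2; omega)
  filter_upwards [h1, θ.pres_succ x w hw] with n h2 h3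
  omega

theorem pres_pair : θ.Pres2 Nat.pair := by
  intro x y z h
  have hcm : ∀ a b : Cp C ℕ, ∃ c : Cp C ℕ, ∀ᶠ n in coF C, c.rep n = a.rep n * b.rep n := fun a b =>
    Cp.exists_rep (pc_comp (pc_pair a.rep_pc b.rep_pc)
        (g := fun p : ℕ × ℕ => p.1 * p.2) (Primrec.nat_mul.to_comp.comp (cfst cid) (csnd cid)))
  have hca : ∀ a b : Cp C ℕ, ∃ c : Cp C ℕ, ∀ᶠ n in coF C, c.rep n = a.rep n + b.rep n := fun a b =>
    Cp.exists_rep (pc_comp (pc_pair a.rep_pc b.rep_pc)
        (g := fun p : ℕ × ℕ => p.1 + p.2) (Primrec.nat_add.to_comp.comp (cfst cid) (csnd cid)))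
  rcases hC.out.dichPC (R := fun p : ℕ × ℕ => p.1 < p.2) (re_lt (cfst cid) (csnd cid))
      (pc_pair x.rep_pc y.rep_pc) with hlt | hlt
  · obtain ⟨c, hc⟩ := hcm y y
    have h1 := θ.add c x z (by
      filter_upwards [h, hlt, hc] with n h1 h2 h3
      rw [h1, h3, Nat.pair, if_pos h2])
    filter_upwards [h1, θ.mul y y c hc, θ.lt hlt] with n h2 h3 h4
    rw [h2, h3, Nat.pair, if_pos h4]
  · obtain ⟨c, hc⟩ := hcm x x
    obtain ⟨d, hd⟩ := hca c x
    have h1 := θ.add d y z (by
      filter_upwards [h, hlt, hc, hd] with n h1 h2 h3 h4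
      rw [h1, h4, h3, Nat.pair, if_neg h2])
    have h5 := θ.le (x := y) (y := x) (by
      filter_upwards [hlt] with n hn
      omega)
    filter_upwards [h1, θ.mul x x c hc, θ.add c x d hd, h5] with n h2 h3 h4 h6
    rw [h2, h4, h3, Nat.pair, if_neg (by omega)]

theorem pres_left : θ.Pres (fun x => x.unpair.1) := by
  intro x y h
  obtain ⟨w, hw⟩ := Cp.exists_rep (pc_comp x.rep_pc (g := fun x => x.unpair.2)
    (Primrec.snd.comp Primrec.unpair).to_comp)
  have h1 := θ.pres_pair y w x (by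
    filter_upwards [h, hw] with n h1 h2
    rw [h1, h2, Nat.pair_unpair])
  filter_upwards [h1] with n h2
  rw [h2, Nat.unpair_pair]

theorem pres_right : θ.Pres (fun x => x.unpair.2) := by
  intro x y h
  obtain ⟨w, hw⟩ := Cp.exists_rep (pc_comp x.rep_pc (g := fun x => x.unpair.1)
    (Primrec.fst.comp Primrec.unpair).to_comp)
  have h1 := θ.pres_pair w y x (by
    filter_upwards [h, hw] with n h1 h2
    rw [h1, h2, Nat.pair_unpair])
  filter_upwards [h1] with n h2
  rw [h2, Nat.unpair_pair]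

theorem pres_mod : θ.Pres2 (fun x y => x % y) := by
  intro x y z h
  have hcm : ∀ a b : Cp C ℕ, ∃ c : Cp C ℕ, ∀ᶠ n in coF C, c.rep n = a.rep n * b.rep n := fun a b =>
    Cp.exists_rep (pc_comp (pc_pair a.rep_pc b.rep_pc)
        (g := fun p : ℕ × ℕ => p.1 * p.2) (Primrec.nat_mul.to_comp.comp (cfst cid) (csnd cid)))
  rcases hC.out.dichPC (R := fun p : ℕ => p = 0) (re_eq cid (cconst 0)) y.rep_pc with h0 | h0
  · have h1 : z = x := by
      rw [Cp.ext_iff']
      filter_upwards [h, h0] with n h1 h2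
      rw [h1, h2, Nat.mod_zero]
    subst h1
    filter_upwards [θ.zero h0] with n h2
    rw [h2, Nat.mod_zero]
  · obtain ⟨q, hq⟩ := Cp.exists_rep (f := fun n => x.rep n / y.rep n)
      (C := C) (pc_comp (pc_pair x.rep_pc y.rep_pc)
        (g := fun p : ℕ × ℕ => p.1 / p.2) (Primrec.nat_div.to_comp.comp (cfst cid) (csnd cid)))
    obtain ⟨c, hc⟩ := hcm y q
    have h1 := θ.add c z x (by
      filter_upwards [h, hc, hq] with n h1 h2 h3
      rw [h1, h2, h3, Nat.div_add_mod])
    have h2 := θ.lt (x := z) (y := y) (by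
      filter_upwards [h, h0] with n h1 h2
      rw [h1]; exact Nat.mod_lt _ (Nat.pos_of_ne_zero h2))
    filter_upwards [h1, h2, θ.mul y q c hc] with n h3 h4 h5
    rw [h3, h5, Nat.mul_add_mod, Nat.mod_eq_of_lt h4]

theorem pres_beta : θ.Pres2 Nat.beta := by
  intro x y z h
  obtain ⟨a, ha⟩ := Cp.exists_rep (pc_comp x.rep_pc (g := fun x => x.unpair.1)
    (Primrec.fst.comp Primrec.unpair).to_comp)
  obtain ⟨b, hb⟩ := Cp.exists_rep (pc_comp x.rep_pc (g := fun x => x.unpair.2)
    (Primrec.snd.comp Primrec.unpair).to_comp)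
  obtain ⟨c, hc⟩ := Cp.exists_rep (pc_comp y.rep_pc (g := Nat.succ) Primrec.succ.to_comp)
  obtain ⟨d, hd⟩ := Cp.exists_rep (pc_comp (pc_pair c.rep_pc b.rep_pc)
        (g := fun p : ℕ × ℕ => p.1 * p.2) (Primrec.nat_mul.to_comp.comp (cfst cid) (csnd cid)))
  obtain ⟨e, he⟩ := Cp.exists_rep (pc_comp d.rep_pc (g := Nat.succ) Primrec.succ.to_comp)
  have h1 := θ.pres_left x a ha
  have h2 := θ.pres_right x b hb
  have h3 := θ.pres_succ y c hc
  have h4 := θ.mul c b d hd
  have h5 := θ.pres_succ d e he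
  have h6 := θ.pres_mod a e z (by
    filter_upwards [h, ha, hb, hc, hd, he] with n h1 h2 h3 h4 h5 h6
    rw [h1, h2, h6, h5, h4, h3, Nat.beta])
  filter_upwards [h1, h2, h3, h4, h5, h6] with n h1 h2 h3 h4 h5 h6
  rw [h6, h5, h4, h3, h2, h1, Nat.beta]

theorem comp_beta : Computable₂ Nat.beta := by
  have h1 : Computable (fun p : ℕ × ℕ => p.1.unpair.1 % ((p.2 + 1) * p.1.unpair.2 + 1)) := by
    refine Primrec.to_comp ?_
    refine Primrec.nat_mod.comp (Primrec.fst.comp (Primrec.unpair.comp Primrec.fst)) ?_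
    refine Primrec.succ.comp ?_
    exact Primrec.nat_mul.comp (Primrec.succ.comp Primrec.snd)
      (Primrec.snd.comp (Primrec.unpair.comp Primrec.fst))
  exact h1

theorem comp_of_natPrimrec {f : ℕ → ℕ} (hf : Nat.Primrec f) : Computable f :=
  (Primrec.nat_iff.2 hf).to_comp

/-- primitive recursive functions are preserved -/
theorem pres_primrec {f : ℕ → ℕ} (hf : Nat.Primrec f) : θ.Pres f := by
  induction hf with
  | zero => exact θ.pres_const 0
  | succ => exact θ.pres_succ
  | left => exact θ.pres_left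
  | right => exact θ.pres_right
  | @pair f g hf hg ihf ihg =>
    exact θ.pres_comp2 θ.pres_pair ihf ihg (comp_of_natPrimrec hf) (comp_of_natPrimrec hg)
  | @comp f g hf hg ihf ihg => exact θ.pres_comp ihf ihg (comp_of_natPrimrec hg)
  | @prec f g hf hg ihf ihg =>
    set F : ℕ → ℕ := Nat.unpaired (fun z n => Nat.rec (f z) (fun y IH => g (Nat.pair z (Nat.pair y IH))) n)
      with hF
    have hFc : Computable F := comp_of_natPrimrec (Nat.Primrec.prec hf hg)
    have hgc := comp_of_natPrimrec hg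
    have hfc := comp_of_natPrimrec hf
    have hF0 : ∀ a, F (Nat.pair a 0) = f a := by intro a; simp [hF]
    have hFs : ∀ a i, F (Nat.pair a (i + 1)) = g (Nat.pair a (Nat.pair i (F (Nat.pair a i)))) := by
      intro a i; simp [hF]
    intro x y hy
    obtain ⟨a, ha⟩ := Cp.exists_rep (pc_comp x.rep_pc (g := fun x => x.unpair.1)
      (Primrec.fst.comp Primrec.unpair).to_comp)
    obtain ⟨m, hm⟩ := Cp.exists_rep (pc_comp x.rep_pc (g := fun x => x.unpair.2)
      (Primrec.snd.comp Primrec.unpair).to_comp)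
    -- code of the sequence of values
    have hre : REPred (fun p : (ℕ × ℕ) × ℕ => ∀ i < p.1.2 + 1,
        Nat.beta p.2 i = F (Nat.pair p.1.1 i)) := by
      refine re_ball_lt (p := fun q : ((ℕ × ℕ) × ℕ) × ℕ =>
        Nat.beta q.1.2 q.2 = F (Nat.pair q.1.1.1 q.2)) ?_ (l := fun p => p.1.2 + 1) ?_
      · refine re_eq ?_ ?_
        · exact comp_beta.comp (csnd (cfst cid)) (csnd cid)
        · exact hFc.comp (Primrec₂.natPair.to_comp.comp (cfst (cfst (cfst cid))) (csnd cid))
      · exact Primrec.succ.to_comp.comp (csnd (cfst cid))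
    obtain ⟨s0, hs0, hs⟩ := pc_select (C := C) hre (pc_pair a.rep_pc m.rep_pc)
      (Filter.Eventually.of_forall (fun n => by
        let l : List ℕ := (List.range (m.rep n + 1)).map (fun i => F (Nat.pair (a.rep n) i))
        refine ⟨Nat.unbeta l, ?_⟩
        intro i hi
        have hl : i < l.length := by simp only [l, List.length_map, List.length_range]; exact hi
        have := Nat.beta_unbeta_coe l ⟨i, hl⟩
        rw [Fin.getElem_fin] at this
        simp only at this
        rw [this]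
        simp [l]))
    obtain ⟨s, hss⟩ := Cp.exists_rep hs0
    have hsb : ∀ᶠ n in coF C, ∀ i < m.rep n + 1, Nat.beta (s.rep n) i = F (Nat.pair (a.rep n) i) := by
      filter_upwards [hs, hss] with n h1 h2
      rw [h2]; exact h1
    -- beginning
    obtain ⟨z0, hz0⟩ := Cp.exists_rep (C := C) (f := fun _ => 0) (pc_const 0)
    obtain ⟨b0, hb0⟩ := Cp.exists_rep (pc_comp a.rep_pc hfc)
    have hbase : ∀ᶠ n in coF C, Nat.beta ((θ.e s).rep n) 0 = f ((θ.e a).rep n) := by
      have h1 := ihf a b0 hb0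
      have h2 := θ.pres_beta s z0 b0 (by
        filter_upwards [hsb, hb0, hz0] with n h1 h2 h3
        rw [h2, h3, h1 0 (by omega), hF0])
      filter_upwards [h1, h2, θ.zero hz0] with n h3 h4 h5
      rw [← h3, h4, h5]
    -- step
    have hstep : ∀ i : Cp C ℕ, (∀ᶠ n in coF C, i.rep n < (θ.e m).rep n) →
        ∀ᶠ n in coF C, Nat.beta ((θ.e s).rep n) (i.rep n + 1) =
          g (Nat.pair ((θ.e a).rep n) (Nat.pair (i.rep n) (Nat.beta ((θ.e s).rep n) (i.rep n)))) := by
      intro i hi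
      set j := θ.e.symm i with hj
      have hij : θ.e j = i := by rw [hj]; simp
      have hjm : ∀ᶠ n in coF C, j.rep n < m.rep n := by
        have := θ.symm.lt hi
        have h2 : θ.symm.e (θ.e m) = m := θ.e.symm_apply_apply m
        rw [h2] at this
        exact this
      obtain ⟨b, hb⟩ := Cp.exists_rep (pc_comp (pc_pair s.rep_pc j.rep_pc)
        (g := fun p : ℕ × ℕ => Nat.beta p.1 p.2) comp_beta)
      obtain ⟨j1, hj1⟩ := Cp.exists_rep (pc_comp j.rep_pc (g := Nat.succ) Primrec.succ.to_comp)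
      obtain ⟨b1, hb1⟩ := Cp.exists_rep (pc_comp (pc_pair s.rep_pc j1.rep_pc)
        (g := fun p : ℕ × ℕ => Nat.beta p.1 p.2) comp_beta)
      obtain ⟨p1, hp1⟩ := Cp.exists_rep (pc_comp (pc_pair j.rep_pc b.rep_pc)
        (g := fun p : ℕ × ℕ => Nat.pair p.1 p.2) Primrec₂.natPair.to_comp)
      obtain ⟨p2, hp2⟩ := Cp.exists_rep (pc_comp (pc_pair a.rep_pc p1.rep_pc)
        (g := fun p : ℕ × ℕ => Nat.pair p.1 p.2) Primrec₂.natPair.to_comp)
      have e1 := θ.pres_beta s j b hb
      have e2 := θ.pres_succ j j1 hj1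
      have e3 := θ.pres_beta s j1 b1 hb1
      have e4 := θ.pres_pair j b p1 hp1
      have e5 := θ.pres_pair a p1 p2 hp2
      have e6 := ihg p2 b1 (by
        filter_upwards [hsb, hb, hj1, hb1, hp1, hp2, hjm] with n h1 h2 h3 h4 h5 h6 h7
        rw [h4, h3, h1 _ (by omega), hFs, h6, h5, h2, h1 _ (by omega)])
      rw [hij] at e1 e2 e4
      filter_upwards [e1, e2, e3, e4, e5, e6] with n h1 h2 h3 h4 h5 h6
      rw [h2] at h3
      rw [← h1, ← h4, ← h5, ← h6, h3]
    -- transfer of the step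
    have hbadre : REPred (fun p : ((ℕ × ℕ) × ℕ) × ℕ => p.2 < p.1.2 ∧
        Nat.beta p.1.1.2 (p.2 + 1) ≠
          g (Nat.pair p.1.1.1 (Nat.pair p.2 (Nat.beta p.1.1.2 p.2)))) := by
      refine re_and (re_lt (csnd cid) (csnd (cfst cid))) (re_ne ?_ ?_)
      · exact comp_beta.comp (csnd (cfst (cfst cid))) (Primrec.succ.to_comp.comp (csnd cid))
      · refine hgc.comp (Primrec₂.natPair.to_comp.comp (cfst (cfst (cfst cid))) ?_)
        refine Primrec₂.natPair.to_comp.comp (csnd cid) ?_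
        exact comp_beta.comp (csnd (cfst (cfst cid))) (csnd cid)
    have hpc := pc_pair (pc_pair (θ.e a).rep_pc (θ.e s).rep_pc) (θ.e m).rep_pc
    have hall : ∀ᶠ n in coF C, ∀ i < (θ.e m).rep n,
        Nat.beta ((θ.e s).rep n) (i + 1) =
          g (Nat.pair ((θ.e a).rep n) (Nat.pair i (Nat.beta ((θ.e s).rep n) i))) := by
      rcases hC.out.dichPC (re_ex hbadre) hpc with hbad | hbad
      · exfalso
        obtain ⟨i0, hi0, hi⟩ := pc_select hbadre hpc hbad
        obtain ⟨i, hii⟩ := Cp.exists_rep hi0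
        have h1 := hstep i (by filter_upwards [hi, hii] with n h1 h2; rw [h2]; exact h1.1)
        obtain ⟨n, h2, h3, h4⟩ := (h1.and (hi.and hii)).exists
        rw [h4] at h2
        exact h3.2 h2
      · filter_upwards [hbad] with n hn i hi
        by_contra hcon
        exact hn ⟨i, hi, hcon⟩
    -- conclusion
    have hconc : ∀ᶠ n in coF C, Nat.beta ((θ.e s).rep n) ((θ.e m).rep n) =
        F (Nat.pair ((θ.e a).rep n) ((θ.e m).rep n)) := by
      filter_upwards [hbase, hall] with n h1 h2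
      have h3 : ∀ i ≤ (θ.e m).rep n, Nat.beta ((θ.e s).rep n) i = F (Nat.pair ((θ.e a).rep n) i) := by
        intro i
        induction i with
        | zero => intro _; rw [h1, hF0]
        | succ i ih =>
          intro hi
          rw [h2 i (by omega), ih (by omega), hFs]
      exact h3 _ le_rfl
    have e1 := θ.pres_left x a ha
    have e2 := θ.pres_right x m hm
    have e3 := θ.pres_beta s m y (by
      filter_upwards [hsb, hy, ha, hm] with n h1 h2 h3 h4
      rw [h2, h1 _ (by omega), h3, h4, Nat.pair_unpair])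
    filter_upwards [e1, e2, e3, hconc] with n h1 h2 h3 h4
    rw [h3, h4, h1, h2, Nat.pair_unpair]

end NAut

end Pool.Agent.H89
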