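import Mathlib
import Pool.Agent.H89.Cp

set_option autoImplicit false
set_option linter.unusedSectionVars false

namespace Pool.Agent.H89

open Encodable Filter Nat.Partrec

namespace NAut

variable {C : Set ℕ} [hC : Fact (IsCohesive C)] (θ : NAut C)

/-- graphs of recursive functions are preserved -/
theorem pres_part {φ : ℕ →. ℕ} (hφ : Nat.Partrec φ) {x y : Cp C ℕ}
    (h : ∀ᶠ n in coF C, y.rep n ∈ φ (x.rep n)) :
    ∀ᶠ n in coF C, (θ.e y).rep n ∈ φ ((θ.e x).rep n) := by
  obtain ⟨c, hc⟩ := Code.exists_code.1 hφ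
  let E : ℕ → ℕ := fun m => encode (Code.evaln m.unpair.1 c m.unpair.2)
  have hE : Nat.Primrec E := by
    rw [← Primrec.nat_iff]
    refine Primrec.encode.comp ?_
    exact Code.primrec_evaln.comp (((Primrec.fst.comp Primrec.unpair).pair (Primrec.const c)).pair
      (Primrec.snd.comp Primrec.unpair))
  have hEc : Computable E := comp_of_natPrimrec hE
  have hre : REPred (fun p : (ℕ × ℕ) × ℕ => E (Nat.pair p.2 p.1.1) = Nat.succ p.1.2) := by
    refine re_eq ?_ (Primrec.succ.to_comp.comp (csnd (cfst cid)))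
    exact hEc.comp (Primrec₂.natPair.to_comp.comp (csnd cid) (cfst (cfst cid)))
  obtain ⟨k0, hk0, hk⟩ := pc_select hre (pc_pair x.rep_pc y.rep_pc) (by
    filter_upwards [h] with n hn
    rw [← hc] at hn
    obtain ⟨k, hk⟩ := Code.evaln_complete.1 hn
    refine ⟨k, ?_⟩
    simp only [E, Nat.unpair_pair]
    rw [Option.mem_def.1 hk]
    rfl)
  obtain ⟨k, hkk⟩ := Cp.exists_rep hk0
  obtain ⟨p, hp⟩ := Cp.exists_rep (pc_comp (pc_pair k.rep_pc x.rep_pc)
    (g := fun p : ℕ × ℕ => Nat.pair p.1 p.2) Primrec₂.natPair.to_comp)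
  obtain ⟨y1, hy1⟩ := Cp.exists_rep (pc_comp y.rep_pc (g := Nat.succ) Primrec.succ.to_comp)
  have e1 := θ.pres_pair k x p hp
  have e2 := θ.pres_succ y y1 hy1
  have e3 := θ.pres_primrec hE p y1 (by
    filter_upwards [hk, hkk, hp, hy1] with n h1 h2 h3 h4
    rw [h4, h3, h2, h1])
  filter_upwards [e1, e2, e3] with n h1 h2 h3
  rw [h2, h1] at h3
  simp only [E, Nat.unpair_pair] at h3
  rw [← hc]
  apply Code.evaln_sound (k := (θ.e k).rep n)
  rw [Option.mem_def]
  apply Encodable.encode_injective
  rw [← h3]; rfl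

/-- the generic element -/
noncomputable def gen (C : Set ℕ) : Cp C ℕ := Cp.mk (fun n => n) pc_id

theorem rep_gen : ∀ᶠ n in coF C, (gen C).rep n = n := Cp.rep_mk _ _

theorem exists_partrec (x : Cp C ℕ) : ∃ φ : ℕ →. ℕ, Nat.Partrec φ ∧
    ∀ᶠ n in coF C, x.rep n ∈ φ n := by
  obtain ⟨φ, h1, h2⟩ := x.rep_pc
  exact ⟨φ, Partrec.nat_iff.1 h1, h2⟩

/-- parity of the length of a descending chain contradicts the existence of a move -/
theorem no_step {stp : ℕ →. Option ℕ} (hstp : Partrec stp) (μ : ℕ → ℕ)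
    (hμ : ∀ n m, some m ∈ stp n → μ m < μ n ∧ (stp m).Dom)
    (h : ∀ᶠ n in coF C, some ((θ.e (gen C)).rep n) ∈ stp n) : False := by
  let f : ℕ × Bool →. Bool ⊕ (ℕ × Bool) := fun p =>
    (stp p.1).map (fun o => Option.casesOn o (Sum.inl p.2) (fun m => Sum.inr (m, !p.2)))
  have hf : Partrec f := by
    refine Partrec.map (hstp.comp (cfst cid)) ?_
    have h1 : Computable (fun q : (ℕ × Bool) × Option ℕ =>
        (Option.casesOn q.2 (Sum.inl q.1.2) (fun m => Sum.inr (m, !q.1.2)) : Bool ⊕ (ℕ × Bool))) := by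
      refine Computable.option_casesOn (csnd cid) ?_ ?_
      · exact Computable.sumInl.comp (csnd (cfst cid))
      · exact (Computable.sumInr.comp (cpair (csnd cid)
          (Primrec.not.to_comp.comp (csnd (cfst (cfst cid)))))).to₂
    exact h1
  have hfix : Partrec f.fix := Partrec.fix hf
  -- moves
  have hmove : ∀ n m b, some m ∈ stp n → Sum.inr (m, !b) ∈ f (n, b) := by
    intro n m b hm
    simp only [f, Part.mem_map_iff]
    exact ⟨some m, hm, rfl⟩
  have hstop : ∀ n b, none ∈ stp n → Sum.inl b ∈ f (n, b) := by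
    intro n b hm
    simp only [f, Part.mem_map_iff]
    exact ⟨none, hm, rfl⟩
  have htot : ∀ k n, μ n = k → (stp n).Dom → ∃ r : Bool, ∀ b : Bool, (xor r b) ∈ f.fix (n, b) := by
    intro k
    induction k using Nat.strong_induction_on with
    | _ k ih =>
      intro n hn hd
      have h1 := Part.get_mem hd
      cases h2 : (stp n).get hd with
      | none =>
        rw [h2] at h1
        refine ⟨false, fun b => ?_⟩
        rw [Bool.false_xor]
        exact PFun.fix_stop (hstop n b h1)
      | some m =>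
        rw [h2] at h1
        obtain ⟨h3, h4⟩ := hμ n m h1
        obtain ⟨r, hr⟩ := ih (μ m) (by omega) m rfl h4
        refine ⟨!r, fun b => ?_⟩
        rw [PFun.fix_fwd_eq (hmove n m b h1)]
        have := hr (!b)
        have h5 : ((!r) ^^ b) = (r ^^ !b) := by cases r <;> cases b <;> rfl
        rw [h5]; exact this
  -- the parity
  let par : ℕ →. Bool := fun n => f.fix (n, false)
  have hpar : Partrec par := hfix.comp (cpair cid (cconst false))
  have hflip : ∀ n m, some m ∈ stp n → ∃ r : Bool, r ∈ par n ∧ (!r) ∈ par m := by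
    intro n m hm
    obtain ⟨h3, h4⟩ := hμ n m hm
    obtain ⟨r, hr⟩ := htot _ m rfl h4
    refine ⟨!r, ?_, ?_⟩
    · change (!r) ∈ f.fix (n, false)
      rw [PFun.fix_fwd_eq (hmove n m false hm)]
      have := hr (!false)
      simpa using this
    · have := hr false
      simpa using this
  let parN : ℕ →. ℕ := fun n => (par n).map (fun b => cond b 1 0)
  have hparN : Nat.Partrec parN := by
    apply Partrec.nat_iff.1
    refine Partrec.map hpar ?_
    exact (Primrec.cond Primrec.snd (Primrec.const 1) (Primrec.const 0)).to_comp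
  obtain ⟨b, hb⟩ : ∃ b : Bool, ∀ᶠ n in coF C, b ∈ par n := by
    have hre : REPred (fun n => true ∈ par n) := by
      have : Partrec (fun n => (par n).bind (fun b => Part.assert (b = true) (fun _ => Part.some ()))) := by
        refine Partrec.bind hpar ?_
        have h1 : REPred (fun q : ℕ × Bool => q.2 = true) := re_eq (csnd cid) (cconst true)
        exact h1
      refine this.dom_re.of_eq ?_
      intro n
      rw [Part.dom_iff_mem]
      simp only [Part.mem_bind_iff, Part.mem_assert_iff, Part.mem_some_iff]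
      constructor
      · rintro ⟨_, b, hb, h, -⟩
        rw [← h]; exact hb
      · intro h
        exact ⟨(), true, h, rfl, trivial⟩
    rcases hC.out.dich hre with h1 | h1
    · exact ⟨true, h1⟩
    · refine ⟨false, ?_⟩
      filter_upwards [h1, h] with n h2 h3
      obtain ⟨r, hr, -⟩ := hflip _ _ h3
      cases r with
      | true => exact absurd hr h2
      | false => exact hr
  obtain ⟨y, hy⟩ := Cp.exists_rep (C := C) (f := fun _ => cond b 1 0) (pc_const _)
  have h1 := θ.pres_part hparN (x := gen C) (y := y) (by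
    filter_upwards [rep_gen, hb, hy] with n h1 h2 h3
    rw [h1, h3]
    exact Part.mem_map _ h2)
  have h2 := θ.const _ hy
  obtain ⟨n, h3, h4, h5, h6⟩ := (h1.and (h2.and (h.and hb))).exists
  rw [h4] at h3
  obtain ⟨r, hr, hr'⟩ := hflip _ _ h5
  have h7 : r = b := Part.mem_unique hr h6
  subst h7
  simp only [parN, Part.mem_map_iff] at h3
  obtain ⟨r', h8, h9⟩ := h3
  have h10 : r' = !r := Part.mem_unique h8 hr'
  subst h10
  cases r <;> simp at h9

/-- stage at which the computation converges -/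
def StP (c : Code) (n : ℕ) : Prop := ∃ k, (Code.evaln k c n).isSome = true

open Classical in
/-- first stage at which the computation converges -/
noncomputable def st (c : Code) (n : ℕ) : ℕ := if h : StP c n then Nat.find h else 0

/-- measure -/
noncomputable def MM (c : Code) (n : ℕ) : ℕ := Nat.pair (st c n) n

theorem st_spec {c : Code} {n : ℕ} (h : StP c n) : (Code.evaln (st c n) c n).isSome = true := by
  unfold st; rw [dif_pos h]; exact Nat.find_spec h

theorem st_min {c : Code} {n k : ℕ} (h : (Code.evaln k c n).isSome = true) : st c n ≤ k := by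
  have h1 : StP c n := ⟨k, h⟩
  unfold st; rw [dif_pos h1]; exact Nat.find_min' h1 h

/-- partial recursive version of the stage function -/
def stF (c : Code) : ℕ →. ℕ := fun n => Nat.rfind (fun k => Part.some (Code.evaln k c n).isSome)

theorem stF_partrec (c : Code) : Partrec (stF c) := by
  apply Partrec.rfind
  have h1 : Primrec (fun p : ℕ × ℕ => (Code.evaln p.2 c p.1).isSome) :=
    Primrec.option_isSome.comp (Code.primrec_evaln.comp
      ((Primrec.snd.pair (Primrec.const c)).pair Primrec.fst))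
  exact h1.to_comp.partrec

theorem mem_stF {c : Code} {n : ℕ} (h : StP c n) : st c n ∈ stF c n := by
  refine (@Nat.mem_rfind (fun k => (Part.some (Code.evaln k c n).isSome : Part Bool)) _).2 ?_
  constructor
  · rw [Part.mem_some_iff]; exact (st_spec h).symm
  · intro m hm
    rw [Part.mem_some_iff]
    by_contra hcon
    have h1 : (Code.evaln m c n).isSome = true := by
      cases h2 : (Code.evaln m c n).isSome with
      | true => rfl
      | false => exact absurd h2.symm hcon
    have := st_min h1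
    omega

theorem stF_dom {c : Code} {n k : ℕ} (h : k ∈ stF c n) : StP c n ∧ k = st c n := by
  have h1 : StP c n := by
    have h2 := (@Nat.mem_rfind (fun k => (Part.some (Code.evaln k c n).isSome : Part Bool)) _).1 h
    have := h2.1
    rw [Part.mem_some_iff] at this
    exact ⟨k, this.symm⟩
  exact ⟨h1, Part.mem_unique h (mem_stF h1)⟩

theorem no_move {c : Code} {sel : ℕ → ℕ} (hsel : Primrec sel)
    (h : ∀ᶠ n in coF C, ∃ v, v ∈ Code.evaln (st c n) c n ∧ sel v = (θ.e (gen C)).rep n)
    (hM : ∀ᶠ n in coF C, StP c n ∧ StP c ((θ.e (gen C)).rep n) ∧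
      MM c ((θ.e (gen C)).rep n) < MM c n) : False := by
  classical
  -- decidable test
  let Q : ℕ → ℕ → ℕ → Prop := fun j m b => (Code.evaln j c m).isSome = true ∧ Nat.pair j m < b
  let tst : ℕ × ℕ → Prop := fun p => ∃ j < p.2, Q j p.1 p.2
  have htst : PrimrecPred tst := by
    have h1 : PrimrecRel (fun (j : ℕ) (p : ℕ × ℕ) => Q j p.1 p.2) := by
      refine PrimrecPred.and ?_ ?_
      · refine Primrec.primrecPred (p := fun q : ℕ × (ℕ × ℕ) => (Code.evaln q.1 c q.2.1).isSome = true) ?_
        have h2 : Primrec (fun q : ℕ × (ℕ × ℕ) => (Code.evaln q.1 c q.2.1).isSome) :=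
          Primrec.option_isSome.comp (Code.primrec_evaln.comp
            ((Primrec.fst.pair (Primrec.const c)).pair (Primrec.fst.comp Primrec.snd)))
        refine h2.of_eq ?_
        intro q
        cases (Code.evaln q.1 c q.2.1).isSome <;> simp
      · exact Primrec.nat_lt.comp (Primrec₂.natPair.comp Primrec.fst (Primrec.fst.comp Primrec.snd))
          (Primrec.snd.comp Primrec.snd)
    have h2 := h1.exists_mem_list
    have h3 := PrimrecPred.comp (p := fun z : List ℕ × (ℕ × ℕ) => ∃ x ∈ z.1, Q x z.2.1 z.2.2) h2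
      (f := fun z : ℕ × ℕ => (List.range z.2, z))
      ((Primrec.list_range.comp Primrec.snd).pair Primrec.id)
    refine h3.of_eq ?_
    intro z
    simp [tst]
  have hkey : ∀ m b, tst (m, b) ↔ (StP c m ∧ MM c m < b) := by
    intro m b
    constructor
    · rintro ⟨j, -, h1, h2⟩
      refine ⟨⟨j, h1⟩, lt_of_le_of_lt ?_ h2⟩
      unfold MM
      rcases (st_min h1).lt_or_eq with h3 | h3
      · exact (Nat.pair_lt_pair_left m h3).le
      · rw [h3]
    · rintro ⟨h1, h2⟩
      refine ⟨st c m, ?_, st_spec h1, h2⟩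
      exact lt_of_le_of_lt (Nat.left_le_pair _ _) h2
  let stp : ℕ →. Option ℕ := fun n => (stF c n).map (fun k =>
    if tst (sel ((Code.evaln k c n).getD 0), Nat.pair k n) then
      some (sel ((Code.evaln k c n).getD 0)) else none)
  have hstp : Partrec stp := by
    refine Partrec.map (stF_partrec c) ?_
    have h1 : Primrec (fun q : ℕ × ℕ => sel ((Code.evaln q.2 c q.1).getD 0)) := by
      refine hsel.comp ?_
      refine Primrec.option_getD.comp ?_ (Primrec.const 0)
      exact Code.primrec_evaln.comp ((Primrec.snd.pair (Primrec.const c)).pair Primrec.fst)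
    have h2 : Primrec (fun q : ℕ × ℕ =>
        if tst (sel ((Code.evaln q.2 c q.1).getD 0), Nat.pair q.2 q.1) then
          some (sel ((Code.evaln q.2 c q.1).getD 0)) else none) := by
      refine Primrec.ite ?_ (Primrec.option_some.comp h1) (Primrec.const none)
      exact PrimrecPred.comp htst (f := fun q : ℕ × ℕ =>
        (sel ((Code.evaln q.2 c q.1).getD 0), Nat.pair q.2 q.1))
        (h1.pair (Primrec₂.natPair.comp Primrec.snd Primrec.fst))
    exact h2.to_comp
  apply θ.no_step hstp (MM c)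
  · intro n m hm
    simp only [stp, Part.mem_map_iff] at hm
    obtain ⟨k, hk, hk2⟩ := hm
    obtain ⟨h1, h2⟩ := stF_dom hk
    split_ifs at hk2 with h3
    have h4 := Option.some.inj hk2
    rw [h4, hkey, h2] at h3
    refine ⟨h3.2, ?_⟩
    simp only [stp]
    rw [Part.dom_iff_mem]
    exact ⟨_, Part.mem_map _ (mem_stF h3.1)⟩
  · filter_upwards [h, hM] with n h1 h2
    obtain ⟨v, hv, hv2⟩ := h1
    obtain ⟨h3, h4, h5⟩ := h2
    simp only [stp, Part.mem_map_iff]
    refine ⟨st c n, mem_stF h3, ?_⟩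
    have h6 : (Code.evaln (st c n) c n).getD 0 = v := by
      rw [Option.mem_def.1 hv]; rfl
    rw [h6, hv2, if_pos]
    rw [hkey]
    exact ⟨h4, h5⟩

/-- the generic element is fixed -/
theorem fix_gen : θ.e (gen C) = gen C := by
  by_contra hne
  obtain ⟨ψ, hψ, hψ2⟩ := exists_partrec (θ.e (gen C))
  obtain ⟨χ, hχ, hχ2⟩ := exists_partrec (θ.symm.e (gen C))
  obtain ⟨c, hc⟩ := Code.exists_code.1 (Nat.Partrec.pair hψ hχ)
  have hmem : ∀ᶠ n in coF C,
      Nat.pair ((θ.e (gen C)).rep n) ((θ.symm.e (gen C)).rep n) ∈ Code.eval c n := by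
    filter_upwards [hψ2, hχ2] with n h1 h2
    rw [hc]
    simp only [seq_eq_bind_map, Part.map_eq_map, Part.bind_eq_bind, Part.mem_bind_iff,
      Part.mem_map_iff]
    exact ⟨_, ⟨_, h1, rfl⟩, _, h2, rfl⟩
  have hSt : ∀ᶠ n in coF C, StP c n := by
    filter_upwards [hmem] with n hn
    obtain ⟨k, hk⟩ := Code.evaln_complete.1 hn
    exact ⟨k, by rw [Option.mem_def.1 hk]; rfl⟩
  have hval : ∀ᶠ n in coF C,
      Nat.pair ((θ.e (gen C)).rep n) ((θ.symm.e (gen C)).rep n) ∈ Code.evaln (st c n) c n := by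
    filter_upwards [hmem, hSt] with n h1 h2
    have h3 := st_spec h2
    rw [Option.isSome_iff_exists] at h3
    obtain ⟨v, hv⟩ := h3
    have h4 : v ∈ Code.eval c n := Code.evaln_sound hv
    rw [Part.mem_unique h1 h4]
    exact hv
  -- the measure of the generic element
  let Mφ : ℕ →. ℕ := fun n => (stF c n).map (fun k => Nat.pair k n)
  have hMφ : Partrec Mφ := by
    refine Partrec.map (stF_partrec c) ?_
    exact Primrec₂.natPair.to_comp.comp (csnd cid) (cfst cid)
  have hMφ2 : Nat.Partrec Mφ := Partrec.nat_iff.1 hMφ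
  have hmM : ∀ n, StP c n → MM c n ∈ Mφ n := fun n hn => Part.mem_map _ (mem_stF hn)
  have hMu : ∀ n v, v ∈ Mφ n → StP c n ∧ v = MM c n := by
    intro n v hv
    simp only [Mφ, Part.mem_map_iff] at hv
    obtain ⟨k, hk, rfl⟩ := hv
    obtain ⟨h1, h2⟩ := stF_dom hk
    exact ⟨h1, by rw [h2]; rfl⟩
  obtain ⟨m, hm⟩ := Cp.exists_rep (C := C) (f := fun n => MM c n) (pc_part pc_id hMφ (by
    filter_upwards [hSt] with n hn using hmM n hn))
  have hpm : ∀ θ' : NAut C, ∀ᶠ n in coF C, StP c ((θ'.e (gen C)).rep n) ∧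
      (θ'.e m).rep n = MM c ((θ'.e (gen C)).rep n) := by
    intro θ'
    have h1 := θ'.pres_part hMφ2 (x := gen C) (y := m) (by
      filter_upwards [hm, rep_gen, hSt] with n h1 h2 h3
      rw [h1, h2]; exact hmM n h3)
    filter_upwards [h1] with n h2
    exact hMu _ _ h2
  have hne' : ∀ᶠ n in coF C, (θ.e (gen C)).rep n ≠ n := by
    rcases hC.out.dichPC (R := fun p : ℕ × ℕ => p.1 = p.2) (re_eq (cfst cid) (csnd cid))
      (pc_pair (θ.e (gen C)).rep_pc pc_id) with h1 | h1
    · exfalso
      apply hne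
      rw [Cp.ext_iff']
      filter_upwards [h1, rep_gen] with n h2 h3
      rw [h2, h3]
    · exact h1
  have hMne : ∀ᶠ n in coF C, (θ.e m).rep n ≠ m.rep n := by
    filter_upwards [hne', hpm θ, hm] with n h1 h2 h3 h4
    rw [h2.2, h3, MM, MM, Nat.pair_eq_pair] at h4
    exact h1 h4.2
  rcases hC.out.dichPC (R := fun p : ℕ × ℕ => p.1 < p.2) (re_lt (cfst cid) (csnd cid))
      (pc_pair (θ.e m).rep_pc m.rep_pc) with h1 | h1
  · apply θ.no_move (c := c) (sel := fun v => v.unpair.1) (Primrec.fst.comp Primrec.unpair)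
    · filter_upwards [hval] with n hn
      exact ⟨_, hn, by simp⟩
    · filter_upwards [h1, hpm θ, hm, hSt] with n h2 h3 h4 h5
      refine ⟨h5, h3.1, ?_⟩
      rw [← h3.2, ← h4]; exact h2
  · have h2 : ∀ᶠ n in coF C, m.rep n < (θ.e m).rep n := by
      filter_upwards [h1, hMne] with n h3 h4
      omega
    have h3 := θ.symm.lt h2
    have h4 : θ.symm.e (θ.e m) = m := θ.e.symm_apply_apply m
    rw [h4] at h3
    apply θ.symm.no_move (c := c) (sel := fun v => v.unpair.2) (Primrec.snd.comp Primrec.unpair)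
    · filter_upwards [hval] with n hn
      exact ⟨_, hn, by simp⟩
    · filter_upwards [h3, hpm θ.symm, hm, hSt] with n h5 h6 h7 h8
      refine ⟨h8, h6.1, ?_⟩
      rw [← h6.2, ← h7]; exact h5

/-- rigidity of the cohesive powers of `ℕ` -/
theorem rigid (x : Cp C ℕ) : θ.e x = x := by
  obtain ⟨φ, hφ, hφ2⟩ := exists_partrec x
  have h1 := θ.pres_part hφ (x := gen C) (y := x) (by
    filter_upwards [hφ2, rep_gen] with n h1 h2
    rw [h2]; exact h1)
  rw [fix_gen] at h1
  rw [Cp.ext_iff']
  filter_upwards [h1, hφ2, rep_gen] with n h2 h3 h4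
  rw [h4] at h2
  exact Part.mem_unique h2 h3

end NAut

end Pool.Agent.H89
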