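import Mathlib
import Pool.Agent.H89.Int4
import Pool.Agent.H89.Rigid

set_option autoImplicit false
set_option linter.unusedSectionVars false

namespace Pool.Agent.H89

open Encodable Filter NumberField

section int5

variable {F : Type*} [Field F] [NumberField F] [Primcodable F] [CompField F]
variable {C : Set ℕ} [hC : Fact (IsCohesive C)]

/-- natural numbers inside the cohesive power -/
noncomputable def iota (F : Type*) [Field F] [NumberField F] [Primcodable F] [CompField F]
    (x : Cp C ℕ) : Kp C F :=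
  Kp.mk (fun n => ((x.rep n : ℕ) : F)) (pc_comp x.rep_pc (cnat' cid))

theorem rep_iota (x : Cp C ℕ) : ∀ᶠ n in coF C, (iota F x).rep n = ((x.rep n : ℕ) : F) :=
  Kp.rep_mk _ _

theorem iota_inj {x y : Cp C ℕ} (h : iota F x = iota F y) : x = y := by
  rw [Kp.ext_iff'] at h
  rw [Cp.ext_iff']
  filter_upwards [h, rep_iota (F := F) x, rep_iota (F := F) y] with n h1 h2 h3
  rw [h2, h3] at h1
  exact_mod_cast h1

theorem exists_iota {x : Kp C F} (h : ∀ᶠ n in coF C, ∃ k : ℕ, x.rep n = k) :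
    ∃ y : Cp C ℕ, iota F y = x := by
  have hre : REPred (fun q : F × ℕ => q.1 = (q.2 : F)) := re_eq (cfst cid) (cnat' (csnd cid))
  obtain ⟨k, hk, hk2⟩ := pc_select hre x.rep_pc h
  obtain ⟨y, hy⟩ := Cp.exists_rep hk
  refine ⟨y, ?_⟩
  rw [Kp.ext_iff']
  filter_upwards [rep_iota (F := F) y, hy, hk2] with n h1 h2 h3
  rw [h1, h2]
  exact h3.symm

theorem iota_nat (x : Cp C ℕ) : ∀ᶠ n in coF C, ∃ k : ℕ, (iota F x).rep n = k := by
  filter_upwards [rep_iota (F := F) x] with n h1
  exact ⟨_, h1⟩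

theorem iota_add {x y z : Cp C ℕ} :
    (∀ᶠ n in coF C, z.rep n = x.rep n + y.rep n) ↔ iota F z = iota F x + iota F y := by
  rw [Kp.ext_iff']
  apply Filter.eventually_congr
  filter_upwards [rep_iota (F := F) x, rep_iota (F := F) y, rep_iota (F := F) z,
    Kp.rep_add (iota F x) (iota F y)] with n h1 h2 h3 h4
  rw [h3, h4, h1, h2]
  constructor
  · intro h; rw [h]; push_cast; rfl
  · intro h; exact_mod_cast h

theorem iota_mul {x y z : Cp C ℕ} :
    (∀ᶠ n in coF C, z.rep n = x.rep n * y.rep n) ↔ iota F z = iota F x * iota F y := by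
  rw [Kp.ext_iff']
  apply Filter.eventually_congr
  filter_upwards [rep_iota (F := F) x, rep_iota (F := F) y, rep_iota (F := F) z,
    Kp.rep_mul (iota F x) (iota F y)] with n h1 h2 h3 h4
  rw [h3, h4, h1, h2]
  constructor
  · intro h; rw [h]; push_cast; rfl
  · intro h; exact_mod_cast h

/-- the permutation of the nonstandard naturals induced by an automorphism -/
noncomputable def nmap (σ : Kp C F ≃+* Kp C F)
    (h : ∀ x : Kp C F, (∀ᶠ n in coF C, ∃ k : ℕ, x.rep n = k) →
      ∀ᶠ n in coF C, ∃ k : ℕ, (σ x).rep n = k) (x : Cp C ℕ) : Cp C ℕ :=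
  Classical.choose (exists_iota (h _ (iota_nat (F := F) x)))

theorem nmap_spec (σ : Kp C F ≃+* Kp C F)
    (h : ∀ x : Kp C F, (∀ᶠ n in coF C, ∃ k : ℕ, x.rep n = k) →
      ∀ᶠ n in coF C, ∃ k : ℕ, (σ x).rep n = k) (x : Cp C ℕ) :
    iota F (nmap σ h x) = σ (iota F x) :=
  Classical.choose_spec (exists_iota (h _ (iota_nat (F := F) x)))

theorem sigma_fix_N [IsGalois ℚ F] (σ : Kp C F ≃+* Kp C F)
    (hσ : ∀ x : F, σ (algebraMap F (Kp C F) x) = algebraMap F (Kp C F) x) {x : Kp C F}
    (hx : ∀ᶠ n in coF C, ∃ k : ℕ, x.rep n = k) : σ x = x := by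
  obtain ⟨b, hb⟩ := exists_intbasis (F := F)
  let B : IB F := ⟨b, hb⟩
  have hσ' : ∀ x : F, σ.symm (algebraMap F (Kp C F) x) = algebraMap F (Kp C F) x := by
    intro x; rw [RingEquiv.symm_apply_eq]; exact (hσ x).symm
  have h1 : ∀ x : Kp C F, (∀ᶠ n in coF C, ∃ k : ℕ, x.rep n = k) →
      ∀ᶠ n in coF C, ∃ k : ℕ, (σ x).rep n = k := fun x hx => sigma_N B σ hσ hx
  have h2 : ∀ x : Kp C F, (∀ᶠ n in coF C, ∃ k : ℕ, x.rep n = k) →
      ∀ᶠ n in coF C, ∃ k : ℕ, (σ.symm x).rep n = k := fun x hx => sigma_N B σ.symm hσ' hx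
  let θ : NAut C :=
    { e :=
        { toFun := nmap σ h1
          invFun := nmap σ.symm h2
          left_inv := by
            intro y
            apply iota_inj (F := F)
            rw [nmap_spec, nmap_spec]; simp
          right_inv := by
            intro y
            apply iota_inj (F := F)
            rw [nmap_spec, nmap_spec]; simp }
      add := by
        intro a b c h
        rw [iota_add (F := F)] at h ⊢
        change iota F (nmap σ h1 c) = iota F (nmap σ h1 a) + iota F (nmap σ h1 b)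
        rw [nmap_spec, nmap_spec, nmap_spec, h, map_add]
      mul := by
        intro a b c h
        rw [iota_mul (F := F)] at h ⊢
        change iota F (nmap σ h1 c) = iota F (nmap σ h1 a) * iota F (nmap σ h1 b)
        rw [nmap_spec, nmap_spec, nmap_spec, h, map_mul] }
  obtain ⟨y, hy⟩ := exists_iota hx
  have h3 : nmap σ h1 y = y := θ.rigid y
  rw [← hy, ← nmap_spec σ h1, h3]

/-- an automorphism over `F` is trivial, Galois case -/
theorem sigma_id [IsGalois ℚ F] (σ : Kp C F ≃+* Kp C F)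
    (hσ : ∀ x : F, σ (algebraMap F (Kp C F) x) = algebraMap F (Kp C F) x) (x : Kp C F) :
    σ x = x := by
  obtain ⟨g, hg⟩ := exists_coord (C := C) (Module.finBasis ℚ F) x
  have hfixQ : ∀ y : Qst C F, σ (y : Kp C F) = y := by
    intro y
    have hre : REPred (fun q : F × (ℕ × (ℕ × ℕ)) => 0 < q.2.1 ∧
        (q.2.1 : F) * q.1 = (q.2.2.1 : F) - q.2.2.2) := by
      refine re_and (re_lt (cconst 0) (cfst (csnd cid))) (re_eq ?_ ?_)
      · exact cmul' (cnat' (cfst (csnd cid))) (cfst cid)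
      · exact csub' (cnat' (cfst (csnd (csnd cid)))) (cnat' (csnd (csnd (csnd cid))))
    obtain ⟨v, hv, hv2⟩ := pc_select hre (y : Kp C F).rep_pc (by
      filter_upwards [mem_Qst.1 y.2] with n hn
      exact (isQ_iff _).1 hn)
    obtain ⟨k, hk⟩ := Kp.exists_rep (F := F) (f := fun n => (((v n).1 : ℕ) : F))
      (pc_comp (pc_fst hv) (g := fun k : ℕ => (k : F)) (cnat' cid))
    obtain ⟨a, ha⟩ := Kp.exists_rep (F := F) (f := fun n => (((v n).2.1 : ℕ) : F))
      (pc_comp (pc_fst (pc_snd hv)) (g := fun k : ℕ => (k : F)) (cnat' cid))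
    obtain ⟨b, hb⟩ := Kp.exists_rep (F := F) (f := fun n => (((v n).2.2 : ℕ) : F))
      (pc_comp (pc_snd (pc_snd hv)) (g := fun k : ℕ => (k : F)) (cnat' cid))
    have hk' := sigma_fix_N σ hσ (x := k) (by filter_upwards [hk] with n hn using ⟨_, hn⟩)
    have ha' := sigma_fix_N σ hσ (x := a) (by filter_upwards [ha] with n hn using ⟨_, hn⟩)
    have hb' := sigma_fix_N σ hσ (x := b) (by filter_upwards [hb] with n hn using ⟨_, hn⟩)
    have hk0 : k ≠ 0 := by
      rw [Kp.ne_zero_iff]
      filter_upwards [hk, hv2] with n h1 h2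
      rw [h1]
      exact_mod_cast h2.1.ne'
    have hrel : k * (y : Kp C F) = a - b := by
      rw [Kp.ext_iff']
      filter_upwards [hk, ha, hb, hv2, Kp.rep_mul k (y : Kp C F), Kp.rep_sub a b]
        with n h1 h2 h3 h4 h5 h6
      rw [h5, h6, h1, h2, h3]
      exact h4.2
    have h1 := congrArg σ hrel
    rw [map_mul, map_sub, hk', ha', hb', ← hrel] at h1
    exact mul_left_cancel₀ hk0 h1
  rw [hg, map_sum]
  apply Finset.sum_congr rfl
  intro i _
  rw [map_mul, hfixQ, hσ]

end int5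

end Pool.Agent.H89
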