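import Mathlib
import Pool.Agent.H89.Int5

set_option autoImplicit false
set_option linter.unusedSectionVars false

namespace Pool.Agent.H89

open Encodable Filter NumberField

section bc

variable {F : Type*} [Field F] [Primcodable F] [CompField F]
variable {M : Type*} [Field M] [Primcodable M] [CompField M] [Algebra F M]
variable {C : Set ℕ} [hC : Fact (IsCohesive C)]
variable {e : ℕ} (b : Module.Basis (Fin e) F M)
  (hco : ∀ i, Computable (fun x : M => b.repr x i))
  (hcb : Computable (fun v : Fin e → F => ∑ i, v i • b i))

include hco hcb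

/-- coordinates -/
noncomputable def co (i : Fin e) (x : Kp C M) : Kp C F :=
  Kp.mk (fun n => b.repr (x.rep n) i) (pc_comp x.rep_pc (hco i))

/-- combination -/
noncomputable def cb (v : Fin e → Kp C F) : Kp C M :=
  Kp.mk (fun n => ∑ i, (v i).rep n • b i) (pc_comp (pc_fin (fun i => (v i).rep_pc)) hcb)

omit hcb in
theorem rep_co (i : Fin e) (x : Kp C M) :
    ∀ᶠ n in coF C, (co b hco i x).rep n = b.repr (x.rep n) i := Kp.rep_mk _ _

omit hco in
theorem rep_cb (v : Fin e → Kp C F) :
    ∀ᶠ n in coF C, (cb b hcb v).rep n = ∑ i, (v i).rep n • b i := Kp.rep_mk _ _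

theorem co_cb (v : Fin e → Kp C F) (i : Fin e) : co b hco i (cb b hcb v) = v i := by
  rw [Kp.ext_iff']
  filter_upwards [rep_co b hco i (cb b hcb v), rep_cb b hcb v] with n h1 h2
  rw [h1, h2, Module.Basis.repr_sum_self]

theorem cb_co (x : Kp C M) : cb b hcb (fun i => co b hco i x) = x := by
  rw [Kp.ext_iff']
  have hall : ∀ᶠ n in coF C, ∀ i, (co b hco i x).rep n = b.repr (x.rep n) i := by
    rw [Filter.eventually_all]; exact fun i => rep_co b hco i x
  filter_upwards [rep_cb b hcb (fun i => co b hco i x), hall] with n h1 h2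
  rw [h1]
  conv_rhs => rw [← b.sum_repr (x.rep n)]
  apply Finset.sum_congr rfl
  intro i _
  rw [h2 i]

omit hcb in
theorem co_add (i : Fin e) (x y : Kp C M) : co b hco i (x + y) = co b hco i x + co b hco i y := by
  rw [Kp.ext_iff']
  filter_upwards [rep_co b hco i (x + y), rep_co b hco i x, rep_co b hco i y, Kp.rep_add x y,
    Kp.rep_add (co b hco i x) (co b hco i y)] with n h1 h2 h3 h4 h5
  rw [h1, h5, h2, h3, h4, map_add, Finsupp.add_apply]

omit hcb in
theorem co_mul (k : Fin e) (x y : Kp C M) : co b hco k (x * y) =
    ∑ i, ∑ j, co b hco i x * co b hco j y * algebraMap F (Kp C F) (b.repr (b i * b j) k) := by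
  rw [Kp.ext_iff']
  have hallx : ∀ᶠ n in coF C, ∀ i, (co b hco i x).rep n = b.repr (x.rep n) i := by
    rw [Filter.eventually_all]; exact fun i => rep_co b hco i x
  have hally : ∀ᶠ n in coF C, ∀ i, (co b hco i y).rep n = b.repr (y.rep n) i := by
    rw [Filter.eventually_all]; exact fun i => rep_co b hco i y
  have hs1 := Kp.rep_sum (C := C) Finset.univ (fun i : Fin e => ∑ j, co b hco i x * co b hco j y *
    algebraMap F (Kp C F) (b.repr (b i * b j) k))
  have hs2 : ∀ᶠ n in coF C, ∀ i : Fin e, (∑ j, co b hco i x * co b hco j y *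
      algebraMap F (Kp C F) (b.repr (b i * b j) k)).rep n =
      ∑ j, (co b hco i x * co b hco j y * algebraMap F (Kp C F) (b.repr (b i * b j) k)).rep n := by
    rw [Filter.eventually_all]; exact fun i => Kp.rep_sum _ _
  have hs3 : ∀ᶠ n in coF C, ∀ i j : Fin e, (co b hco i x * co b hco j y *
      algebraMap F (Kp C F) (b.repr (b i * b j) k)).rep n =
      (co b hco i x).rep n * (co b hco j y).rep n * b.repr (b i * b j) k := by
    rw [Filter.eventually_all]
    intro i
    rw [Filter.eventually_all]
    intro j
    filter_upwards [Kp.rep_mul (co b hco i x * co b hco j y)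
      (algebraMap F (Kp C F) (b.repr (b i * b j) k)), Kp.rep_mul (co b hco i x) (co b hco j y),
      Kp.rep_algebraMap (C := C) (b.repr (b i * b j) k)] with n h1 h2 h3
    rw [h1, h2, h3]
  filter_upwards [rep_co b hco k (x * y), hallx, hally, Kp.rep_mul x y, hs1, hs2, hs3]
    with n h1 h2 h3 h4 h5 h6 h7
  rw [h1, h4, h5]
  have h8 : x.rep n * y.rep n = ∑ i, ∑ j, (b.repr (x.rep n) i * b.repr (y.rep n) j) • (b i * b j) := by
    conv_lhs => rw [← b.sum_repr (x.rep n), ← b.sum_repr (y.rep n)]
    rw [Finset.sum_mul_sum]
    apply Finset.sum_congr rfl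
    intro i _
    apply Finset.sum_congr rfl
    intro j _
    rw [smul_mul_smul_comm]
  rw [h8, map_sum, Finsupp.finsetSum_apply]
  apply Finset.sum_congr rfl
  intro i _
  rw [h6 i, map_sum, Finsupp.finsetSum_apply]
  apply Finset.sum_congr rfl
  intro j _
  rw [h7 i j, h2 i, h3 j, map_smul, Finsupp.smul_apply, smul_eq_mul]

theorem co_ext {x y : Kp C M} (h : ∀ i, co b hco i x = co b hco i y) : x = y := by
  rw [← cb_co b hco hcb x, ← cb_co b hco hcb y]
  congr 1
  funext i
  exact h i

omit hcb in
theorem co_diag (m : M) (i : Fin e) :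
    co b hco i (algebraMap M (Kp C M) m) = algebraMap F (Kp C F) (b.repr m i) := by
  rw [Kp.ext_iff']
  filter_upwards [rep_co b hco i (algebraMap M (Kp C M) m), Kp.rep_algebraMap (C := C) m,
    Kp.rep_algebraMap (C := C) (b.repr m i)] with n h1 h2 h3
  rw [h1, h2, h3]

/-- extension of an automorphism -/
noncomputable def extAut (σ : Kp C F ≃+* Kp C F)
    (hσ : ∀ x : F, σ (algebraMap F (Kp C F) x) = algebraMap F (Kp C F) x) :
    Kp C M ≃+* Kp C M where
  toFun x := cb b hcb (fun i => σ (co b hco i x))
  invFun x := cb b hcb (fun i => σ.symm (co b hco i x))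
  left_inv := by
    intro x
    apply co_ext b hco hcb
    intro i
    rw [co_cb, co_cb]; simp
  right_inv := by
    intro x
    apply co_ext b hco hcb
    intro i
    rw [co_cb, co_cb]; simp
  map_add' := by
    intro x y
    apply co_ext b hco hcb
    intro i
    rw [co_cb, co_add, co_add, co_cb, co_cb, map_add]
  map_mul' := by
    intro x y
    apply co_ext b hco hcb
    intro k
    rw [co_cb, co_mul, co_mul, map_sum]
    apply Finset.sum_congr rfl
    intro i _
    rw [map_sum]
    apply Finset.sum_congr rfl
    intro j _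
    rw [map_mul, map_mul, hσ, co_cb, co_cb]

theorem bc_main [NumberField M] [IsGalois ℚ M] (he : 0 < e) (σ : Kp C F ≃+* Kp C F)
    (hσ : ∀ x : F, σ (algebraMap F (Kp C F) x) = algebraMap F (Kp C F) x) (y : Kp C F) :
    σ y = y := by
  have h1 : ∀ x, extAut b hco hcb σ hσ x = x := by
    apply sigma_id
    intro m
    apply co_ext b hco hcb
    intro i
    change co b hco i (cb b hcb (fun i => σ (co b hco i (algebraMap M (Kp C M) m)))) = _
    rw [co_cb, co_diag, hσ]
  have h2 := h1 (cb b hcb (fun _ => y))
  have h3 := congrArg (co b hco ⟨0, he⟩) h2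
  change co b hco ⟨0, he⟩ (cb b hcb (fun i => σ (co b hco i (cb b hcb (fun _ => y))))) = _ at h3
  rw [co_cb, co_cb] at h3
  exact h3

end bc

section bc2

variable {F : Type*} [Field F] [NumberField F] [Primcodable F] [CompField F]
variable {C : Set ℕ} [hC : Fact (IsCohesive C)]

/-- automorphisms over `F` are trivial -/
theorem sigma_id' (σ : Kp C F ≃+* Kp C F)
    (hσ : ∀ x : F, σ (algebraMap F (Kp C F) x) = algebraMap F (Kp C F) x) (y : Kp C F) :
    σ y = y := by
  have hn : Normal ℚ (AlgebraicClosure F) := by
    have : IsAlgClosure ℚ (AlgebraicClosure F) := by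
      have : Algebra.IsAlgebraic ℚ (AlgebraicClosure F) := Algebra.IsAlgebraic.trans ℚ F _
      exact ⟨inferInstance, inferInstance⟩
    exact IsAlgClosure.normal ℚ _
  let M := IntermediateField.normalClosure ℚ F (AlgebraicClosure F)
  have h1 := normalClosure.normal ℚ F (AlgebraicClosure F)
  have hN : NumberField M := { to_charZero := inferInstance, to_finiteDimensional := inferInstance }
  have h2 : Normal ℚ M := by
    convert h1
    exact Subsingleton.elim _ _
  have hG : IsGalois ℚ M := { to_isSeparable := inferInstance, to_normal := h2 }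
  have hfd : FiniteDimensional F M := Module.Finite.of_restrictScalars_finite ℚ F M
  let e := Module.finrank F M
  let b : Module.Basis (Fin e) F M := Module.finBasis F M
  letI : Primcodable M := Primcodable.ofEquiv (Fin e → F) b.equivFun.toEquiv
  have h1 : Computable (fun x : M => b.equivFun x) := Primrec.of_equiv.to_comp
  have h2 : Computable (fun v : Fin e → F => b.equivFun.symm v) := Primrec.of_equiv_symm.to_comp
  have hco : ∀ i, Computable (fun x : M => b.repr x i) := fun i => capp h1 i
  have hcb : Computable (fun v : Fin e → F => ∑ i, v i • b i) := by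
    refine h2.of_eq ?_
    intro v
    rw [Module.Basis.equivFun_symm_apply]
  have hCF : CompField M :=
    { cadd := by
        have h3 : Computable (fun p : M × M => (fun i => b.repr p.1 i + b.repr p.2 i : Fin e → F)) :=
          cfin (fun i => cadd' ((hco i).comp (cfst cid)) ((hco i).comp (csnd cid)))
        refine (hcb.comp h3).of_eq ?_
        intro p
        have : ∀ i, b.repr p.1 i + b.repr p.2 i = b.repr (p.1 + p.2) i := by
          intro i; rw [map_add, Finsupp.add_apply]
        simp only [this]
        exact b.sum_repr _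
      cmul := by
        have h3 : Computable (fun p : M × M => (fun k => ∑ i, ∑ j, b.repr p.1 i * b.repr p.2 j *
            b.repr (b i * b j) k : Fin e → F)) :=
          cfin (fun k => csum' (fun i => csum' (fun j => cmul' (cmul' ((hco i).comp (cfst cid))
            ((hco j).comp (csnd cid))) (cconst _))))
        refine (hcb.comp h3).of_eq ?_
        intro p
        have h8 : ∀ k, ∑ i, ∑ j, b.repr p.1 i * b.repr p.2 j * b.repr (b i * b j) k =
            b.repr (p.1 * p.2) k := by
          intro k
          have h9 : p.1 * p.2 = ∑ i, ∑ j, (b.repr p.1 i * b.repr p.2 j) • (b i * b j) := by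
            conv_lhs => rw [← b.sum_repr p.1, ← b.sum_repr p.2]
            rw [Finset.sum_mul_sum]
            apply Finset.sum_congr rfl
            intro i _
            apply Finset.sum_congr rfl
            intro j _
            rw [smul_mul_smul_comm]
          rw [h9, map_sum, Finsupp.finsetSum_apply]
          apply Finset.sum_congr rfl
          intro i _
          rw [map_sum, Finsupp.finsetSum_apply]
          apply Finset.sum_congr rfl
          intro j _
          rw [map_smul, Finsupp.smul_apply, smul_eq_mul]
        simp only [h8]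
        exact b.sum_repr _ }
  exact bc_main b hco hcb Module.finrank_pos σ hσ y

end bc2

end Pool.Agent.H89
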