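import Mathlib

set_option autoImplicit false

/-!
Cohesive powers of computable fields with domain `ℕ`.
-/

namespace Pool.Agent.H89.CohesivePower

/-- `X` is almost contained in `Y`: the set `X \ Y` is finite. -/
def AlmostSubset (X Y : Set ℕ) : Prop := (X \ Y).Finite

/-- `C` is cohesive: it is infinite, and for every computably enumerable set `W` at least one of
`W ∩ C` and `C \ W` is finite. -/
def Cohesive (C : Set ℕ) : Prop :=
  C.Infinite ∧ ∀ W : Set ℕ, REPred (fun n => n ∈ W) → (W ∩ C).Finite ∨ (C \ W).Finite

/-- A computable presentation of the field `F` with domain `ℕ`: a bijection of `F` with `ℕ` under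
which the addition and the multiplication of `F` become computable functions on `ℕ`. -/
structure CompPres (F : Type*) [Field F] where
  /-- the bijection with the domain `ℕ` -/
  e : F ≃ ℕ
  /-- the transported addition is computable -/
  comp_add : Computable₂ (fun a b : ℕ => e (e.symm a + e.symm b))
  /-- the transported multiplication is computable -/
  comp_mul : Computable₂ (fun a b : ℕ => e (e.symm a * e.symm b))

/-- The set `D` of all computable functions, defined on some subset of `ℕ`, whose domain contains
almost all elements of `C`. -/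
structure D (C : Set ℕ) where
  /-- the function, defined on some subset of `ℕ` -/
  fn : ℕ →. ℕ
  /-- it is computable on its domain (a recursive function in the usual sense) -/
  comp : Nat.Partrec fn
  /-- its domain contains almost all elements of `C` -/
  dom : AlmostSubset C fn.Dom

/-- `φ =_C ψ`: for almost all `n` in `C`, both `φ n` and `ψ n` are defined and equal. -/
def EqC {C : Set ℕ} (φ ψ : D C) : Prop := AlmostSubset C {n | ∃ a, a ∈ φ.fn n ∧ a ∈ ψ.fn n}

theorem almost_inter {C X Y Z : Set ℕ} (hX : AlmostSubset C X) (hY : AlmostSubset C Y)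
    (h : ∀ n, n ∈ X → n ∈ Y → n ∈ Z) : AlmostSubset C Z := by
  refine (Set.Finite.union hX hY).subset ?_
  rintro n ⟨h1, h2⟩
  by_cases h3 : n ∈ X
  · by_cases h4 : n ∈ Y
    · exact absurd (h n h3 h4) h2
    · exact Or.inr ⟨h1, h4⟩
  · exact Or.inl ⟨h1, h3⟩

/-- `=_C` is an equivalence relation on `D`. -/
instance setoid (C : Set ℕ) : Setoid (D C) where
  r := EqC
  iseqv := by
    refine ⟨?_, ?_, ?_⟩
    · intro φ
      refine almost_inter φ.dom φ.dom ?_
      intro n hn _
      obtain ⟨a, ha⟩ := Part.dom_iff_mem.1 hn
      exact ⟨a, ha, ha⟩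
    · intro φ ψ h
      refine almost_inter h h ?_
      rintro n ⟨a, h1, h2⟩ _
      exact ⟨a, h2, h1⟩
    · intro φ ψ χ h h'
      refine almost_inter h h' ?_
      rintro n ⟨a, h1, h2⟩ ⟨b, h3, h4⟩
      have : a = b := Part.mem_unique h2 h3
      subst this
      exact ⟨a, h1, h4⟩

/-- The pointwise application of a computable binary operation of `ℕ` to elements of `D`. -/
def D.map₂ {C : Set ℕ} (g : ℕ → ℕ → ℕ) (hg : Computable₂ g) (φ ψ : D C) : D C where
  fn := fun n => (φ.fn n).bind (fun a => (ψ.fn n).map (fun b => g a b))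
  comp := by
    apply Partrec.nat_iff.1
    refine Partrec.bind (Partrec.nat_iff.2 φ.comp) ?_
    refine Partrec.map ((Partrec.nat_iff.2 ψ.comp).comp Computable.fst) ?_
    exact (hg.comp (Computable.snd.comp Computable.fst) Computable.snd).to₂
  dom := by
    refine almost_inter φ.dom ψ.dom ?_
    intro n h1 h2
    obtain ⟨a, ha⟩ := Part.dom_iff_mem.1 h1
    obtain ⟨b, hb⟩ := Part.dom_iff_mem.1 h2
    exact Part.dom_iff_mem.2 ⟨g a b, Part.mem_bind ha (Part.mem_map _ hb)⟩

/-- The cohesive power of the field `F`, presented by `ν`, over the set `C`: the quotient of `D`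
by `=_C`. Its operations are given below. -/
def CohPower {F : Type*} [Field F] (_ν : CompPres F) (C : Set ℕ) : Type := Quotient (setoid C)

/-- The class `[φ]` of an element `φ` of `D` in the cohesive power. -/
def cls {F : Type*} [Field F] (ν : CompPres F) {C : Set ℕ} (φ : D C) : CohPower ν C :=
  Quotient.mk (setoid C) φ

/-- A computable binary operation of `ℕ` acts on the cohesive power pointwise:
`[φ], [ψ]` is mapped to `[n ↦ g (φ n) (ψ n)]`. -/
def CohPower.op₂ {F : Type*} [Field F] {ν : CompPres F} {C : Set ℕ} (g : ℕ → ℕ → ℕ)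
    (hg : Computable₂ g) : CohPower ν C → CohPower ν C → CohPower ν C :=
  Quotient.map₂ (D.map₂ g hg) (by
    intro φ φ' h ψ ψ' h'
    refine almost_inter h h' ?_
    rintro n ⟨a, h1, h2⟩ ⟨b, h3, h4⟩
    exact ⟨g a b, Part.mem_bind h1 (Part.mem_map _ h3), Part.mem_bind h2 (Part.mem_map _ h4)⟩)

/-- Addition of the cohesive power: the addition of the presented field, pointwise. -/
instance {F : Type*} [Field F] (ν : CompPres F) (C : Set ℕ) : Add (CohPower ν C) :=
  ⟨CohPower.op₂ (fun a b => ν.e (ν.e.symm a + ν.e.symm b)) ν.comp_add⟩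

/-- Multiplication of the cohesive power: the multiplication of the presented field, pointwise. -/
instance {F : Type*} [Field F] (ν : CompPres F) (C : Set ℕ) : Mul (CohPower ν C) :=
  ⟨CohPower.op₂ (fun a b => ν.e (ν.e.symm a * ν.e.symm b)) ν.comp_mul⟩

/-- The automorphism `Ψ` of the cohesive power is induced by the automorphism `τ` of `F`: it maps
the class of every `φ` to the class of `τ ∘ φ`, where `τ` is read on the domain `ℕ` of the
presentation. -/
def Induces {F : Type*} [Field F] (ν : CompPres F) (C : Set ℕ) (τ : F ≃+* F)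
    (Ψ : CohPower ν C ≃+* CohPower ν C) : Prop :=
  ∀ φ : D C, ∃ ψ : D C,
    (∀ n, ψ.fn n = (φ.fn n).map (fun a => ν.e (τ (ν.e.symm a)))) ∧ Ψ (cls ν φ) = cls ν ψ

end Pool.Agent.H89.CohesivePower
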