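import Mathlib
import Pool.Agent.H89.BC

set_option autoImplicit false
set_option linter.unusedSectionVars false

namespace Pool.Agent.H89

open Encodable Filter NumberField

section kaut

variable {F : Type*} [Field F] [NumberField F] [Primcodable F] [CompField F]
variable {C : Set ℕ} [hC : Fact (IsCohesive C)]

/-- automorphisms of a number field are computable -/
theorem aut_computable (τ : F ≃+* F) : Computable (fun x : F => τ x) := by
  apply computable_of_re_graph
  let b := Module.finBasis ℚ F
  have hre : REPred (fun q : (F × F) × (Fin (Module.finrank ℚ F) → F) => (∀ i, isQ (q.2 i)) ∧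
      q.1.1 = ∑ i, q.2 i * b i ∧ q.1.2 = ∑ i, q.2 i * τ (b i)) := by
    refine re_and (re_ballfin (fun i => re_isQ (capp (csnd cid) i))) (re_and
      (re_eq (cfst (cfst cid)) ?_) (re_eq (csnd (cfst cid)) ?_))
    · exact csum' (fun i => cmul' (capp (csnd cid) i) (cconst _))
    · exact csum' (fun i => cmul' (capp (csnd cid) i) (cconst _))
  refine (re_ex hre).of_eq ?_
  rintro ⟨x, y⟩
  simp only
  constructor
  · rintro ⟨v, hv, h1, h2⟩
    rw [h1, h2, map_sum]
    apply Finset.sum_congr rfl
    intro i _
    obtain ⟨q, hq⟩ := hv i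
    rw [hq, map_mul, map_ratCast]
  · rintro rfl
    refine ⟨fun i => ((b.repr x i : ℚ) : F), fun i => ⟨_, rfl⟩, ?_, ?_⟩
    · conv_lhs => rw [← b.sum_repr x]
      apply Finset.sum_congr rfl
      intro i _
      rw [Algebra.smul_def]; simp
    · conv_lhs => rw [← b.sum_repr x]
      rw [map_sum]
      apply Finset.sum_congr rfl
      intro i _
      rw [Algebra.smul_def]; simp

variable (C) in
/-- the induced map -/
noncomputable def indFun (τ : F ≃+* F) (x : Kp C F) : Kp C F :=
  Kp.mk (fun n => τ (x.rep n)) (pc_comp x.rep_pc (aut_computable τ))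

theorem rep_indFun (τ : F ≃+* F) (x : Kp C F) :
    ∀ᶠ n in coF C, (indFun C τ x).rep n = τ (x.rep n) := Kp.rep_mk _ _

variable (C) in
/-- the induced automorphism -/
noncomputable def indK (τ : F ≃+* F) : Kp C F ≃+* Kp C F where
  toFun := indFun C τ
  invFun := indFun C τ.symm
  left_inv := by
    intro x
    rw [Kp.ext_iff']
    filter_upwards [rep_indFun τ.symm (indFun C τ x), rep_indFun τ x] with n h1 h2
    rw [h1, h2]; simp
  right_inv := by
    intro x
    rw [Kp.ext_iff']
    filter_upwards [rep_indFun τ (indFun C τ.symm x), rep_indFun τ.symm x] with n h1 h2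
    rw [h1, h2]; simp
  map_add' := by
    intro x y
    rw [Kp.ext_iff']
    filter_upwards [rep_indFun τ (x + y), rep_indFun τ x, rep_indFun τ y, Kp.rep_add x y,
      Kp.rep_add (indFun C τ x) (indFun C τ y)] with n h1 h2 h3 h4 h5
    rw [h1, h5, h2, h3, h4, map_add]
  map_mul' := by
    intro x y
    rw [Kp.ext_iff']
    filter_upwards [rep_indFun τ (x * y), rep_indFun τ x, rep_indFun τ y, Kp.rep_mul x y,
      Kp.rep_mul (indFun C τ x) (indFun C τ y)] with n h1 h2 h3 h4 h5
    rw [h1, h5, h2, h3, h4, map_mul]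

theorem rep_indK (τ : F ≃+* F) (x : Kp C F) :
    ∀ᶠ n in coF C, (indK C τ x).rep n = τ (x.rep n) := rep_indFun τ x

theorem indK_diag (τ : F ≃+* F) (a : F) :
    indK C τ (algebraMap F (Kp C F) a) = algebraMap F (Kp C F) (τ a) := by
  rw [Kp.ext_iff']
  filter_upwards [rep_indK τ (algebraMap F (Kp C F) a), Kp.rep_algebraMap (C := C) a,
    Kp.rep_algebraMap (C := C) (τ a)] with n h1 h2 h3
  rw [h1, h2, h3]

/-- standard elements are mapped to standard elements -/
theorem exists_std (σ : Kp C F ≃+* Kp C F) (a : F) :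
    ∃ r : F, σ (algebraMap F (Kp C F) a) = algebraMap F (Kp C F) r := by
  classical
  let p := minpoly ℚ a
  have hp0 : p ≠ 0 := minpoly.ne_zero (Algebra.IsIntegral.isIntegral a)
  let pF : Polynomial F := p.map (algebraMap ℚ F)
  have hpF0 : pF ≠ 0 := (Polynomial.map_ne_zero_iff (algebraMap ℚ F).injective).2 hp0
  have hpa : p.eval₂ (algebraMap ℚ F) a = 0 := by
    have := minpoly.aeval ℚ a
    rwa [Polynomial.aeval_def] at this
  -- the image is a root
  have h1 : p.eval₂ (algebraMap ℚ (Kp C F)) (σ (algebraMap F (Kp C F) a)) = 0 := by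
    have h2 := congrArg (fun t => σ (algebraMap F (Kp C F) t)) hpa
    simp only [map_zero] at h2
    rw [Polynomial.hom_eval₂] at h2
    have h3 : σ (Polynomial.eval₂ ((algebraMap F (Kp C F)).comp (algebraMap ℚ F))
        (algebraMap F (Kp C F) a) p) = (σ : Kp C F →+* Kp C F)
        (Polynomial.eval₂ ((algebraMap F (Kp C F)).comp (algebraMap ℚ F))
        (algebraMap F (Kp C F) a) p) := rfl
    rw [h3, Polynomial.hom_eval₂] at h2
    have h4 : (σ : Kp C F →+* Kp C F).comp ((algebraMap F (Kp C F)).comp (algebraMap ℚ F)) =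
        algebraMap ℚ (Kp C F) := Subsingleton.elim _ _
    rw [h4] at h2
    exact h2
  set y := σ (algebraMap F (Kp C F) a) with hy
  -- pointwise roots
  have hpoly : ∀ᶠ n in coF C, (p.eval₂ (algebraMap ℚ (Kp C F)) y).rep n = pF.eval (y.rep n) := by
    have h2 : p.eval₂ (algebraMap ℚ (Kp C F)) y =
        ∑ i ∈ Finset.range (p.natDegree + 1), algebraMap F (Kp C F) (algebraMap ℚ F (p.coeff i)) * y ^ i := by
      rw [Polynomial.eval₂_eq_sum_range]
      apply Finset.sum_congr rfl
      intro i _
      congr 1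
      have : (algebraMap F (Kp C F)).comp (algebraMap ℚ F) = algebraMap ℚ (Kp C F) :=
        Subsingleton.elim _ _
      rw [← this]; rfl
    rw [h2]
    have hall : ∀ᶠ n in coF C, ∀ i : Fin (p.natDegree + 1),
        (algebraMap F (Kp C F) (algebraMap ℚ F (p.coeff i)) * y ^ (i : ℕ)).rep n =
          algebraMap ℚ F (p.coeff i) * (y.rep n) ^ (i : ℕ) := by
      rw [Filter.eventually_all]
      intro i
      filter_upwards [Kp.rep_mul (algebraMap F (Kp C F) (algebraMap ℚ F (p.coeff i))) (y ^ (i : ℕ)),
        Kp.rep_algebraMap (C := C) (algebraMap ℚ F (p.coeff i)), Kp.rep_pow y i] with n h1 h2 h3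
      rw [h1, h2, h3]
    filter_upwards [hall, Kp.rep_sum (Finset.range (p.natDegree + 1))
      (fun i => algebraMap F (Kp C F) (algebraMap ℚ F (p.coeff i)) * y ^ i)] with n h3 h4
    rw [h4, Polynomial.eval_map, Polynomial.eval₂_eq_sum_range]
    apply Finset.sum_congr rfl
    intro i hi
    exact h3 ⟨i, Finset.mem_range.1 hi⟩
  rw [Kp.eq_zero_iff] at h1
  by_contra hcon
  push Not at hcon
  have h2 : ∀ᶠ n in coF C, ∀ r : {r : F // r ∈ pF.roots.toFinset}, y.rep n ≠ r := by
    rw [Filter.eventually_all]
    intro r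
    have := hcon r
    rw [Kp.ne_iff] at this
    filter_upwards [this, Kp.rep_algebraMap (C := C) (r : F)] with n h3 h4
    rwa [h4] at h3
  obtain ⟨n, h3, h4, h5⟩ := (h1.and (hpoly.and h2)).exists
  rw [h4] at h3
  apply h5 ⟨y.rep n, ?_⟩ rfl
  rw [Multiset.mem_toFinset, Polynomial.mem_roots hpF0]
  exact h3

theorem diag_inj {a b : F} (h : algebraMap F (Kp C F) a = algebraMap F (Kp C F) b) : a = b :=
  (algebraMap F (Kp C F)).injective h

/-- the restriction of an automorphism to the standard elements -/
noncomputable def resFun (σ : Kp C F ≃+* Kp C F) (a : F) : F := Classical.choose (exists_std σ a)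

theorem resFun_spec (σ : Kp C F ≃+* Kp C F) (a : F) :
    σ (algebraMap F (Kp C F) a) = algebraMap F (Kp C F) (resFun σ a) :=
  Classical.choose_spec (exists_std σ a)

/-- restriction as an automorphism -/
noncomputable def resAut (σ : Kp C F ≃+* Kp C F) : F ≃+* F where
  toFun := resFun σ
  invFun := resFun σ.symm
  left_inv := by
    intro a
    apply diag_inj (C := C)
    rw [← resFun_spec, ← resFun_spec]; simp
  right_inv := by
    intro a
    apply diag_inj (C := C)
    rw [← resFun_spec, ← resFun_spec]; simp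
  map_add' := by
    intro a b
    apply diag_inj (C := C)
    rw [← resFun_spec, map_add, map_add, map_add, ← resFun_spec, ← resFun_spec]
  map_mul' := by
    intro a b
    apply diag_inj (C := C)
    rw [← resFun_spec, map_mul, map_mul, map_mul, ← resFun_spec, ← resFun_spec]

/-- every automorphism is induced -/
theorem all_induced (σ : Kp C F ≃+* Kp C F) (x : Kp C F) : σ x = indK C (resAut σ) x := by
  let σ' : Kp C F ≃+* Kp C F := σ.trans (indK C (resAut σ)).symm
  have h1 : σ' x = x := by
    apply sigma_id'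
    intro a
    change (indK C (resAut σ)).symm (σ (algebraMap F (Kp C F) a)) = _
    rw [RingEquiv.symm_apply_eq, indK_diag, resFun_spec]
    rfl
  change (indK C (resAut σ)).symm (σ x) = x at h1
  rw [RingEquiv.symm_apply_eq] at h1
  exact h1

end kaut

end Pool.Agent.H89
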