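import Mathlib
import Pool.Agent.H89.KAut
import Pool.Agent.H89.CohDefs

set_option autoImplicit false
set_option linter.unusedSectionVars false

namespace Pool.Agent.H89.CohesivePower

open Encodable Filter Pool.Agent.H89

section bridge

variable {F : Type*} [Field F] (ν : CompPres F)

/-- coding of the field by its presentation -/
@[reducible] def codF : Primcodable F := Primcodable.ofEquiv ℕ ν.e

theorem comp_e : letI := codF ν; Computable (fun x : F => ν.e x) := by
  let := codF ν
  exact Primrec.of_equiv.to_comp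

theorem comp_e_symm : letI := codF ν; Computable (fun x : ℕ => ν.e.symm x) := by
  let := codF ν
  exact Primrec.of_equiv_symm.to_comp

theorem compField : letI := codF ν; CompField F := by
  let := codF ν
  constructor
  · have h1 : Computable (fun p : F × F => ν.e.symm (ν.e (ν.e.symm (ν.e p.1) + ν.e.symm (ν.e p.2)))) :=
      (comp_e_symm ν).comp (ν.comp_add.comp ((comp_e ν).comp (cfst cid)) ((comp_e ν).comp (csnd cid)))
    refine h1.of_eq ?_
    intro p; simp
  · have h1 : Computable (fun p : F × F => ν.e.symm (ν.e (ν.e.symm (ν.e p.1) * ν.e.symm (ν.e p.2)))) :=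
      (comp_e_symm ν).comp (ν.comp_mul.comp ((comp_e ν).comp (cfst cid)) ((comp_e ν).comp (csnd cid)))
    refine h1.of_eq ?_
    intro p; simp

theorem isCohesive {C : Set ℕ} (hC : Cohesive C) : IsCohesive C :=
  ⟨hC.1, fun W hW => hC.2 {n | W n} hW⟩

theorem almost_iff {C : Set ℕ} {P : ℕ → Prop} : AlmostSubset C {n | P n} ↔ ∀ᶠ n in coF C, P n :=
  coF_iff.symm

end bridge

section main

variable {F : Type*} [Field F] [Primcodable F] [CompField F] (ν : CompPres F)
  (he : Computable (fun x : F => ν.e x)) (he' : Computable (fun x : ℕ => ν.e.symm x)) {C : Set ℕ}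

include he' in
theorem exists_toK (φ : D C) : ∃ x : Kp C F, ∀ᶠ n in coF C, ν.e (x.rep n) ∈ φ.fn n := by
  classical
  let f : ℕ → F := fun n => if h : (φ.fn n).Dom then ν.e.symm ((φ.fn n).get h) else 0
  have h1 : ∀ᶠ n in coF C, ν.e (f n) ∈ φ.fn n := by
    have h2 : ∀ᶠ n in coF C, (φ.fn n).Dom := almost_iff.1 φ.dom
    filter_upwards [h2] with n hn
    simp only [f, hn, dif_pos, Equiv.apply_symm_apply]
    exact Part.get_mem hn
  have hf : IsPC C f := by
    refine ⟨fun n => (φ.fn n).map (fun a => ν.e.symm a), ?_, ?_⟩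
    · exact Partrec.map (Partrec.nat_iff.2 φ.comp) (he'.comp (csnd cid))
    · filter_upwards [h1] with n hn
      rw [Part.mem_map_iff]
      exact ⟨_, hn, by simp⟩
  refine ⟨Kp.mk f hf, ?_⟩
  filter_upwards [h1, Kp.rep_mk f hf] with n h2 h3
  rw [h3]; exact h2

/-- the element of the internal cohesive power -/
noncomputable def toK0 (φ : D C) : Kp C F := Classical.choose (exists_toK ν he' φ)

theorem toK0_spec (φ : D C) : ∀ᶠ n in coF C, ν.e ((toK0 ν he' φ).rep n) ∈ φ.fn n :=
  Classical.choose_spec (exists_toK ν he' φ)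

theorem toK0_eq_iff (φ ψ : D C) : toK0 ν he' φ = toK0 ν he' ψ ↔ EqC φ ψ := by
  rw [Kp.ext_iff', EqC, almost_iff]
  constructor
  · intro h
    filter_upwards [h, toK0_spec ν he' φ, toK0_spec ν he' ψ] with n h1 h2 h3
    rw [h1] at h2
    exact ⟨_, h2, h3⟩
  · intro h
    filter_upwards [h, toK0_spec ν he' φ, toK0_spec ν he' ψ] with n h1 h2 h3
    obtain ⟨a, h4, h5⟩ := h1
    apply ν.e.injective
    rw [Part.mem_unique h2 h4, Part.mem_unique h3 h5]

/-- the comparison map -/
noncomputable def toK : CohPower ν C → Kp C F :=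
  Quotient.lift (toK0 ν he') (fun φ ψ h => (toK0_eq_iff ν he' φ ψ).2 h)

theorem toK_cls (φ : D C) : toK ν he' (cls ν φ) = toK0 ν he' φ := rfl

theorem toK_spec (φ : D C) : ∀ᶠ n in coF C, ν.e ((toK ν he' (cls ν φ)).rep n) ∈ φ.fn n :=
  toK0_spec ν he' φ

theorem toK_inj : Function.Injective (toK ν he' (C := C)) := by
  intro x y
  refine Quotient.inductionOn₂ x y ?_
  intro φ ψ h
  apply Quotient.sound
  exact (toK0_eq_iff ν he' φ ψ).1 h

include he in
theorem toK_surj : Function.Surjective (toK ν he' (C := C)) := by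
  intro x
  obtain ⟨φ, h1, h2⟩ := x.rep_pc
  let ψ : D C :=
    { fn := fun n => (φ n).map (fun a => ν.e a)
      comp := by
        apply Partrec.nat_iff.1
        exact Partrec.map h1 (he.comp (csnd cid))
      dom := by
        change AlmostSubset C {n | ((φ n).map (fun a => ν.e a)).Dom}
        rw [almost_iff]
        filter_upwards [h2] with n hn
        exact Part.dom_iff_mem.2 ⟨_, Part.mem_map _ hn⟩ }
  refine ⟨cls ν ψ, ?_⟩
  rw [Kp.ext_iff']
  filter_upwards [h2, toK_spec ν he' ψ] with n h3 h4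
  have h5 : ν.e (x.rep n) ∈ ψ.fn n := Part.mem_map _ h3
  exact ν.e.injective (Part.mem_unique h4 h5)

theorem toK_add (x y : CohPower ν C) : toK ν he' (x + y) = toK ν he' x + toK ν he' y := by
  refine Quotient.inductionOn₂ x y ?_
  intro φ ψ
  let χ : D C := D.map₂ (fun a b => ν.e (ν.e.symm a + ν.e.symm b)) ν.comp_add φ ψ
  change toK ν he' (cls ν χ) = toK ν he' (cls ν φ) + toK ν he' (cls ν ψ)
  rw [Kp.ext_iff']
  filter_upwards [toK_spec ν he' χ, toK_spec ν he' φ, toK_spec ν he' ψ,
    Kp.rep_add (toK ν he' (cls ν φ)) (toK ν he' (cls ν ψ))] with n h1 h2 h3 h4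
  rw [h4]
  apply ν.e.injective
  have h5 : ν.e (ν.e.symm (ν.e ((toK ν he' (cls ν φ)).rep n)) +
      ν.e.symm (ν.e ((toK ν he' (cls ν ψ)).rep n))) ∈ χ.fn n :=
    Part.mem_bind h2 (Part.mem_map _ h3)
  rw [Part.mem_unique h1 h5]
  simp

theorem toK_mul (x y : CohPower ν C) : toK ν he' (x * y) = toK ν he' x * toK ν he' y := by
  refine Quotient.inductionOn₂ x y ?_
  intro φ ψ
  let χ : D C := D.map₂ (fun a b => ν.e (ν.e.symm a * ν.e.symm b)) ν.comp_mul φ ψ
  change toK ν he' (cls ν χ) = toK ν he' (cls ν φ) * toK ν he' (cls ν ψ)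
  rw [Kp.ext_iff']
  filter_upwards [toK_spec ν he' χ, toK_spec ν he' φ, toK_spec ν he' ψ,
    Kp.rep_mul (toK ν he' (cls ν φ)) (toK ν he' (cls ν ψ))] with n h1 h2 h3 h4
  rw [h4]
  apply ν.e.injective
  have h5 : ν.e (ν.e.symm (ν.e ((toK ν he' (cls ν φ)).rep n)) *
      ν.e.symm (ν.e ((toK ν he' (cls ν ψ)).rep n))) ∈ χ.fn n :=
    Part.mem_bind h2 (Part.mem_map _ h3)
  rw [Part.mem_unique h1 h5]
  simp

/-- the comparison isomorphism -/
noncomputable def isoK : CohPower ν C ≃+* Kp C F where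
  toEquiv := Equiv.ofBijective (toK ν he') ⟨toK_inj ν he', toK_surj ν he he'⟩
  map_add' := toK_add ν he'
  map_mul' := toK_mul ν he'

theorem isoK_apply (x : CohPower ν C) : isoK ν he he' x = toK ν he' x := rfl

variable [NumberField F] [hC : Fact (IsCohesive C)]

variable (C) in
/-- the induced automorphism of the cohesive power -/
noncomputable def ind (τ : F ≃+* F) : CohPower ν C ≃+* CohPower ν C :=
  ((isoK ν he he').trans (indK C τ)).trans (isoK ν he he').symm

theorem ind_cls (τ : F ≃+* F) (φ ψ : D C)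
    (h : ∀ n, ψ.fn n = (φ.fn n).map (fun a => ν.e (τ (ν.e.symm a)))) :
    ind ν he he' C τ (cls ν φ) = cls ν ψ := by
  change (isoK ν he he').symm (indK C τ (isoK ν he he' (cls ν φ))) = cls ν ψ
  rw [RingEquiv.symm_apply_eq, isoK_apply, isoK_apply, Kp.ext_iff']
  filter_upwards [rep_indK τ (toK ν he' (cls ν φ)), toK_spec ν he' φ, toK_spec ν he' ψ]
    with n h1 h2 h3
  rw [h1]
  apply ν.e.injective
  have h4 : ν.e (τ (ν.e.symm (ν.e ((toK ν he' (cls ν φ)).rep n)))) ∈ ψ.fn n := by
    rw [h n]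
    exact Part.mem_map (fun a => ν.e (τ (ν.e.symm a))) h2
  rw [Part.mem_unique h3 h4]
  simp

include he he' in
/-- the composition of an element of `D` with an automorphism -/
theorem exists_comp (τ : F ≃+* F) (φ : D C) : ∃ ψ : D C,
    ∀ n, ψ.fn n = (φ.fn n).map (fun a => ν.e (τ (ν.e.symm a))) := by
  have hτ : Computable (fun a : ℕ => ν.e (τ (ν.e.symm a))) :=
    he.comp ((aut_computable τ).comp he')
  refine ⟨{ fn := fun n => (φ.fn n).map (fun a => ν.e (τ (ν.e.symm a))), comp := ?_, dom := ?_ },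
    fun n => rfl⟩
  · apply Partrec.nat_iff.1
    exact Partrec.map (Partrec.nat_iff.2 φ.comp) (hτ.comp (csnd cid))
  · exact φ.dom

theorem ind_induces (τ : F ≃+* F) : Induces ν C τ (ind ν he he' C τ) := by
  intro φ
  obtain ⟨ψ, hψ⟩ := exists_comp ν he he' τ φ
  exact ⟨ψ, hψ, ind_cls ν he he' τ φ ψ hψ⟩

theorem induces_unique {τ : F ≃+* F} {Ψ : CohPower ν C ≃+* CohPower ν C}
    (h : Induces ν C τ Ψ) : Ψ = ind ν he he' C τ := by
  apply RingEquiv.ext
  intro x
  refine Quotient.inductionOn x ?_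
  intro φ
  obtain ⟨ψ, hψ, h1⟩ := h φ
  have h2 := ind_cls ν he he' τ φ ψ hψ
  exact h1.trans h2.symm

theorem ind_surj (Ψ : CohPower ν C ≃+* CohPower ν C) : ∃ τ, ind ν he he' C τ = Ψ := by
  let σ : Kp C F ≃+* Kp C F := ((isoK ν he he').symm.trans Ψ).trans (isoK ν he he')
  refine ⟨resAut σ, ?_⟩
  apply RingEquiv.ext
  intro x
  change (isoK ν he he').symm (indK C (resAut σ) (isoK ν he he' x)) = Ψ x
  rw [← all_induced σ, RingEquiv.symm_apply_eq]
  change isoK ν he he' (Ψ ((isoK ν he he').symm (isoK ν he he' x))) = _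
  rw [RingEquiv.symm_apply_apply]

theorem ind_inj : Function.Injective (ind ν he he' C) := by
  intro τ τ' h
  apply RingEquiv.ext
  intro a
  have h1 := congrArg (fun Ψ : CohPower ν C ≃+* CohPower ν C =>
    isoK ν he he' (Ψ ((isoK ν he he').symm (algebraMap F (Kp C F) a)))) h
  change isoK ν he he' ((isoK ν he he').symm (indK C τ (isoK ν he he'
      ((isoK ν he he').symm (algebraMap F (Kp C F) a))))) =
    isoK ν he he' ((isoK ν he he').symm (indK C τ' (isoK ν he he'
      ((isoK ν he he').symm (algebraMap F (Kp C F) a))))) at h1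
  simp only [RingEquiv.apply_symm_apply] at h1
  rw [indK_diag, indK_diag] at h1
  exact diag_inj h1

theorem ind_mul (τ τ' : RingAut F) : ind ν he he' C (τ * τ') =
    ((ind ν he he' C τ : RingAut (CohPower ν C)) * (ind ν he he' C τ' : RingAut (CohPower ν C)) :
      RingAut (CohPower ν C)) := by
  apply RingEquiv.ext
  intro x
  change (isoK ν he he').symm (indK C (τ * τ') (isoK ν he he' x)) =
    (isoK ν he he').symm (indK C τ (isoK ν he he' ((isoK ν he he').symm
      (indK C τ' (isoK ν he he' x)))))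
  rw [RingEquiv.apply_symm_apply]
  congr 1
  rw [Kp.ext_iff']
  filter_upwards [rep_indK (τ * τ' : RingAut F) (isoK ν he he' x),
    rep_indK τ (indK C τ' (isoK ν he he' x)), rep_indK τ' (isoK ν he he' x)] with n h1 h2 h3
  rw [h1, h2, h3]
  rfl

end main

/-- The main theorem. -/
theorem main_theorem (F : Type*) [Field F] [NumberField F] (ν : CompPres F) (C : Set ℕ)
    (hC : Cohesive C) : ∃ Φ : RingAut F ≃* RingAut (CohPower ν C),
      ∀ (τ : RingAut F) (Ψ : RingAut (CohPower ν C)), Φ τ = Ψ ↔ Induces ν C τ Ψ := by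
  let := codF ν
  have := compField ν
  have : Fact (IsCohesive C) := ⟨isCohesive hC⟩
  have he := comp_e ν
  have he' := comp_e_symm ν
  let Φ0 : RingAut F →* RingAut (CohPower ν C) := MonoidHom.mk' (ind ν he he' C) (ind_mul ν he he')
  let Φ : RingAut F ≃* RingAut (CohPower ν C) :=
    MulEquiv.ofBijective Φ0 ⟨ind_inj ν he he', ind_surj ν he he'⟩
  refine ⟨Φ, ?_⟩
  intro τ Ψ
  have h1 : Φ τ = ind ν he he' C τ := rfl
  rw [h1]
  constructor
  · rintro rfl
    exact ind_induces ν he he' τ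
  · intro h
    exact (induces_unique ν he he' h).symm

end Pool.Agent.H89.CohesivePower
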