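import Mathlib

set_option autoImplicit false

/-!
# Detection bound for weakly independent families

If `X` and `Y` are disjoint finite sets of indices of a weakly independent family and every `x ∈ X`
satisfies a relation with at most `k` terms, coefficients at most `K`, supported in `Y ∪ {x}` and
containing `x`, then `|X| ≤ 2 B |Y|`, `B = ⌈log_2 (4 K D k)⌉`, `D` a common multiple of `1, …, K`.
-/

namespace Pool.Agent.H89.WLDet

open Finset

private lemma bound_one {H k d : ℕ} (hH : 1 ≤ H) (hk : 1 ≤ k) :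
    2 * (H * d) + 1 ≤ 2 ^ (Nat.clog 2 (4 * H * k) + d / (2 * k)) := by
  have h1 : 4 * H * k ≤ 2 ^ Nat.clog 2 (4 * H * k) := Nat.le_pow_clog (by norm_num) _
  have h2 : d / (2 * k) + 1 ≤ 2 ^ (d / (2 * k)) := Nat.lt_two_pow_self
  have h3 : d + 1 ≤ 2 * k * (d / (2 * k) + 1) := by
    have := Nat.lt_mul_div_succ d (show 0 < 2 * k by omega)
    omega
  calc 2 * (H * d) + 1 ≤ 2 * H * (d + 1) := by nlinarith
    _ ≤ 2 * H * (2 * k * (d / (2 * k) + 1)) := Nat.mul_le_mul_left _ h3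
    _ = (4 * H * k) * (d / (2 * k) + 1) := by ring
    _ ≤ 2 ^ Nat.clog 2 (4 * H * k) * 2 ^ (d / (2 * k)) := Nat.mul_le_mul h1 h2
    _ = 2 ^ (Nat.clog 2 (4 * H * k) + d / (2 * k)) := by rw [pow_add]

/-- weak independence: subset sums are distinct -/
private lemma subset_sums {a : ℕ → ℕ}
    (hw : ∀ s : Finset ℕ, ∀ ε : ℕ → ℤ, (∀ i ∈ s, |ε i| ≤ 1) →
      ∑ i ∈ s, ε i * (a i : ℤ) = 0 → ∀ i ∈ s, ε i = 0) {S T : Finset ℕ}
    (h : ∑ i ∈ S, (a i : ℤ) = ∑ i ∈ T, (a i : ℤ)) : S = T := by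
  classical
  have h1 := hw (S ∪ T) (fun i => (if i ∈ S then 1 else 0) - (if i ∈ T then 1 else 0))
    (by
      intro i _
      by_cases h1 : i ∈ S <;> by_cases h2 : i ∈ T <;> simp [h1, h2])
    (by
      have e1 : ∑ i ∈ S ∪ T, (if i ∈ S then (1 : ℤ) else 0) * (a i : ℤ) = ∑ i ∈ S, (a i : ℤ) := by
        rw [← Finset.sum_subset (Finset.subset_union_left : S ⊆ S ∪ T)]
        · exact Finset.sum_congr rfl fun i hi => by simp [hi]
        · intro i _ hi
          simp [hi]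
      have e2 : ∑ i ∈ S ∪ T, (if i ∈ T then (1 : ℤ) else 0) * (a i : ℤ) = ∑ i ∈ T, (a i : ℤ) := by
        rw [← Finset.sum_subset (Finset.subset_union_right : T ⊆ S ∪ T)]
        · exact Finset.sum_congr rfl fun i hi => by simp [hi]
        · intro i _ hi
          simp [hi]
      simp only [sub_mul, Finset.sum_sub_distrib]
      rw [e1, e2, h, sub_self])
  ext i
  constructor
  · intro hi
    by_contra hn
    have := h1 i (Finset.mem_union_left _ hi)
    simp [hi, hn] at this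
  · intro hi
    by_contra hn
    have := h1 i (Finset.mem_union_right _ hi)
    simp [hi, hn] at this

/-- normalised form of the detection bound -/
theorem det_norm {a : ℕ → ℕ}
    (hw : ∀ s : Finset ℕ, ∀ ε : ℕ → ℤ, (∀ i ∈ s, |ε i| ≤ 1) →
      ∑ i ∈ s, ε i * (a i : ℤ) = 0 → ∀ i ∈ s, ε i = 0)
    {H k D : ℕ} (hH : 1 ≤ H) (hk : 1 ≤ k) (hD : 1 ≤ D) (X Y : Finset ℕ)
    (t : ℕ → ℕ → ℤ) (htH : ∀ x ∈ X, ∀ y ∈ Y, |t x y| ≤ H)
    (htk : ∀ x ∈ X, (Y.filter fun y => t x y ≠ 0).card ≤ k)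
    (hts : ∀ x ∈ X, (D : ℤ) * a x = ∑ y ∈ Y, t x y * (a y : ℤ)) :
    X.card ≤ 2 * Nat.clog 2 (4 * H * k) * Y.card := by
  classical
  set B := Nat.clog 2 (4 * H * k) with hB
  set d : ℕ → ℕ := fun y => (X.filter fun x => t x y ≠ 0).card with hd
  -- the injection
  have hcard : 2 ^ X.card ≤ ∏ y ∈ Y, (2 * (H * d y) + 1) := by
    have h1 : (X.powerset).card ≤
        (Y.pi fun y => Finset.Icc (-((H * d y : ℕ) : ℤ)) ((H * d y : ℕ) : ℤ)).card := by
      refine Finset.card_le_card_of_injOn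
        (fun S => fun y (_ : y ∈ Y) => ∑ x ∈ S, t x y) ?_ ?_
      · intro S hS
        rw [Finset.mem_coe, Finset.mem_powerset] at hS
        rw [Finset.mem_coe, Finset.mem_pi]
        intro y hy
        have : |∑ x ∈ S, t x y| ≤ ((H * d y : ℕ) : ℤ) := by
          have e : ∑ x ∈ S, t x y = ∑ x ∈ S.filter (fun x => t x y ≠ 0), t x y := by
            rw [Finset.sum_filter_ne_zero]
          rw [e]
          calc |∑ x ∈ S.filter (fun x => t x y ≠ 0), t x y|
              ≤ ∑ x ∈ S.filter (fun x => t x y ≠ 0), |t x y| := Finset.abs_sum_le_sum_abs _ _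
            _ ≤ ∑ _x ∈ S.filter (fun x => t x y ≠ 0), (H : ℤ) :=
                Finset.sum_le_sum fun x hx => htH x (hS (Finset.mem_filter.1 hx).1) y hy
            _ = ((S.filter (fun x => t x y ≠ 0)).card : ℤ) * H := by
                rw [Finset.sum_const, nsmul_eq_mul]
            _ ≤ (d y : ℤ) * H := by
                refine mul_le_mul_of_nonneg_right ?_ (by positivity)
                exact_mod_cast Finset.card_le_card (Finset.filter_subset_filter _ hS)
            _ = ((H * d y : ℕ) : ℤ) := by push_cast; ring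
        rw [Finset.mem_Icc]
        exact abs_le.1 this
      · intro S hS T hT hST
        rw [Finset.mem_coe, Finset.mem_powerset] at hS hT
        have hST' : ∀ y ∈ Y, ∑ x ∈ S, t x y = ∑ x ∈ T, t x y := by
          intro y hy
          exact congrFun (congrFun hST y) hy
        have key : ∀ U : Finset ℕ, U ⊆ X →
            (D : ℤ) * ∑ x ∈ U, (a x : ℤ) = ∑ y ∈ Y, (∑ x ∈ U, t x y) * (a y : ℤ) := by
          intro U hU
          rw [Finset.mul_sum, Finset.sum_congr rfl fun x hx => hts x (hU hx), Finset.sum_comm]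
          exact Finset.sum_congr rfl fun y _ => by rw [Finset.sum_mul]
        have h2 : (D : ℤ) * ∑ x ∈ S, (a x : ℤ) = (D : ℤ) * ∑ x ∈ T, (a x : ℤ) := by
          rw [key S hS, key T hT]
          exact Finset.sum_congr rfl fun y hy => by rw [hST' y hy]
        have h3 : ∑ x ∈ S, (a x : ℤ) = ∑ x ∈ T, (a x : ℤ) := by
          have hD' : (D : ℤ) ≠ 0 := by
            have : 0 < D := hD
            exact_mod_cast this.ne'
          exact mul_left_cancel₀ hD' h2
        exact subset_sums hw h3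
    rw [Finset.card_powerset, Finset.card_pi] at h1
    refine h1.trans (le_of_eq ?_)
    refine Finset.prod_congr rfl fun y _ => ?_
    rw [Int.card_Icc]
    have : ((H * d y : ℕ) : ℤ) + 1 - -((H * d y : ℕ) : ℤ) = ((2 * (H * d y) + 1 : ℕ) : ℤ) := by
      push_cast; ring
    rw [this, Int.toNat_natCast]
  have hprod : ∏ y ∈ Y, (2 * (H * d y) + 1) ≤ 2 ^ (∑ y ∈ Y, (B + d y / (2 * k))) := by
    rw [← Finset.prod_pow_eq_pow_sum]
    exact Finset.prod_le_prod (fun _ _ => Nat.zero_le _) fun y _ => bound_one hH hk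
  have hle : X.card ≤ ∑ y ∈ Y, (B + d y / (2 * k)) :=
    (Nat.pow_le_pow_iff_right (by norm_num : 1 < 2)).1 (hcard.trans hprod)
  rw [Finset.sum_add_distrib, Finset.sum_const, smul_eq_mul] at hle
  -- double counting
  have hdc : ∑ y ∈ Y, d y ≤ k * X.card := by
    have e : ∑ y ∈ Y, d y = ∑ x ∈ X, (Y.filter fun y => t x y ≠ 0).card := by
      simp only [hd, Finset.card_filter]
      rw [Finset.sum_comm]
    rw [e]
    calc ∑ x ∈ X, (Y.filter fun y => t x y ≠ 0).card ≤ ∑ _x ∈ X, k :=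
          Finset.sum_le_sum fun x hx => htk x hx
      _ = k * X.card := by rw [Finset.sum_const, smul_eq_mul, mul_comm]
  have hq : 2 * k * ∑ y ∈ Y, d y / (2 * k) ≤ ∑ y ∈ Y, d y := by
    rw [Finset.mul_sum]
    exact Finset.sum_le_sum fun y _ => Nat.mul_div_le _ _
  have hk0 : 0 < k := hk
  have h5 : k * X.card ≤ k * (2 * B * Y.card) := by
    have h6 : 2 * k * X.card ≤ 2 * k * (Y.card * B + ∑ y ∈ Y, d y / (2 * k)) :=
      Nat.mul_le_mul_left _ hle
    have h7 : 2 * k * (Y.card * B + ∑ y ∈ Y, d y / (2 * k)) =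
        2 * k * (Y.card * B) + 2 * k * ∑ y ∈ Y, d y / (2 * k) := by ring
    rw [h7] at h6
    have h8 : 2 * k * X.card ≤ 2 * k * (Y.card * B) + k * X.card :=
      h6.trans (Nat.add_le_add_left (hq.trans hdc) _)
    nlinarith
  exact Nat.le_of_mul_le_mul_left h5 hk0

/-- **Detection bound.** -/
theorem det {a : ℕ → ℕ}
    (hw : ∀ s : Finset ℕ, ∀ ε : ℕ → ℤ, (∀ i ∈ s, |ε i| ≤ 1) →
      ∑ i ∈ s, ε i * (a i : ℤ) = 0 → ∀ i ∈ s, ε i = 0)
    {K k D : ℕ} (hK : 1 ≤ K) (hk : 1 ≤ k) (hD : 1 ≤ D) (hDK : ∀ c : ℕ, 1 ≤ c → c ≤ K → c ∣ D)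
    (X Y : Finset ℕ) (hXY : Disjoint X Y) (e : ℕ → ℕ → ℤ)
    (he0 : ∀ x ∈ X, e x x ≠ 0) (heK : ∀ x ∈ X, ∀ i ∈ insert x Y, |e x i| ≤ K)
    (hek : ∀ x ∈ X, ((insert x Y).filter fun i => e x i ≠ 0).card ≤ k)
    (hes : ∀ x ∈ X, ∑ i ∈ insert x Y, e x i * (a i : ℤ) = 0) :
    X.card ≤ 2 * Nat.clog 2 (4 * (K * D) * k) * Y.card := by
  classical
  have hdiv : ∀ x ∈ X, e x x ∣ (D : ℤ) := by
    intro x hx
    have h1 : (e x x).natAbs ∣ D := by
      refine hDK _ ?_ ?_
      · have := Int.natAbs_pos.2 (he0 x hx)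
        omega
      · have := heK x hx x (Finset.mem_insert_self _ _)
        rw [Int.abs_eq_natAbs] at this
        exact_mod_cast this
    exact Int.natAbs_dvd.1 (by exact_mod_cast h1)
  choose! c hc using hdiv
  have hcD : ∀ x ∈ X, |c x| ≤ D := by
    intro x hx
    have h1 := hc x hx
    have h2 : |(D : ℤ)| = |e x x| * |c x| := by rw [← abs_mul, ← h1]
    have h3 : 1 ≤ |e x x| := Int.one_le_abs (he0 x hx)
    rw [abs_of_nonneg (by positivity : (0 : ℤ) ≤ D)] at h2
    nlinarith [abs_nonneg (c x)]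
  have hHpos : 1 ≤ K * D := Nat.mul_pos hK hD
  refine det_norm hw (H := K * D) hHpos hk hD X Y (fun x y => -(c x * e x y)) ?_ ?_ ?_
  · intro x hx y hy
    rw [abs_neg, abs_mul]
    have h1 := hcD x hx
    have h2 := heK x hx y (Finset.mem_insert_of_mem hy)
    calc |c x| * |e x y| ≤ (D : ℤ) * K := mul_le_mul h1 h2 (abs_nonneg _) (by positivity)
      _ = ((K * D : ℕ) : ℤ) := by push_cast; ring
  · intro x hx
    refine le_trans (Finset.card_le_card ?_) (hek x hx)
    intro y hy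
    rw [Finset.mem_filter] at hy ⊢
    refine ⟨Finset.mem_insert_of_mem hy.1, fun h => hy.2 ?_⟩
    rw [h, mul_zero, neg_zero]
  · intro x hx
    have hxY : x ∉ Y := Finset.disjoint_left.1 hXY hx
    have h1 := hes x hx
    rw [Finset.sum_insert hxY] at h1
    have h2 : ∑ y ∈ Y, -(c x * e x y) * (a y : ℤ) = -(c x) * ∑ y ∈ Y, e x y * (a y : ℤ) := by
      rw [Finset.mul_sum]
      exact Finset.sum_congr rfl fun y _ => by ring
    have h3 : ∑ y ∈ Y, e x y * (a y : ℤ) = -(e x x * (a x : ℤ)) := by linarith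
    show (D : ℤ) * a x = ∑ y ∈ Y, -(c x * e x y) * (a y : ℤ)
    rw [h2, h3, hc x hx]
    ring

end Pool.Agent.H89.WLDet
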